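import Pool.Agent.DaeB.NoiseProps

/-! # DaeB: choice of the radius (package DB20) -/

set_option autoImplicit false

namespace Pool.Agent.DaeB

open Polynomial

private lemma cr_mono {B : Type*} [CommRing B] (W : AbsoluteValue B[X] ℝ)
    (hW : IsNonarchimedean W) (U : B[X]) (t t' : ℝ) (h : t ≤ t') :
    noise W hW (Real.exp t) (Real.exp_pos t) U
      ≤ noise W hW (Real.exp t') (Real.exp_pos t') U := by
  obtain ⟨k, hk⟩ := exists_noise W hW (Real.exp t) (Real.exp_pos t) U
  rw [hk]
  refine le_trans ?_ (le_noise W hW (Real.exp t') (Real.exp_pos t') U k)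
  exact mul_le_mul_of_nonneg_left
    (pow_le_pow_left₀ (Real.exp_pos t).le (Real.exp_le_exp.2 h) k) (W.nonneg _)

private lemma cr_upper {B : Type*} [CommRing B] (W : AbsoluteValue B[X] ℝ)
    (hW : IsNonarchimedean W) (U : B[X]) (t t' : ℝ) (h : t ≤ t') :
    noise W hW (Real.exp t') (Real.exp_pos t') U
      ≤ noise W hW (Real.exp t) (Real.exp_pos t) U * Real.exp (U.natDegree * (t' - t)) := by
  obtain ⟨k, hk⟩ := exists_noise W hW (Real.exp t') (Real.exp_pos t') U
  by_cases hkn : U.natDegree < k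
  · have h0 : hasseDeriv k U = 0 := hasseDeriv_eq_zero_of_lt_natDegree U k hkn
    rw [hk, h0, map_zero, zero_mul]
    exact mul_nonneg (AbsoluteValue.nonneg _ _) (Real.exp_pos _).le
  · push Not at hkn
    rw [hk]
    have e1 : Real.exp t' ^ k = Real.exp t ^ k * Real.exp (k * (t' - t)) := by
      rw [← Real.exp_nat_mul, ← Real.exp_nat_mul, ← Real.exp_add]
      congr 1
      ring
    rw [e1, ← mul_assoc]
    refine mul_le_mul (le_noise W hW (Real.exp t) (Real.exp_pos t) U k) ?_
      (Real.exp_pos _).le (AbsoluteValue.nonneg _ _)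
    refine Real.exp_le_exp.2 ?_
    have h1 : (k : ℝ) ≤ U.natDegree := by exact_mod_cast hkn
    exact mul_le_mul_of_nonneg_right h1 (by linarith)

private lemma cr_slope {B : Type*} [CommRing B] (W : AbsoluteValue B[X] ℝ)
    (hW : IsNonarchimedean W) (U : B[X]) (c0 : ℝ) (h0 : 0 < c0)
    (hd : W U ≤ c0 * W (derivative U)) (t t' : ℝ) (ht : Real.log c0 ≤ t) (h : t ≤ t') :
    noise W hW (Real.exp t) (Real.exp_pos t) U * Real.exp (t' - t)
      ≤ noise W hW (Real.exp t') (Real.exp_pos t') U := by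
  have hc : c0 ≤ Real.exp t := by
    rw [← Real.exp_log h0]
    exact Real.exp_le_exp.2 ht
  -- a positive index realising the maximum from below
  have key : ∃ k : ℕ, 1 ≤ k ∧ noise W hW (Real.exp t) (Real.exp_pos t) U
      ≤ W (hasseDeriv k U) * Real.exp t ^ k := by
    obtain ⟨k, hk⟩ := exists_noise W hW (Real.exp t) (Real.exp_pos t) U
    rcases Nat.eq_zero_or_pos k with hk0 | hk1
    · refine ⟨1, le_rfl, ?_⟩
      rw [hk, hk0, pow_zero, mul_one, pow_one, hasseDeriv_zero', hasseDeriv_one']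
      refine hd.trans ?_
      rw [mul_comm]
      exact mul_le_mul_of_nonneg_left hc (W.nonneg _)
    · exact ⟨k, hk1, hk.le⟩
  obtain ⟨k, hk1, hk⟩ := key
  have e1 : Real.exp t' ^ k = Real.exp t ^ k * Real.exp (k * (t' - t)) := by
    rw [← Real.exp_nat_mul, ← Real.exp_nat_mul, ← Real.exp_add]
    congr 1
    ring
  have h2 : Real.exp (t' - t) ≤ Real.exp (k * (t' - t)) := by
    refine Real.exp_le_exp.2 ?_
    have h1 : (1 : ℝ) ≤ k := by exact_mod_cast hk1
    nlinarith
  calc noise W hW (Real.exp t) (Real.exp_pos t) U * Real.exp (t' - t)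
      ≤ (W (hasseDeriv k U) * Real.exp t ^ k) * Real.exp (k * (t' - t)) :=
        mul_le_mul hk h2 (Real.exp_pos _).le
          (mul_nonneg (W.nonneg _) (pow_nonneg (Real.exp_pos _).le _))
    _ = W (hasseDeriv k U) * Real.exp t' ^ k := by rw [e1, mul_assoc]
    _ ≤ _ := le_noise W hW (Real.exp t') (Real.exp_pos t') U k

/-- `f(t) = log (noise W (exp t) U)` is continuous (`noise c' ≤ (c'/c)^(natDegree U) noise c` for
`c ≤ c'`) and for `t ≥ log c0` it grows with slope at least `1`: the maximum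
`noise W c U = max_k W (hasseDeriv k U) c ^ k` is attained at some `k ≥ 1`, because the term
`k = 1` is at least the term `k = 0` (`c0 ≤ c`), so `noise c' ≥ (c'/c) noise c`.  Hence `f` maps
`[log c0, log c0 + |log w0| / q]` onto an interval of length at least `|log w0| / q`, which
contains a point of `(log w0 / q) ℤ`. -/
theorem choose_radius {B : Type*} [CommRing B] (W : AbsoluteValue B[X] ℝ)
    (hW : IsNonarchimedean W) (U : B[X]) (hU : derivative U ≠ 0) (c0 : ℝ) (h0 : 0 < c0)
    (hd : W U ≤ c0 * W (derivative U)) (w0 : ℝ) (hw0 : 0 < w0) (hw1 : w0 ≠ 1)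
    (q : ℕ) (hq : 1 ≤ q) :
    ∃ (c : ℝ) (hc : 0 < c) (p : ℤ), c0 ≤ c ∧ c ≤ c0 * Real.exp (|Real.log w0| / q) ∧
      q * Real.log (noise W hW c hc U) = p * Real.log w0 := by
  have hU0 : U ≠ 0 := by
    rintro rfl
    exact hU derivative_zero
  set g : ℝ → ℝ := fun t => Real.log (noise W hW (Real.exp t) (Real.exp_pos t) U) with hg
  have hpos : ∀ t : ℝ, 0 < noise W hW (Real.exp t) (Real.exp_pos t) U := fun t =>
    AbsoluteValue.pos _ hU0
  have hmono : ∀ t t' : ℝ, t ≤ t' → g t ≤ g t' := fun t t' h =>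
    Real.log_le_log (hpos t) (cr_mono W hW U t t' h)
  have hupper : ∀ t t' : ℝ, t ≤ t' → g t' ≤ g t + U.natDegree * (t' - t) := by
    intro t t' h
    have h1 := Real.log_le_log (hpos t') (cr_upper W hW U t t' h)
    rw [Real.log_mul (hpos t).ne' (Real.exp_pos _).ne', Real.log_exp] at h1
    exact h1
  have hslope : ∀ t t' : ℝ, Real.log c0 ≤ t → t ≤ t' → g t + (t' - t) ≤ g t' := by
    intro t t' ht h
    have h1 := Real.log_le_log (mul_pos (hpos t) (Real.exp_pos _))
      (cr_slope W hW U c0 h0 hd t t' ht h)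
    rw [Real.log_mul (hpos t).ne' (Real.exp_pos _).ne', Real.log_exp] at h1
    exact h1
  have hcont : Continuous g := by
    have hlip : LipschitzWith (U.natDegree : NNReal) g := by
      refine LipschitzWith.of_le_add_mul _ fun x y => ?_
      rw [Real.dist_eq]
      rcases le_total x y with h | h
      · have := hmono x y h
        have h2 : 0 ≤ ((U.natDegree : NNReal) : ℝ) * |x - y| :=
          mul_nonneg (NNReal.coe_nonneg _) (abs_nonneg _)
        linarith
      · have h3 := hupper y x h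
        rw [abs_of_nonneg (by linarith)]
        simpa using h3
    exact hlip.continuous
  have hlog : Real.log w0 ≠ 0 := by
    intro h
    rcases Real.log_eq_zero.1 h with h | h | h
    · exact hw0.ne' h
    · exact hw1 h
    · linarith
  have hqpos : (0 : ℝ) < q := by exact_mod_cast hq
  set δ : ℝ := |Real.log w0| / q with hδ
  have hδpos : 0 < δ := div_pos (abs_pos.2 hlog) hqpos
  set a : ℝ := Real.log c0 with ha
  have hab : a ≤ a + δ := by linarith
  have hgab := hslope a (a + δ) le_rfl hab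
  set p : ℤ := ⌈g a / δ⌉ with hp
  have hp1 : g a ≤ p * δ := by
    have := Int.le_ceil (g a / δ)
    rwa [div_le_iff₀ hδpos] at this
  have hp2 : (p : ℝ) * δ ≤ g (a + δ) := by
    have h1 := Int.ceil_lt_add_one (g a / δ)
    have h2 : ((p : ℝ) - 1) * δ < g a := by
      rw [← lt_div_iff₀ hδpos]
      linarith
    nlinarith
  obtain ⟨t, ⟨ht1, ht2⟩, ht3⟩ :=
    intermediate_value_Icc hab hcont.continuousOn ⟨hp1, hp2⟩
  have hqg : (q : ℝ) * g t = p * |Real.log w0| := by
    rw [ht3, hδ]
    field_simp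
  have hc1 : c0 ≤ Real.exp t := by
    rw [← Real.exp_log h0]
    exact Real.exp_le_exp.2 ht1
  have hc2 : Real.exp t ≤ c0 * Real.exp δ := by
    have h1 : Real.exp t ≤ Real.exp (a + δ) := Real.exp_le_exp.2 ht2
    rwa [Real.exp_add, ha, Real.exp_log h0] at h1
  rcases abs_choice (Real.log w0) with hs | hs
  · refine ⟨Real.exp t, Real.exp_pos t, p, hc1, hc2, ?_⟩
    rw [hs] at hqg
    exact hqg
  · refine ⟨Real.exp t, Real.exp_pos t, -p, hc1, hc2, ?_⟩
    rw [hs] at hqg
    push_cast
    have : (q : ℝ) * g t = -(p : ℝ) * Real.log w0 := by rw [hqg]; ring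
    exact this

end Pool.Agent.DaeB
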