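import Pool.Agent.DaeB.Defs

/-! # DaeB: the minimum defect in bounded degree exists (package DB03) -/

set_option autoImplicit false

namespace Pool.Agent.DaeB

open Polynomial

/-- A nonarchimedean absolute value trivial on `ℂ` takes finitely many values on a finite
dimensional subspace. -/
lemma finite_values {R : Type*} [CommRing R] [Algebra ℂ R] (W : AbsoluteValue R ℝ)
    (hW : IsNonarchimedean W) (hT : TrivC W) (V : Submodule ℂ R) [FiniteDimensional ℂ V] :
    (W '' (V : Set R)).Finite := by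
  classical
  by_contra hinf
  have hinf' : (W '' (V : Set R)).Infinite := hinf
  have hinf2 : ((W '' (V : Set R)) \ {0}).Infinite := hinf'.sdiff (Set.finite_singleton 0)
  obtain ⟨t, ht, htc⟩ := hinf2.exists_subset_card_eq (Module.finrank ℂ V + 1)
  have hch : ∀ r : t, ∃ x : V, W (x : R) = (r : ℝ) := by
    intro r
    obtain ⟨⟨x, hx, hxr⟩, -⟩ := ht r.2
    exact ⟨⟨x, hx⟩, hxr⟩
  choose x hx using hch
  have hne : ∀ r : t, (r : ℝ) ≠ 0 := fun r h0 => (ht r.2).2 (by simp [h0])
  have hli : LinearIndependent ℂ x := by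
    rw [linearIndependent_iff']
    intro s g hg i hi
    by_contra hgi
    let s' : Finset t := s.filter fun j => g j ≠ 0
    have hs' : s'.Nonempty := ⟨i, Finset.mem_filter.2 ⟨hi, hgi⟩⟩
    obtain ⟨k, hk, hmax⟩ := s'.exists_max_image (fun j : t => (j : ℝ)) hs'
    have hWt : ∀ j : t, g j ≠ 0 → W (g j • (x j : R)) = (j : ℝ) := by
      intro j hj
      rw [Algebra.smul_def, map_mul, hT _ hj, one_mul, hx j]
    have hsum : W (∑ j ∈ s', g j • (x j : R)) = W (g k • (x k : R)) := by
      refine IsNonarchimedean.apply_sum_eq_of_lt hW (fun a => (map_neg_eq_map W a).symm) hk ?_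
      intro j hj hjk
      rw [hWt j (Finset.mem_filter.1 hj).2, hWt k (Finset.mem_filter.1 hk).2]
      exact lt_of_le_of_ne (hmax j hj) (fun h => hjk (Subtype.ext h))
    have hz : ∑ j ∈ s', g j • (x j : R) = 0 := by
      have h1 : ∑ j ∈ s', g j • (x j : R) = ∑ j ∈ s, g j • (x j : R) := by
        refine Finset.sum_filter_of_ne ?_
        intro j hj hne0 hgj
        exact hne0 (by rw [hgj, zero_smul])
      rw [h1]
      have h2 := congrArg (fun y : V => (y : R)) hg
      simpa using h2
    rw [hz, map_zero, hWt k (Finset.mem_filter.1 hk).2] at hsum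
    exact hne k hsum.symm
  have hcard := hli.fintype_card_le_finrank
  rw [Fintype.card_coe, htc] at hcard
  omega

/-- The polynomials of size `≤ c` lie in a finite dimensional subspace. -/
lemma exists_findim (n c : ℕ) : ∃ V : Submodule ℂ (A n)[X], FiniteDimensional ℂ V ∧
    ∀ P : (A n)[X], (sizeA n).poly.s P ≤ c → P ∈ V := by
  classical
  let S : Set (A n)[X] := Set.image2
    (fun (α : Fin n →₀ ℕ) (k : ℕ) => Polynomial.monomial k (MvPolynomial.monomial α (1 : ℂ)))
    {α | Finsupp.degree α ≤ c} (Set.Iic c)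
  have hS : S.Finite := (Finsupp.finite_of_degree_le c).image2 _ (Set.finite_Iic c)
  refine ⟨Submodule.span ℂ S, FiniteDimensional.span_of_finite ℂ hS, ?_⟩
  intro P hP
  rw [P.as_sum_support]
  refine Submodule.sum_mem _ fun k hk => ?_
  have hk0 : P.coeff k ≠ 0 := mem_support_iff.1 hk
  have hle := ((sizeA n).poly_coeff_le P k hk0).trans hP
  have hle2 : (P.coeff k).totalDegree + k ≤ c := hle
  have hcs : P.coeff k = ∑ α ∈ (P.coeff k).support,
      MvPolynomial.monomial α ((P.coeff k).coeff α) := (P.coeff k).as_sum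
  rw [hcs, map_sum]
  refine Submodule.sum_mem _ fun α hα => ?_
  have hα2 : Finsupp.degree α ≤ (P.coeff k).totalDegree := by
    have h := MvPolynomial.le_totalDegree hα
    exact h
  have heq : Polynomial.monomial k (MvPolynomial.monomial α ((P.coeff k).coeff α)) =
      ((P.coeff k).coeff α) •
        Polynomial.monomial k (MvPolynomial.monomial α (1 : ℂ)) := by
    rw [Polynomial.smul_monomial, MvPolynomial.smul_monomial, smul_eq_mul, mul_one]
  rw [heq]
  refine Submodule.smul_mem _ _ (Submodule.subset_span ?_)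
  refine ⟨α, ?_, k, ?_, rfl⟩
  · change Finsupp.degree α ≤ c
    omega
  · change k ≤ c
    omega

/-- The set defining `RtopC` is finite. -/
lemma finite_defects (n : ℕ) (W : AbsoluteValue (A n)[X] ℝ) (hW : IsNonarchimedean W)
    (hT : TrivC W) (c : ℕ) :
    {r | ∃ P : (A n)[X], (sizeA n).poly.s P ≤ c ∧ derivative P ≠ 0 ∧
      r = W P / W (derivative P)}.Finite := by
  obtain ⟨V, hV, hVm⟩ := exists_findim n c
  let D : (A n)[X] →ₗ[ℂ] (A n)[X] := (derivative (R := A n)).restrictScalars ℂ
  have h1 := finite_values W hW hT V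
  have h2 := finite_values W hW hT (V.map D)
  refine (h1.image2 (fun a b => a / b) h2).subset ?_
  rintro r ⟨P, hP, -, rfl⟩
  exact ⟨W P, ⟨P, hVm P hP, rfl⟩, W (derivative P), ⟨derivative P, ⟨P, hVm P hP, rfl⟩, rfl⟩, rfl⟩

/-- The infimum defining `RtopC` is attained. -/
lemma RtopC_attained (n : ℕ) (W : AbsoluteValue (A n)[X] ℝ) (hW : IsNonarchimedean W)
    (hT : TrivC W) (c : ℕ) (hc : 1 ≤ c) :
    ∃ P : (A n)[X], (sizeA n).poly.s P ≤ c ∧ derivative P ≠ 0 ∧
      RtopC (sizeA n) W c = W P / W (derivative P) := by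
  have hne : {r | ∃ P : (A n)[X], (sizeA n).poly.s P ≤ c ∧ derivative P ≠ 0 ∧
      r = W P / W (derivative P)}.Nonempty := by
    refine ⟨_, X, ((sizeA n).poly_X_le).trans hc, ?_, rfl⟩
    rw [derivative_X]
    exact one_ne_zero
  exact hne.csInf_mem (finite_defects n W hW hT c)

/-- The polynomials of size `≤ c` form a finite dimensional `ℂ`-vector space (it embeds into
`MvPolynomial.restrictTotalDegree` via `eqv`), and a nonarchimedean absolute value which is trivial
on `ℂ` takes at most `dim + 1` values on it (elements with distinct nonzero values are linearly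
independent).  So `W P / W P'` takes finitely many values, and `X` is a competitor. -/
theorem exists_min (n : ℕ) (W : AbsoluteValue (A n)[X] ℝ) (hW : IsNonarchimedean W)
    (hT : TrivC W) (c : ℕ) (hc : 1 ≤ c) :
    ∃ P : (A n)[X], (sizeA n).poly.s P ≤ c ∧ derivative P ≠ 0 ∧
      W P = RtopC (sizeA n) W c * W (derivative P) ∧
      ∀ Q : (A n)[X], (sizeA n).poly.s Q ≤ c →
        RtopC (sizeA n) W c * W (derivative Q) ≤ W Q := by
  obtain ⟨P, hP, hPd, hPr⟩ := RtopC_attained n W hW hT c hc
  have hWP : W (derivative P) ≠ 0 := W.ne_zero hPd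
  refine ⟨P, hP, hPd, ?_, ?_⟩
  · rw [hPr, div_mul_cancel₀ _ hWP]
  · intro Q hQ
    by_cases hQd : derivative Q = 0
    · rw [hQd, map_zero, mul_zero]
      exact W.nonneg Q
    · have hWQ : 0 < W (derivative Q) := W.pos hQd
      have hle : RtopC (sizeA n) W c ≤ W Q / W (derivative Q) :=
        csInf_le (finite_defects n W hW hT c).bddBelow ⟨Q, hQ, hQd, rfl⟩
      rwa [le_div_iff₀ hWQ] at hle

theorem RtopC_pos (n : ℕ) (W : AbsoluteValue (A n)[X] ℝ) (hW : IsNonarchimedean W)
    (hT : TrivC W) (c : ℕ) (hc : 1 ≤ c) : 0 < RtopC (sizeA n) W c := by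
  obtain ⟨P, hP, hPd, hPr⟩ := RtopC_attained n W hW hT c hc
  have hP0 : P ≠ 0 := by
    rintro rfl
    exact hPd derivative_zero
  rw [hPr]
  exact div_pos (W.pos hP0) (W.pos hPd)

end Pool.Agent.DaeB
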