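import Mathlib

/-! # DaeB: the pigeonhole selection (package DB08) -/

set_option autoImplicit false

namespace Pool.Agent.DaeB

/-- a choice of exponents which is good for all indices -/
private theorem pigeon_sel (m : ℕ) (Bad : Fin m → (Fin m → Fin (m + 1)) → Prop)
    (h : ∀ τ e e', (∀ σ, σ ≠ τ → e σ = e' σ) → Bad τ e → Bad τ e' → e = e') :
    ∃ e, ∀ τ, ¬ Bad τ e := by
  classical
  by_contra hcon
  push Not at hcon
  have h1 : (Finset.univ : Finset (Fin m → Fin (m + 1))) ⊆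
      Finset.univ.biUnion fun τ => Finset.univ.filter fun e => Bad τ e := by
    intro e _
    obtain ⟨τ, hτ⟩ := hcon e
    exact Finset.mem_biUnion.2 ⟨τ, Finset.mem_univ _, Finset.mem_filter.2 ⟨Finset.mem_univ _, hτ⟩⟩
  have h2 : ∀ τ : Fin m, (Finset.univ.filter fun e => Bad τ e).card ≤ (m + 1) ^ (m - 1) := by
    intro τ
    have h3 : (Finset.univ.filter fun e : Fin m → Fin (m + 1) => Bad τ e).card ≤
        (Finset.univ : Finset ({σ : Fin m // σ ≠ τ} → Fin (m + 1))).card := by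
      refine Finset.card_le_card_of_injOn (fun e σ => e σ.1) (fun _ _ => Finset.mem_univ _) ?_
      intro e he e' he' hee
      refine h τ e e' (fun σ hσ => congrFun hee ⟨σ, hσ⟩) (Finset.mem_filter.1 he).2
        (Finset.mem_filter.1 he').2
    refine h3.trans (le_of_eq ?_)
    rw [Finset.card_univ, Fintype.card_fun, Fintype.card_fin, Fintype.card_subtype_compl,
      Fintype.card_fin, Fintype.card_subtype_eq]
  have h3 := (Finset.card_le_card h1).trans (Finset.card_biUnion_le.trans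
    (Finset.sum_le_card_nsmul _ _ _ fun τ _ => h2 τ))
  rw [Finset.card_univ, Finset.card_univ, Fintype.card_fun, Fintype.card_fin, Fintype.card_fin,
    smul_eq_mul] at h3
  rcases Nat.eq_zero_or_pos m with rfl | hm
  · simp at h3
  · have h4 : (m + 1) ^ m = (m + 1) * (m + 1) ^ (m - 1) := by
      rw [← pow_succ', Nat.sub_add_cancel hm]
    rw [h4] at h3
    have h5 : 0 < (m + 1) ^ (m - 1) := pow_pos (Nat.succ_pos m) _
    nlinarith

section

variable {M : Type*} [CommMonoid M]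

private theorem pigeon_chi_one {χ : M → ℝ} (hχ : ∀ x y, χ (x * y) = χ x + χ y) : χ 1 = 0 := by
  have h1 := hχ 1 1
  rw [mul_one] at h1
  linarith

private theorem pigeon_chi_pow {χ : M → ℝ} (hχ : ∀ x y, χ (x * y) = χ x + χ y) (x : M) (n : ℕ) :
    χ (x ^ n) = n * χ x := by
  induction n with
  | zero => rw [pow_zero, pigeon_chi_one hχ, Nat.cast_zero, zero_mul]
  | succ n ih =>
    rw [pow_succ, hχ, ih]
    push_cast
    ring

private theorem pigeon_chi_prod {χ : M → ℝ} (hχ : ∀ x y, χ (x * y) = χ x + χ y) {m : ℕ}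
    (y : Fin m → M) (e : Fin m → ℕ) (S : Finset (Fin m)) :
    χ (∏ σ ∈ S, y σ ^ e σ) = ∑ σ ∈ S, (e σ : ℝ) * χ (y σ) := by
  classical
  induction S using Finset.induction_on with
  | empty => rw [Finset.prod_empty, Finset.sum_empty, pigeon_chi_one hχ]
  | insert a S ha ih =>
    rw [Finset.prod_insert ha, Finset.sum_insert ha, hχ, ih, pigeon_chi_pow hχ]

private theorem pigeon_s_pow {s : M → ℕ} (hs1 : s 1 = 0) (hs : ∀ x y, s (x * y) ≤ s x + s y)
    (x : M) (n : ℕ) : s (x ^ n) ≤ n * s x := by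
  induction n with
  | zero => rw [pow_zero, hs1, zero_mul]
  | succ n ih =>
    rw [pow_succ, Nat.succ_mul]
    exact (hs _ _).trans (Nat.add_le_add_right ih _)

private theorem pigeon_s_prod {s : M → ℕ} (hs1 : s 1 = 0) (hs : ∀ x y, s (x * y) ≤ s x + s y)
    {m : ℕ} {N : ℕ} {y : Fin m → M} (hy : ∀ σ, s (y σ) ≤ N) (e : Fin m → Fin (m + 1)) :
    s (∏ σ, y σ ^ (e σ : ℕ)) ≤ m ^ 2 * N := by
  classical
  have h1 : ∀ S : Finset (Fin m), s (∏ σ ∈ S, y σ ^ (e σ : ℕ)) ≤ S.card * (m * N) := by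
    intro S
    induction S using Finset.induction_on with
    | empty => rw [Finset.prod_empty, hs1]; exact Nat.zero_le _
    | insert a S ha ih =>
      rw [Finset.prod_insert ha, Finset.card_insert_of_notMem ha, Nat.succ_mul,
        Nat.add_comm (S.card * (m * N))]
      refine (hs _ _).trans (Nat.add_le_add ?_ ih)
      refine (pigeon_s_pow hs1 hs _ _).trans (Nat.mul_le_mul ?_ (hy a))
      exact Nat.le_of_lt_succ (e a).2
  have h2 := h1 Finset.univ
  rw [Finset.card_univ, Fintype.card_fin] at h2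
  refine h2.trans (le_of_eq ?_)
  ring

private theorem pigeon_diff {χ : M → ℝ} (hχ : ∀ x y, χ (x * y) = χ x + χ y) {m : ℕ}
    (y : Fin m → M) (τ : Fin m) (e e' : Fin m → Fin (m + 1)) (h : ∀ σ, σ ≠ τ → e σ = e' σ) :
    χ (∏ σ, y σ ^ (e σ : ℕ)) - χ (∏ σ, y σ ^ (e' σ : ℕ)) =
      ((e τ : ℕ) - (e' τ : ℕ) : ℝ) * χ (y τ) := by
  rw [pigeon_chi_prod hχ y (fun σ => (e σ : ℕ)), pigeon_chi_prod hχ y (fun σ => (e' σ : ℕ)),
    ← Finset.sum_sub_distrib, Finset.sum_eq_single τ]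
  · ring
  · intro σ _ hσ
    rw [h σ hσ, sub_self]
  · intro h0
    exact absurd (Finset.mem_univ _) h0

end

/-- Suppose for every `τ` some `x τ` has `|χ τ (x τ)| > 2 m² a s(x τ)`.  Let
`N = ∏ max(1, s(x τ))`; a suitable power `x' τ` of `x τ` has `s (x' τ) ≤ N` and
`|χ τ (x' τ)| > 2 m² a N` (if `s (x τ) = 0` take a large power).  For `e : Fin m → {0..m}` put
`P_e = ∏ x' τ ^ e τ`, `s(P_e) ≤ m² N`.  For fixed `τ` and fixed `e` outside `τ` at most one `e τ`
has `|χ τ P_e| ≤ a m² N` (two of them would differ by a nonzero multiple of `χ τ (x' τ)`, of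
absolute value `> 2 a m² N`).  So at most `m (m+1)^(m-1) < (m+1)^m` exponents `e` are bad for some
`τ`. -/
theorem pigeon {M : Type*} [CommMonoid M] (m : ℕ) (χ : Fin m → M → ℝ)
    (hχ : ∀ τ x y, χ τ (x * y) = χ τ x + χ τ y) (s : M → ℕ) (hs1 : s 1 = 0)
    (hs : ∀ x y, s (x * y) ≤ s x + s y) (a : ℝ) (ha : 0 ≤ a)
    (h : ∀ x, ∃ τ, |χ τ x| ≤ a * s x) :
    ∃ τ, ∀ x, |χ τ x| ≤ 2 * m ^ 2 * a * s x := by
  classical
  by_contra hcon
  push Not at hcon
  choose x hx using hcon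
  set N : ℕ := ∏ τ, max 1 (s (x τ)) with hN
  -- suitable powers
  have hy : ∀ τ, ∃ y : M, s y ≤ N ∧ 2 * m ^ 2 * a * N < |χ τ y| := by
    intro τ
    by_cases h0 : s (x τ) = 0
    · have h1 : 0 < |χ τ (x τ)| := by
        have := hx τ
        rw [h0, Nat.cast_zero, mul_zero] at this
        exact this
      obtain ⟨p, hp⟩ := exists_nat_gt (2 * m ^ 2 * a * N / |χ τ (x τ)|)
      refine ⟨x τ ^ p, ?_, ?_⟩
      · refine (pigeon_s_pow hs1 hs _ _).trans ?_
        rw [h0, mul_zero]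
        exact Nat.zero_le _
      · rw [pigeon_chi_pow (hχ τ), abs_mul, Nat.abs_cast]
        exact (div_lt_iff₀ h1).1 hp
    · have h1 : N = (∏ σ ∈ Finset.univ.erase τ, max 1 (s (x σ))) * s (x τ) := by
        rw [hN, ← Finset.prod_erase_mul _ _ (Finset.mem_univ τ)]
        congr 1
        exact max_eq_right (Nat.one_le_iff_ne_zero.2 h0)
      set q : ℕ := ∏ σ ∈ Finset.univ.erase τ, max 1 (s (x σ)) with hq
      have hq0 : 0 < q := Finset.prod_pos fun σ _ => lt_of_lt_of_le one_pos (le_max_left _ _)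
      refine ⟨x τ ^ q, ?_, ?_⟩
      · rw [h1]
        exact pigeon_s_pow hs1 hs _ _
      · rw [pigeon_chi_pow (hχ τ), abs_mul, Nat.abs_cast, h1]
        have h2 := mul_lt_mul_of_pos_left (hx τ) (Nat.cast_pos.2 hq0 : (0 : ℝ) < q)
        refine lt_of_eq_of_lt ?_ h2
        push_cast
        ring
  choose y hyN hy using hy
  obtain ⟨e, he⟩ := pigeon_sel m (fun τ e => |χ τ (∏ σ, y σ ^ (e σ : ℕ))| ≤ a * (m ^ 2 * N))
    (fun τ e e' hee h1 h2 => by
      by_contra hne
      have hτ : e τ ≠ e' τ := by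
        intro h3
        apply hne
        funext σ
        by_cases hσ : σ = τ
        · rw [hσ, h3]
        · exact hee σ hσ
      have hd := pigeon_diff (hχ τ) y τ e e' hee
      have h3 : |χ τ (∏ σ, y σ ^ (e σ : ℕ)) - χ τ (∏ σ, y σ ^ (e' σ : ℕ))| ≤
          2 * m ^ 2 * a * N := by
        refine (abs_sub _ _).trans ?_
        linarith
      rw [hd, abs_mul] at h3
      have h4 : (1 : ℝ) ≤ |((e τ : ℕ) - (e' τ : ℕ) : ℝ)| := by
        have h5 : ((e τ : ℕ) : ℤ) - ((e' τ : ℕ) : ℤ) ≠ 0 := by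
          intro h6
          apply hτ
          apply Fin.ext
          omega
        have h7 := Int.one_le_abs h5
        have h8 : ((1 : ℤ) : ℝ) ≤ ((|((e τ : ℕ) : ℤ) - ((e' τ : ℕ) : ℤ)| : ℤ) : ℝ) := by
          exact_mod_cast h7
        rw [Int.cast_abs] at h8
        push_cast at h8
        exact h8
      have h5 : |χ τ (y τ)| ≤ |((e τ : ℕ) - (e' τ : ℕ) : ℝ)| * |χ τ (y τ)| :=
        le_mul_of_one_le_left (abs_nonneg _) h4
      exact absurd (lt_of_lt_of_le (hy τ) (h5.trans h3)) (lt_irrefl _))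
  obtain ⟨τ, hτ⟩ := h (∏ σ, y σ ^ (e σ : ℕ))
  apply he τ
  refine hτ.trans (mul_le_mul_of_nonneg_left ?_ ha)
  have h1 := pigeon_s_prod hs1 hs hyN e
  exact_mod_cast h1

/-- same argument: if for every `τ` some `x τ` has `s (x τ) ≤ N` and `χ τ (x τ) ≠ 0`, then some
`e : Fin m → {0..m}` has `χ τ P_e ≠ 0` for all `τ`, and `s (P_e) ≤ m² N`. -/
theorem pigeon_exact {M : Type*} [CommMonoid M] (m : ℕ) (χ : Fin m → M → ℝ)
    (hχ : ∀ τ x y, χ τ (x * y) = χ τ x + χ τ y) (s : M → ℕ) (hs1 : s 1 = 0)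
    (hs : ∀ x y, s (x * y) ≤ s x + s y) (N : ℕ)
    (h : ∀ x, s x ≤ m ^ 2 * N → ∃ τ, χ τ x = 0) :
    ∃ τ, ∀ x, s x ≤ N → χ τ x = 0 := by
  classical
  by_contra hcon
  push Not at hcon
  choose y hyN hy using hcon
  obtain ⟨e, he⟩ := pigeon_sel m (fun τ e => χ τ (∏ σ, y σ ^ (e σ : ℕ)) = 0)
    (fun τ e e' hee h1 h2 => by
      by_contra hne
      have hτ : e τ ≠ e' τ := by
        intro h3
        apply hne
        funext σ
        by_cases hσ : σ = τ
        · rw [hσ, h3]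
        · exact hee σ hσ
      have hd := pigeon_diff (hχ τ) y τ e e' hee
      rw [h1, h2, sub_zero] at hd
      rcases mul_eq_zero.1 hd.symm with h3 | h3
      · apply hτ
        apply Fin.ext
        have h4 : ((e τ : ℕ) : ℝ) = ((e' τ : ℕ) : ℝ) := sub_eq_zero.1 h3
        exact_mod_cast h4
      · exact hy τ h3)
  obtain ⟨τ, hτ⟩ := h (∏ σ, y σ ^ (e σ : ℕ)) (pigeon_s_prod hs1 hs hyN e)
  exact he τ hτ

end Pool.Agent.DaeB
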