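import Pool.Agent.DaeB.Family
import Pool.Agent.DaeB.Pigeon

/-! # DaeB: the perturbation lemma (package DB09) -/

set_option autoImplicit false

namespace Pool.Agent.DaeB

open Polynomial

/-- `s` and `χ` on the monoid of nonzero polynomials -/
private lemma chi_mul {B : Type} [CommRing B] [IsDomain B] (V V1 : AbsoluteValue B[X] ℝ)
    (x y : nonZeroDivisors B[X]) :
    Real.log (V ((x * y : nonZeroDivisors B[X]) : B[X])) -
        Real.log (V1 ((x * y : nonZeroDivisors B[X]) : B[X])) =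
      (Real.log (V (x : B[X])) - Real.log (V1 (x : B[X]))) +
        (Real.log (V (y : B[X])) - Real.log (V1 (y : B[X]))) := by
  have hx : (x : B[X]) ≠ 0 := nonZeroDivisors.coe_ne_zero x
  have hy : (y : B[X]) ≠ 0 := nonZeroDivisors.coe_ne_zero y
  rw [Submonoid.coe_mul, map_mul, map_mul, Real.log_mul (V.ne_zero hx) (V.ne_zero hy),
    Real.log_mul (V1.ne_zero hx) (V1.ne_zero hy)]
  ring

/-- `exists_family` + `pigeon` for the monoid of nonzero polynomials,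
`χ τ P = log (V τ P) - log (V1 P)`, `a = 4 c δ` (`η = δ * 2 c size P`). -/
theorem perturb {B : Type} [CommRing B] [IsDomain B] (S : SizeFn B)
    (V' : AbsoluteValue B ℝ) (hV' : IsNonarchimedean V') (h0 : ResZero V') (U : B[X]) (c : ℕ)
    (hU : 1 ≤ U.natDegree) (hc : S.poly.s U ≤ c) (V1 : AbsoluteValue B[X] ℝ)
    (hV1 : IsNonarchimedean V1) (σ : ℝ) (hσ : 0 < σ)
    (hG : ∀ Q : B[X], V1 (Q.comp U) = Q.gaussNorm (resB V1) σ) (δ : ℝ) (hδ : 0 ≤ δ)
    (hcl : ∀ b : B, b ≠ 0 → |Real.log (V' b) - Real.log (V1 (C b))| ≤ δ * S.s b) :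
    ∃ V : AbsoluteValue B[X] ℝ, IsNonarchimedean V ∧ (∀ b, V (C b) = V' b) ∧
      (∀ Q : B[X], V (Q.comp U) = Q.gaussNorm V' σ) ∧
      ∀ P : B[X], P ≠ 0 →
        |Real.log (V P) - Real.log (V1 P)| ≤ 8 * c ^ 3 * δ * S.poly.s P := by
  obtain ⟨m, V, hm, hna, hC, hcomp, hfam⟩ := exists_family S V' hV' h0 U c hU hc σ hσ
  obtain ⟨τ, hτ⟩ := pigeon (M := nonZeroDivisors B[X]) m
    (fun τ P => Real.log (V τ (P : B[X])) - Real.log (V1 (P : B[X])))
    (fun τ x y => chi_mul (V τ) V1 x y) (fun P => S.poly.s (P : B[X])) S.poly.one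
    (fun x y => S.poly.mul _ _) (4 * c * δ) (by positivity) (by
      intro x
      have hx : (x : B[X]) ≠ 0 := nonZeroDivisors.coe_ne_zero x
      obtain ⟨τ, hτ⟩ := hfam V1 hV1 hG (x : B[X]) hx (δ * (2 * c * S.poly.s (x : B[X])))
        (by positivity) (by
          intro b hb hs
          refine (hcl b hb).trans (mul_le_mul_of_nonneg_left ?_ hδ)
          exact_mod_cast hs)
      refine ⟨τ, hτ.trans (le_of_eq ?_)⟩
      ring)
  refine ⟨V τ, hna τ, hC τ, hcomp τ, fun P hP => ?_⟩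
  have h1 := hτ ⟨P, mem_nonZeroDivisors_of_ne_zero hP⟩
  refine h1.trans ?_
  have hm' : (m : ℝ) ≤ c := by exact_mod_cast hm
  have hm2 : (m : ℝ) ^ 2 ≤ (c : ℝ) ^ 2 := pow_le_pow_left₀ (Nat.cast_nonneg m) hm' 2
  have h2 : (0 : ℝ) ≤ 4 * c * δ * S.poly.s P := by positivity
  calc 2 * (m : ℝ) ^ 2 * (4 * c * δ) * (S.poly.s P : ℝ)
      = 2 * (m : ℝ) ^ 2 * (4 * c * δ * S.poly.s P) := by ring
    _ ≤ 2 * (c : ℝ) ^ 2 * (4 * c * δ * S.poly.s P) := by
        refine mul_le_mul_of_nonneg_right ?_ h2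
        linarith
    _ = 8 * c ^ 3 * δ * S.poly.s P := by ring

/-- exact version (`η = 0`, `pigeon_exact`) -/
theorem perturb_exact {B : Type} [CommRing B] [IsDomain B] (S : SizeFn B)
    (V' : AbsoluteValue B ℝ) (hV' : IsNonarchimedean V') (h0 : ResZero V') (U : B[X]) (c : ℕ)
    (hU : 1 ≤ U.natDegree) (hc : S.poly.s U ≤ c) (V1 : AbsoluteValue B[X] ℝ)
    (hV1 : IsNonarchimedean V1) (σ : ℝ) (hσ : 0 < σ)
    (hG : ∀ Q : B[X], V1 (Q.comp U) = Q.gaussNorm (resB V1) σ) (N : ℕ)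
    (hcl : ∀ b : B, S.s b ≤ 2 * c ^ 3 * N → V' b = V1 (C b)) :
    ∃ V : AbsoluteValue B[X] ℝ, IsNonarchimedean V ∧ (∀ b, V (C b) = V' b) ∧
      (∀ Q : B[X], V (Q.comp U) = Q.gaussNorm V' σ) ∧
      ∀ P : B[X], S.poly.s P ≤ N → V P = V1 P := by
  obtain ⟨m, V, hm, hna, hC, hcomp, hfam⟩ := exists_family S V' hV' h0 U c hU hc σ hσ
  obtain ⟨τ, hτ⟩ := pigeon_exact (M := nonZeroDivisors B[X]) m
    (fun τ P => Real.log (V τ (P : B[X])) - Real.log (V1 (P : B[X])))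
    (fun τ x y => chi_mul (V τ) V1 x y) (fun P => S.poly.s (P : B[X])) S.poly.one
    (fun x y => S.poly.mul _ _) N (by
      intro x hx'
      have hx : (x : B[X]) ≠ 0 := nonZeroDivisors.coe_ne_zero x
      obtain ⟨τ, hτ⟩ := hfam V1 hV1 hG (x : B[X]) hx 0 le_rfl (by
          intro b hb hs
          have h2 : S.s b ≤ 2 * c ^ 3 * N := by
            refine hs.trans ?_
            calc 2 * c * S.poly.s (x : B[X]) ≤ 2 * c * (m ^ 2 * N) :=
                  Nat.mul_le_mul_left _ hx'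
              _ ≤ 2 * c * (c ^ 2 * N) :=
                  Nat.mul_le_mul_left _ (Nat.mul_le_mul_right _ (Nat.pow_le_pow_left hm 2))
              _ = 2 * c ^ 3 * N := by ring
          rw [hcl b h2]
          simp)
      refine ⟨τ, ?_⟩
      have := abs_nonpos_iff.1 (hτ.trans (le_of_eq (mul_zero 2)))
      exact this)
  refine ⟨V τ, hna τ, hC τ, hcomp τ, fun P hP => ?_⟩
  by_cases h0P : P = 0
  · rw [h0P, map_zero, map_zero]
  have h1 : Real.log (V τ P) - Real.log (V1 P) = 0 :=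
    hτ ⟨P, mem_nonZeroDivisors_of_ne_zero h0P⟩ hP
  exact Real.log_injOn_pos (Set.mem_Ioi.2 ((V τ).pos h0P)) (Set.mem_Ioi.2 (V1.pos h0P))
    (sub_eq_zero.1 h1)

end Pool.Agent.DaeB
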