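import Pool.Agent.DaeB.AttGauss
import Pool.Agent.DaeB.ExistsMin
import Pool.Agent.DaeB.ChooseRadius
import Pool.Agent.DaeB.Perturb

/-! # DaeB: one step of the approximating tower (package DB19) -/

set_option autoImplicit false

namespace Pool.Agent.DaeB

open Polynomial

private lemma as_X {B : Type} [CommRing B] [IsDomain B] (V : AbsoluteValue B[X] ℝ)
    (V' : AbsoluteValue B ℝ) (U : B[X]) (σ : ℝ)
    (h : ∀ Q : B[X], V (Q.comp U) = Q.gaussNorm V' σ) : V U = σ := by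
  have h1 := h X
  rw [X_comp] at h1
  rw [h1, ← monomial_one_one_eq_X, gaussNorm_monomial, map_one, one_mul, pow_one]

private lemma as_deg {B : Type*} [CommRing B] {U : B[X]} (h : derivative U ≠ 0) :
    U ≠ 0 ∧ 1 ≤ U.natDegree := by
  constructor
  · rintro rfl
    exact h derivative_zero
  · by_contra hlt
    exact h (derivative_of_natDegree_zero (by omega))

/-- Attained: `U = minTop W` (of fixed size `c₁`), `perturb` with `V1 = W` (`gauss_of_att`): error
`8 c₁^3 δ size P`.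
Not attained: `U` = minimiser of `exists_min` in size `≤ c`, `c0 = RtopC W c ≤ Rtop W * exp (C c^(-κ))`,
`q = ⌈c^κ⌉₊`, radius `r` from `choose_radius`, `V1 = noise W r`; `W ≤ V1 ≤ (r / Rtop W)^(natDegree P) W`
(`W_le_noise`, `noise_le`, `Rtop_mul_le`), `log (r / Rtop W) ≤ C c^(-κ) + |log w0| c^(-κ)`; then `perturb`
with `V1` and `U`, `σ = V1 U`. -/
theorem approx_step (n : ℕ) (W : AbsoluteValue (A n)[X] ℝ) (hW : IsNonarchimedean W)
    (hT : TrivC W) (hR : 0 < Rtop W) (w0 : ℝ) (hw0 : 0 < w0) (hw1 : w0 ≠ 1)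
    (C κ : ℝ) (hC : 0 ≤ C) (hκ : 0 < κ)
    (hrate : ∀ c : ℕ, 1 ≤ c → RtopC (sizeA n) W c ≤ Rtop W * Real.exp (C * (c : ℝ) ^ (-κ))) :
    ∃ C1 : ℝ, 1 ≤ C1 ∧ ∀ c : ℕ, 1 ≤ c → ∀ V' : AbsoluteValue (A n) ℝ, IsNonarchimedean V' →
      TrivC V' → ∀ δ : ℝ, 0 ≤ δ →
      (∀ b : A n, b ≠ 0 → |Real.log (V' b) - Real.log (W (Polynomial.C b))| ≤ δ * b.totalDegree) →
      ∃ (V : AbsoluteValue (A n)[X] ℝ) (U : (A n)[X]), IsNonarchimedean V ∧
        (∀ b, V (Polynomial.C b) = V' b) ∧ derivative U ≠ 0 ∧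
        (∀ Q : (A n)[X], V (Q.comp U) = Q.gaussNorm V' (V U)) ∧
        ((sizeA n).poly.s U : ℝ) ≤ C1 * c ∧
        (∀ P : (A n)[X], P ≠ 0 → |Real.log (V P) - Real.log (W P)| ≤
          (C1 * (c : ℝ) ^ (-κ) + C1 * (c : ℝ) ^ 3 * δ) * (sizeA n).poly.s P) ∧
        (AttTop W → U = minTop W ∧ V U = W U) ∧
        (¬ AttTop W → ∃ (q : ℕ) (p : ℤ), 1 ≤ q ∧ (q : ℝ) ≤ C1 * (c : ℝ) ^ κ ∧
          q * Real.log (V U) = p * Real.log w0) := by
  have hres : ResZero W := hT.resZero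
  by_cases hA : AttTop W
  · obtain ⟨h1, h2⟩ := minTop_spec W hA
    obtain ⟨hU0, hdeg⟩ := as_deg h1
    have hs : 1 ≤ (sizeA n).poly.s (minTop W) := hdeg.trans ((sizeA n).natDegree_le _)
    have hsR : (1 : ℝ) ≤ ((sizeA n).poly.s (minTop W) : ℝ) := by exact_mod_cast hs
    have hs3 : (1 : ℝ) ≤ ((sizeA n).poly.s (minTop W) : ℝ) ^ 3 := one_le_pow₀ hsR
    have hs3' : ((sizeA n).poly.s (minTop W) : ℝ) ≤ ((sizeA n).poly.s (minTop W) : ℝ) ^ 3 :=
      le_self_pow₀ hsR (by norm_num)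
    refine ⟨8 * ((sizeA n).poly.s (minTop W) : ℝ) ^ 3, by linarith,
      fun c hc V' hV' hT' δ hδ hcl => ?_⟩
    have hc1 : (1 : ℝ) ≤ c := by exact_mod_cast hc
    obtain ⟨V, hV, hVC, hVG, hVP⟩ := perturb (sizeA n) V' hV' hT'.resZero (minTop W)
      ((sizeA n).poly.s (minTop W)) hdeg le_rfl W hW (W (minTop W)) (W.pos hU0)
      (gauss_of_att W hW hres hR hA) δ hδ (fun b hb => hcl b hb)
    have hVU := as_X V V' (minTop W) _ hVG
    refine ⟨V, minTop W, hV, hVC, h1, fun Q => by rw [hVU]; exact hVG Q, ?_, ?_,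
      fun _ => ⟨rfl, hVU⟩, fun h => absurd hA h⟩
    · nlinarith
    · intro P hP
      refine (hVP P hP).trans (mul_le_mul_of_nonneg_right ?_ (Nat.cast_nonneg _))
      have h3 : (0 : ℝ) ≤ (c : ℝ) ^ (-κ) := Real.rpow_nonneg (by linarith) _
      have h4 : (1 : ℝ) ≤ (c : ℝ) ^ 3 := one_le_pow₀ hc1
      have h5 : 0 ≤ 8 * ((sizeA n).poly.s (minTop W) : ℝ) ^ 3 := by linarith
      have h6 := mul_nonneg h5 h3
      have h7 := mul_nonneg (mul_nonneg h5 hδ) (sub_nonneg.2 h4)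
      nlinarith
  · have hl : 0 ≤ |Real.log w0| := abs_nonneg _
    refine ⟨8 + C + |Real.log w0|, by linarith, fun c hc V' hV' hT' δ hδ hcl => ?_⟩
    have hc1 : (1 : ℝ) ≤ c := by exact_mod_cast hc
    have hcpos : (0 : ℝ) < c := by linarith
    obtain ⟨U, hUc, hUd, hUW, -⟩ := exists_min n W hW hT c hc
    have h0 := RtopC_pos n W hW hT c hc
    have hrt := hrate c hc
    obtain ⟨hU0, hdeg⟩ := as_deg hUd
    have hUd0 : 0 < W (derivative U) := W.pos hUd
    have hRc : Rtop W ≤ RtopC (sizeA n) W c := by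
      have h1 := Rtop_mul_le W U
      rw [hUW] at h1
      exact le_of_mul_le_mul_right h1 hUd0
    have hcκ : 1 ≤ (c : ℝ) ^ κ := Real.one_le_rpow hc1 hκ.le
    have hq1 : 1 ≤ ⌈(c : ℝ) ^ κ⌉₊ := Nat.one_le_ceil_iff.2 (by linarith)
    have hq2 : (c : ℝ) ^ κ ≤ (⌈(c : ℝ) ^ κ⌉₊ : ℝ) := Nat.le_ceil _
    have hq3 : (⌈(c : ℝ) ^ κ⌉₊ : ℝ) ≤ (c : ℝ) ^ κ + 1 :=
      (Nat.ceil_lt_add_one (by linarith)).le
    obtain ⟨r, hr, p, hr1, hr2, hrp⟩ := choose_radius W hW U hUd (RtopC (sizeA n) W c) h0 hUW.le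
      w0 hw0 hw1 ⌈(c : ℝ) ^ κ⌉₊ hq1
    have hVr : resB (noise W hW r hr) = resB W := by
      ext b
      rw [resB_apply, resB_apply, noise_C]
    have hUr : W U ≤ r * W (derivative U) := by
      rw [hUW]
      exact mul_le_mul_of_nonneg_right hr1 (W.nonneg _)
    have hσ : 0 < noise W hW r hr U := AbsoluteValue.pos _ hU0
    obtain ⟨V, hV, hVC, hVG, hVP⟩ := perturb (sizeA n) V' hV' hT'.resZero U c hdeg hUc
      (noise W hW r hr) (noise_na W hW r hr) (noise W hW r hr U) hσ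
      (fun Q => by rw [noise_comp W hW r hr U hUd hUr Q, hVr]) δ hδ
      (fun b hb => by rw [noise_C]; exact hcl b hb)
    have hVU := as_X V V' U _ hVG
    refine ⟨V, U, hV, hVC, hUd, fun Q => by rw [hVU]; exact hVG Q, ?_, ?_,
      fun h => absurd h hA, fun _ => ⟨⌈(c : ℝ) ^ κ⌉₊, p, hq1, ?_, by rw [hVU]; exact hrp⟩⟩
    · have h1 : ((sizeA n).poly.s U : ℝ) ≤ c := by exact_mod_cast hUc
      nlinarith
    · intro P hP
      have h1 := hVP P hP
      have h2 := noise_le W hW r hr hres hR (hRc.trans hr1) (fun P => Rtop_mul_le W P) P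
      have h3 := W_le_noise W hW r hr P
      have hWP : 0 < W P := W.pos hP
      have hrR : 0 < r / Rtop W := div_pos hr hR
      have h4 := Real.log_le_log (hWP.trans_le h3) h2
      rw [Real.log_mul (pow_pos hrR _).ne' hWP.ne', Real.log_pow] at h4
      have h5 := Real.log_le_log hWP h3
      have h6 : Real.log (r / Rtop W) ≤ (C + |Real.log w0|) * (c : ℝ) ^ (-κ) := by
        rw [Real.log_le_iff_le_exp hrR, div_le_iff₀ hR]
        refine hr2.trans ?_
        refine (mul_le_mul_of_nonneg_right hrt (Real.exp_pos _).le).trans ?_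
        rw [mul_assoc, ← Real.exp_add, mul_comm (Rtop W)]
        refine mul_le_mul_of_nonneg_right (Real.exp_le_exp.2 ?_) hR.le
        rw [add_mul]
        refine add_le_add le_rfl ?_
        rw [Real.rpow_neg hcpos.le, ← div_eq_mul_inv]
        exact div_le_div_of_nonneg_left hl (by linarith) hq2
      have h7 : ((P.natDegree : ℕ) : ℝ) ≤ ((sizeA n).poly.s P : ℝ) := by
        exact_mod_cast (sizeA n).natDegree_le P
      have h8 : (0 : ℝ) ≤ (c : ℝ) ^ (-κ) := Real.rpow_nonneg hcpos.le _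
      have h9 : (0 : ℝ) ≤ (P.natDegree : ℝ) := Nat.cast_nonneg _
      have h10 : (P.natDegree : ℝ) * Real.log (r / Rtop W) ≤
          ((sizeA n).poly.s P : ℝ) * ((C + |Real.log w0|) * (c : ℝ) ^ (-κ)) :=
        (mul_le_mul_of_nonneg_left h6 h9).trans
          (mul_le_mul_of_nonneg_right h7 (mul_nonneg (by linarith) h8))
      have h11 : |Real.log (noise W hW r hr P) - Real.log (W P)| ≤
          ((sizeA n).poly.s P : ℝ) * ((C + |Real.log w0|) * (c : ℝ) ^ (-κ)) := by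
        rw [abs_of_nonneg (by linarith)]
        linarith
      have h12 : |Real.log (V P) - Real.log (W P)| ≤
          |Real.log (V P) - Real.log (noise W hW r hr P)| +
            |Real.log (noise W hW r hr P) - Real.log (W P)| := abs_sub_le _ _ _
      have h13 : (0 : ℝ) ≤ ((sizeA n).poly.s P : ℝ) := Nat.cast_nonneg _
      have h14 : (0 : ℝ) ≤ (c : ℝ) ^ 3 * δ := mul_nonneg (pow_nonneg hcpos.le _) hδ
      have h15 := mul_nonneg h13 h8
      have h16 := mul_nonneg h13 h14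
      have h17 : 0 ≤ C + |Real.log w0| := by linarith
      have h18 := mul_nonneg h17 h16
      calc |Real.log (V P) - Real.log (W P)|
          ≤ 8 * (c : ℝ) ^ 3 * δ * (sizeA n).poly.s P +
            ((sizeA n).poly.s P : ℝ) * ((C + |Real.log w0|) * (c : ℝ) ^ (-κ)) := by linarith
        _ ≤ _ := by nlinarith
    · have h1 : 0 ≤ (c : ℝ) ^ κ := by linarith
      nlinarith [mul_nonneg hC h1, mul_nonneg hl h1]

end Pool.Agent.DaeB
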