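import Pool.Agent.DaeB.PolyTransport
import Pool.Agent.H17Dyn.Piola

/-!
# Defects of a fat absolute value (DB16)
-/

set_option autoImplicit false

namespace Pool.Agent.DaeB

open Polynomial

section Top

variable {B : Type*} [CommRing B]

lemma Rtop_nonneg (W : AbsoluteValue B[X] ℝ) : 0 ≤ Rtop W := by
  apply Real.sInf_nonneg
  rintro r ⟨P, -, rfl⟩
  exact div_nonneg (W.nonneg _) (W.nonneg _)

lemma RtopC_nonneg (S : SizeFn B) (W : AbsoluteValue B[X] ℝ) (c : ℕ) : 0 ≤ RtopC S W c := by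
  apply Real.sInf_nonneg
  rintro r ⟨P, -, -, rfl⟩
  exact div_nonneg (W.nonneg _) (W.nonneg _)

lemma Rtop_le (W : AbsoluteValue B[X] ℝ) {P : B[X]} (hP : derivative P ≠ 0) :
    Rtop W ≤ W P / W (derivative P) := by
  refine csInf_le ⟨0, ?_⟩ ⟨P, hP, rfl⟩
  rintro r ⟨P, -, rfl⟩
  exact div_nonneg (W.nonneg _) (W.nonneg _)

lemma RtopC_le (S : SizeFn B) (W : AbsoluteValue B[X] ℝ) {c : ℕ} {P : B[X]}
    (hc : S.poly.s P ≤ c) (hP : derivative P ≠ 0) :
    RtopC S W c ≤ W P / W (derivative P) := by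
  refine csInf_le ⟨0, ?_⟩ ⟨P, hc, hP, rfl⟩
  rintro r ⟨P, -, -, rfl⟩
  exact div_nonneg (W.nonneg _) (W.nonneg _)

lemma Rtop_mul_le (W : AbsoluteValue B[X] ℝ) (P : B[X]) :
    Rtop W * W (derivative P) ≤ W P := by
  by_cases hP : derivative P = 0
  · rw [hP, map_zero, mul_zero]
    exact W.nonneg _
  · have h1 := Rtop_le W hP
    rwa [le_div_iff₀ (W.pos hP)] at h1

lemma RtopC_mul_le (S : SizeFn B) (W : AbsoluteValue B[X] ℝ) {c : ℕ} {P : B[X]}
    (hc : S.poly.s P ≤ c) : RtopC S W c * W (derivative P) ≤ W P := by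
  by_cases hP : derivative P = 0
  · rw [hP, map_zero, mul_zero]
    exact W.nonneg _
  · have h1 := RtopC_le S W hc hP
    rwa [le_div_iff₀ (W.pos hP)] at h1

variable [Nontrivial B]

lemma Rtop_le_RtopC (S : SizeFn B) (W : AbsoluteValue B[X] ℝ) {c : ℕ} (hc : 1 ≤ c) :
    Rtop W ≤ RtopC S W c := by
  refine le_csInf ⟨_, X, S.poly_X_le.trans hc, by simp, rfl⟩ ?_
  rintro r ⟨P, -, hP, rfl⟩
  exact Rtop_le W hP

lemma RtopC_anti (S : SizeFn B) (W : AbsoluteValue B[X] ℝ) {c c' : ℕ} (hc : 1 ≤ c)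
    (hcc : c ≤ c') : RtopC S W c' ≤ RtopC S W c := by
  refine le_csInf ⟨_, X, S.poly_X_le.trans hc, by simp, rfl⟩ ?_
  rintro r ⟨P, hs, hP, rfl⟩
  exact RtopC_le S W (hs.trans hcc) hP

/-- approximation of the infimum -/
lemma exists_Rtop (W : AbsoluteValue B[X] ℝ) {ε : ℝ} (hε : 0 < ε) :
    ∃ P : B[X], derivative P ≠ 0 ∧ W P ≤ (Rtop W + ε) * W (derivative P) := by
  obtain ⟨r, ⟨P, hP, rfl⟩, hr⟩ := exists_lt_of_csInf_lt
    (s := {r | ∃ P : B[X], derivative P ≠ 0 ∧ r = W P / W (derivative P)})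
    ⟨_, X, by simp, rfl⟩ (show Rtop W < Rtop W + ε by linarith)
  refine ⟨P, hP, ?_⟩
  rw [div_lt_iff₀ (W.pos hP)] at hr
  exact hr.le

end Top

lemma Rinf_nonneg : ∀ (n : ℕ) (W : AbsoluteValue (A n) ℝ) (i : Fin n), 0 ≤ Rinf n W i
  | 0, _, i => i.elim0
  | n + 1, W, i => by
    refine Fin.cases ?_ (fun i => ?_) i
    · exact Rtop_nonneg _
    · exact Rinf_nonneg n (res W) i

lemma Rinf_le_Rc {c : ℕ} (hc : 1 ≤ c) : ∀ (n : ℕ) (W : AbsoluteValue (A n) ℝ) (i : Fin n),
    Rinf n W i ≤ Rc c n W i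
  | 0, _, i => i.elim0
  | n + 1, W, i => by
    refine Fin.cases ?_ (fun i => ?_) i
    · exact Rtop_le_RtopC _ _ hc
    · exact Rinf_le_Rc hc n (res W) i

lemma Rc_anti {c c' : ℕ} (hc : 1 ≤ c) (hcc : c ≤ c') :
    ∀ (n : ℕ) (W : AbsoluteValue (A n) ℝ) (i : Fin n), Rc c' n W i ≤ Rc c n W i
  | 0, _, i => i.elim0
  | n + 1, W, i => by
    refine Fin.cases ?_ (fun i => ?_) i
    · exact RtopC_anti _ _ hc hcc
    · exact Rc_anti hc hcc n (res W) i

/-- triangular families almost realise the infima -/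
lemma exists_tri {ε : ℝ} (hε : 0 < ε) : ∀ (n : ℕ) (W : AbsoluteValue (A n) ℝ),
    ∃ u : Fin n → A n, (∀ i j : Fin n, j < i → MvPolynomial.pderiv j (u i) = 0) ∧
      (∀ i, MvPolynomial.pderiv i (u i) ≠ 0) ∧
      ∀ i, W (u i) ≤ (Rinf n W i + ε) * W (MvPolynomial.pderiv i (u i))
  | 0, _ => ⟨Fin.elim0, fun i => i.elim0, fun i => i.elim0, fun i => i.elim0⟩
  | n + 1, W => by
    obtain ⟨u, h1, h2, h3⟩ := exists_tri hε n (res W)
    obtain ⟨P, hP, hP'⟩ := exists_Rtop (toPoly W) hε
    have hder : MvPolynomial.pderiv 0 ((eqv n).symm P) = (eqv n).symm (derivative P) := by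
      apply (eqv n).injective
      rw [eqv_pderiv_zero, AlgEquiv.apply_symm_apply, AlgEquiv.apply_symm_apply]
    refine ⟨Fin.cons ((eqv n).symm P) (fun i => incl n (u i)), ?_, ?_, ?_⟩
    · intro i j hij
      refine Fin.cases (motive := fun i => j < i → MvPolynomial.pderiv j
        ((Fin.cons ((eqv n).symm P) (fun i => incl n (u i)) : Fin (n + 1) → A (n + 1)) i) = 0)
        (fun h => absurd h (Fin.not_lt_zero j)) (fun i h => ?_) i hij
      rw [Fin.cons_succ]
      revert h
      refine Fin.cases (fun _ => pderiv_zero_incl n _) (fun j h => ?_) j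
      rw [pderiv_succ_incl, h1 i j (Fin.succ_lt_succ_iff.1 h), map_zero]
    · intro i
      refine Fin.cases ?_ (fun i => ?_) i
      · rw [Fin.cons_zero, hder]
        exact (map_ne_zero_iff _ (eqv n).symm.injective).2 hP
      · rw [Fin.cons_succ, pderiv_succ_incl]
        exact (map_ne_zero_iff _ (MvPolynomial.rename_injective _ (Fin.succ_injective n))).2
          (h2 i)
    · intro i
      refine Fin.cases ?_ (fun i => ?_) i
      · rw [Fin.cons_zero, hder]
        exact hP'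
      · rw [Fin.cons_succ, pderiv_succ_incl, ← res_apply, ← res_apply]
        exact h3 i

/-- Jacobian determinant of a triangular family -/
lemma jac_tri {n : ℕ} (u : Fin n → A n)
    (h : ∀ i j : Fin n, j < i → MvPolynomial.pderiv j (u i) = 0) :
    jac u = ∏ i, MvPolynomial.pderiv i (u i) := by
  rw [jac, Matrix.det_of_isUpperTriangular]
  · rfl
  · intro i j hij
    exact h i j hij

/-- changing one coordinate -/
lemma jac_update_X {n : ℕ} (i : Fin n) (P : A n) :
    jac (Function.update (fun j : Fin n => (MvPolynomial.X j : A n)) i P) =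
      MvPolynomial.pderiv i P := by
  have h : (Matrix.of fun k j => MvPolynomial.pderiv j
      (Function.update (fun j : Fin n => (MvPolynomial.X j : A n)) i P k)) =
      (1 : Matrix (Fin n) (Fin n) (A n)).updateRow i (fun j => MvPolynomial.pderiv j P) := by
    ext k j : 2
    rw [Matrix.of_apply, Matrix.updateRow_apply]
    by_cases h : k = i
    · subst h
      rw [if_pos rfl, Function.update_self]
    · rw [if_neg h, Function.update_of_ne h, MvPolynomial.pderiv_X, Matrix.one_apply,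
        Pi.single_apply]
  rw [jac, h, ← Matrix.cramer_transpose_apply, Matrix.transpose_one, Matrix.cramer_one]
  rfl

/-- differentiation and fatness -/
lemma Fat.pderiv_le {n : ℕ} {W : AbsoluteValue (A n) ℝ} (hF : Fat W) (i : Fin n) (P : A n) :
    W (MvPolynomial.pderiv i P) ≤ (∏ j, max 1 (W (MvPolynomial.X j))) * W P := by
  have h1 := hF (Function.update (fun j : Fin n => (MvPolynomial.X j : A n)) i P)
  rw [jac_update_X, ← Finset.mul_prod_erase Finset.univ _ (Finset.mem_univ i),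
    Function.update_self] at h1
  refine h1.trans ?_
  rw [mul_comm]
  refine mul_le_mul_of_nonneg_right ?_ (W.nonneg _)
  rw [← Finset.mul_prod_erase Finset.univ (fun j => max 1 (W (MvPolynomial.X j)))
    (Finset.mem_univ i)]
  have h2 : ∏ x ∈ Finset.univ.erase i, W (Function.update (fun j : Fin n =>
      (MvPolynomial.X j : A n)) i P x) ≤
      ∏ j ∈ Finset.univ.erase i, max 1 (W (MvPolynomial.X j)) := by
    refine Finset.prod_le_prod (fun j _ => W.nonneg _) fun j hj => ?_
    rw [Function.update_of_ne (Finset.ne_of_mem_erase hj)]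
    exact le_max_right _ _
  refine h2.trans ?_
  refine le_mul_of_one_le_left ?_ (le_max_left _ _)
  exact Finset.prod_nonneg fun j _ => le_max_of_le_left zero_le_one

/-- if differentiation has norm at most `κ` then the defects are at least `κ⁻¹` -/
lemma inv_le_Rinf {κ : ℝ} (hκ : 0 < κ) : ∀ (n : ℕ) (W : AbsoluteValue (A n) ℝ),
    (∀ i P, W (MvPolynomial.pderiv i P) ≤ κ * W P) → ∀ i, κ⁻¹ ≤ Rinf n W i
  | 0, _, _, i => i.elim0
  | n + 1, W, h, i => by
    refine Fin.cases ?_ (fun i => ?_) i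
    · refine le_csInf ⟨_, X, by simp, rfl⟩ ?_
      rintro r ⟨P, hP, rfl⟩
      have h1 := h 0 ((eqv n).symm P)
      have hder : MvPolynomial.pderiv 0 ((eqv n).symm P) = (eqv n).symm (derivative P) := by
        apply (eqv n).injective
        rw [eqv_pderiv_zero, AlgEquiv.apply_symm_apply, AlgEquiv.apply_symm_apply]
      rw [hder] at h1
      rw [le_div_iff₀ ((toPoly W).pos hP), inv_mul_le_iff₀ hκ]
      exact h1
    · refine inv_le_Rinf hκ n (res W) (fun i P => ?_) i
      rw [res_apply, res_apply, ← pderiv_succ_incl]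
      exact h _ _

/-- **the defects of a fat absolute value are positive** -/
theorem Fat.Rinf_pos {n : ℕ} {W : AbsoluteValue (A n) ℝ} (hF : Fat W) (i : Fin n) :
    0 < Rinf n W i := by
  have hκ : 0 < ∏ j : Fin n, max 1 (W (MvPolynomial.X j)) :=
    Finset.prod_pos fun j _ => lt_max_of_lt_left one_pos
  exact (inv_pos.2 hκ).trans_le (inv_le_Rinf hκ n W (fun i P => hF.pderiv_le i P) i)

/-- **the product of the defects of a fat absolute value is at least one** -/
theorem Fat.one_le_prod_Rinf {n : ℕ} {W : AbsoluteValue (A n) ℝ} (hF : Fat W) :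
    1 ≤ ∏ i, Rinf n W i := by
  have h1 : ∀ ε : ℝ, 0 < ε → 1 ≤ ∏ i, (Rinf n W i + ε) := by
    intro ε hε
    obtain ⟨u, h1, h2, h3⟩ := exists_tri hε n W
    have h4 := hF u
    rw [jac_tri u h1, map_prod] at h4
    have h5 : ∏ i, W (u i) ≤ (∏ i, (Rinf n W i + ε)) * ∏ i, W (MvPolynomial.pderiv i (u i)) := by
      rw [← Finset.prod_mul_distrib]
      exact Finset.prod_le_prod (fun i _ => W.nonneg _) fun i _ => h3 i
    have h6 : 0 < ∏ i, W (MvPolynomial.pderiv i (u i)) :=
      Finset.prod_pos fun i _ => W.pos (h2 i)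
    have h7 := h4.trans h5
    exact le_of_mul_le_mul_right (by rwa [one_mul]) h6
  have h2 : Filter.Tendsto (fun ε : ℝ => ∏ i, (Rinf n W i + ε)) (nhdsWithin 0 (Set.Ioi 0))
      (nhds (∏ i, (Rinf n W i + 0))) := by
    refine Filter.Tendsto.mono_left ?_ nhdsWithin_le_nhds
    exact (continuous_finsetProd _ fun i _ => continuous_const.add continuous_id).tendsto 0
  simp only [add_zero] at h2
  exact ge_of_tendsto h2 (Filter.eventually_of_mem self_mem_nhdsWithin fun ε hε => h1 ε hε)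

lemma jac_eq_dyn {n : ℕ} (u : Fin n → A n) : jac u = H17Dyn.jac u := by
  rw [jac, H17Dyn.jac, ← Matrix.det_transpose]
  rfl

/-- chain rule for Jacobian determinants -/
lemma jac_aeval {n : ℕ} (y P : Fin n → A n) :
    jac (fun j => MvPolynomial.aeval y (P j)) = MvPolynomial.aeval y (jac P) * jac y := by
  have h := H17Dyn.det_chain (fun i => MvPolynomial.pderiv i)
    (MvPolynomial.aeval y : A n →ₐ[ℂ] A n) P
  simp only [MvPolynomial.aeval_X] at h
  rw [jac_eq_dyn, jac_eq_dyn, jac_eq_dyn]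
  exact h

/-- chain rule for automorphisms -/
lemma jac_map {n : ℕ} (φ : A n ≃ₐ[ℂ] A n) (P : Fin n → A n) :
    jac (fun j => φ (P j)) = φ (jac P) * jac (fun j => φ (MvPolynomial.X j)) := by
  have h := jac_aeval (fun j => φ (MvPolynomial.X j)) P
  have h4 : (MvPolynomial.aeval (fun j => φ (MvPolynomial.X j)) : A n →ₐ[ℂ] A n) =
      (φ : A n →ₐ[ℂ] A n) := by
    apply MvPolynomial.algHom_ext
    intro i
    rw [MvPolynomial.aeval_X]
    rfl
  rw [h4] at h
  exact h

/-- **the Jacobian determinant of an automorphism is a nonzero constant** -/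
theorem jac_aut {n : ℕ} (φ : A n ≃ₐ[ℂ] A n) :
    ∃ z : ℂ, z ≠ 0 ∧ jac (fun i => φ (MvPolynomial.X i)) = MvPolynomial.C z := by
  have h1 := jac_map φ (fun j => φ.symm (MvPolynomial.X j))
  simp only [AlgEquiv.apply_symm_apply] at h1
  have h5 : jac (fun j : Fin n => (MvPolynomial.X j : A n)) = 1 := by
    have h : (Matrix.of fun i j : Fin n => MvPolynomial.pderiv j (MvPolynomial.X i : A n)) =
        1 := by
      ext i j : 2
      rw [Matrix.of_apply, MvPolynomial.pderiv_X, Matrix.one_apply, Pi.single_apply]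
    rw [jac, h, Matrix.det_one]
  rw [h5] at h1
  have hu : IsUnit (jac (fun j => φ (MvPolynomial.X j))) :=
    IsUnit.of_mul_eq_one _ ((mul_comm _ _).trans h1.symm)
  obtain ⟨z, hz, hz'⟩ := MvPolynomial.isUnit_iff_eq_C_of_isReduced.1 hu
  exact ⟨z, hz.ne_zero, hz'⟩

end Pool.Agent.DaeB
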