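import Pool.Agent.DaeB.Defs

/-! # DaeB: elementary properties of the noise (package DB02) -/

set_option autoImplicit false

namespace Pool.Agent.DaeB

open Polynomial

section

variable {B : Type*} [CommRing B] (W : AbsoluteValue B[X] ℝ) (hW : IsNonarchimedean W)
  (c : ℝ) (hc : 0 < c)

theorem noise_C (b : B) : noise W hW c hc (C b) = W (C b) := by
  obtain ⟨k, hk⟩ := exists_noise W hW c hc (C b)
  rcases Nat.eq_zero_or_pos k with h0 | h0
  · subst h0
    simpa using hk
  · rw [hasseDeriv_C k b h0, map_zero, zero_mul] at hk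
    have h1 := le_noise W hW c hc (C b) 0
    rw [hk] at h1
    simp only [hasseDeriv_zero, LinearMap.id_coe, id_eq, pow_zero, mul_one] at h1
    rw [hk]
    exact le_antisymm (W.nonneg _) h1

theorem W_le_noise (P : B[X]) : W P ≤ noise W hW c hc P := by
  have h1 := le_noise W hW c hc P 0
  simpa using h1

private lemma hasse_val (h0 : ResZero W) (P : B[X]) (k : ℕ) :
    W (hasseDeriv k P) = W (derivative^[k] P) := by
  have h1 : (derivative^[k] P) = (k.factorial : B[X]) * hasseDeriv k P := by
    have h2 := congrFun (factorial_smul_hasseDeriv (R := B) k) P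
    rw [← h2, LinearMap.smul_apply, nsmul_eq_mul]
  rw [h1, map_mul, h0 _ (Nat.factorial_ne_zero k), one_mul]

private lemma iter_val {R : ℝ} (hR : 0 < R) (n : ℕ) :
    ∀ (P : B[X]), (∀ j < n, R * W (derivative (derivative^[j] P)) ≤ W (derivative^[j] P)) →
      R ^ n * W (derivative^[n] P) ≤ W P := by
  induction n with
  | zero => intro P _; simp
  | succ n ih =>
    intro P h
    rw [Function.iterate_succ_apply']
    calc R ^ (n + 1) * W (derivative (derivative^[n] P))
        = R ^ n * (R * W (derivative (derivative^[n] P))) := by ring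
      _ ≤ R ^ n * W (derivative^[n] P) :=
        mul_le_mul_of_nonneg_left (h n (Nat.lt_succ_self n)) (pow_nonneg hR.le _)
      _ ≤ W P := ih P fun j hj => h j (hj.trans (Nat.lt_succ_self n))

/-- iterate `R |P'| ≤ |P|`; `k! * hasseDeriv k P = P^(k)` and `|k!| = 1`; `hasseDeriv k P = 0` for
`k > natDegree P`. -/
theorem noise_le (h0 : ResZero W) {R : ℝ} (hR : 0 < R) (hRc : R ≤ c)
    (h : ∀ P : B[X], R * W (derivative P) ≤ W P) (P : B[X]) :
    noise W hW c hc P ≤ (c / R) ^ P.natDegree * W P := by
  obtain ⟨k, hk⟩ := exists_noise W hW c hc P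
  have h1 : (1 : ℝ) ≤ c / R := by rwa [le_div_iff₀ hR, one_mul]
  rcases lt_or_ge P.natDegree k with h2 | h2
  · rw [hk, hasseDeriv_eq_zero_of_lt_natDegree P k h2, map_zero, zero_mul]
    exact mul_nonneg (pow_nonneg (zero_le_one.trans h1) _) (W.nonneg _)
  · rw [hk, hasse_val W h0]
    have h3 : R ^ k * W (derivative^[k] P) ≤ W P := iter_val W hR k P fun j _ => h _
    calc W (derivative^[k] P) * c ^ k
        = (c / R) ^ k * (R ^ k * W (derivative^[k] P)) := by
          rw [div_pow]
          have : R ^ k ≠ 0 := pow_ne_zero _ hR.ne'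
          field_simp
      _ ≤ (c / R) ^ k * W P :=
        mul_le_mul_of_nonneg_left h3 (pow_nonneg (zero_le_one.trans h1) _)
      _ ≤ (c / R) ^ P.natDegree * W P :=
        mul_le_mul_of_nonneg_right (pow_le_pow_right₀ h1 h2) (W.nonneg _)

private lemma hasse_derivative (U : B[X]) (k : ℕ) :
    hasseDeriv k (derivative U) = ((k + 1 : ℕ) : B[X]) * hasseDeriv (k + 1) U := by
  have h1 := LinearMap.congr_fun (hasseDeriv_comp (R := B) k 1) U
  rw [LinearMap.comp_apply, hasseDeriv_one] at h1
  rw [h1, LinearMap.smul_apply, nsmul_eq_mul, Nat.choose_succ_self_right]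

/-- `hasseDeriv k U' = (k+1) hasseDeriv (k+1) U`; the term `k = 0` of `noise U` is dominated by the
term `k = 1`. -/
theorem noise_derivative (h0 : ResZero W) (U : B[X]) (hU : derivative U ≠ 0)
    (hd : W U ≤ c * W (derivative U)) :
    noise W hW c hc (derivative U) * c = noise W hW c hc U := by
  apply le_antisymm
  · obtain ⟨k, hk⟩ := exists_noise W hW c hc (derivative U)
    have h1 := le_noise W hW c hc U (k + 1)
    rw [hk, hasse_derivative, map_mul, h0 _ (Nat.succ_ne_zero k), one_mul, mul_assoc, ← pow_succ]
    exact h1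
  · obtain ⟨k, hk⟩ := exists_noise W hW c hc U
    rcases k with _ | k
    · have h1 := W_le_noise W hW c hc (derivative U)
      rw [hk]
      simp only [hasseDeriv_zero, LinearMap.id_coe, id_eq, pow_zero, mul_one]
      refine hd.trans ?_
      rw [mul_comm]
      exact mul_le_mul_of_nonneg_right h1 hc.le
    · have h1 := le_noise W hW c hc (derivative U) k
      rw [hasse_derivative, map_mul, h0 _ (Nat.succ_ne_zero k), one_mul] at h1
      rw [hk, pow_succ, ← mul_assoc]
      exact mul_le_mul_of_nonneg_right h1 hc.le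

private lemma size_natCast (S : SizeFn B) (n : ℕ) : S.s (n : B) = 0 := by
  induction n with
  | zero => simpa using S.zero
  | succ n ih =>
    refine Nat.eq_zero_of_le_zero ?_
    rw [Nat.cast_succ]
    refine (S.add _ _).trans ?_
    rw [ih, S.one]
    simp

/-- the derivative does not increase the size -/
theorem size_derivative (S : SizeFn B) (P : B[X]) : S.poly.s (derivative P) ≤ S.poly.s P := by
  refine Finset.sup_le fun k hk => ?_
  rw [mem_support_iff, coeff_derivative] at hk
  have h1 := S.poly_coeff_le P (k + 1) (left_ne_zero_of_mul hk)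
  have h2 := S.mul (P.coeff (k + 1)) ((k : B) + 1)
  have h3 : S.s ((k : B) + 1) = 0 := by
    have := size_natCast S (k + 1)
    rwa [Nat.cast_succ] at this
  rw [coeff_derivative]
  omega

theorem noise_eq_of_size (h0 : ResZero W) (S : SizeFn B) (m : ℕ)
    (h : ∀ P : B[X], S.poly.s P ≤ m → c * W (derivative P) ≤ W P) (P : B[X])
    (hP : S.poly.s P ≤ m) : noise W hW c hc P = W P := by
  apply le_antisymm
  · obtain ⟨k, hk⟩ := exists_noise W hW c hc P
    have hs : ∀ j, S.poly.s (derivative^[j] P) ≤ m := by
      intro j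
      induction j with
      | zero => exact hP
      | succ j ih =>
        rw [Function.iterate_succ_apply']
        exact (size_derivative S _).trans ih
    have h3 : c ^ k * W (derivative^[k] P) ≤ W P := iter_val W hc k P fun j _ => h _ (hs j)
    rw [hk, hasse_val W h0, mul_comm]
    exact h3
  · exact W_le_noise W hW c hc P

theorem noise_triv [Algebra ℂ B] (hT : TrivC W) : TrivC (noise W hW c hc) := by
  intro z hz
  have h1 : algebraMap ℂ B[X] z = C (algebraMap ℂ B z) := rfl
  have h2 := hT z hz
  rw [h1] at h2 ⊢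
  rw [noise_C]
  exact h2

end

end Pool.Agent.DaeB
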