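import Pool.Agent.DaeB.NoiseGauss
import Pool.Agent.DaeB.NoiseProps
import Pool.Agent.DaeB.FatR

/-! # DaeB: the attained case (package DB18) -/

set_option autoImplicit false

namespace Pool.Agent.DaeB

open Polynomial

variable {B : Type*} [CommRing B] (W : AbsoluteValue B[X] ℝ)

theorem minTop_spec (h : AttTop W) : derivative (minTop W) ≠ 0 ∧
    W (minTop W) = Rtop W * W (derivative (minTop W)) := by
  have h1 : minTop W = h.choose := by
    rw [minTop, dif_pos h]
  rw [h1]
  exact h.choose_spec

/-- `noise W (Rtop W) = W` -/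
theorem noise_Rtop (hW : IsNonarchimedean W) (h0 : ResZero W) (hR : 0 < Rtop W) (P : B[X]) :
    noise W hW (Rtop W) hR P = W P := by
  refine le_antisymm ?_ (W_le_noise W hW _ hR P)
  have h := noise_le W hW (Rtop W) hR h0 hR le_rfl (fun P => Rtop_mul_le W P) P
  rwa [div_self hR.ne', one_pow, one_mul] at h

/-- in the attained case `W` itself is a Gauss extension on `B[U]`, `U = minTop W` -/
theorem gauss_of_att (hW : IsNonarchimedean W) (h0 : ResZero W) (hR : 0 < Rtop W)
    (h : AttTop W) (Q : B[X]) :
    W (Q.comp (minTop W)) = Q.gaussNorm (resB W) (W (minTop W)) := by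
  obtain ⟨h1, h2⟩ := minTop_spec W h
  have h3 := noise_comp W hW (Rtop W) hR (minTop W) h1 h2.le Q
  rwa [noise_Rtop W hW h0 hR, noise_Rtop W hW h0 hR] at h3

end Pool.Agent.DaeB
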