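import Pool.Agent.DAE.R.Compact
import Pool.Agent.DaeB.FatR

/-!
# From the logarithmic form (block A) to the multiplicative form (block B)
-/

set_option autoImplicit false

namespace Pool.Agent.DaeB

open Polynomial

/-- **bridge**: a normalised fat logarithmic valuation as an absolute value -/
theorem exists_av {d : ℕ} [NeZero d] {h : DAE.Poly d → ℝ} (hh : h ∈ DAE.J1 d) :
    ∃ W : AbsoluteValue (A d) ℝ, IsNonarchimedean W ∧ TrivC W ∧ Fat W ∧
      (∀ P, P ≠ 0 → W P = Real.exp (h P)) ∧ (∀ P, P ≠ 0 → Real.log (W P) = h P) ∧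
      (∀ P, W P ≤ Real.exp P.totalDegree) ∧ (∀ i, W (MvPolynomial.X i) ≤ Real.exp 1) ∧
      ∃ i, W (MvPolynomial.X i) = Real.exp 1 := by
  have hv := hh.1.1
  refine ⟨hv.nabs_mv.toAbs, hv.nabs_mv.add, ?_, ?_, ?_, ?_, ?_, ?_, ?_⟩
  · intro z hz
    exact hv.mv_C hz
  · intro u
    rw [jac_eq_dyn]
    exact hh.1.2.mv_jac_le u
  · intro P hP
    exact DAE.mv_of_ne h hP
  · intro P hP
    rw [DAE.NAbs.toAbs_apply, DAE.mv_of_ne h hP, Real.log_exp]
  · intro P
    rcases eq_or_ne P 0 with rfl | hP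
    · rw [map_zero]
      exact (Real.exp_pos _).le
    · rw [DAE.NAbs.toAbs_apply, DAE.mv_of_ne h hP]
      exact Real.exp_le_exp.2 (hv.le_totalDegree hh.2.le P)
  · intro i
    rw [DAE.NAbs.toAbs_apply, DAE.mv_of_ne h (MvPolynomial.X_ne_zero i)]
    have := hv.le_totalDegree hh.2.le (MvPolynomial.X i)
    rw [MvPolynomial.totalDegree_X, Nat.cast_one] at this
    exact Real.exp_le_exp.2 this
  · obtain ⟨i, -, hi⟩ := Finset.exists_mem_eq_sup' (s := Finset.univ)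
      (⟨0, Finset.mem_univ _⟩ : (Finset.univ : Finset (Fin d)).Nonempty)
      fun i => h (MvPolynomial.X i)
    refine ⟨i, ?_⟩
    have h3 : h (MvPolynomial.X i) = 1 := by rw [← hi]; exact hh.2
    rw [DAE.NAbs.toAbs_apply, DAE.mv_of_ne h (MvPolynomial.X_ne_zero i), h3]

/-- the eigenvalue equation in multiplicative form -/
theorem av_eigen {d : ℕ} {h : DAE.Poly d → ℝ} {W : AbsoluteValue (A d) ℝ}
    (hW : ∀ P, P ≠ 0 → W P = Real.exp (h P)) {φ : A d ≃ₐ[ℂ] A d} {lam : ℝ} (hlam : 0 < lam)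
    (hφ : ∀ P, h (φ P) = lam * h P) (P : A d) : W (φ P) = W P ^ lam := by
  rcases eq_or_ne P 0 with rfl | hP
  · rw [map_zero, map_zero, Real.zero_rpow hlam.ne']
  · rw [hW P hP, hW (φ P) ((map_ne_zero_iff _ φ.injective).2 hP), hφ, ← Real.exp_mul, mul_comm]

/-- **Theorem B in the form of the interface** from the multiplicative form -/
theorem theoremB_of {d : ℕ} [NeZero d]
    (hB : ∀ (φ : A d ≃ₐ[ℂ] A d) (lam : ℝ), 1 < lam →
      Filter.Tendsto (fun n : ℕ => (dg φ n : ℝ) ^ ((1 : ℝ) / (n : ℝ))) Filter.atTop (nhds lam) →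
      ∀ W : AbsoluteValue (A d) ℝ, IsNonarchimedean W → TrivC W → Fat W →
        (∀ P, W (φ P) = W P ^ lam) → (∀ P, W P ≤ Real.exp P.totalDegree) →
        (∀ i, W (MvPolynomial.X i) ≤ Real.exp 1) → (∃ i, W (MvPolynomial.X i) = Real.exp 1) →
        IsIntegral ℤ lam ∧ ∀ μ : ℂ, aeval μ (minpoly ℤ lam) = 0 → ‖μ‖ ≤ lam) :
    DAE.TheoremBStatement d := by
  intro φ lam hlam h1 h hh hφ
  obtain ⟨W, h2, h3, h4, h5, -, h7, h8, h9⟩ := exists_av hh
  exact hB φ lam h1 hlam W h2 h3 h4 (av_eigen h5 (by linarith) hφ) h7 h8 h9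

end Pool.Agent.DaeB
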