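import Mathlib

/-!
# MP_dae5d3_ag, half (B): basic definitions (helper29, note 1743)

Multiplicative notation: a valuation in the `max` convention is a nonarchimedean absolute value
`v : AbsoluteValue R ℝ` (`|P| = exp (W P)`, `|0| = 0`), trivial on the constants `ℂ`.
-/

set_option autoImplicit false

namespace Pool.Agent.DaeB

open Polynomial

/-- The polynomial ring in `n` variables over `ℂ`. -/
abbrev A (n : ℕ) := MvPolynomial (Fin n) ℂ

/-- `v` is trivial on the constants. -/
def TrivC {R : Type*} [CommRing R] [Algebra ℂ R] (v : AbsoluteValue R ℝ) : Prop :=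
  ∀ z : ℂ, z ≠ 0 → v (algebraMap ℂ R z) = 1

/-- residue characteristic zero -/
def ResZero {R : Type*} [CommRing R] (v : AbsoluteValue R ℝ) : Prop :=
  ∀ n : ℕ, n ≠ 0 → v (n : R) = 1

lemma TrivC.resZero {R : Type*} [CommRing R] [Algebra ℂ R] {v : AbsoluteValue R ℝ}
    (h : TrivC v) : ResZero v := by
  intro n hn
  have := h (n : ℂ) (by exact_mod_cast hn)
  simpa using this

/-- A size (degree like) function on a ring. -/
structure SizeFn (B : Type*) [CommRing B] where
  s : B → ℕ
  zero : s 0 = 0
  one : s 1 = 0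
  neg : ∀ a, s (-a) = s a
  add : ∀ a b, s (a + b) ≤ max (s a) (s b)
  mul : ∀ a b, s (a * b) ≤ s a + s b

namespace SizeFn

variable {B : Type*} [CommRing B] (S : SizeFn B)

lemma sum_le {ι : Type*} (t : Finset ι) (f : ι → B) (m : ℕ) (h : ∀ i ∈ t, S.s (f i) ≤ m) :
    S.s (∑ i ∈ t, f i) ≤ m := by
  classical
  induction t using Finset.induction_on with
  | empty => simp [S.zero]
  | insert a t ha ih =>
    rw [Finset.sum_insert ha]
    refine (S.add _ _).trans (max_le (h a (Finset.mem_insert_self _ _)) (ih ?_))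
    exact fun i hi => h i (Finset.mem_insert_of_mem hi)

lemma prod_le {ι : Type*} (t : Finset ι) (f : ι → B) :
    S.s (∏ i ∈ t, f i) ≤ ∑ i ∈ t, S.s (f i) := by
  classical
  induction t using Finset.induction_on with
  | empty => simp [S.one]
  | insert a t ha ih =>
    rw [Finset.prod_insert ha, Finset.sum_insert ha]
    exact (S.mul _ _).trans (Nat.add_le_add_left ih _)

lemma pow_le (a : B) (k : ℕ) : S.s (a ^ k) ≤ k * S.s a := by
  induction k with
  | zero => simp [S.one]
  | succ k ih =>
    rw [pow_succ]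
    refine (S.mul _ _).trans ?_
    rw [Nat.succ_mul]
    exact Nat.add_le_add_right ih _

/-- total degree on `B[X]`: `size (coefficient) + exponent` -/
noncomputable def poly : SizeFn B[X] where
  s P := P.support.sup fun k => S.s (P.coeff k) + k
  zero := by simp
  one := by
    classical
    refine Nat.eq_zero_of_le_zero (Finset.sup_le fun k hk => ?_)
    have : k = 0 := by
      by_contra hne
      rw [mem_support_iff, coeff_one] at hk
      exact hk (if_neg hne)
    subst this
    simp [S.one]
  neg P := by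
    simp only [support_neg, coeff_neg, S.neg]
  add P Q := by
    refine Finset.sup_le fun k hk => ?_
    rw [coeff_add]
    have h1 : ∀ P : B[X], P.coeff k ≠ 0 → S.s (P.coeff k) + k ≤
        P.support.sup fun k => S.s (P.coeff k) + k := fun P h =>
      Finset.le_sup (f := fun k => S.s (P.coeff k) + k) (mem_support_iff.2 h)
    rw [mem_support_iff, coeff_add] at hk
    by_cases hP : P.coeff k = 0
    · rw [hP, zero_add] at hk ⊢
      exact le_max_of_le_right (h1 Q hk)
    by_cases hQ : Q.coeff k = 0
    · rw [hQ, add_zero] at hk ⊢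
      exact le_max_of_le_left (h1 P hk)
    rcases le_max_iff.1 (S.add (P.coeff k) (Q.coeff k)) with h | h
    · exact le_max_of_le_left ((Nat.add_le_add_right h k).trans (h1 P hP))
    · exact le_max_of_le_right ((Nat.add_le_add_right h k).trans (h1 Q hQ))
  mul P Q := by
    refine Finset.sup_le fun k hk => ?_
    have h1 : ∀ (P : B[X]) (i : ℕ), P.coeff i ≠ 0 → S.s (P.coeff i) + i ≤
        P.support.sup fun k => S.s (P.coeff k) + k := fun P i h =>
      Finset.le_sup (f := fun k => S.s (P.coeff k) + k) (mem_support_iff.2 h)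
    set p := P.support.sup fun k => S.s (P.coeff k) + k
    set q := Q.support.sup fun k => S.s (Q.coeff k) + k
    rw [mem_support_iff, coeff_mul] at hk
    have hex : ∃ ij ∈ Finset.HasAntidiagonal.antidiagonal k, P.coeff ij.1 * Q.coeff ij.2 ≠ 0 := by
      by_contra hcon
      push Not at hcon
      exact hk (Finset.sum_eq_zero hcon)
    obtain ⟨ij, hij, hne⟩ := hex
    have hk2 : k ≤ p + q := by
      have e1 := h1 P ij.1 (left_ne_zero_of_mul hne)
      have e2 := h1 Q ij.2 (right_ne_zero_of_mul hne)
      rw [Finset.HasAntidiagonal.mem_antidiagonal] at hij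
      omega
    have hk3 : S.s ((P * Q).coeff k) ≤ p + q - k := by
      rw [coeff_mul]
      refine S.sum_le _ _ _ fun ij hij => ?_
      rw [Finset.HasAntidiagonal.mem_antidiagonal] at hij
      by_cases h0 : P.coeff ij.1 = 0
      · simp [h0, S.zero]
      by_cases h0' : Q.coeff ij.2 = 0
      · simp [h0', S.zero]
      have e1 := h1 P ij.1 h0
      have e2 := h1 Q ij.2 h0'
      have e3 := S.mul (P.coeff ij.1) (Q.coeff ij.2)
      omega
    omega

lemma poly_coeff_le (P : B[X]) (k : ℕ) (h : P.coeff k ≠ 0) :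
    S.s (P.coeff k) + k ≤ S.poly.s P :=
  Finset.le_sup (f := fun k => S.s (P.coeff k) + k) (mem_support_iff.2 h)

lemma natDegree_le (P : B[X]) : P.natDegree ≤ S.poly.s P := by
  by_cases h : P = 0
  · simp [h]
  · have := S.poly_coeff_le P P.natDegree (by simpa using h)
    omega

lemma poly_C (b : B) : S.poly.s (C b) ≤ S.s b := by
  classical
  refine Finset.sup_le fun k hk => ?_
  have : k = 0 := by
    by_contra hne
    rw [mem_support_iff, coeff_C, if_neg hne] at hk
    exact hk rfl
  subst this
  simp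

lemma poly_X_le : S.poly.s (X : B[X]) ≤ 1 := by
  classical
  refine Finset.sup_le fun k hk => ?_
  have : 1 = k := by
    by_contra hne
    rw [mem_support_iff, coeff_X, if_neg hne] at hk
    exact hk rfl
  subst this
  simp [S.one]

end SizeFn

/-- total degree as a size function on `A n` -/
noncomputable def sizeA (n : ℕ) : SizeFn (A n) where
  s := MvPolynomial.totalDegree
  zero := MvPolynomial.totalDegree_zero
  one := MvPolynomial.totalDegree_one
  neg a := MvPolynomial.totalDegree_neg a
  add a b := MvPolynomial.totalDegree_add a b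
  mul a b := MvPolynomial.totalDegree_mul a b

/-- the isomorphism splitting off the first variable -/
noncomputable abbrev eqv (n : ℕ) : A (n + 1) ≃ₐ[ℂ] (A n)[X] := MvPolynomial.finSuccEquiv ℂ n

/-- inclusion of the polynomials in the variables `1, …, n` -/
noncomputable abbrev incl (n : ℕ) : A n →ₐ[ℂ] A (n + 1) := MvPolynomial.rename Fin.succ

/-- transport of an absolute value to the polynomial ring in the first variable -/
noncomputable def toPoly {n : ℕ} (W : AbsoluteValue (A (n + 1)) ℝ) :
    AbsoluteValue (A n)[X] ℝ :=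
  W.comp (f := ((eqv n).symm : (A n)[X] →+* A (n + 1))) (eqv n).symm.injective

/-- transport of an absolute value from the polynomial ring in the first variable -/
noncomputable def ofPoly {n : ℕ} (V : AbsoluteValue (A n)[X] ℝ) :
    AbsoluteValue (A (n + 1)) ℝ :=
  V.comp (f := ((eqv n) : A (n + 1) →+* (A n)[X])) (eqv n).injective

@[simp] lemma toPoly_apply {n : ℕ} (W : AbsoluteValue (A (n + 1)) ℝ) (P : (A n)[X]) :
    toPoly W P = W ((eqv n).symm P) := rfl

@[simp] lemma ofPoly_apply {n : ℕ} (V : AbsoluteValue (A n)[X] ℝ) (P : A (n + 1)) :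
    ofPoly V P = V (eqv n P) := rfl

/-- restriction of an absolute value of `B[X]` to `B` -/
noncomputable def resB {B : Type*} [CommRing B] (W : AbsoluteValue B[X] ℝ) : AbsoluteValue B ℝ :=
  W.comp (f := (C : B →+* B[X])) C_injective

@[simp] lemma resB_apply {B : Type*} [CommRing B] (W : AbsoluteValue B[X] ℝ) (b : B) :
    resB W b = W (C b) := rfl

/-- restriction of an absolute value of `A (n+1)` to `A n` (variables `1, …, n`) -/
noncomputable def res {n : ℕ} (W : AbsoluteValue (A (n + 1)) ℝ) : AbsoluteValue (A n) ℝ :=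
  resB (toPoly W)

/-- the smallest defect `W P / W P'` (multiplicative form of `R_i`) -/
noncomputable def Rtop {B : Type*} [CommRing B] (W : AbsoluteValue B[X] ℝ) : ℝ :=
  sInf {r | ∃ P : B[X], derivative P ≠ 0 ∧ r = W P / W (derivative P)}

/-- the smallest defect among polynomials of size at most `c` -/
noncomputable def RtopC {B : Type*} [CommRing B] (S : SizeFn B) (W : AbsoluteValue B[X] ℝ)
    (c : ℕ) : ℝ :=
  sInf {r | ∃ P : B[X], S.poly.s P ≤ c ∧ derivative P ≠ 0 ∧ r = W P / W (derivative P)}

/-- the infimum is attained -/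
def AttTop {B : Type*} [CommRing B] (W : AbsoluteValue B[X] ℝ) : Prop :=
  ∃ P : B[X], derivative P ≠ 0 ∧ W P = Rtop W * W (derivative P)

open Classical in
/-- a minimiser if the infimum is attained, and `X` otherwise -/
noncomputable def minTop {B : Type*} [CommRing B] (W : AbsoluteValue B[X] ℝ) : B[X] :=
  if h : AttTop W then h.choose else X

/-- the numbers `R_i` (multiplicative) -/
noncomputable def Rinf : (n : ℕ) → AbsoluteValue (A n) ℝ → Fin n → ℝ
  | 0, _ => Fin.elim0
  | n + 1, W => Fin.cons (Rtop (toPoly W)) (Rinf n (res W))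

/-- the numbers `R_i(c)` (multiplicative) -/
noncomputable def Rc (c : ℕ) : (n : ℕ) → AbsoluteValue (A n) ℝ → Fin n → ℝ
  | 0, _ => Fin.elim0
  | n + 1, W => Fin.cons (RtopC (sizeA n) (toPoly W) c) (Rc c n (res W))

/-- the level `i` is attained -/
def Att : (n : ℕ) → AbsoluteValue (A n) ℝ → Fin n → Prop
  | 0, _ => Fin.elim0
  | n + 1, W => Fin.cons (AttTop (toPoly W)) (Att n (res W))

/-- the chosen minimisers -/
noncomputable def ymin : (n : ℕ) → AbsoluteValue (A n) ℝ → Fin n → A n
  | 0, _ => Fin.elim0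
  | n + 1, W => Fin.cons ((eqv n).symm (minTop (toPoly W))) (fun i => incl n (ymin n (res W) i))

/-- the Jacobian determinant -/
noncomputable def jac {n : ℕ} (u : Fin n → A n) : A n :=
  Matrix.det (Matrix.of fun i j => MvPolynomial.pderiv j (u i))

/-- fatness -/
def Fat {n : ℕ} (W : AbsoluteValue (A n) ℝ) : Prop := ∀ u : Fin n → A n, W (jac u) ≤ ∏ i, W (u i)

/-- weight of a monomial -/
noncomputable def mw {ι : Type*} (σ : ι → ℝ) (α : ι →₀ ℕ) : ℝ := α.prod fun i k => σ i ^ k

/-- `v` is monomial on `ℂ[U]` with weights `σ` -/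
structure Mono {ι : Type*} {R : Type*} [CommRing R] [Algebra ℂ R] (v : AbsoluteValue R ℝ)
    (U : ι → R) (σ : ι → ℝ) : Prop where
  val : ∀ i, v (U i) = σ i
  pos : ∀ i, 0 < σ i
  le : ∀ (G : MvPolynomial ι ℂ) (α : ι →₀ ℕ), α ∈ G.support →
    mw σ α ≤ v (MvPolynomial.aeval U G)

/-- the value at `F` of the polynomial `a` with coefficients in `ℂ[y]` -/
noncomputable def relv {ι : Type*} {R : Type*} [CommRing R] [Algebra ℂ R] (y : ι → R)
    (a : Polynomial (MvPolynomial ι ℂ)) (F : R) : R :=
  a.eval₂ (MvPolynomial.aeval y : MvPolynomial ι ℂ →ₐ[ℂ] R).toRingHom F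

/-- the degree of the `n`-th iterate -/
noncomputable def dg {d : ℕ} (φ : A d ≃ₐ[ℂ] A d) (n : ℕ) : ℕ :=
  Finset.univ.sup fun i : Fin d => ((φ ^ n) (MvPolynomial.X i)).totalDegree

section Gauss

variable {R : Type*} [CommRing R]

/-- the Gauss absolute value on `R[X]` -/
noncomputable def gaussAV (v : AbsoluteValue R ℝ) (hv : IsNonarchimedean v) (c : ℝ)
    (hc : 0 < c) : AbsoluteValue R[X] ℝ :=
  haveI : IsAbsoluteValue (gaussNorm v c) := gaussNorm_isAbsoluteValue hv hc
  IsAbsoluteValue.toAbsoluteValue (gaussNorm v c)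

lemma gaussAV_apply (v : AbsoluteValue R ℝ) (hv : IsNonarchimedean v) (c : ℝ)
    (hc : 0 < c) (P : R[X]) : gaussAV v hv c hc P = P.gaussNorm v c := rfl

lemma gaussAV_na (v : AbsoluteValue R ℝ) (hv : IsNonarchimedean v) (c : ℝ)
    (hc : 0 < c) : IsNonarchimedean (gaussAV v hv c hc) :=
  isNonarchimedean_gaussNorm v hv hc.le

variable {B : Type*} [CommRing B]

/-- `P ↦ P(X + ξ) = ∑ (hasseDeriv k P) ξ ^ k` -/
noncomputable def shiftHom (B : Type*) [CommRing B] : B[X] →+* B[X][X] :=
  (Polynomial.compRingHom (X + C (X : B[X]))).comp (Polynomial.mapRingHom (C : B →+* B[X]))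

lemma shiftHom_apply (P : B[X]) : shiftHom B P = Polynomial.taylor X (P.map C) := rfl

lemma shiftHom_coeff (P : B[X]) (k : ℕ) : (shiftHom B P).coeff k = hasseDeriv k P := by
  rw [shiftHom_apply, Polynomial.taylor_coeff]
  have h1 : hasseDeriv k (P.map (C : B →+* B[X])) = (hasseDeriv k P).map C := by
    ext i
    simp [hasseDeriv_coeff]
  rw [h1, eval_map, eval₂_C_X]

lemma shiftHom_injective : Function.Injective (shiftHom B) := by
  intro P Q h
  have h0 := congrArg (fun F => F.coeff 0) h
  simpa [shiftHom_coeff] using h0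

/-- the noise absolute value `max_k W (hasseDeriv k P) c ^ k` -/
noncomputable def noise (W : AbsoluteValue B[X] ℝ) (hW : IsNonarchimedean W) (c : ℝ)
    (hc : 0 < c) : AbsoluteValue B[X] ℝ :=
  (gaussAV W hW c hc).comp (f := shiftHom B) shiftHom_injective

lemma noise_apply (W : AbsoluteValue B[X] ℝ) (hW : IsNonarchimedean W) (c : ℝ)
    (hc : 0 < c) (P : B[X]) : noise W hW c hc P = (shiftHom B P).gaussNorm W c := rfl

lemma noise_na (W : AbsoluteValue B[X] ℝ) (hW : IsNonarchimedean W) (c : ℝ)
    (hc : 0 < c) : IsNonarchimedean (noise W hW c hc) := by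
  intro P Q
  rw [noise_apply, noise_apply, noise_apply, map_add]
  exact isNonarchimedean_gaussNorm W hW hc.le _ _

lemma le_noise (W : AbsoluteValue B[X] ℝ) (hW : IsNonarchimedean W) (c : ℝ)
    (hc : 0 < c) (P : B[X]) (k : ℕ) : W (hasseDeriv k P) * c ^ k ≤ noise W hW c hc P := by
  rw [noise_apply, ← shiftHom_coeff]
  exact le_gaussNorm _ _ hc.le _

lemma exists_noise (W : AbsoluteValue B[X] ℝ) (hW : IsNonarchimedean W) (c : ℝ)
    (hc : 0 < c) (P : B[X]) : ∃ k, noise W hW c hc P = W (hasseDeriv k P) * c ^ k := by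
  rw [noise_apply]
  obtain ⟨k, hk⟩ := exists_eq_gaussNorm W c (shiftHom B P)
  exact ⟨k, by rw [hk, shiftHom_coeff]⟩

end Gauss

end Pool.Agent.DaeB
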