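import Pool.Agent.DaeB.NoiseGauss
import Pool.Agent.DaeB.NoiseProps
import Pool.Agent.DaeB.ExistsMin
import Pool.Agent.DaeB.Perturb

/-! # DaeB: one step of the exact tower (package DB14) -/

set_option autoImplicit false

namespace Pool.Agent.DaeB

open Polynomial

/-- `U` = the minimiser of `exists_min` in size `≤ c`, `ρ = RtopC W c`, `V1 = noise W ρ`.
`V1 = W` in size `≤ c` (`noise_eq_of_size`), `V1` has the Gauss property on `B[U]` (`noise_comp`),
`V1 (C b) = W (C b)` (`noise_C`).  Apply `perturb_exact` with `N = c` and `V'`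
(`2 * c ^ 3 * c = 2 * c ^ 4`). -/
theorem exact_step (n : ℕ) (W : AbsoluteValue (A n)[X] ℝ) (hW : IsNonarchimedean W)
    (hT : TrivC W) (c : ℕ) (hc : 1 ≤ c) (V' : AbsoluteValue (A n) ℝ)
    (hV' : IsNonarchimedean V') (hT' : TrivC V')
    (hcl : ∀ b : A n, b.totalDegree ≤ 2 * c ^ 4 → V' b = W (C b)) :
    ∃ (V : AbsoluteValue (A n)[X] ℝ) (U : (A n)[X]), IsNonarchimedean V ∧
      (∀ b, V (C b) = V' b) ∧ (∀ Q : (A n)[X], V (Q.comp U) = Q.gaussNorm V' (V U)) ∧
      derivative U ≠ 0 ∧ (sizeA n).poly.s U ≤ c ∧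
      V U = RtopC (sizeA n) W c * V (derivative U) ∧
      ∀ P : (A n)[X], (sizeA n).poly.s P ≤ c → V P = W P := by
  have hρ : 0 < RtopC (sizeA n) W c := RtopC_pos n W hW hT c hc
  obtain ⟨U, hUs, hUd, hUe, hmin⟩ := exists_min n W hW hT c hc
  have hU0 : U ≠ 0 := by
    rintro rfl
    exact hUd derivative_zero
  have hUn : 1 ≤ U.natDegree := by
    by_contra hlt
    have h0 : U.natDegree = 0 := by omega
    exact hUd (derivative_of_natDegree_zero h0)
  have hC1 : ∀ b : A n, noise W hW _ hρ (C b) = W (C b) := fun b => noise_C W hW _ hρ b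
  have hres : resB (noise W hW _ hρ) = resB W := by
    ext b
    exact hC1 b
  have hN : ∀ P : (A n)[X], (sizeA n).poly.s P ≤ c → noise W hW _ hρ P = W P := fun P hP =>
    noise_eq_of_size W hW _ hρ hT.resZero (sizeA n) c hmin P hP
  obtain ⟨V, hVna, hVC, hVcomp, hVN⟩ := perturb_exact (sizeA n) V' hV' hT'.resZero U c hUn hUs
    (noise W hW _ hρ) (noise_na W hW _ hρ) (noise W hW _ hρ U)
    ((noise W hW _ hρ).pos hU0)
    (fun Q => by rw [hres]; exact noise_comp W hW _ hρ U hUd hUe.le Q) c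
    (fun b hb => by
      rw [hC1]
      refine hcl b ?_
      have h1 : b.totalDegree ≤ 2 * c ^ 3 * c := hb
      calc b.totalDegree ≤ 2 * c ^ 3 * c := h1
        _ = 2 * c ^ 4 := by ring)
  have hVU : V U = noise W hW _ hρ U := hVN U hUs
  refine ⟨V, U, hVna, hVC, fun Q => ?_, hUd, hUs, ?_, fun P hP => ?_⟩
  · rw [hVU]
    exact hVcomp Q
  · have hds : (sizeA n).poly.s (derivative U) ≤ c := (size_derivative (sizeA n) U).trans hUs
    rw [hVU, hN U hUs, hVN _ hds, hN _ hds]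
    exact hUe
  · rw [hVN P hP, hN P hP]

end Pool.Agent.DaeB
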