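import Pool.Agent.DaeB.Defs

/-!
# Transport between `A (n + 1)` and `(A n)[X]` (DB15)
-/

set_option autoImplicit false

namespace Pool.Agent.DaeB

open Polynomial

/-- total degrees correspond -/
theorem size_eqv (n : ℕ) (P : A (n + 1)) : (sizeA n).poly.s (eqv n P) = P.totalDegree := by
  apply le_antisymm
  · refine Finset.sup_le fun k hk => ?_
    exact MvPolynomial.totalDegree_coeff_finSuccEquiv_add_le P k (mem_support_iff.1 hk)
  · refine Finset.sup_le fun m hm => ?_
    have h1 : m.tail ∈ ((eqv n P).coeff (m 0)).support := by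
      rw [MvPolynomial.mem_support_coeff_finSuccEquiv, Finsupp.cons_tail]
      exact hm
    have h2 : (eqv n P).coeff (m 0) ≠ 0 := by
      intro h0
      rw [h0, MvPolynomial.support_zero] at h1
      exact absurd h1 (Finset.notMem_empty _)
    have h3 : ((eqv n P).coeff (m 0)).totalDegree + m 0 ≤ (sizeA n).poly.s (eqv n P) :=
      (sizeA n).poly_coeff_le (eqv n P) (m 0) h2
    have h4 : (m.tail.sum fun _ e => e) ≤ ((eqv n P).coeff (m 0)).totalDegree :=
      MvPolynomial.le_totalDegree h1
    have h5 : (m.sum fun _ e => e) = m 0 + m.tail.sum fun _ e => e := by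
      conv_lhs => rw [← Finsupp.cons_tail m]
      rw [Finsupp.sum_cons]
    rw [h5]
    omega

lemma eqv_incl (n : ℕ) (b : A n) : eqv n (incl n b) = C b := by
  induction b using MvPolynomial.induction_on with
  | C a =>
    have h1 : incl n (MvPolynomial.C a) = MvPolynomial.C a := MvPolynomial.rename_C _ _
    rw [h1]
    exact (eqv n).commutes a
  | add p q hp hq => rw [map_add, map_add, map_add, hp, hq]
  | mul_X p i hp =>
    have h1 : incl n (MvPolynomial.X i) = MvPolynomial.X i.succ := MvPolynomial.rename_X _ _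
    rw [map_mul, map_mul, map_mul, hp, h1, MvPolynomial.finSuccEquiv_X_succ]

lemma eqv_symm_C (n : ℕ) (b : A n) : (eqv n).symm (C b) = incl n b := by
  rw [← eqv_incl, AlgEquiv.symm_apply_apply]

lemma totalDegree_incl (n : ℕ) (b : A n) : (incl n b).totalDegree = b.totalDegree := by
  rw [← size_eqv, eqv_incl]
  apply le_antisymm
  · exact (sizeA n).poly_C b
  · by_cases hb : b = 0
    · rw [hb, MvPolynomial.totalDegree_zero]
      exact Nat.zero_le _
    · have h1 : (C b : (A n)[X]).coeff 0 ≠ 0 := by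
        rw [coeff_C_zero]
        exact hb
      have h2 := (sizeA n).poly_coeff_le (C b) 0 h1
      rw [coeff_C_zero, add_zero] at h2
      exact h2

/-- the derivative in the first variable -/
theorem eqv_pderiv_zero (n : ℕ) (P : A (n + 1)) :
    eqv n (MvPolynomial.pderiv 0 P) = derivative (eqv n P) := by
  induction P using MvPolynomial.induction_on with
  | C a =>
    have h1 : eqv n (MvPolynomial.C a) = C (MvPolynomial.C a) := (eqv n).commutes a
    rw [MvPolynomial.pderiv_C, map_zero, h1, derivative_C]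
  | add p q hp hq => rw [map_add, map_add, map_add, map_add, hp, hq]
  | mul_X p i hp =>
    rw [Derivation.leibniz, map_add, map_mul, derivative_mul, smul_eq_mul, smul_eq_mul, map_mul,
      map_mul, hp]
    refine Fin.cases ?_ (fun j => ?_) i
    · rw [MvPolynomial.pderiv_X_self, MvPolynomial.finSuccEquiv_X_zero, derivative_X, map_one]
      ring
    · rw [MvPolynomial.pderiv_X_of_ne (Fin.succ_ne_zero j),
        MvPolynomial.finSuccEquiv_X_succ, derivative_C, map_zero]
      ring

lemma pderiv_zero_incl (n : ℕ) (b : A n) : MvPolynomial.pderiv 0 (incl n b) = 0 := by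
  apply (eqv n).injective
  rw [eqv_pderiv_zero, eqv_incl, derivative_C, map_zero]

lemma pderiv_succ_incl (n : ℕ) (b : A n) (i : Fin n) :
    MvPolynomial.pderiv i.succ (incl n b) = incl n (MvPolynomial.pderiv i b) :=
  MvPolynomial.pderiv_rename (Fin.succ_injective n) i b

lemma res_apply {n : ℕ} (W : AbsoluteValue (A (n + 1)) ℝ) (b : A n) : res W b = W (incl n b) := by
  change W ((eqv n).symm (C b)) = W (incl n b)
  rw [eqv_symm_C]

lemma toPoly_ofPoly {n : ℕ} (V : AbsoluteValue (A n)[X] ℝ) : toPoly (ofPoly V) = V := by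
  ext P
  rw [toPoly_apply, ofPoly_apply, AlgEquiv.apply_symm_apply]

lemma ofPoly_toPoly {n : ℕ} (W : AbsoluteValue (A (n + 1)) ℝ) : ofPoly (toPoly W) = W := by
  ext P
  rw [ofPoly_apply, toPoly_apply, AlgEquiv.symm_apply_apply]

lemma toPoly_na {n : ℕ} {W : AbsoluteValue (A (n + 1)) ℝ} (hW : IsNonarchimedean W) :
    IsNonarchimedean (toPoly W) := by
  intro P Q
  rw [toPoly_apply, toPoly_apply, toPoly_apply, map_add]
  exact hW _ _

lemma ofPoly_na {n : ℕ} {V : AbsoluteValue (A n)[X] ℝ} (hV : IsNonarchimedean V) :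
    IsNonarchimedean (ofPoly V) := by
  intro P Q
  rw [ofPoly_apply, ofPoly_apply, ofPoly_apply, map_add]
  exact hV _ _

lemma res_na {n : ℕ} {W : AbsoluteValue (A (n + 1)) ℝ} (hW : IsNonarchimedean W) :
    IsNonarchimedean (res W) := by
  intro P Q
  rw [res_apply, res_apply, res_apply, map_add]
  exact hW _ _

lemma res_trivC {n : ℕ} {W : AbsoluteValue (A (n + 1)) ℝ} (hW : TrivC W) : TrivC (res W) := by
  intro z hz
  rw [res_apply, AlgHom.commutes]
  exact hW z hz

lemma toPoly_trivC {n : ℕ} {W : AbsoluteValue (A (n + 1)) ℝ} (hW : TrivC W) :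
    TrivC (toPoly W) := by
  intro z hz
  rw [toPoly_apply, AlgEquiv.commutes]
  exact hW z hz

/-- an absolute value of `(A n)[X]` is trivial on the constants if its restriction is -/
lemma ofPoly_trivC {n : ℕ} {V : AbsoluteValue (A n)[X] ℝ} (hV : TrivC (resB V)) :
    TrivC (ofPoly V) := by
  intro z hz
  rw [ofPoly_apply, AlgEquiv.commutes]
  exact hV z hz

private lemma pt_comp {n : ℕ} (U' : Fin n → A n) (U0 : (A n)[X])
    (G : MvPolynomial (Fin (n + 1)) ℂ) :
    eqv n (MvPolynomial.aeval
      (Fin.cons ((eqv n).symm U0) (fun i => incl n (U' i)) : Fin (n + 1) → A (n + 1)) G) =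
    ((MvPolynomial.finSuccEquiv ℂ n G).map
      (MvPolynomial.aeval U' : MvPolynomial (Fin n) ℂ →ₐ[ℂ] A n).toRingHom).comp U0 := by
  have hC : ∀ a : ℂ, (MvPolynomial.aeval U' : MvPolynomial (Fin n) ℂ →ₐ[ℂ] A n).toRingHom
      (MvPolynomial.C a) = MvPolynomial.C a := fun a => MvPolynomial.aeval_C U' a
  have hX : ∀ j, (MvPolynomial.aeval U' : MvPolynomial (Fin n) ℂ →ₐ[ℂ] A n).toRingHom
      (MvPolynomial.X j) = U' j := fun j => MvPolynomial.aeval_X U' j
  generalize (MvPolynomial.aeval U' : MvPolynomial (Fin n) ℂ →ₐ[ℂ] A n).toRingHom = ev at hC hX ⊢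
  induction G using MvPolynomial.induction_on with
  | C a =>
    rw [MvPolynomial.aeval_C, AlgEquiv.commutes]
    have h1 : MvPolynomial.finSuccEquiv ℂ n (MvPolynomial.C a) = C (MvPolynomial.C a) :=
      (eqv n).commutes a
    rw [h1, Polynomial.map_C, C_comp, hC]
    rfl
  | add p q hp hq =>
    rw [map_add, map_add, map_add, Polynomial.map_add, add_comp, hp, hq]
  | mul_X p i hp =>
    have h1 : eqv n (MvPolynomial.aeval
        (Fin.cons ((eqv n).symm U0) (fun i => incl n (U' i)) : Fin (n + 1) → A (n + 1))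
        (MvPolynomial.X i : MvPolynomial (Fin (n + 1)) ℂ)) =
        ((MvPolynomial.finSuccEquiv ℂ n (MvPolynomial.X i)).map ev).comp U0 := by
      rw [MvPolynomial.aeval_X]
      refine Fin.cases ?_ (fun j => ?_) i
      · rw [Fin.cons_zero, AlgEquiv.apply_symm_apply, MvPolynomial.finSuccEquiv_X_zero,
          Polynomial.map_X, X_comp]
      · rw [Fin.cons_succ, eqv_incl, MvPolynomial.finSuccEquiv_X_succ, Polynomial.map_C, C_comp,
          hX]
    rw [map_mul, map_mul, map_mul, Polynomial.map_mul, mul_comp, hp, h1]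

/-- **monomial valuations, one more variable** -/
theorem mono_cons {n : ℕ} {V : AbsoluteValue (A n)[X] ℝ} {V' : AbsoluteValue (A n) ℝ}
    (hC : ∀ b, V (C b) = V' b) {U' : Fin n → A n} {σ' : Fin n → ℝ} (hM : Mono V' U' σ')
    {U0 : (A n)[X]} (hU0 : U0 ≠ 0) (hG : ∀ Q : (A n)[X], V (Q.comp U0) = Q.gaussNorm V' (V U0)) :
    Mono (ofPoly V) (Fin.cons ((eqv n).symm U0) (fun i => incl n (U' i)) : Fin (n + 1) → A (n + 1))
      (Fin.cons (V U0) σ' : Fin (n + 1) → ℝ) where
  val i := by
    refine Fin.cases ?_ (fun j => ?_) i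
    · rw [Fin.cons_zero, Fin.cons_zero, ofPoly_apply, AlgEquiv.apply_symm_apply]
    · rw [Fin.cons_succ, Fin.cons_succ, ofPoly_apply, eqv_incl, hC]
      exact hM.val j
  pos i := by
    refine Fin.cases ?_ (fun j => ?_) i
    · rw [Fin.cons_zero]
      exact V.pos hU0
    · rw [Fin.cons_succ]
      exact hM.pos j
  le G α hα := by
    rw [ofPoly_apply, pt_comp, hG]
    have h1 : α.tail ∈ ((MvPolynomial.finSuccEquiv ℂ n G).coeff (α 0)).support := by
      rw [MvPolynomial.mem_support_coeff_finSuccEquiv, Finsupp.cons_tail]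
      exact hα
    have h2 := hM.le _ _ h1
    have h3 := le_gaussNorm V' ((MvPolynomial.finSuccEquiv ℂ n G).map
      (MvPolynomial.aeval U' : MvPolynomial (Fin n) ℂ →ₐ[ℂ] A n).toRingHom)
      (V.nonneg U0) (α 0)
    rw [coeff_map] at h3
    refine le_trans ?_ h3
    have h4 : mw (Fin.cons (V U0) σ' : Fin (n + 1) → ℝ) α = mw σ' α.tail * V U0 ^ α 0 := by
      rw [mw, mw, Finsupp.prod_fintype _ _ fun i => pow_zero _,
        Finsupp.prod_fintype _ _ fun i => pow_zero _, Fin.prod_univ_succ, mul_comm]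
      rfl
    rw [h4]
    exact mul_le_mul_of_nonneg_right h2 (pow_nonneg (V.nonneg _) _)

end Pool.Agent.DaeB
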