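import Pool.Agent.DaeB.ExactStep
import Pool.Agent.DaeB.PolyTransport

/-! # DaeB: the exact tower (package DB15b) -/

set_option autoImplicit false

namespace Pool.Agent.DaeB

open Polynomial

/-- in no variables every valuation trivial on the constants is monomial -/
private lemma et_mono_zero (W : AbsoluteValue (A 0) ℝ) (hT : TrivC W) (U : Fin 0 → A 0)
    (σ : Fin 0 → ℝ) : Mono W U σ where
  val i := i.elim0
  pos i := i.elim0
  le G α hα := by
    have hG : G = MvPolynomial.C (G.coeff 0) := MvPolynomial.eq_C_of_isEmpty G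
    have hα0 : α = 0 := Subsingleton.elim _ _
    subst hα0
    have hz : G.coeff 0 ≠ 0 := MvPolynomial.mem_support_iff.1 hα
    rw [hG, MvPolynomial.aeval_C, hT _ hz]
    rw [mw, Finsupp.prod_zero_index]

private lemma et_le (x : ℕ) : x ≤ 2 * x ^ 4 := by
  have h : x ≤ x ^ 4 := Nat.le_self_pow (by norm_num) x
  omega

private lemma et_iter (n : ℕ) (c : ℕ) : c ≤ (fun x => 2 * x ^ 4)^[n] c :=
  Function.id_le_iterate_of_id_le (f := fun x : ℕ => 2 * x ^ 4) et_le n c

/-- Induction on `n`.  For `W` on `A (n+1)` and `c` put `c1 = 2 * c ^ 4`; the induction hypothesis for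
`res W` and `c1` gives `V'`, `U'`, `σ'`, `ρ'`; apply `exact_step` to `toPoly W`, `c`, `V'`.  The new
valuation is `ofPoly V`, `U = Fin.cons ((eqv n).symm U0) (fun i => incl n (U' i))`,
`σ = Fin.cons (V U0) σ'`, `ρ = Fin.cons (RtopC (sizeA n) (toPoly W) c) ρ'` (see `mono_cons`,
`size_eqv`, `eqv_pderiv_zero`, … in `PolyTransport`). -/
theorem exact_tower (n : ℕ) (W : AbsoluteValue (A n) ℝ) (hW : IsNonarchimedean W)
    (hT : TrivC W) (c : ℕ) (hc : 1 ≤ c) :
    ∃ (V : AbsoluteValue (A n) ℝ) (U : Fin n → A n) (σ ρ : Fin n → ℝ),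
      IsNonarchimedean V ∧ TrivC V ∧ Mono V U σ ∧
      (∀ P : A n, P.totalDegree ≤ c → V P = W P) ∧
      (∀ i j : Fin n, j < i → MvPolynomial.pderiv j (U i) = 0) ∧
      (∀ i, 0 < ρ i) ∧
      (∀ i, ρ i * V (MvPolynomial.pderiv i (U i)) = σ i) ∧
      ∀ i, ∃ c' : ℕ, c ≤ c' ∧ c' ≤ (fun x => 2 * x ^ 4)^[n] c ∧ ρ i = Rc c' n W i := by
  induction n generalizing c with
  | zero =>
    exact ⟨W, Fin.elim0, Fin.elim0, Fin.elim0, hW, hT, et_mono_zero W hT _ _, fun _ _ => rfl,
      fun i => i.elim0, fun i => i.elim0, fun i => i.elim0, fun i => i.elim0⟩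
  | succ n ih =>
    have hc1 : 1 ≤ 2 * c ^ 4 := hc.trans (et_le c)
    obtain ⟨V', U', σ', ρ', hna', hT', hM', hcl', htri', hpos', hdef', hRc'⟩ :=
      ih (res W) (res_na hW) (res_trivC hT) (2 * c ^ 4) hc1
    obtain ⟨V, U0, hna, hVC, hG, hdU, -, hVU, hcl⟩ :=
      exact_step n (toPoly W) (toPoly_na hW) (toPoly_trivC hT) c hc V' hna' hT'
        (fun b hb => hcl' b hb)
    have hU0 : U0 ≠ 0 := by
      intro h
      exact hdU (by rw [h, derivative_zero])
    have hR : 0 < RtopC (sizeA n) (toPoly W) c := by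
      have h1 : 0 < V U0 := V.pos hU0
      have h2 : 0 < V (derivative U0) := V.pos hdU
      rw [hVU] at h1
      exact (pos_iff_pos_of_mul_pos h1).2 h2
    refine ⟨ofPoly V, Fin.cons ((eqv n).symm U0) (fun i => incl n (U' i)), Fin.cons (V U0) σ',
      Fin.cons (RtopC (sizeA n) (toPoly W) c) ρ', ofPoly_na hna, ?_,
      mono_cons hVC hM' hU0 hG, ?_, ?_, ?_, ?_, ?_⟩
    · apply ofPoly_trivC
      intro z hz
      rw [resB_apply, hVC]
      exact hT' z hz
    · intro P hP
      rw [ofPoly_apply, hcl _ (by rw [size_eqv]; exact hP), toPoly_apply,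
        AlgEquiv.symm_apply_apply]
    · intro i j hij
      revert hij
      refine Fin.cases ?_ (fun i => ?_) i
      · intro h
        exact absurd h (Fin.not_lt_zero j)
      · refine Fin.cases ?_ (fun j => ?_) j
        · intro _
          rw [Fin.cons_succ]
          exact pderiv_zero_incl n _
        · intro h
          rw [Fin.cons_succ, pderiv_succ_incl, htri' i j (Fin.succ_lt_succ_iff.1 h), map_zero]
    · intro i
      refine Fin.cases ?_ (fun i => ?_) i
      · rw [Fin.cons_zero]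
        exact hR
      · rw [Fin.cons_succ]
        exact hpos' i
    · intro i
      refine Fin.cases ?_ (fun i => ?_) i
      · rw [Fin.cons_zero, Fin.cons_zero, Fin.cons_zero, ofPoly_apply, eqv_pderiv_zero,
          AlgEquiv.apply_symm_apply]
        exact hVU.symm
      · rw [Fin.cons_succ, Fin.cons_succ, Fin.cons_succ, pderiv_succ_incl, ofPoly_apply, eqv_incl,
          hVC]
        exact hdef' i
    · intro i
      refine Fin.cases ?_ (fun i => ?_) i
      · exact ⟨c, le_rfl, et_iter (n + 1) c, rfl⟩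
      · obtain ⟨c', h1, h2, h3⟩ := hRc' i
        refine ⟨c', (et_le c).trans h1, ?_, ?_⟩
        · rw [Function.iterate_succ_apply]
          exact h2
        · rw [Fin.cons_succ, h3]
          rfl

end Pool.Agent.DaeB
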