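import Pool.Agent.DaeB.Defs
import Pool.Agent.DAE.X.Tame
import Pool.Agent.DAE.X.Frac

/-! # DaeB: extension to an algebraically closed field (from the library `DAE/X`) -/

set_option autoImplicit false

namespace Pool.Agent.DaeB

open Polynomial

/-- an `AbsoluteValue` of residue characteristic zero is an `NAbs` -/
lemma nabs {R : Type*} [CommRing R] (v : AbsoluteValue R ℝ) (hv : IsNonarchimedean v)
    (h0 : ResZero v) : DAE.NAbs (v : R → ℝ) where
  nonneg := v.nonneg
  eq_zero x h := v.eq_zero.1 h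
  zero := v.map_zero
  mul := v.map_mul
  add := hv
  nat := h0

/-- an algebraically closed valued extension -/
theorem exists_algClosed_ext {k : Type} [Field k] (v : AbsoluteValue k ℝ)
    (hv : IsNonarchimedean v) (h0 : ResZero v) :
    ∃ (Ω : Type) (_ : Field Ω) (_ : IsAlgClosed Ω) (_ : Algebra k Ω) (w : AbsoluteValue Ω ℝ),
      IsNonarchimedean w ∧ ∀ x : k, w (algebraMap k Ω x) = v x := by
  obtain ⟨Ω, h1, h2, h3, w, hw, hwv, -⟩ := (nabs v hv h0).exists_closure
  exact ⟨Ω, h1, h2, h3, hw.toAbs, hw.add, hwv⟩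

/-- extend `v` to the fraction field by `|a / b| = |a| / |b|` and use `exists_algClosed_ext` -/
theorem exists_algClosed_hom {B : Type} [CommRing B] [IsDomain B] (v : AbsoluteValue B ℝ)
    (hv : IsNonarchimedean v) (h0 : ResZero v) :
    ∃ (Ω : Type) (_ : Field Ω) (_ : IsAlgClosed Ω) (f : B →+* Ω) (w : AbsoluteValue Ω ℝ),
      IsNonarchimedean w ∧ ∀ x : B, w (f x) = v x := by
  obtain ⟨u, hu, huv⟩ := (nabs v hv h0).exists_frac (K := FractionRing B)
  obtain ⟨Ω, h1, h2, h3, w, hw, hwv, -⟩ := hu.exists_closure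
  refine ⟨Ω, h1, h2, (algebraMap (FractionRing B) Ω).comp (algebraMap B (FractionRing B)),
    hw.toAbs, hw.add, fun x => ?_⟩
  change w _ = _
  rw [RingHom.comp_apply, hwv, huv]

end Pool.Agent.DaeB
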