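import Pool.Agent.DaeB.Defs

/-! # DaeB: roots near a tropical root (package DB05) -/

set_option autoImplicit false

namespace Pool.Agent.DaeB

open Polynomial

private lemma newton_sub_le {Ω : Type*} [Field Ω] (w : AbsoluteValue Ω ℝ)
    (hw : IsNonarchimedean w) (x y : Ω) : w (x - y) ≤ max (w x) (w y) := by
  have h := hw x (-y)
  rwa [← sub_eq_add_neg, w.map_neg] at h

private lemma newton_sub_eq {Ω : Type*} [Field Ω] (w : AbsoluteValue Ω ℝ)
    (hw : IsNonarchimedean w) (x y : Ω) (h : w y < w x) : w (x - y) = w x := by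
  apply le_antisymm
  · exact (newton_sub_le w hw x y).trans (max_le le_rfl h.le)
  · have h1 := hw (x - y) y
    rw [sub_add_cancel] at h1
    rcases le_max_iff.1 h1 with h2 | h2
    · exact h2
    · exact absurd h2 (not_le.2 h)

private lemma newton_sub_eq' {Ω : Type*} [Field Ω] (w : AbsoluteValue Ω ℝ)
    (hw : IsNonarchimedean w) (x y : Ω) (h : w x < w y) : w (x - y) = w y := by
  rw [w.map_sub]
  exact newton_sub_eq w hw y x h

/-- the strict form of the Newton polygon away from the radius `θ` -/
private lemma newton_aux {Ω : Type*} [Field Ω] (w : AbsoluteValue Ω ℝ)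
    (hw : IsNonarchimedean w) (l : Ω) (hl : l ≠ 0) (θ e : ℝ) (hθ : 0 < θ) (he : 1 ≤ e)
    (s : Multiset Ω) :
    (∀ r ∈ s, w r * e < θ ∨ θ * e < w r) →
    ∃ j, 0 < w ((C l * (s.map fun r => X - C r).prod).coeff j) ∧
      ∀ k, k ≠ j → w ((C l * (s.map fun r => X - C r).prod).coeff k) * θ ^ k * e <
        w ((C l * (s.map fun r => X - C r).prod).coeff j) * θ ^ j := by
  induction s using Multiset.induction_on with
  | empty =>
    intro _
    refine ⟨0, by simpa using hl, fun k hk => ?_⟩
    have : w l * θ ^ 0 > 0 := by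
      rw [pow_zero, mul_one]; exact w.pos hl
    simpa [coeff_C, hk] using this
  | cons r s ih =>
    intro hs
    obtain ⟨j, hj, hk⟩ := ih fun x hx => hs x (Multiset.mem_cons_of_mem hx)
    set P := C l * (s.map fun r => X - C r).prod with hP
    have hP' : C l * ((r ::ₘ s).map fun r => X - C r).prod = (X - C r) * P := by
      rw [Multiset.map_cons, Multiset.prod_cons, hP]; ring
    rw [hP']
    clear hP' hP
    clear_value P
    have c0 : ((X - C r) * P).coeff 0 = 0 - r * P.coeff 0 := by
      rw [sub_mul, coeff_sub, coeff_X_mul_zero, coeff_C_mul]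
    have cs : ∀ k, ((X - C r) * P).coeff (k + 1) = P.coeff k - r * P.coeff (k + 1) := by
      intro k
      rw [sub_mul, coeff_sub, coeff_X_mul, coeff_C_mul]
    have he0 : 0 < e := lt_of_lt_of_le one_pos he
    have hr0 : 0 ≤ w r := w.nonneg r
    have hpw : ∀ k, 0 < θ ^ k := fun k => pow_pos hθ k
    have hb : ∀ k, 0 ≤ w (P.coeff k) := fun k => w.nonneg _
    have hL : 0 < w (P.coeff j) * θ ^ j := mul_pos hj (hpw j)
    rcases hs r (Multiset.mem_cons_self r s) with hr | hr
    · -- small root
      have e1 : w r * w (P.coeff (j + 1)) < w (P.coeff j) := by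
        have h1 := hk (j + 1) (by omega)
        have h2 : w (P.coeff (j + 1)) * θ < w (P.coeff j) := by
          have h3 : w (P.coeff (j + 1)) * θ ^ (j + 1) ≤
              w (P.coeff (j + 1)) * θ ^ (j + 1) * e :=
            le_mul_of_one_le_right (mul_nonneg (hb _) (hpw _).le) he
          have h4 := h3.trans_lt h1
          rw [pow_succ', ← mul_assoc] at h4
          exact lt_of_mul_lt_mul_right h4 (hpw j).le
        have h5 : w r ≤ θ := by
          have : w r ≤ w r * e := le_mul_of_one_le_right hr0 he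
          linarith
        calc w r * w (P.coeff (j + 1)) ≤ θ * w (P.coeff (j + 1)) :=
              mul_le_mul_of_nonneg_right h5 (hb _)
          _ < w (P.coeff j) := by rw [mul_comm]; exact h2
      have e2 : w (((X - C r) * P).coeff (j + 1)) = w (P.coeff j) := by
        rw [cs, newton_sub_eq w hw _ _ (by rw [w.map_mul]; exact e1)]
      refine ⟨j + 1, by rw [e2]; exact hj, fun k hkj => ?_⟩
      rw [e2]
      -- the second term
      have t2 : w r * w (P.coeff k) * θ ^ k * e < w (P.coeff j) * θ ^ (j + 1) := by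
        by_cases hkj' : k = j
        · subst hkj'
          calc w r * w (P.coeff k) * θ ^ k * e = (w (P.coeff k) * θ ^ k) * (w r * e) := by ring
            _ < (w (P.coeff k) * θ ^ k) * θ := mul_lt_mul_of_pos_left hr hL
            _ = w (P.coeff k) * θ ^ (k + 1) := by ring
        · have h1 := hk k hkj'
          have h5 : w r ≤ θ := by
            have : w r ≤ w r * e := le_mul_of_one_le_right hr0 he
            linarith
          calc w r * w (P.coeff k) * θ ^ k * e = w r * (w (P.coeff k) * θ ^ k * e) := by ring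
            _ ≤ θ * (w (P.coeff k) * θ ^ k * e) :=
              mul_le_mul_of_nonneg_right h5
                (mul_nonneg (mul_nonneg (hb _) (hpw _).le) he0.le)
            _ < θ * (w (P.coeff j) * θ ^ j) := mul_lt_mul_of_pos_left h1 hθ
            _ = w (P.coeff j) * θ ^ (j + 1) := by ring
      rcases Nat.eq_zero_or_pos k with hk0 | hk0
      · subst hk0
        rw [c0, zero_sub, w.map_neg, w.map_mul]
        exact t2
      · obtain ⟨m, rfl⟩ : ∃ m, k = m + 1 := ⟨k - 1, by omega⟩
        rw [cs]
        have hm : m ≠ j := by omega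
        have t1 : w (P.coeff m) * θ ^ (m + 1) * e < w (P.coeff j) * θ ^ (j + 1) := by
          calc w (P.coeff m) * θ ^ (m + 1) * e = θ * (w (P.coeff m) * θ ^ m * e) := by ring
            _ < θ * (w (P.coeff j) * θ ^ j) := mul_lt_mul_of_pos_left (hk m hm) hθ
            _ = w (P.coeff j) * θ ^ (j + 1) := by ring
        have h6 := newton_sub_le w hw (P.coeff m) (r * P.coeff (m + 1))
        rw [w.map_mul] at h6
        rcases le_max_iff.1 h6 with h7 | h7
        · refine lt_of_le_of_lt ?_ t1
          exact mul_le_mul_of_nonneg_right (mul_le_mul_of_nonneg_right h7 (hpw _).le) he0.le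
        · refine lt_of_le_of_lt ?_ t2
          exact mul_le_mul_of_nonneg_right (mul_le_mul_of_nonneg_right h7 (hpw _).le) he0.le
    · -- big root
      have hθr : θ < w r := by
        have : θ ≤ θ * e := le_mul_of_one_le_right hθ.le he
        linarith
      have hrpos : 0 < w r := hθ.trans hθr
      have e2 : w (((X - C r) * P).coeff j) = w r * w (P.coeff j) := by
        rcases Nat.eq_zero_or_pos j with hj0 | hj0
        · subst hj0
          rw [c0, zero_sub, w.map_neg, w.map_mul]
        · obtain ⟨m, rfl⟩ : ∃ m, j = m + 1 := ⟨j - 1, by omega⟩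
          rw [cs, newton_sub_eq' w hw, w.map_mul]
          rw [w.map_mul]
          have h1 := hk m (by omega)
          have h2 : w (P.coeff m) * θ ^ m ≤ w (P.coeff m) * θ ^ m * e :=
            le_mul_of_one_le_right (mul_nonneg (hb _) (hpw _).le) he
          have h3 := h2.trans_lt h1
          rw [pow_succ', ← mul_assoc] at h3
          have h4 := lt_of_mul_lt_mul_right h3 (hpw m).le
          calc w (P.coeff m) < w (P.coeff (m + 1)) * θ := h4
            _ ≤ w (P.coeff (m + 1)) * w r := mul_le_mul_of_nonneg_left hθr.le (hb _)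
            _ = w r * w (P.coeff (m + 1)) := mul_comm _ _
      refine ⟨j, by rw [e2]; exact mul_pos hrpos hj, fun k hkj => ?_⟩
      rw [e2]
      have t2 : w r * w (P.coeff k) * θ ^ k * e < w r * w (P.coeff j) * θ ^ j := by
        calc w r * w (P.coeff k) * θ ^ k * e = w r * (w (P.coeff k) * θ ^ k * e) := by ring
          _ < w r * (w (P.coeff j) * θ ^ j) := mul_lt_mul_of_pos_left (hk k hkj) hrpos
          _ = w r * w (P.coeff j) * θ ^ j := by ring
      rcases Nat.eq_zero_or_pos k with hk0 | hk0
      · subst hk0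
        rw [c0, zero_sub, w.map_neg, w.map_mul]
        exact t2
      · obtain ⟨m, rfl⟩ : ∃ m, k = m + 1 := ⟨k - 1, by omega⟩
        rw [cs]
        have t1 : w (P.coeff m) * θ ^ (m + 1) * e < w r * w (P.coeff j) * θ ^ j := by
          by_cases hm : m = j
          · subst hm
            calc w (P.coeff m) * θ ^ (m + 1) * e = (w (P.coeff m) * θ ^ m) * (θ * e) := by ring
              _ < (w (P.coeff m) * θ ^ m) * w r := mul_lt_mul_of_pos_left hr hL
              _ = w r * w (P.coeff m) * θ ^ m := by ring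
          · calc w (P.coeff m) * θ ^ (m + 1) * e = θ * (w (P.coeff m) * θ ^ m * e) := by ring
              _ < θ * (w (P.coeff j) * θ ^ j) := mul_lt_mul_of_pos_left (hk m hm) hθ
              _ ≤ w r * (w (P.coeff j) * θ ^ j) := mul_le_mul_of_nonneg_right hθr.le hL.le
              _ = w r * w (P.coeff j) * θ ^ j := by ring
        have h6 := newton_sub_le w hw (P.coeff m) (r * P.coeff (m + 1))
        rw [w.map_mul] at h6
        rcases le_max_iff.1 h6 with h7 | h7
        · refine lt_of_le_of_lt ?_ t1
          exact mul_le_mul_of_nonneg_right (mul_le_mul_of_nonneg_right h7 (hpw _).le) he0.le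
        · refine lt_of_le_of_lt ?_ t2
          exact mul_le_mul_of_nonneg_right (mul_le_mul_of_nonneg_right h7 (hpw _).le) he0.le

/-- Put `E = exp η ≥ 1`.  Suppose no root has `θ E^-2 ≤ |r| ≤ θ E^2`.  Let `j` be the number of
roots with `|r| < θ E^-2` and `Λ` the product of `|l|` and all the `|r|` with `|r| > θ E^2`.  Then
`|c_j| = Λ` and for `k ≠ j` : `|c_k| θ^k E^2 < Λ θ^j` (induction over the roots).
Hence `a_k θ^k ≤ E |c_k| θ^k < E^-1 Λ θ^j ≤ a_j θ^j` for all `k ≠ j`, contradicting `htrop`. -/
theorem root_near {Ω : Type*} [Field Ω] (w : AbsoluteValue Ω ℝ) (hw : IsNonarchimedean w)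
    (l : Ω) (hl : l ≠ 0) (s : Multiset Ω) (a : ℕ → ℝ) (θ η : ℝ) (hθ : 0 < θ) (hη : 0 ≤ η)
    (h0 : ∀ k, (C l * (s.map fun r => X - C r).prod).coeff k = 0 → a k = 0)
    (h1 : ∀ k, (C l * (s.map fun r => X - C r).prod).coeff k ≠ 0 → 0 < a k ∧
      |Real.log (w ((C l * (s.map fun r => X - C r).prod).coeff k)) - Real.log (a k)| ≤ η)
    (htrop : ∀ j, a j ≠ 0 → ∃ k, k ≠ j ∧ a j * θ ^ j ≤ a k * θ ^ k) :
    ∃ r ∈ s, r ≠ 0 ∧ |Real.log (w r) - Real.log θ| ≤ 2 * η := by
  by_contra hcon
  push Not at hcon
  have hs : ∀ r ∈ s, w r * Real.exp (2 * η) < θ ∨ θ * Real.exp (2 * η) < w r := by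
    intro r hr
    by_cases hr0 : r = 0
    · left
      rw [hr0, w.map_zero, zero_mul]
      exact hθ
    · have h2 := hcon r hr hr0
      have hwr : 0 < w r := w.pos hr0
      rcases lt_abs.1 h2 with h3 | h3
      · right
        have h4 : Real.log (θ * Real.exp (2 * η)) < Real.log (w r) := by
          rw [Real.log_mul hθ.ne' (Real.exp_pos _).ne', Real.log_exp]
          linarith
        exact (Real.log_lt_log_iff (mul_pos hθ (Real.exp_pos _)) hwr).1 h4
      · left
        have h4 : Real.log (w r * Real.exp (2 * η)) < Real.log θ := by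
          rw [Real.log_mul hwr.ne' (Real.exp_pos _).ne', Real.log_exp]
          linarith
        exact (Real.log_lt_log_iff (mul_pos hwr (Real.exp_pos _)) hθ).1 h4
  obtain ⟨j, hj, hk⟩ := newton_aux w hw l hl θ (Real.exp (2 * η)) hθ
    (Real.one_le_exp (by linarith)) s hs
  set c := fun k => (C l * (s.map fun r => X - C r).prod).coeff k with hc
  change ∀ k, c k = 0 → a k = 0 at h0
  change ∀ k, c k ≠ 0 → 0 < a k ∧ |Real.log (w (c k)) - Real.log (a k)| ≤ η at h1
  change 0 < w (c j) at hj
  change ∀ k, k ≠ j → w (c k) * θ ^ k * Real.exp (2 * η) < w (c j) * θ ^ j at hk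
  have hcj : c j ≠ 0 := fun h => by
    rw [h, w.map_zero] at hj
    exact lt_irrefl _ hj
  obtain ⟨haj, hlj⟩ := h1 j hcj
  obtain ⟨k, hkj, hle⟩ := htrop j haj.ne'
  have hpw : ∀ k, 0 < θ ^ k := fun k => pow_pos hθ k
  have hakpos : 0 < a k * θ ^ k := lt_of_lt_of_le (mul_pos haj (hpw j)) hle
  have hak : a k ≠ 0 := fun h => by
    rw [h, zero_mul] at hakpos
    exact lt_irrefl _ hakpos
  have hck : c k ≠ 0 := fun h => hak (h0 k h)
  obtain ⟨hak', hlk⟩ := h1 k hck
  have hwk : 0 < w (c k) := w.pos hck
  have b1 : w (c j) ≤ a j * Real.exp η := by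
    have h4 : Real.log (w (c j)) ≤ Real.log (a j * Real.exp η) := by
      rw [Real.log_mul haj.ne' (Real.exp_pos _).ne', Real.log_exp]
      have := (abs_le.1 hlj).2
      linarith
    exact (Real.log_le_log_iff hj (mul_pos haj (Real.exp_pos _))).1 h4
  have b2 : a k ≤ w (c k) * Real.exp η := by
    have h4 : Real.log (a k) ≤ Real.log (w (c k) * Real.exp η) := by
      rw [Real.log_mul hwk.ne' (Real.exp_pos _).ne', Real.log_exp]
      have := (abs_le.1 hlk).1
      linarith
    exact (Real.log_le_log_iff hak' (mul_pos hwk (Real.exp_pos _))).1 h4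
  have hkk := hk k hkj
  have hexp : Real.exp (2 * η) = Real.exp η * Real.exp η := by
    rw [← Real.exp_add]; congr 1; ring
  have he := Real.exp_pos η
  have f1 : w (c j) * θ ^ j ≤ a j * θ ^ j * Real.exp η := by
    calc w (c j) * θ ^ j ≤ a j * Real.exp η * θ ^ j :=
          mul_le_mul_of_nonneg_right b1 (hpw j).le
      _ = a j * θ ^ j * Real.exp η := by ring
  have f2 : a j * θ ^ j * Real.exp η ≤ w (c k) * θ ^ k * Real.exp (2 * η) := by
    calc a j * θ ^ j * Real.exp η ≤ a k * θ ^ k * Real.exp η :=
          mul_le_mul_of_nonneg_right hle he.le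
      _ ≤ w (c k) * Real.exp η * θ ^ k * Real.exp η :=
          mul_le_mul_of_nonneg_right (mul_le_mul_of_nonneg_right b2 (hpw k).le) he.le
      _ = w (c k) * θ ^ k * Real.exp (2 * η) := by rw [hexp]; ring
  linarith

end Pool.Agent.DaeB
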