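import Pool.Agent.DaeB.Defs

/-! # DaeB: the polynomial of the conjugates of `P` over `B[U]` (package DB06) -/

set_option autoImplicit false

namespace Pool.Agent.DaeB

open Polynomial

/-- the size of the largest coefficient, as a size function on `B[X]` -/
private noncomputable def psiCoef {B : Type*} [CommRing B] (S : SizeFn B) : SizeFn B[X] where
  s P := P.support.sup fun k => S.s (P.coeff k)
  zero := by simp
  one := by
    classical
    refine Nat.eq_zero_of_le_zero (Finset.sup_le fun k _ => ?_)
    rw [coeff_one]
    split_ifs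
    · simp [S.one]
    · simp [S.zero]
  neg P := by
    simp only [support_neg, coeff_neg, S.neg]
  add P Q := by
    have h1 : ∀ (P : B[X]) (k : ℕ), S.s (P.coeff k) ≤ P.support.sup fun k => S.s (P.coeff k) := by
      intro P k
      by_cases h : P.coeff k = 0
      · simp [h, S.zero]
      · exact Finset.le_sup (f := fun k => S.s (P.coeff k)) (mem_support_iff.2 h)
    refine Finset.sup_le fun k _ => ?_
    rw [coeff_add]
    exact (S.add _ _).trans (max_le_max (h1 P k) (h1 Q k))
  mul P Q := by
    have h1 : ∀ (P : B[X]) (k : ℕ), S.s (P.coeff k) ≤ P.support.sup fun k => S.s (P.coeff k) := by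
      intro P k
      by_cases h : P.coeff k = 0
      · simp [h, S.zero]
      · exact Finset.le_sup (f := fun k => S.s (P.coeff k)) (mem_support_iff.2 h)
    refine Finset.sup_le fun k _ => ?_
    rw [coeff_mul]
    refine S.sum_le _ _ _ fun ij _ => ?_
    exact (S.mul _ _).trans (Nat.add_le_add (h1 P ij.1) (h1 Q ij.2))

private lemma psiCoef_coeff {B : Type*} [CommRing B] (S : SizeFn B) (P : B[X]) (k : ℕ) :
    S.s (P.coeff k) ≤ (psiCoef S).s P := by
  by_cases h : P.coeff k = 0
  · simp [h, S.zero]
  · exact Finset.le_sup (f := fun k => S.s (P.coeff k)) (mem_support_iff.2 h)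

private lemma psiCoef_le {B : Type*} [CommRing B] (S : SizeFn B) (P : B[X]) (m : ℕ)
    (h : ∀ k, S.s (P.coeff k) ≤ m) : (psiCoef S).s P ≤ m :=
  Finset.sup_le fun k _ => h k

private lemma psiCoef_C {B : Type*} [CommRing B] (S : SizeFn B) (b : B) :
    (psiCoef S).s (C b) ≤ S.s b := by
  classical
  refine psiCoef_le S _ _ fun k => ?_
  rw [coeff_C]
  split_ifs
  · exact le_rfl
  · simp [S.zero]

private lemma psiCoef_X {B : Type*} [CommRing B] (S : SizeFn B) :
    (psiCoef S).s (X : B[X]) = 0 := by
  classical
  refine Nat.eq_zero_of_le_zero (psiCoef_le S _ _ fun k => ?_)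
  rw [coeff_X]
  split_ifs
  · simp [S.one]
  · simp [S.zero]

private lemma psi_sub {B : Type*} [CommRing B] (S : SizeFn B) (a b : B) :
    S.s (a - b) ≤ max (S.s a) (S.s b) := by
  rw [sub_eq_add_neg]
  exact (S.add _ _).trans (by rw [S.neg])

private lemma psi_det_le {R : Type*} [CommRing R] (T : SizeFn R) {ι : Type*} [Fintype ι]
    [DecidableEq ι] (M : Matrix ι ι R) (b : ι → ℕ) (h : ∀ i j, T.s (M i j) ≤ b j) :
    T.s M.det ≤ ∑ j, b j := by
  rw [Matrix.det_apply]
  refine T.sum_le _ _ _ fun σ _ => ?_
  have h1 : T.s (∏ i, M (σ i) i) ≤ ∑ j, b j :=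
    (T.prod_le _ _).trans (Finset.sum_le_sum fun i _ => h _ _)
  rcases Int.units_eq_one_or (Equiv.Perm.sign σ) with hs | hs
  · rw [hs, one_smul]
    exact h1
  · rw [hs, Units.neg_smul, one_smul, T.neg]
    exact h1

/-- size of the resultant -/
private lemma psi_resultant_le {R : Type*} [CommRing R] (T : SizeFn R) (f g : R[X]) (m n c p : ℕ)
    (hf : ∀ i, T.s (f.coeff i) ≤ c) (hg : ∀ i, T.s (g.coeff i) ≤ p) :
    T.s (resultant f g m n) ≤ m * p + n * c := by
  have h := psi_det_le T (sylvester f g m n) (Fin.addCases (fun _ => p) (fun _ => c)) (by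
    intro i j
    refine Fin.addCases (fun j => ?_) (fun j => ?_) j
    · simp only [sylvester, Matrix.of_apply, Fin.addCases_left]
      split_ifs
      · exact hg _
      · simp [T.zero]
    · simp only [sylvester, Matrix.of_apply, Fin.addCases_right]
      split_ifs
      · exact hf _
      · simp [T.zero])
  refine h.trans (le_of_eq ?_)
  rw [Fin.sum_univ_add]
  simp

/-- `Ψ(Y) = Res_x (U(x) - u, Y - P(x))` where `u` is the variable of the coefficient ring `B[X]`.
Precisely, in `B[X][X][X]` (outer variable `x`, middle variable `Y`, inner variable `u`) take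
`f = U.map (C.comp C) - C (C X)`, `g = C X - P.map (C.comp C)`,
`Ψ = resultant f g U.natDegree P.natDegree`.
* sizes: the coefficient size `max` over coefficients is again a size function; a product along a
  permutation of the Sylvester matrix has `natDegree P ≤ size P` entries from `f` (size `≤ c`) and
  `natDegree U ≤ c` entries from `g` (size `≤ size P`);
* `Ψ.eval₂ (compRingHom U) P = 0`: `exists_mul_add_mul_eq_C_resultant`, substitute `x ↦ X`, `u ↦ U`,
  `Y ↦ P`;
* splitting: map by `ψ` (`resultant_map_map`) and use `resultant_eq_prod_eval` in `Ω[Y]`;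
  `l' = (leading coefficient) ^ natDegree P`. -/
theorem exists_psi {B : Type} [CommRing B] [IsDomain B] (S : SizeFn B) (U : B[X]) (c : ℕ)
    (hU : 1 ≤ U.natDegree) (hc : S.poly.s U ≤ c) (P : B[X]) :
    ∃ Ψ : B[X][X],
      (∀ k l, S.s ((Ψ.coeff k).coeff l) ≤ 2 * c * S.poly.s P) ∧
      Ψ.eval₂ (compRingHom U) P = 0 ∧
      ∀ {Ω : Type} [Field Ω] (ψ : B[X] →+* Ω), Function.Injective ψ →
        ∀ (l : Ω) (s : Multiset Ω), l ≠ 0 →
          U.map (ψ.comp C) - C (ψ X) = C l * (s.map fun r => X - C r).prod →
          ∃ l' : Ω, l' ≠ 0 ∧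
            Ψ.map ψ = C l' * (s.map fun r => X - C ((P.map (ψ.comp C)).eval r)).prod := by
  classical
  obtain ⟨f, hf⟩ : ∃ f : B[X][X][X], f = U.map ((C : B[X] →+* B[X][X]).comp C) - C (C X) :=
    ⟨_, rfl⟩
  obtain ⟨g, hg⟩ : ∃ g : B[X][X][X], g = C X - P.map ((C : B[X] →+* B[X][X]).comp C) :=
    ⟨_, rfl⟩
  have hfd : f.natDegree ≤ U.natDegree := by
    rw [hf]
    refine (natDegree_sub_le _ _).trans (max_le natDegree_map_le ?_)
    rw [natDegree_C]
    exact Nat.zero_le _
  have hgd : g.natDegree ≤ P.natDegree := by
    rw [hg]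
    refine (natDegree_sub_le _ _).trans (max_le ?_ natDegree_map_le)
    rw [natDegree_C]
    exact Nat.zero_le _
  refine ⟨resultant f g U.natDegree P.natDegree, ?_, ?_, ?_⟩
  · intro k l
    have hT := psi_resultant_le (psiCoef (psiCoef S)) f g U.natDegree P.natDegree c (S.poly.s P)
      (by
        intro i
        rw [hf, coeff_sub, coeff_map, coeff_C]
        refine (psi_sub _ _ _).trans (max_le ?_ ?_)
        · rw [RingHom.comp_apply]
          refine (psiCoef_C _ _).trans ((psiCoef_C _ _).trans ?_)
          by_cases h0 : U.coeff i = 0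
          · simp [h0, S.zero]
          · exact (Nat.le_add_right _ i).trans ((S.poly_coeff_le U i h0).trans hc)
        · split_ifs
          · refine (psiCoef_C _ _).trans ?_
            rw [psiCoef_X]
            exact Nat.zero_le _
          · rw [(psiCoef (psiCoef S)).zero]
            exact Nat.zero_le _)
      (by
        intro i
        rw [hg, coeff_sub, coeff_map, coeff_C]
        refine (psi_sub _ _ _).trans (max_le ?_ ?_)
        · split_ifs
          · rw [psiCoef_X]
            exact Nat.zero_le _
          · rw [(psiCoef (psiCoef S)).zero]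
            exact Nat.zero_le _
        · rw [RingHom.comp_apply]
          refine (psiCoef_C _ _).trans ((psiCoef_C _ _).trans ?_)
          by_cases h0 : P.coeff i = 0
          · simp [h0, S.zero]
          · exact (Nat.le_add_right _ i).trans (S.poly_coeff_le P i h0))
    have h1 := (psiCoef_coeff S ((resultant f g U.natDegree P.natDegree).coeff k) l).trans
      ((psiCoef_coeff (psiCoef S) (resultant f g U.natDegree P.natDegree) k).trans hT)
    have h2 : U.natDegree ≤ c := (S.natDegree_le U).trans hc
    have h3 : P.natDegree ≤ S.poly.s P := S.natDegree_le P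
    calc _ ≤ U.natDegree * S.poly.s P + P.natDegree * c := h1
      _ ≤ c * S.poly.s P + S.poly.s P * c := by gcongr
      _ = 2 * c * S.poly.s P := by ring
  · obtain ⟨p, q, -, -, hpq⟩ := exists_mul_add_mul_eq_C_resultant f g hfd hgd
      (Or.inl (by omega : U.natDegree ≠ 0))
    have h := congrArg (eval₂RingHom (eval₂RingHom (compRingHom U) P) X) hpq
    rw [map_add, map_mul, map_mul] at h
    have hCC : (eval₂RingHom (compRingHom U) P).comp ((C : B[X] →+* B[X][X]).comp C) = C := by
      refine RingHom.ext fun b => ?_
      rw [RingHom.comp_apply, RingHom.comp_apply, coe_eval₂RingHom, eval₂_C,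
        coe_compRingHom_apply, C_comp]
    have hf0 : eval₂RingHom (eval₂RingHom (compRingHom U) P) X f = 0 := by
      rw [hf, coe_eval₂RingHom, eval₂_sub, eval₂_map, eval₂_C, hCC, eval₂_C_X, coe_eval₂RingHom,
        eval₂_C, coe_compRingHom_apply, X_comp, sub_self]
    have hg0 : eval₂RingHom (eval₂RingHom (compRingHom U) P) X g = 0 := by
      rw [hg, coe_eval₂RingHom, eval₂_sub, eval₂_map, eval₂_C, hCC, eval₂_C_X, coe_eval₂RingHom,
        eval₂_X, sub_self]
    rw [hf0, hg0, zero_mul, zero_mul, zero_add] at h
    simpa using h.symm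
  · intro Ω _ ψ hψ l s hl hs
    have hinj : Function.Injective (ψ.comp C) := by
      rw [RingHom.coe_comp]
      exact hψ.comp C_injective
    refine ⟨l ^ P.natDegree, pow_ne_zero _ hl, ?_⟩
    have hF : f.map (mapRingHom ψ) = C (C l) * (s.map fun r => X - C (C r)).prod := by
      have h1 : f.map (mapRingHom ψ) =
          (U.map (ψ.comp C) - C (ψ X)).map (C : Ω →+* Polynomial Ω) := by
        rw [hf, Polynomial.map_sub, Polynomial.map_sub, Polynomial.map_map, Polynomial.map_map]
        congr 1
        · congr 1
          ext b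
          simp
        · simp
      rw [h1, hs, Polynomial.map_mul, Polynomial.map_C, Polynomial.map_multiset_prod,
        Multiset.map_map]
      congr 2
      refine Multiset.map_congr rfl fun r _ => ?_
      simp
    have hG : g.map (mapRingHom ψ) = C X - (P.map (ψ.comp C)).map (C : Ω →+* Polynomial Ω) := by
      rw [hg, Polynomial.map_sub, Polynomial.map_map, Polynomial.map_map]
      congr 1
      · simp
      · congr 1
        ext b
        simp
    have hCl : (C l : Polynomial Ω) ≠ 0 := by simpa using hl
    have hFm : (s.map fun r => X - C (C r : Polynomial Ω)) =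
        (s.map (C : Ω →+* Polynomial Ω)).map fun a => X - C a := by
      rw [Multiset.map_map]
      rfl
    have hFd : (f.map (mapRingHom ψ)).natDegree = U.natDegree := by
      have h1 : (f.map (mapRingHom ψ)).natDegree = Multiset.card s := by
        rw [hF, natDegree_C_mul hCl, hFm, natDegree_multiset_prod_X_sub_C_eq_card,
          Multiset.card_map]
      have h2 : (U.map (ψ.comp C) - C (ψ X)).natDegree = Multiset.card s := by
        rw [hs, natDegree_C_mul hl, natDegree_multiset_prod_X_sub_C_eq_card]
      rw [h1, ← h2, natDegree_sub_C, natDegree_map_eq_of_injective hinj]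
    have hFs : (f.map (mapRingHom ψ)).Splits := by
      rw [hF]
      refine Splits.mul (Splits.C _) (Splits.multisetProd fun q hq => ?_)
      obtain ⟨r, -, rfl⟩ := Multiset.mem_map.1 hq
      exact Splits.X_sub_C _
    have hFl : (f.map (mapRingHom ψ)).leadingCoeff = C l := by
      rw [hF, leadingCoeff_mul, leadingCoeff_C, hFm,
        (monic_multisetProd_X_sub_C _).leadingCoeff, mul_one]
    have hFr : (f.map (mapRingHom ψ)).roots = s.map C := by
      rw [hF, roots_C_mul _ hCl, hFm, roots_multiset_prod_X_sub_C]
    have hGd : (g.map (mapRingHom ψ)).natDegree ≤ P.natDegree := natDegree_map_le.trans hgd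
    have h1 : (resultant f g U.natDegree P.natDegree).map ψ =
        resultant (f.map (mapRingHom ψ)) (g.map (mapRingHom ψ)) U.natDegree P.natDegree := by
      rw [resultant_map_map]
      rfl
    rw [h1]
    have h2 := resultant_eq_prod_eval (f.map (mapRingHom ψ)) (g.map (mapRingHom ψ)) P.natDegree
      hGd hFs
    rw [hFd, hFl, hFr, Multiset.map_map] at h2
    rw [h2, C_pow]
    congr 2
    refine Multiset.map_congr rfl fun r _ => ?_
    rw [Function.comp_apply, hG, eval_sub, eval_C, eval_map, eval₂_at_apply]

end Pool.Agent.DaeB
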