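import Pool.Agent.DaeB.Ext
import Pool.Agent.DaeB.Newton
import Pool.Agent.DaeB.Psi

/-! # DaeB: the extensions of a Gauss extension (package DB07) -/

set_option autoImplicit false

namespace Pool.Agent.DaeB

open Polynomial

/-- values at a root of `U - u` are zero only for the zero polynomial -/
private theorem fam_inj {B Ω : Type} [CommRing B] [IsDomain B] [Field Ω] (ψ : B[X] →+* Ω)
    (hψ : Function.Injective ψ) (U : B[X]) (ρ : Ω) (h : U.eval₂ (ψ.comp C) ρ = ψ X) :
    Function.Injective (eval₂RingHom (ψ.comp C) ρ) := by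
  let _ : Algebra B Ω := (ψ.comp C).toAlgebra
  have hQ : ∀ Q : B[X], aeval (ψ X) Q = ψ Q := fun Q => by
    change eval₂ (ψ.comp C) (ψ X) Q = ψ Q
    rw [← hom_eval₂, eval₂_C_X]
  by_contra hni
  have h1 : IsAlgebraic B ρ := isAlgebraic_iff_not_injective.2 fun h' => hni h'
  have h2 : IsAlgebraic B (ψ X) := by
    rw [← h]
    have h3 : aeval ρ U ∈ Subalgebra.algebraicClosure B Ω :=
      Algebra.adjoin_le (Set.singleton_subset_iff.2 h1) (aeval_mem_adjoin_singleton B ρ)
    exact h3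
  obtain ⟨Q, hQ0, hQ1⟩ := h2
  rw [hQ] at hQ1
  exact hQ0 (hψ (by rw [hQ1, map_zero]))

/-- a sum is dominated by one of its terms -/
private theorem fam_sum {R ι : Type*} [CommRing R] (v : AbsoluteValue R ℝ)
    (hv : IsNonarchimedean v) (g : ι → R) (t : Finset ι) (ht : t.Nonempty) :
    ∃ b ∈ t, v (∑ i ∈ t, g i) ≤ v (g b) := by
  classical
  induction t using Finset.induction_on with
  | empty => exact absurd ht Finset.not_nonempty_empty
  | insert a t ha ih =>
    rw [Finset.sum_insert ha]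
    rcases t.eq_empty_or_nonempty with rfl | hne
    · exact ⟨a, Finset.mem_insert_self _ _, by rw [Finset.sum_empty, add_zero]⟩
    · obtain ⟨b, hb, h1⟩ := ih hne
      rcases le_max_iff.1 (hv (g a) (∑ i ∈ t, g i)) with h | h
      · exact ⟨a, Finset.mem_insert_self _ _, h⟩
      · exact ⟨b, Finset.mem_insert_of_mem hb, h.trans h1⟩

/-- comparison of two Gauss norms -/
private theorem fam_gauss {B : Type} [CommRing B] {v v' : AbsoluteValue B ℝ} {σ η : ℝ}
    (hσ : 0 < σ) (Q : B[X])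
    (h : ∀ l, Q.coeff l ≠ 0 → v (Q.coeff l) ≤ Real.exp η * v' (Q.coeff l)) :
    Q.gaussNorm v σ ≤ Real.exp η * Q.gaussNorm v' σ := by
  obtain ⟨i, hi⟩ := exists_eq_gaussNorm v σ Q
  rw [hi]
  by_cases h0 : Q.coeff i = 0
  · rw [h0, v.map_zero, zero_mul]
    exact mul_nonneg (Real.exp_pos _).le (gaussNorm_nonneg _ _ hσ.le)
  · calc v (Q.coeff i) * σ ^ i ≤ Real.exp η * v' (Q.coeff i) * σ ^ i :=
          mul_le_mul_of_nonneg_right (h i h0) (pow_nonneg hσ.le _)
      _ = Real.exp η * (v' (Q.coeff i) * σ ^ i) := by ring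
      _ ≤ _ := mul_le_mul_of_nonneg_left (le_gaussNorm _ _ hσ.le _) (Real.exp_pos _).le

private theorem fam_log {x y η : ℝ} (hx : 0 < x) (hy : 0 < y)
    (h : |Real.log x - Real.log y| ≤ η) : x ≤ Real.exp η * y := by
  have h1 : Real.log x ≤ η + Real.log y := by
    have := (abs_le.1 h).2
    linarith
  have h2 := (Real.log_le_iff_le_exp hx).1 h1
  rwa [Real.exp_add, Real.exp_log hy] at h2

private theorem fam_log' {x y η : ℝ} (hx : 0 < x) (hy : 0 < y) (h1 : x ≤ Real.exp η * y)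
    (h2 : y ≤ Real.exp η * x) : |Real.log x - Real.log y| ≤ η := by
  have e1 := Real.log_le_log hx h1
  have e2 := Real.log_le_log hy h2
  rw [Real.log_mul (Real.exp_pos _).ne' hy.ne', Real.log_exp] at e1
  rw [Real.log_mul (Real.exp_pos _).ne' hx.ne', Real.log_exp] at e2
  rw [abs_le]
  constructor <;> linarith

/-- Take the Gauss absolute value `V'' = gaussAV V' σ` on `B[X]` (variable called `u`), and by
`exists_algClosed_hom` an algebraically closed `Ω`, `ψ : B[X] →+* Ω`, `w` with `w (ψ Q) = V'' Q`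
(`ψ` is injective).  `U.map (ψ.comp C) - C (ψ X)` has degree `m = natDegree U ≤ size U ≤ c` and splits,
roots `ρ_τ`.  `V_τ P = w ((P.map (ψ.comp C)).eval ρ_τ)`.  It is an absolute value: if `P(ρ_τ) = 0` with
`P ≠ 0`, then `ρ_τ` is algebraic over `B`, hence `ψ u = U(ρ_τ)` is algebraic over `B`,
contradiction.  `V_τ (Q.comp U) = w (ψ Q) = Q.gaussNorm V' σ` since `(Q.map (ψ.comp C)).eval (ψ u)
= ψ Q`.
For the last statement use `Ψ` of `exists_psi`, `a k = V1 ((Ψ.coeff k).comp U)
= (Ψ.coeff k).gaussNorm (resB V1) σ`, `θ = V1 P`; `w (ψ (Ψ.coeff k)) = (Ψ.coeff k).gaussNorm V' σ`;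
the two Gauss norms differ by a factor `≤ exp η` because all coefficients do.  `htrop` of `root_near`:
`∑ (Ψ.coeff k).comp U * P ^ k = 0` and `V1` is nonarchimedean, so no term is strictly dominant.
The roots of `Ψ.map ψ` are the `P(ρ_τ)`. -/
theorem exists_family {B : Type} [CommRing B] [IsDomain B] (S : SizeFn B)
    (V' : AbsoluteValue B ℝ) (hV' : IsNonarchimedean V') (h0 : ResZero V') (U : B[X]) (c : ℕ)
    (hU : 1 ≤ U.natDegree) (hc : S.poly.s U ≤ c) (σ : ℝ) (hσ : 0 < σ) :
    ∃ (m : ℕ) (V : Fin m → AbsoluteValue B[X] ℝ), m ≤ c ∧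
      (∀ τ, IsNonarchimedean (V τ)) ∧ (∀ τ b, V τ (C b) = V' b) ∧
      (∀ τ (Q : B[X]), V τ (Q.comp U) = Q.gaussNorm V' σ) ∧
      ∀ V1 : AbsoluteValue B[X] ℝ, IsNonarchimedean V1 →
        (∀ Q : B[X], V1 (Q.comp U) = Q.gaussNorm (resB V1) σ) →
        ∀ P : B[X], P ≠ 0 → ∀ η : ℝ, 0 ≤ η →
          (∀ b : B, b ≠ 0 → S.s b ≤ 2 * c * S.poly.s P →
            |Real.log (V' b) - Real.log (V1 (C b))| ≤ η) →
          ∃ τ, |Real.log (V τ P) - Real.log (V1 P)| ≤ 2 * η := by
  classical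
  have hres : ResZero (gaussAV V' hV' σ hσ) := by
    intro n hn
    rw [gaussAV_apply]
    have h1 : ((n : ℕ) : B[X]) = C (n : B) := by simp
    rw [h1, gaussNorm_C]
    exact h0 n hn
  obtain ⟨Ω, _, _, ψ, w, hw, hwψ⟩ := exists_algClosed_hom (gaussAV V' hV' σ hσ)
    (gaussAV_na V' hV' σ hσ) hres
  have hψ : Function.Injective ψ := by
    rw [injective_iff_map_eq_zero]
    intro Q hQ
    have h1 := hwψ Q
    rw [hQ, w.map_zero] at h1
    exact (gaussAV V' hV' σ hσ).eq_zero.1 h1.symm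
  have hψC : Function.Injective (ψ.comp C) := hψ.comp C_injective
  set p : Polynomial Ω := U.map (ψ.comp C) - C (ψ X) with hp
  have hpdeg : p.natDegree = U.natDegree := by
    rw [hp, natDegree_sub_C, natDegree_map_eq_of_injective hψC]
  have hp0 : p ≠ 0 := by
    intro h
    rw [h, natDegree_zero] at hpdeg
    omega
  have hsplit : p.Splits := IsAlgClosed.splits p
  have hprod := hsplit.eq_prod_roots
  have hcard : p.roots.toList.length = U.natDegree := by
    rw [Multiset.length_toList, ← hpdeg]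
    exact hsplit.natDegree_eq_card_roots.symm
  have hroot : ∀ r ∈ p.roots, U.eval₂ (ψ.comp C) r = ψ X := by
    intro r hr
    have h1 := (mem_roots hp0).1 hr
    rw [IsRoot, hp, eval_sub, eval_C, eval_map, sub_eq_zero] at h1
    exact h1
  let ρ : Fin U.natDegree → Ω := fun τ => p.roots.toList.get (τ.cast hcard.symm)
  have hρ : ∀ τ, ρ τ ∈ p.roots := fun τ => Multiset.mem_toList.1 (List.get_mem _ _)
  have hρ' : ∀ r ∈ p.roots, ∃ τ, ρ τ = r := by
    intro r hr
    obtain ⟨i, hi⟩ := List.mem_iff_get.1 (Multiset.mem_toList.2 hr)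
    exact ⟨i.cast hcard, hi⟩
  let V : Fin U.natDegree → AbsoluteValue B[X] ℝ := fun τ =>
    w.comp (f := eval₂RingHom (ψ.comp C) (ρ τ)) (fam_inj ψ hψ U (ρ τ) (hroot _ (hρ τ)))
  have hV : ∀ τ P, V τ P = w (eval₂ (ψ.comp C) (ρ τ) P) := fun τ P => rfl
  refine ⟨U.natDegree, V, (S.natDegree_le U).trans hc, ?_, ?_, ?_, ?_⟩
  · intro τ P Q
    rw [hV, hV, hV, eval₂_add]
    exact hw _ _
  · intro τ b
    rw [hV, eval₂_C, RingHom.comp_apply, hwψ, gaussAV_apply, gaussNorm_C]
  · intro τ Q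
    rw [hV, eval₂_comp, hroot _ (hρ τ), ← hom_eval₂, eval₂_C_X, hwψ, gaussAV_apply]
  · intro V1 hV1 hV1U P hP η hη hclose
    obtain ⟨Ψ, hsize, hzero, hspl⟩ := exists_psi S U c hU hc P
    obtain ⟨l', hl', hΨ⟩ := hspl ψ hψ p.leadingCoeff p.roots (leadingCoeff_ne_zero.2 hp0) hprod
    have hΨ' : Ψ.map ψ = C l' * ((p.roots.map fun r => (P.map (ψ.comp C)).eval r).map
        fun r => X - C r).prod := by
      rw [hΨ, Multiset.map_map]
      rfl
    have hθ : 0 < V1 P := V1.pos hP
    have hpos1 : ∀ Q : B[X], Q ≠ 0 → 0 < Q.gaussNorm V' σ := by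
      intro Q hQ
      rw [← gaussAV_apply V' hV' σ hσ]
      exact (gaussAV V' hV' σ hσ).pos hQ
    have hresna : IsNonarchimedean (resB V1) := by
      intro a b
      rw [resB_apply, resB_apply, resB_apply, map_add]
      exact hV1 _ _
    have hpos2 : ∀ Q : B[X], Q ≠ 0 → 0 < Q.gaussNorm (resB V1) σ := by
      intro Q hQ
      rw [← gaussAV_apply (resB V1) hresna σ hσ]
      exact (gaussAV (resB V1) hresna σ hσ).pos hQ
    obtain ⟨r', hr', -, hr2⟩ := root_near w hw l' hl'
      (p.roots.map fun r => (P.map (ψ.comp C)).eval r)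
      (fun k => V1 ((Ψ.coeff k).comp U)) (V1 P) η hθ hη (by
        intro k hk
        rw [← hΨ', coeff_map] at hk
        have h1 : Ψ.coeff k = 0 := hψ (by rw [hk, map_zero])
        show V1 ((Ψ.coeff k).comp U) = 0
        rw [h1, zero_comp, V1.map_zero]) (by
        intro k hk
        rw [← hΨ', coeff_map] at hk ⊢
        have h1 : Ψ.coeff k ≠ 0 := fun h => hk (by rw [h, map_zero])
        show 0 < V1 ((Ψ.coeff k).comp U) ∧ |Real.log (w (ψ (Ψ.coeff k))) -
          Real.log (V1 ((Ψ.coeff k).comp U))| ≤ η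
        rw [hV1U, hwψ, gaussAV_apply]
        refine ⟨hpos2 _ h1, fam_log' (hpos1 _ h1) (hpos2 _ h1) ?_ ?_⟩
        · refine fam_gauss hσ _ fun l hl => ?_
          exact fam_log (V'.pos hl) ((resB V1).pos hl) (hclose _ hl (hsize k l))
        · refine fam_gauss hσ _ fun l hl => ?_
          refine fam_log ((resB V1).pos hl) (V'.pos hl) ?_
          rw [abs_sub_comm]
          exact hclose _ hl (hsize k l)) (by
        intro j hj
        have h1 : ∑ k ∈ Ψ.support, (Ψ.coeff k).comp U * P ^ k = 0 := by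
          rw [← hzero, eval₂_eq_sum, Polynomial.sum]
          rfl
        have hj' : Ψ.coeff j ≠ 0 := by
          intro h
          apply hj
          show V1 ((Ψ.coeff j).comp U) = 0
          rw [h, zero_comp, V1.map_zero]
        have hjs : j ∈ Ψ.support := mem_support_iff.2 hj'
        rw [← Finset.add_sum_erase _ _ hjs] at h1
        have h2 : (Ψ.coeff j).comp U * P ^ j =
            -∑ k ∈ Ψ.support.erase j, (Ψ.coeff k).comp U * P ^ k := eq_neg_of_add_eq_zero_left h1
        have h3 : V1 ((Ψ.coeff j).comp U) * V1 P ^ j =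
            V1 (∑ k ∈ Ψ.support.erase j, (Ψ.coeff k).comp U * P ^ k) := by
          rw [← V1.map_neg (∑ k ∈ Ψ.support.erase j, (Ψ.coeff k).comp U * P ^ k), ← h2,
            V1.map_mul, V1.map_pow]
        rcases (Ψ.support.erase j).eq_empty_or_nonempty with he | hne
        · exfalso
          rw [he, Finset.sum_empty, V1.map_zero] at h3
          rcases mul_eq_zero.1 h3 with h | h
          · exact hj h
          · exact (pow_pos hθ j).ne' h
        · obtain ⟨k, hk, h4⟩ := fam_sum V1 hV1 (fun k => (Ψ.coeff k).comp U * P ^ k) _ hne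
          refine ⟨k, (Finset.mem_erase.1 hk).1, ?_⟩
          show V1 ((Ψ.coeff j).comp U) * V1 P ^ j ≤ V1 ((Ψ.coeff k).comp U) * V1 P ^ k
          rw [h3, ← V1.map_pow P k, ← V1.map_mul]
          exact h4)
    obtain ⟨r, hr, rfl⟩ := Multiset.mem_map.1 hr'
    obtain ⟨τ, rfl⟩ := hρ' r hr
    refine ⟨τ, ?_⟩
    rw [hV, ← eval_map]
    exact hr2

end Pool.Agent.DaeB
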