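import Pool.Agent.DaeB.GoodTower

/-! # DaeB: `W` is monomial in the attained minimisers (package DB22) -/

set_option autoImplicit false

namespace Pool.Agent.DaeB

open Polynomial

lemma mw_pos_mono {ι : Type*} {σ : ι → ℝ} (hσ : ∀ i, 0 < σ i) (α : ι →₀ ℕ) : 0 < mw σ α :=
  Finset.prod_pos fun i _ => pow_pos (hσ i) _

lemma mw_mapDomain {ι κ : Type*} (e : ι → κ) (he : Function.Injective e) (σ : κ → ℝ)
    (α : ι →₀ ℕ) : mw σ (α.mapDomain e) = mw (fun i => σ (e i)) α :=
  Finsupp.prod_mapDomain_index_inj he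

/-- **`W` is monomial in the attained minimisers**: take `V`, `U` of `good_tower` and let `c → ∞`
(`U i = ymin n W i` and `V (U i) = W (U i)` for attained `i`; rename `Subtype.val`). -/
theorem mono_ymin (n : ℕ) (W : AbsoluteValue (A n) ℝ) (hW : IsNonarchimedean W)
    (hT : TrivC W) (hR : ∀ i, 0 < Rinf n W i) (w0 : ℝ) (hw0 : 0 < w0) (hw1 : w0 ≠ 1)
    (C κ : ℝ) (hC : 0 ≤ C) (hκ : 0 < κ)
    (hrate : ∀ c : ℕ, 1 ≤ c → ∀ i, Rc c n W i ≤ Rinf n W i * Real.exp (C * (c : ℝ) ^ (-κ))) :
    Mono W (fun i : {i // Att n W i} => ymin n W i) (fun i => W (ymin n W i)) := by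
  obtain ⟨C', κ', K, _, hκ', h⟩ := good_tower n W hW hT hR w0 hw0 hw1 C κ hC hκ hrate
  have hpos : ∀ i : {i // Att n W i}, 0 < W (ymin n W i) := by
    intro i
    obtain ⟨V, U, _, _, hM, _, _, hA, _⟩ := h 1 le_rfl
    obtain ⟨h1, h2⟩ := hA i.1 i.2
    have := hM.pos i.1
    rw [h2, h1] at this
    exact this
  refine ⟨fun _ => rfl, hpos, ?_⟩
  intro G α hα
  set P : A n := MvPolynomial.aeval (fun i : {i // Att n W i} => ymin n W i) G with hP
  set m : ℝ := mw (fun i : {i // Att n W i} => W (ymin n W i)) α with hm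
  have hm0 : 0 < m := mw_pos_mono hpos α
  have key : ∀ c : ℕ, 1 ≤ c → P ≠ 0 ∧
      Real.log m ≤ Real.log (W P) + C' * (c : ℝ) ^ (-κ') * P.totalDegree := by
    intro c hc
    obtain ⟨V, U, _, _, hM, _, hlog, hA, _⟩ := h c hc
    have hsupp : α.mapDomain Subtype.val ∈
        (MvPolynomial.rename (Subtype.val : {i // Att n W i} → Fin n) G).support := by
      rw [MvPolynomial.mem_support_iff,
        MvPolynomial.coeff_rename_mapDomain _ Subtype.val_injective]
      exact MvPolynomial.mem_support_iff.1 hα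
    have h1 := hM.le _ _ hsupp
    rw [mw_mapDomain _ Subtype.val_injective, MvPolynomial.aeval_rename] at h1
    have e1 : (U ∘ Subtype.val) = (fun i : {i // Att n W i} => ymin n W i) := by
      funext i
      exact (hA i.1 i.2).1
    have e2 : (fun i : {i // Att n W i} => V (U i.1)) =
        (fun i : {i // Att n W i} => W (ymin n W i)) := by
      funext i
      rw [(hA i.1 i.2).2, (hA i.1 i.2).1]
    rw [e1, e2, ← hm, ← hP] at h1
    have hVP : 0 < V P := lt_of_lt_of_le hm0 h1
    have hP0 : P ≠ 0 := by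
      intro h0
      rw [h0, map_zero] at hVP
      exact lt_irrefl _ hVP
    refine ⟨hP0, ?_⟩
    have h2 := (abs_le.1 (hlog P hP0)).2
    have h3 := Real.log_le_log hm0 h1
    linarith
  have hP0 : P ≠ 0 := (key 1 le_rfl).1
  have hWP : 0 < W P := W.pos hP0
  have hlim : Filter.Tendsto (fun c : ℕ => Real.log (W P) +
      C' * (c : ℝ) ^ (-κ') * P.totalDegree) Filter.atTop (nhds (Real.log (W P))) := by
    have t1 : Filter.Tendsto (fun c : ℕ => (c : ℝ) ^ (-κ')) Filter.atTop (nhds 0) :=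
      (tendsto_rpow_neg_atTop hκ').comp tendsto_natCast_atTop_atTop
    have t2 := ((t1.const_mul C').mul_const (P.totalDegree : ℝ)).const_add (Real.log (W P))
    simpa using t2
  have hfin : Real.log m ≤ Real.log (W P) :=
    ge_of_tendsto hlim (Filter.eventually_atTop.2 ⟨1, fun c hc => (key c hc).2⟩)
  exact (Real.log_le_log_iff hm0 hWP).1 hfin

end Pool.Agent.DaeB
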