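import Pool.Agent.DaeB.Tame
import Pool.Agent.DAE.R.FrameD

/-! # DaeB: the Jacobian bound for a tower valuation (packages DB12, DB13) -/

set_option autoImplicit false

namespace Pool.Agent.DaeB

open Polynomial

/-- (DB12) `n` algebraically independent elements of `A n`: every element of `A n` is algebraic over
`ℂ[U]`.  (`Mono` implies algebraic independence: `mw σ α > 0`.)  Transcendence degree, or the
counting argument of `siegel`. -/
theorem algebraic_over {n : ℕ} (U : Fin n → A n) (hU : AlgebraicIndependent ℂ U) (F : A n) :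
    ∃ p : Polynomial (MvPolynomial (Fin n) ℂ), p ≠ 0 ∧ relv U p F = 0 := by
  have hb : IsTranscendenceBasis ℂ U := hU.isTranscendenceBasis_of_lift_trdeg_le_of_finite (by
    rw [MvPolynomial.trdeg_of_isDomain]
    simp)
  have halg := hb.isAlgebraic
  obtain ⟨q, hq, h0⟩ := halg.isAlgebraic F
  have hinj : Function.Injective
      (hU.aevalEquiv.symm.toRingEquiv.toRingHom :
        Algebra.adjoin ℂ (Set.range U) →+* MvPolynomial (Fin n) ℂ) :=
    hU.aevalEquiv.symm.injective
  refine ⟨q.map hU.aevalEquiv.symm.toRingEquiv.toRingHom, (Polynomial.map_ne_zero_iff hinj).2 hq,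
    ?_⟩
  rw [relv, Polynomial.eval₂_map]
  have h1 : ((MvPolynomial.aeval U : MvPolynomial (Fin n) ℂ →ₐ[ℂ] A n).toRingHom.comp
      (hU.aevalEquiv.symm.toRingEquiv.toRingHom :
        Algebra.adjoin ℂ (Set.range U) →+* MvPolynomial (Fin n) ℂ)) =
      algebraMap (Algebra.adjoin ℂ (Set.range U)) (A n) := by
    refine RingHom.ext fun z => ?_
    have h2 := hU.algebraMap_aevalEquiv (hU.aevalEquiv.symm z)
    rw [AlgEquiv.apply_symm_apply] at h2
    exact h2.symm
  rw [h1]
  exact h0

private lemma jb_mw_pos {ι : Type*} {σ : ι → ℝ} (h : ∀ i, 0 < σ i) (α : ι →₀ ℕ) :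
    0 < mw σ α := Finset.prod_pos fun i _ => pow_pos (h i) _

lemma Mono.algebraicIndependent {ι : Type*} {R : Type*} [CommRing R] [Algebra ℂ R]
    {v : AbsoluteValue R ℝ} {U : ι → R} {σ : ι → ℝ} (h : Mono v U σ) :
    AlgebraicIndependent ℂ U := by
  rw [algebraicIndependent_iff]
  intro G hG
  by_contra hne
  obtain ⟨α, hα⟩ := MvPolynomial.support_nonempty.2 hne
  have h1 := h.le G α hα
  rw [hG, map_zero] at h1
  exact absurd (jb_mw_pos h.pos α) (not_lt.2 h1)

/-- the partial derivatives in `U` on `ℂ[U]` -/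
private lemma jb_mono {n : ℕ} {V : AbsoluteValue (A n) ℝ} (hV : IsNonarchimedean V)
    (hT : TrivC V) {U : Fin n → A n} {σ : Fin n → ℝ} (hM : Mono V U σ) (i : Fin n)
    (F : MvPolynomial (Fin n) ℂ) :
    V (MvPolynomial.aeval U (MvPolynomial.pderiv i F)) ≤
      (σ i)⁻¹ * V (MvPolynomial.aeval U F) := by
  have hv := nabs V hV hT.resZero
  have h1 : MvPolynomial.aeval U (MvPolynomial.pderiv i F) =
      ∑ α ∈ F.support, MvPolynomial.aeval U
        (MvPolynomial.pderiv i (MvPolynomial.monomial α (MvPolynomial.coeff α F))) := by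
    conv_lhs => rw [F.as_sum]
    rw [map_sum, map_sum]
  rw [h1]
  refine hv.sum_le (mul_nonneg (inv_nonneg.2 (hM.pos i).le) (V.nonneg _)) fun α hα => ?_
  rw [MvPolynomial.pderiv_monomial]
  by_cases h0 : α i = 0
  · rw [h0, Nat.cast_zero, mul_zero, map_zero, map_zero, hv.zero]
    exact mul_nonneg (inv_nonneg.2 (hM.pos i).le) (V.nonneg _)
  · set β : Fin n →₀ ℕ := α - Finsupp.single i 1 with hβ
    have hαβ : β + Finsupp.single i 1 = α := by
      refine tsub_add_cancel_of_le ?_
      rw [Finsupp.single_le_iff]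
      omega
    have hc : MvPolynomial.coeff α F * (α i : ℂ) ≠ 0 :=
      mul_ne_zero (MvPolynomial.mem_support_iff.1 hα) (Nat.cast_ne_zero.2 h0)
    have h2 : V (MvPolynomial.aeval U
        (MvPolynomial.monomial β (MvPolynomial.coeff α F * (α i : ℂ)))) = mw σ β := by
      rw [MvPolynomial.aeval_monomial, V.map_mul, hT _ hc, one_mul, mw, Finsupp.prod,
        Finsupp.prod, hv.prod]
      exact Finset.prod_congr rfl fun j _ => by rw [hv.pow, hM.val]
    have h3 : mw σ α = mw σ β * σ i := by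
      rw [← hαβ]
      unfold mw
      rw [Finsupp.prod_add_index' (h := fun j k => σ j ^ k) (fun j => pow_zero _)
        (fun j a b => pow_add _ _ _),
        Finsupp.prod_single_index (h := fun j k => σ j ^ k) (pow_zero _), pow_one]
    rw [h2]
    have h4 := hM.le F α hα
    rw [h3] at h4
    rw [← div_eq_inv_mul, le_div_iff₀ (hM.pos i)]
    exact h4

open DAE in
private lemma jb_dd_apply {n : ℕ} (y : Fin n → A n) (l : Fin n) (x : KK n) :
    dd y l x = ∑ i, (jmat y)⁻¹ l i * pdK i x := by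
  have h1 : ∀ s : Finset (Fin n), (∑ i ∈ s, (jmat y)⁻¹ l i • pdK i :
      Derivation ℤ (KK n) (KK n)) x = ∑ i ∈ s, (jmat y)⁻¹ l i * pdK i x := by
    intro s
    induction s using Finset.induction_on with
    | empty => simp
    | insert a s ha ih =>
      rw [Finset.sum_insert ha, Finset.sum_insert ha, Derivation.add_apply, ih,
        Derivation.smul_apply, smul_eq_mul]
  exact h1 Finset.univ

open DAE in
private lemma jb_isUnit {n : ℕ} {y : Fin n → A n} (hJ : H17Dyn.jac y ≠ 0) :
    IsUnit (jmat y).det := by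
  rw [det_jmat, isUnit_iff_ne_zero]
  exact (map_ne_zero_iff _ ι_inj).2 hJ

open DAE in
private lemma jb_dd_y {n : ℕ} {y : Fin n → A n} (hJ : H17Dyn.jac y ≠ 0) (l j : Fin n) :
    dd y l (DAE.ι (y j)) = (1 : Matrix (Fin n) (Fin n) (KK n)) l j := by
  rw [jb_dd_apply, ← Matrix.nonsing_inv_mul _ (jb_isUnit hJ), Matrix.mul_apply]
  refine Finset.sum_congr rfl fun i _ => ?_
  rw [pdK_ι]
  rfl

open DAE in
private lemma jb_chain {n : ℕ} {y : Fin n → A n} (D : Derivation ℤ (KK n) (KK n))
    (hC : ∀ c : ℂ, D (DAE.ι (MvPolynomial.C c)) = 0) (F : A n) :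
    D (DAE.ι (MvPolynomial.aeval y F)) =
      ∑ j, DAE.ι (MvPolynomial.aeval y (MvPolynomial.pderiv j F)) * D (DAE.ι (y j)) := by
  classical
  induction F using MvPolynomial.induction_on with
  | C a =>
    have h1 : (MvPolynomial.aeval y (MvPolynomial.C a) : A n) = MvPolynomial.C a := by
      rw [MvPolynomial.aeval_C]; rfl
    rw [h1, hC]
    simp
  | add p q hp hq =>
    rw [map_add, map_add, map_add, hp, hq, ← Finset.sum_add_distrib]
    refine Finset.sum_congr rfl fun l _ => ?_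
    rw [map_add, map_add, map_add]
    ring
  | mul_X p i hp =>
    rw [map_mul, map_mul, Derivation.leibniz, hp, smul_eq_mul, smul_eq_mul, Finset.mul_sum,
      MvPolynomial.aeval_X]
    have h2 : ∀ l, (DAE.ι (MvPolynomial.aeval y (MvPolynomial.pderiv l
        (p * MvPolynomial.X i))) : KK n) * D (DAE.ι (y l)) =
        DAE.ι (y i) * (DAE.ι (MvPolynomial.aeval y (MvPolynomial.pderiv l p)) *
          D (DAE.ι (y l))) +
        (if l = i then DAE.ι (MvPolynomial.aeval y p) * D (DAE.ι (y l)) else 0) := by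
      intro l
      rw [MvPolynomial.pderiv_mul, map_add, map_mul, map_mul, map_add, map_mul, map_mul,
        MvPolynomial.aeval_X, MvPolynomial.pderiv_X]
      by_cases h : l = i
      · subst h
        rw [if_pos rfl, Pi.single_eq_same, map_one, map_one]
        ring
      · rw [if_neg h, Pi.single_eq_of_ne (fun h' => h h'.symm), map_zero, map_zero]
        ring
    rw [Finset.sum_congr rfl fun l _ => h2 l, Finset.sum_add_distrib]
    simp [add_comm]

open DAE in
private lemma jb_dd_aeval {n : ℕ} {y : Fin n → A n} (hJ : H17Dyn.jac y ≠ 0) (l : Fin n)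
    (F : A n) : dd y l (DAE.ι (MvPolynomial.aeval y F)) =
      DAE.ι (MvPolynomial.aeval y (MvPolynomial.pderiv l F)) := by
  rw [jb_chain (dd y l) (dd_C y l), Finset.sum_eq_single l]
  · rw [jb_dd_y hJ, Matrix.one_apply_eq, mul_one]
  · intro j _ hj
    rw [jb_dd_y hJ, Matrix.one_apply_ne hj.symm, mul_zero]
  · intro h
    exact absurd (Finset.mem_univ l) h

open DAE in
private lemma jb_pdK {n : ℕ} {y : Fin n → A n} (hJ : H17Dyn.jac y ≠ 0) (i : Fin n) (x : KK n) :
    pdK i x = ∑ l, jmat y i l * dd y l x := by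
  have h1 : ∀ l, jmat y i l * dd y l x = ∑ i', jmat y i l * (jmat y)⁻¹ l i' * pdK i' x := by
    intro l
    rw [jb_dd_apply, Finset.mul_sum]
    exact Finset.sum_congr rfl fun i' _ => by rw [mul_assoc]
  rw [Finset.sum_congr rfl fun l _ => h1 l, Finset.sum_comm]
  have h2 : ∀ i', ∑ l, jmat y i l * (jmat y)⁻¹ l i' * pdK i' x =
      (1 : Matrix (Fin n) (Fin n) (KK n)) i i' * pdK i' x := by
    intro i'
    rw [← Finset.sum_mul, ← Matrix.mul_nonsing_inv _ (jb_isUnit hJ), Matrix.mul_apply]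
  rw [Finset.sum_congr rfl fun i' _ => h2 i', Finset.sum_eq_single i]
  · rw [Matrix.one_apply_eq, one_mul]
  · intro j _ hj
    rw [Matrix.one_apply_ne hj.symm, zero_mul]
  · intro h
    exact absurd (Finset.mem_univ i) h

open DAE in
/-- chain rule for Jacobian determinants -/
private lemma jb_det {n : ℕ} {y : Fin n → A n} (hJ : H17Dyn.jac y ≠ 0) (P : Fin n → KK n) :
    (Matrix.of fun i j => pdK i (P j)).det =
      DAE.ι (H17Dyn.jac y) * (Matrix.of fun i j => dd y i (P j)).det := by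
  have h1 : (Matrix.of fun i j => pdK i (P j)) =
      jmat y * (Matrix.of fun i j => dd y i (P j)) := by
    ext i j
    rw [Matrix.of_apply, Matrix.mul_apply, jb_pdK hJ]
    rfl
  rw [h1, Matrix.det_mul, det_jmat]

private lemma jb_jac {n : ℕ} (u : Fin n → A n) : jac u = H17Dyn.jac u := by
  rw [jac, H17Dyn.jac, ← Matrix.det_transpose]
  rfl

open DAE in
private lemma jb_algebraic {n : ℕ} {U : Fin n → A n} (hU : AlgebraicIndependent ℂ U) :
    Algebra.IsAlgebraic (FF U) (KK n) := by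
  have hmem : ∀ F : A n, DAE.ι (MvPolynomial.aeval U F) ∈ FF U := fun F =>
    mem_FF.2 ⟨F, 1, by rw [map_one, map_one, div_one]⟩
  have hpol : ∀ F : A n, IsAlgebraic (FF U) (DAE.ι F : KK n) := by
    intro F
    obtain ⟨p, hp, h0⟩ := algebraic_over U hU F
    let f : A n →+* FF U := ((DAE.ι : A n →+* KK n).comp
      (MvPolynomial.aeval U : A n →ₐ[ℂ] A n).toRingHom).codRestrict (FF U) hmem
    have hf : Function.Injective f := by
      intro a b hab
      have h1 : (DAE.ι (MvPolynomial.aeval U a) : KK n) = DAE.ι (MvPolynomial.aeval U b) :=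
        congrArg Subtype.val hab
      exact hU (ι_inj h1)
    refine ⟨p.map f, (Polynomial.map_ne_zero_iff hf).2 hp, ?_⟩
    have h1 : ((algebraMap (FF U) (KK n)).comp f) = (DAE.ι : A n →+* KK n).comp
        (MvPolynomial.aeval U : A n →ₐ[ℂ] A n).toRingHom := RingHom.ext fun z => rfl
    rw [Polynomial.aeval_def, Polynomial.eval₂_map, h1, ← Polynomial.hom_eval₂]
    have h2 : Polynomial.eval₂ (MvPolynomial.aeval U : A n →ₐ[ℂ] A n).toRingHom F p = 0 := h0
    rw [h2, map_zero]
  refine ⟨fun x => ?_⟩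
  obtain ⟨a, b, hb, rfl⟩ := IsFractionRing.div_surjective (A := A n) x
  rw [div_eq_mul_inv]
  exact (hpol a).mul (hpol b).inv

/-- (DB13) Let `K = FractionRing (A n)`, `V` extended to `K`, `k = FractionRing (MvPolynomial (Fin n)
ℂ)` mapped to `K` by `U` (`K / k` is algebraic by DB12).  `M = (∂_j U_i)` is triangular with nonzero
diagonal, hence invertible over `K`; `D_i = ∑_j (M⁻¹)_(j i) ∂_j` is a derivation of `K` with
`D_i U_l = δ_il`; it preserves the image of `k` and `V (D_i x) ≤ σ_i⁻¹ V x` there (`V` is monomial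
on `ℂ[U]`; then quotients).  By `tame` the same holds on `K`.  Now `∂_j u_l = ∑_i D_i(u_l) ∂_j U_i`,
so `jac u = det (D_i u_l) * det M`, `V (det M) = ∏ V (∂_i U_i) = ∏ σ_i / ρ_i`. -/
theorem jac_bound (n : ℕ) (V : AbsoluteValue (A n) ℝ) (hV : IsNonarchimedean V) (hT : TrivC V)
    (U : Fin n → A n) (σ ρ : Fin n → ℝ) (hM : Mono V U σ) (hρ : ∀ i, 0 < ρ i)
    (htri : ∀ i j : Fin n, j < i → MvPolynomial.pderiv j (U i) = 0)
    (hd : ∀ i, ρ i * V (MvPolynomial.pderiv i (U i)) = σ i) (u : Fin n → A n) :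
    V (jac u) * ∏ i, ρ i ≤ ∏ i, V (u i) := by
  have hU := hM.algebraicIndependent
  have hjU : jac U = ∏ i, MvPolynomial.pderiv i (U i) := by
    rw [jac, Matrix.det_of_isUpperTriangular]
    · rfl
    · intro i j hij
      exact htri i j hij
  have hVJ : V (jac U) * ∏ i, ρ i = ∏ i, σ i := by
    have hv := nabs V hV hT.resZero
    rw [hjU, hv.prod, ← Finset.prod_mul_distrib]
    exact Finset.prod_congr rfl fun i _ => by rw [mul_comm, hd]
  have hJ : H17Dyn.jac U ≠ 0 := by
    rw [← jb_jac, hjU]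
    refine Finset.prod_ne_zero_iff.2 fun i _ h0 => ?_
    have h1 := hd i
    rw [h0, map_zero, mul_zero] at h1
    exact (hM.pos i).ne h1
  obtain ⟨w, hw, hwV⟩ := (nabs V hV hT.resZero).exists_frac (K := DAE.KK n)
  have halg := jb_algebraic hU
  -- the derivations are bounded
  have hbd : ∀ (i : Fin n) (x : DAE.KK n), w (DAE.dd U i x) ≤ (σ i)⁻¹ * w x := by
    intro i x
    have hσ : 0 ≤ (σ i)⁻¹ := inv_nonneg.2 (hM.pos i).le
    have hB : ∀ F : A n, w (DAE.dd U i (DAE.ι (MvPolynomial.aeval U F))) ≤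
        (σ i)⁻¹ * w (DAE.ι (MvPolynomial.aeval U F)) := by
      intro F
      rw [jb_dd_aeval hJ, hwV, hwV]
      exact jb_mono hV hT hM i F
    have hne : ∀ G : A n, G ≠ 0 → (DAE.ι (MvPolynomial.aeval U G) : DAE.KK n) ≠ 0 := by
      intro G hG h0
      have h1 : MvPolynomial.aeval U G = MvPolynomial.aeval U (0 : A n) := by
        rw [map_zero]
        exact (map_eq_zero_iff _ DAE.ι_inj).1 h0
      exact hG (hU h1)
    refine tame (k := DAE.FF U) (K := DAE.KK n) hw.toAbs hw.add hw.nat (DAE.dd U i) (σ i)⁻¹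
      (fun z => ?_) (fun z => ?_) x
    · obtain ⟨F, G, hz⟩ := DAE.mem_FF.1 z.2
      have hz' : algebraMap (DAE.FF U) (DAE.KK n) z =
        DAE.ι (MvPolynomial.aeval U F) / DAE.ι (MvPolynomial.aeval U G) := hz
      have h2 : DAE.dd U i (algebraMap (DAE.FF U) (DAE.KK n) z) ∈ DAE.FF U := by
        rw [hz', Derivation.leibniz_div, jb_dd_aeval hJ, jb_dd_aeval hJ]
        have hmem : ∀ F : A n, DAE.ι (MvPolynomial.aeval U F) ∈ DAE.FF U := fun F =>
          DAE.mem_FF.2 ⟨F, 1, by rw [map_one, map_one, div_one]⟩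
        simp only [smul_eq_mul]
        exact mul_mem (pow_mem (inv_mem (hmem _)) _)
          (sub_mem (mul_mem (hmem _) (hmem _)) (mul_mem (hmem _) (hmem _)))
      exact ⟨⟨_, h2⟩, rfl⟩
    · obtain ⟨F, G, hz⟩ := DAE.mem_FF.1 z.2
      have hz' : algebraMap (DAE.FF U) (DAE.KK n) z =
        DAE.ι (MvPolynomial.aeval U F) / DAE.ι (MvPolynomial.aeval U G) := hz
      change w (DAE.dd U i (algebraMap (DAE.FF U) (DAE.KK n) z)) ≤
        (σ i)⁻¹ * w (algebraMap (DAE.FF U) (DAE.KK n) z)
      generalize algebraMap (DAE.FF U) (DAE.KK n) z = t at hz'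
      rcases eq_or_ne G 0 with rfl | hG
      · rw [map_zero, map_zero, div_zero] at hz'
        rw [hz', map_zero, hw.zero, mul_zero]
      · have hb := hne G hG
        have h1 : t * DAE.ι (MvPolynomial.aeval U G) = DAE.ι (MvPolynomial.aeval U F) := by
          rw [hz', div_mul_cancel₀ _ hb]
        have h2 : DAE.ι (MvPolynomial.aeval U G) * DAE.dd U i t =
            DAE.dd U i (DAE.ι (MvPolynomial.aeval U F)) -
              t * DAE.dd U i (DAE.ι (MvPolynomial.aeval U G)) := by
          rw [← h1, (DAE.dd U i).leibniz, smul_eq_mul, smul_eq_mul]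
          ring
        have h3 : w (DAE.ι (MvPolynomial.aeval U G)) * w (DAE.dd U i t) ≤
            (σ i)⁻¹ * w (DAE.ι (MvPolynomial.aeval U F)) := by
          rw [← hw.mul, h2]
          refine (hw.sub _ _).trans (max_le (hB F) ?_)
          rw [hw.mul]
          calc w t * w (DAE.dd U i (DAE.ι (MvPolynomial.aeval U G)))
              ≤ w t * ((σ i)⁻¹ * w (DAE.ι (MvPolynomial.aeval U G))) :=
                mul_le_mul_of_nonneg_left (hB G) (hw.nonneg t)
            _ = (σ i)⁻¹ * w (DAE.ι (MvPolynomial.aeval U F)) := by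
                rw [← h1, hw.mul]
                ring
        have hp := hw.pos hb
        rw [← h1, hw.mul] at h3
        refine le_of_mul_le_mul_left ?_ hp
        calc w (DAE.ι (MvPolynomial.aeval U G)) * w (DAE.dd U i t)
            ≤ (σ i)⁻¹ * (w t * w (DAE.ι (MvPolynomial.aeval U G))) := h3
          _ = w (DAE.ι (MvPolynomial.aeval U G)) * ((σ i)⁻¹ * w t) := by ring
  -- the determinant of the derivatives
  have hdet : w (Matrix.of fun i j => DAE.dd U i (DAE.ι (u j))).det ≤
      (∏ i, (σ i)⁻¹) * ∏ j, V (u j) := by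
    have hnn : 0 ≤ (∏ i, (σ i)⁻¹) * ∏ j, V (u j) :=
      mul_nonneg (Finset.prod_nonneg fun i _ => inv_nonneg.2 (hM.pos i).le)
        (Finset.prod_nonneg fun j _ => V.nonneg _)
    rw [Matrix.det_apply']
    refine hw.sum_le hnn fun τ _ => ?_
    have hs : w (((Equiv.Perm.sign τ : ℤ) : DAE.KK n)) = 1 := by
      rcases Int.units_eq_one_or (Equiv.Perm.sign τ) with h | h
      · rw [h]
        simpa using hw.one
      · rw [h]
        simpa using hw.neg_one
    rw [hw.mul, hs, one_mul, hw.prod]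
    calc ∏ j, w ((Matrix.of fun i j => DAE.dd U i (DAE.ι (u j))) (τ j) j)
        ≤ ∏ j, ((σ (τ j))⁻¹ * V (u j)) := by
          refine Finset.prod_le_prod (fun j _ => hw.nonneg _) fun j _ => ?_
          rw [Matrix.of_apply, ← hwV]
          exact hbd (τ j) _
      _ = (∏ i, (σ i)⁻¹) * ∏ j, V (u j) := by
          rw [Finset.prod_mul_distrib, Equiv.prod_comp τ (fun i => (σ i)⁻¹)]
  have h1 : DAE.ι (H17Dyn.jac u) =
      DAE.ι (H17Dyn.jac U) * (Matrix.of fun i j => DAE.dd U i (DAE.ι (u j))).det := by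
    rw [← jb_det hJ, H17Dyn.jac, RingHom.map_det]
    congr 1
    ext i j
    exact (DAE.pdK_ι i (u j)).symm
  have h2 : V (jac u) ≤ V (jac U) * ((∏ i, (σ i)⁻¹) * ∏ j, V (u j)) := by
    rw [jb_jac, jb_jac, ← hwV, ← hwV (H17Dyn.jac U)]
    change w (DAE.ι (H17Dyn.jac u)) ≤ w (DAE.ι (H17Dyn.jac U)) * _
    rw [h1, hw.mul]
    exact mul_le_mul_of_nonneg_left hdet (hw.nonneg _)
  have hρ' : 0 ≤ ∏ i, ρ i := Finset.prod_nonneg fun i _ => (hρ i).le
  have hσ' : ∏ i, σ i ≠ 0 := Finset.prod_ne_zero_iff.2 fun i _ => (hM.pos i).ne'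
  calc V (jac u) * ∏ i, ρ i ≤ V (jac U) * ((∏ i, (σ i)⁻¹) * ∏ j, V (u j)) * ∏ i, ρ i :=
        mul_le_mul_of_nonneg_right h2 hρ'
    _ = (V (jac U) * ∏ i, ρ i) * (∏ i, (σ i)⁻¹) * ∏ j, V (u j) := by ring
    _ = ∏ i, V (u i) := by
        rw [hVJ, Finset.prod_inv_distrib, mul_inv_cancel₀ hσ', one_mul]

end Pool.Agent.DaeB
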