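import Pool.Agent.DaeB.ExactTower
import Pool.Agent.DaeB.JacBound
import Pool.Agent.DaeB.FatR

/-! # DaeB: the polynomial rate of approximation (package DB17) -/

set_option autoImplicit false

namespace Pool.Agent.DaeB

open Polynomial

/-- degrees under an algebra homomorphism -/
private lemma rt_deg {n : ℕ} (ψ : A n →ₐ[ℂ] A n) (D : ℕ)
    (h : ∀ i, (ψ (MvPolynomial.X i)).totalDegree ≤ D) (P : A n) :
    (ψ P).totalDegree ≤ D * P.totalDegree := by
  have h0 : ψ P = ∑ m ∈ P.support, ψ (MvPolynomial.monomial m (MvPolynomial.coeff m P)) := by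
    conv_lhs => rw [P.as_sum]
    rw [map_sum]
  rw [h0]
  refine (sizeA n).sum_le _ _ _ fun m hm => ?_
  have h1 : ψ (MvPolynomial.monomial m (MvPolynomial.coeff m P)) =
      MvPolynomial.C (MvPolynomial.coeff m P) * ∏ i, ψ (MvPolynomial.X i) ^ m i := by
    rw [MvPolynomial.monomial_eq, map_mul, Finsupp.prod_fintype _ _ (fun i => pow_zero _),
      map_prod]
    congr 1
    · exact ψ.commutes _
    · exact Finset.prod_congr rfl fun i _ => map_pow _ _ _
  rw [h1]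
  refine ((sizeA n).mul _ _).trans ?_
  have h2 : (sizeA n).s (MvPolynomial.C (MvPolynomial.coeff m P)) = 0 :=
    MvPolynomial.totalDegree_C _
  rw [h2, zero_add]
  refine ((sizeA n).prod_le _ _).trans ?_
  calc ∑ i, (sizeA n).s (ψ (MvPolynomial.X i) ^ m i)
      ≤ ∑ i, D * m i := by
        refine Finset.sum_le_sum fun i _ => ((sizeA n).pow_le _ _).trans ?_
        rw [mul_comm D]
        exact Nat.mul_le_mul_left _ (h i)
    _ = D * ∑ i, m i := by rw [Finset.mul_sum]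
    _ ≤ D * P.totalDegree := by
        refine Nat.mul_le_mul_left _ ?_
        have h3 := MvPolynomial.le_totalDegree hm
        rwa [Finsupp.sum_fintype _ _ (fun i => rfl)] at h3

private lemma rt_deg_pow {n : ℕ} (ψ : A n ≃ₐ[ℂ] A n) (D : ℕ)
    (h : ∀ i, (ψ (MvPolynomial.X i)).totalDegree ≤ D) (m : ℕ) (i : Fin n) :
    ((ψ ^ m) (MvPolynomial.X i)).totalDegree ≤ D ^ m := by
  induction m with
  | zero =>
    rw [pow_zero, AlgEquiv.one_apply, pow_zero]
    exact (MvPolynomial.totalDegree_X i).le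
  | succ m ih =>
    rw [pow_succ', AlgEquiv.mul_apply, pow_succ']
    exact (rt_deg (ψ : A n →ₐ[ℂ] A n) D h _).trans (Nat.mul_le_mul_left _ ih)

private lemma rt_val_pow {n : ℕ} (W : AbsoluteValue (A n) ℝ) (ψ : A n ≃ₐ[ℂ] A n) (mu : ℝ)
    (h : ∀ P, W (ψ P) = W P ^ mu) (m : ℕ) (P : A n) :
    W ((ψ ^ m) P) = W P ^ (mu ^ m) := by
  induction m with
  | zero =>
    rw [pow_zero, AlgEquiv.one_apply, pow_zero, Real.rpow_one]
  | succ m ih =>
    rw [pow_succ', AlgEquiv.mul_apply, h, ih, ← Real.rpow_mul (W.nonneg _), pow_succ]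

/-- the growth of the degrees in the tower -/
private lemma rt_iter {D : ℕ} (hD : 2 ≤ D) (n m : ℕ) :
    (fun x => 2 * x ^ 4)^[n] (D ^ m) ≤ D ^ ((m + 1) * 4 ^ n - 1) := by
  induction n with
  | zero => simp
  | succ n ih =>
    rw [Function.iterate_succ_apply']
    have h1 : 1 ≤ (m + 1) * 4 ^ n := Nat.mul_pos (Nat.succ_pos m) (by positivity)
    calc 2 * ((fun x => 2 * x ^ 4)^[n] (D ^ m)) ^ 4
        ≤ D * (D ^ ((m + 1) * 4 ^ n - 1)) ^ 4 :=
          Nat.mul_le_mul hD (Nat.pow_le_pow_left ih 4)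
      _ = D ^ (4 * ((m + 1) * 4 ^ n - 1) + 1) := by
          rw [← pow_mul, ← pow_succ']
          congr 1
          ring
      _ ≤ D ^ ((m + 1) * 4 ^ (n + 1) - 1) := by
          refine Nat.pow_le_pow_right (by omega) ?_
          have h2 : (m + 1) * 4 ^ (n + 1) = 4 * ((m + 1) * 4 ^ n) := by ring
          rw [h2]
          omega

/-- the estimate along the powers of `φ` -/
private lemma rt_main (n : ℕ) (W : AbsoluteValue (A n) ℝ) (hW : IsNonarchimedean W)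
    (hT : TrivC W) (hF : Fat W) (φ : A n ≃ₐ[ℂ] A n) (lam : ℝ) (hlam : 1 < lam)
    (hφ : ∀ P, W (φ P) = W P ^ lam) (hX : ∀ i, W (MvPolynomial.X i) ≤ Real.exp 1)
    (D : ℕ) (hD2 : 2 ≤ D) (hD : ∀ i, (φ.symm (MvPolynomial.X i)).totalDegree ≤ D) (m : ℕ)
    (i : Fin n) :
    Rc (D ^ ((m + 1) * 4 ^ n)) n W i ≤ Rinf n W i * Real.exp (n * (lam⁻¹) ^ m) := by
  have hlam0 : 0 < lam := by linarith
  set ψ : A n ≃ₐ[ℂ] A n := φ.symm with hψ
  have hψW : ∀ P, W (ψ P) = W P ^ lam⁻¹ := by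
    intro P
    have h1 := hφ (ψ P)
    rw [hψ, AlgEquiv.apply_symm_apply] at h1
    rw [h1, ← Real.rpow_mul (W.nonneg _), mul_inv_cancel₀ hlam0.ne', Real.rpow_one]
  have hD1 : 1 ≤ D ^ m := Nat.one_le_pow _ _ (by omega)
  obtain ⟨V, U, σ, ρ, hV, hTV, hM, hVW, htri, hρ, hd, hρc⟩ := exact_tower n W hW hT (D ^ m) hD1
  set g : Fin n → A n := fun j => (ψ ^ m) (MvPolynomial.X j) with hg
  have hVg : ∀ j, V (g j) = W (g j) := fun j => hVW _ (rt_deg_pow ψ D hD m j)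
  have hWg : ∀ j, W (g j) ≤ Real.exp ((lam⁻¹) ^ m) := by
    intro j
    rw [hg]
    simp only
    rw [rt_val_pow W ψ lam⁻¹ hψW]
    have h1 : W (MvPolynomial.X j) ^ ((lam⁻¹) ^ m) ≤ Real.exp 1 ^ ((lam⁻¹) ^ m) :=
      Real.rpow_le_rpow (W.nonneg _) (hX j) (by positivity)
    rw [← Real.exp_mul, one_mul] at h1
    exact h1
  obtain ⟨z, hz, hjac⟩ := jac_aut (ψ ^ m)
  have hJ : V (jac g) = 1 := by
    have h1 : jac g = MvPolynomial.C z := hjac
    rw [h1]
    exact hTV z hz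
  have hb := jac_bound n V hV hTV U σ ρ hM hρ htri hd g
  rw [hJ, one_mul] at hb
  have hprod : ∏ j, ρ j ≤ Real.exp (n * (lam⁻¹) ^ m) := by
    refine hb.trans ?_
    calc ∏ j, V (g j) ≤ ∏ _j : Fin n, Real.exp ((lam⁻¹) ^ m) := by
          refine Finset.prod_le_prod (fun j _ => V.nonneg _) fun j _ => ?_
          rw [hVg]
          exact hWg j
      _ = Real.exp (n * (lam⁻¹) ^ m) := by
          rw [Finset.prod_const, Finset.card_univ, Fintype.card_fin, ← Real.exp_nat_mul]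
  -- comparison of the factors
  have hR : ∀ j, 0 < Rinf n W j := fun j => hF.Rinf_pos j
  have hle : ∀ j, Rinf n W j ≤ ρ j := by
    intro j
    obtain ⟨c', h1, -, h3⟩ := hρc j
    rw [h3]
    exact Rinf_le_Rc (hD1.trans h1) n W j
  have hi : Rc (D ^ ((m + 1) * 4 ^ n)) n W i ≤ ρ i := by
    obtain ⟨c', h1, h2, h3⟩ := hρc i
    rw [h3]
    refine Rc_anti (hD1.trans h1) (h2.trans ((rt_iter hD2 n m).trans ?_)) n W i
    exact Nat.pow_le_pow_right (by omega) (Nat.sub_le _ _)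
  refine hi.trans ?_
  have h1 : (∏ j ∈ Finset.univ.erase i, Rinf n W j) ≤ ∏ j ∈ Finset.univ.erase i, ρ j :=
    Finset.prod_le_prod (fun j _ => (hR j).le) fun j _ => hle j
  have h2 := hF.one_le_prod_Rinf
  rw [← Finset.mul_prod_erase Finset.univ _ (Finset.mem_univ i)] at h2 hprod
  have h4 : 0 < ∏ j ∈ Finset.univ.erase i, Rinf n W j := Finset.prod_pos fun j _ => hR j
  have h5 : ρ i * ∏ j ∈ Finset.univ.erase i, Rinf n W j ≤ Real.exp (n * (lam⁻¹) ^ m) :=
    (mul_le_mul_of_nonneg_left h1 (hρ i).le).trans hprod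
  calc ρ i ≤ ρ i * (Rinf n W i * ∏ j ∈ Finset.univ.erase i, Rinf n W j) :=
        le_mul_of_one_le_right (hρ i).le h2
    _ = Rinf n W i * (ρ i * ∏ j ∈ Finset.univ.erase i, Rinf n W j) := by ring
    _ ≤ Rinf n W i * Real.exp (n * (lam⁻¹) ^ m) := mul_le_mul_of_nonneg_left h5 (hR i).le

/-- Let `D ≥ 2` bound the degrees of `φ⁻¹ (X i)`; `g = φ^(-m) (X i)` has degree `≤ D ^ m`,
`W (g i) = W (X i) ^ (lam ^ (-m)) ≤ exp (lam ^ (-m))` and `jac g` is a nonzero constant.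
`exact_tower` with `c = D ^ m` and `jac_bound` with `u = g` give
`∏ ρ i ≤ exp (n * lam ^ (-m))` with `ρ i = Rc (c' i) n W i`, `c' i ≤ N_m := (2 x ^ 4)^[n] (D ^ m)
≤ (2 * D ^ m) ^ (4 ^ n) ≤ D ^ ((m + 1) * 4 ^ n)`.  As `Rinf ≤ Rc`, `1 ≤ ∏ Rinf` (fatness):
`Rc (c' i) / Rinf ≤ ∏ ρ / ∏ Rinf ≤ exp (n * lam ^ (-m))`, and `Rc N_m ≤ Rc (c' i)` (antitone).
For `c ≥ 1` take the largest `m` with `D ^ ((m + 1) * 4 ^ n) ≤ c` (if there is none then
`Rc c ≤ Rc 1` and `c` is bounded). -/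
theorem rate (n : ℕ) (W : AbsoluteValue (A n) ℝ) (hW : IsNonarchimedean W) (hT : TrivC W)
    (hF : Fat W) (φ : A n ≃ₐ[ℂ] A n) (lam : ℝ) (hlam : 1 < lam)
    (hφ : ∀ P, W (φ P) = W P ^ lam) (hX : ∀ i, W (MvPolynomial.X i) ≤ Real.exp 1) :
    ∃ C κ : ℝ, 0 ≤ C ∧ 0 < κ ∧ ∀ c : ℕ, 1 ≤ c → ∀ i,
      Rc c n W i ≤ Rinf n W i * Real.exp (C * (c : ℝ) ^ (-κ)) := by
  have hlam0 : 0 < lam := by linarith
  set D : ℕ := max 2 (Finset.univ.sup fun i : Fin n =>
    (φ.symm (MvPolynomial.X i)).totalDegree) with hDdef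
  have hD2 : 2 ≤ D := le_max_left _ _
  have hD : ∀ i, (φ.symm (MvPolynomial.X i)).totalDegree ≤ D := fun i =>
    (Finset.le_sup (f := fun i : Fin n => (φ.symm (MvPolynomial.X i)).totalDegree)
      (Finset.mem_univ i)).trans (le_max_right _ _)
  have hDr : (1 : ℝ) < D := by exact_mod_cast hD2
  have hDr0 : (0 : ℝ) < D := by linarith
  have hlogD : 0 < Real.log D := Real.log_pos hDr
  have hlogl : 0 < Real.log lam := Real.log_pos hlam
  set K : ℕ := 4 ^ n with hK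
  have hK0 : 0 < K := by positivity
  have hKr : (0 : ℝ) < K := by exact_mod_cast hK0
  set κ : ℝ := Real.log lam / (K * Real.log D) with hκ
  have hκ0 : 0 < κ := by positivity
  -- powers of `D`
  have hpow : ∀ (a : ℕ), ((D : ℝ) ^ (a * K)) ^ (-κ) = (lam⁻¹) ^ a := by
    intro a
    rw [Real.rpow_def_of_pos (by positivity), Real.log_pow]
    have h1 : ((a * K : ℕ) : ℝ) * Real.log D * (-κ) = a * Real.log lam⁻¹ := by
      rw [hκ, Real.log_inv, Nat.cast_mul]
      field_simp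
    rw [h1, Real.exp_nat_mul, Real.exp_log (inv_pos.2 hlam0)]
  have hR : ∀ j, 0 < Rinf n W j := fun j => hF.Rinf_pos j
  have hle1 : ∀ j, Rinf n W j ≤ Rc 1 n W j := fun j => Rinf_le_Rc le_rfl n W j
  set b : Fin n → ℝ := fun j => Real.log (Rc 1 n W j / Rinf n W j) with hb
  have hb0 : ∀ j, 0 ≤ b j := fun j => Real.log_nonneg (by
    rw [le_div_iff₀ (hR j), one_mul]
    exact hle1 j)
  have hbexp : ∀ j, Rc 1 n W j = Rinf n W j * Real.exp (b j) := by
    intro j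
    rw [hb]
    simp only
    rw [Real.exp_log (div_pos ((hR j).trans_le (hle1 j)) (hR j)), mul_div_cancel₀ _ (hR j).ne']
  set S : ℝ := ∑ j, b j with hS
  have hS0 : 0 ≤ S := Finset.sum_nonneg fun j _ => hb0 j
  have hbS : ∀ j, b j ≤ S := fun j => Finset.single_le_sum (fun j _ => hb0 j) (Finset.mem_univ j)
  refine ⟨n * lam ^ 2 + lam * S, κ, by positivity, hκ0, fun c hc i => ?_⟩
  have hcr : (0 : ℝ) < c := by exact_mod_cast hc
  have hcκ : 0 < (c : ℝ) ^ (-κ) := Real.rpow_pos_of_pos hcr _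
  rcases lt_or_ge c (D ^ K) with hlt | hge
  · -- bounded `c`
    refine (Rc_anti le_rfl hc n W i).trans ?_
    rw [hbexp i]
    refine mul_le_mul_of_nonneg_left (Real.exp_le_exp.2 ?_) (hR i).le
    have h1 : (lam⁻¹) ^ 1 ≤ (c : ℝ) ^ (-κ) := by
      rw [← hpow 1, one_mul]
      refine Real.rpow_le_rpow_of_nonpos hcr ?_ (by linarith)
      exact_mod_cast hlt.le
    rw [pow_one] at h1
    have h2 : S ≤ lam * S * (c : ℝ) ^ (-κ) := by
      calc S = lam * S * lam⁻¹ := by field_simp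
        _ ≤ lam * S * (c : ℝ) ^ (-κ) := mul_le_mul_of_nonneg_left h1 (by positivity)
    have h3 : 0 ≤ n * lam ^ 2 * (c : ℝ) ^ (-κ) := by positivity
    calc b i ≤ S := hbS i
      _ ≤ (n * lam ^ 2 + lam * S) * (c : ℝ) ^ (-κ) := by rw [add_mul]; linarith
  · -- the largest `m`
    have hex : ∃ m : ℕ, c < D ^ ((m + 2) * K) := by
      refine ⟨c, (Nat.lt_pow_self (by omega : 1 < D)).trans_le ?_⟩
      refine Nat.pow_le_pow_right (by omega) ?_
      nlinarith
    classical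
    set m := Nat.find hex with hm
    have hm1 : c < D ^ ((m + 2) * K) := Nat.find_spec hex
    have hm2 : D ^ ((m + 1) * K) ≤ c := by
      rcases Nat.eq_zero_or_pos m with h0 | hpos
      · rw [h0, zero_add, one_mul]
        exact hge
      · have h1 := Nat.find_min hex (m := m - 1) (by omega)
        push Not at h1
        have h2 : m - 1 + 2 = m + 1 := by omega
        rwa [h2] at h1
    have h1 : Rc c n W i ≤ Rinf n W i * Real.exp (n * (lam⁻¹) ^ m) :=
      (Rc_anti (Nat.one_le_pow _ _ (by omega)) hm2 n W i).trans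
        (rt_main n W hW hT hF φ lam hlam hφ hX D hD2 hD m i)
    refine h1.trans (mul_le_mul_of_nonneg_left (Real.exp_le_exp.2 ?_) (hR i).le)
    have h2 : (lam⁻¹) ^ (m + 2) ≤ (c : ℝ) ^ (-κ) := by
      rw [← hpow (m + 2)]
      refine Real.rpow_le_rpow_of_nonpos hcr ?_ (by linarith)
      exact_mod_cast hm1.le
    have h3 : (lam⁻¹) ^ m = lam ^ 2 * (lam⁻¹) ^ (m + 2) := by
      rw [pow_add]
      field_simp
    have h4 : 0 ≤ lam * S * (c : ℝ) ^ (-κ) := by positivity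
    calc (n : ℝ) * (lam⁻¹) ^ m = n * lam ^ 2 * (lam⁻¹) ^ (m + 2) := by rw [h3]; ring
      _ ≤ n * lam ^ 2 * (c : ℝ) ^ (-κ) := mul_le_mul_of_nonneg_left h2 (by positivity)
      _ ≤ (n * lam ^ 2 + lam * S) * (c : ℝ) ^ (-κ) := by rw [add_mul]; linarith

end Pool.Agent.DaeB
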