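import Pool.Agent.DaeB.Near

/-! # DaeB: transport of algebraic independence of initial forms (package DB28) -/

set_option autoImplicit false

namespace Pool.Agent.DaeB

open Polynomial

section

variable {Ω : Type*} [Field Ω] {w : AbsoluteValue Ω ℝ}

/-- `b` has the same initial form as `a` -/
private def PCl (w : AbsoluteValue Ω ℝ) (a b : Ω) : Prop := w (a - b) < w a

private lemma pcl_le (hw : IsNonarchimedean w) {a b : Ω} (h : PCl w a b) : w b ≤ w a := by
  have h1 : b = a + (b - a) := by ring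
  rw [h1]
  refine (hw _ _).trans (max_le le_rfl ?_)
  rw [w.map_sub]
  exact le_of_lt h

private lemma pcl_one : PCl w 1 1 := by
  unfold PCl
  simp

private lemma pcl_mul (hw : IsNonarchimedean w) {a b c d : Ω} (h : PCl w a b) (h' : PCl w c d) :
    PCl w (a * c) (b * d) := by
  have ha : 0 < w a := lt_of_le_of_lt (w.nonneg _) h
  have hc : 0 < w c := lt_of_le_of_lt (w.nonneg _) h'
  have hd := pcl_le hw h'
  unfold PCl at h h' ⊢
  have h1 : a * c - b * d = a * (c - d) + (a - b) * d := by ring
  rw [h1, w.map_mul a c]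
  refine lt_of_le_of_lt (hw _ _) (max_lt ?_ ?_)
  · rw [w.map_mul]
    exact mul_lt_mul_of_pos_left h' ha
  · rw [w.map_mul]
    calc w (a - b) * w d ≤ w (a - b) * w c := mul_le_mul_of_nonneg_left hd (w.nonneg _)
      _ < w a * w c := mul_lt_mul_of_pos_right h hc

private lemma pcl_pow (hw : IsNonarchimedean w) {a b : Ω} (h : PCl w a b) (k : ℕ) :
    PCl w (a ^ k) (b ^ k) := by
  induction k with
  | zero => simpa using pcl_one
  | succ k ih =>
    rw [pow_succ, pow_succ]
    exact pcl_mul hw ih h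

private lemma pcl_prod (hw : IsNonarchimedean w) {ι : Type*} (s : Finset ι) (f g : ι → Ω)
    (h : ∀ i ∈ s, PCl w (f i) (g i)) : PCl w (∏ i ∈ s, f i) (∏ i ∈ s, g i) := by
  classical
  induction s using Finset.induction_on with
  | empty => simpa using pcl_one
  | insert a s ha ih =>
    rw [Finset.prod_insert ha, Finset.prod_insert ha]
    exact pcl_mul hw (h a (Finset.mem_insert_self _ _))
      (ih fun i hi => h i (Finset.mem_insert_of_mem hi))

private lemma psum_lt (hw : IsNonarchimedean w) {ι : Type*} (s : Finset ι) (f : ι → Ω) (B : ℝ)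
    (hB : 0 < B) (h : ∀ i ∈ s, w (f i) < B) : w (∑ i ∈ s, f i) < B := by
  classical
  induction s using Finset.induction_on with
  | empty => simpa using hB
  | insert a s ha ih =>
    rw [Finset.sum_insert ha]
    exact lt_of_le_of_lt (hw _ _) (max_lt (h a (Finset.mem_insert_self _ _))
      (ih fun i hi => h i (Finset.mem_insert_of_mem hi)))

private lemma pnear_prod (hw : IsNonarchimedean w) {M : Subfield Ω} {ι : Type*} (s : Finset ι)
    (f : ι → Ω) (h : ∀ i ∈ s, Near w M (f i)) : Near w M (∏ i ∈ s, f i) := by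
  classical
  induction s using Finset.induction_on with
  | empty =>
    rw [Finset.prod_empty]
    exact near_of_mem (one_mem M) one_ne_zero
  | insert a s ha ih =>
    rw [Finset.prod_insert ha]
    exact Near.mul hw (h a (Finset.mem_insert_self _ _))
      (ih fun i hi => h i (Finset.mem_insert_of_mem hi))

end

private lemma p_aeval {ι : Type*} {R : Type*} [CommRing R] [Algebra ℂ R] (y : ι → R)
    (G : MvPolynomial ι ℂ) : MvPolynomial.aeval y G =
      ∑ α ∈ G.support, algebraMap ℂ R (G.coeff α) * ∏ i ∈ α.support, y i ^ α i := by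
  rw [MvPolynomial.aeval_def, MvPolynomial.eval₂_eq]

private lemma p_mw {ι : Type*} {R : Type*} [CommRing R] [IsDomain R] (h : AbsoluteValue R ℝ)
    (y : ι → R) (σ : ι → ℝ) (hy : ∀ i, h (y i) = σ i) (α : ι →₀ ℕ) :
    h (∏ i ∈ α.support, y i ^ α i) = mw σ α := by
  rw [map_prod]
  unfold mw Finsupp.prod
  refine Finset.prod_congr rfl fun i _ => ?_
  rw [map_pow, hy]

private lemma p_mw_pos {ι : Type*} {σ : ι → ℝ} (h : ∀ i, 0 < σ i) (α : ι →₀ ℕ) :
    0 < mw σ α := Finset.prod_pos fun i _ => pow_pos (h i) _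

/-- counting: a family of elements which are algebraic over fewer elements is dependent -/
private lemma p_dep {Ω : Type*} [Field Ω] [Algebra ℂ Ω] {ι : Type*} [Fintype ι] (I : Finset ι)
    (hI : I.card < Fintype.card ι) (x : ι → Ω) (γ : ι → Ω)
    (hγ : ∀ i, IsAlgebraic (Algebra.adjoin ℂ (x '' I)) (γ i)) :
    ∃ G : MvPolynomial ι ℂ, G ≠ 0 ∧ MvPolynomial.aeval γ G = 0 := by
  classical
  by_contra hcon
  push Not at hcon
  have hind : AlgebraicIndependent ℂ γ := by
    rw [algebraicIndependent_iff]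
    intro p hp
    by_contra h
    exact hcon p h hp
  have hinj := hind.injective
  have h1 : (AlgebraicIndependent.matroid ℂ Ω).Indep (Set.range γ) :=
    AlgebraicIndependent.matroid_indep_iff.2 hind.coe_range
  have h2 : Set.range γ ⊆ (AlgebraicIndependent.matroid ℂ Ω).closure (x '' I) := by
    rintro _ ⟨i, rfl⟩
    rw [AlgebraicIndependent.matroid_closure_eq]
    exact hγ i
  have h3 := h1.encard_le_eRk_of_subset h2
  rw [Matroid.eRk_closure_eq] at h3
  have h4 := h3.trans (Matroid.eRk_le_encard _ _)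
  have h5 : (x '' (I : Set ι)).encard ≤ (I : Set ι).encard := Set.encard_image_le _ _
  have h6 : (Set.range γ).encard = (Fintype.card ι : ℕ∞) := by
    rw [← Set.image_univ, hinj.encard_image, Set.encard_univ, ENat.card_eq_coe_fintype_card]
  rw [h6] at h4
  rw [Set.encard_coe_eq_coe_finsetCard] at h5
  have h7 := h4.trans h5
  rw [Nat.cast_le] at h7
  omega

/-- Take `(Ω, w, ψ)` from `exists_algClosed_hom`.  Let `I ⊆ ι` be maximal such that `h` is monomial on
`ℂ[y'_I]` with weights `σ'`, `M` the relative algebraic closure of `ψ (ℂ[y'_I])` (`exists_relCl`).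
(1) Every `ψ (y' i)` is `Near M`: for `i ∉ I` the family `I ∪ {i}` is not monomial, i.e. some
`G = ∑ g_k(y'_I) y'_i ^ k` has value smaller than one of its monomials, so smaller than the Gauss norm
(`root_lemma`).
(2) By `hb` and `near_sum` all nonzero `ψ (aeval y' ((S i).coeff k))` are `Near M`.
(3) By `hval`, `hlt` and `root_lemma'` all `ψ (y i)` are `Near M`: choose `γ i ∈ M`.
(4) If `I ≠ ι` then `card I < card ι` and `M` has transcendence degree `≤ card I` over `ℂ`, so
`aeval γ G = 0` for some `G ≠ 0`; as `w (ψ (y i) - γ i) < w (ψ (y i))`,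
`h (aeval y G) < max` of the monomials: contradiction to `hy`. -/
theorem propagate {ι : Type} [Fintype ι] {R : Type} [CommRing R] [IsDomain R] [Algebra ℂ R]
    (h : AbsoluteValue R ℝ) (hna : IsNonarchimedean h) (hT : TrivC h) (y y' : ι → R)
    (σ σ' : ι → ℝ) (hy : Mono h y σ) (hy' : ∀ i, h (y' i) = σ' i) (hσ' : ∀ i, 0 < σ' i)
    (S : ι → Polynomial (MvPolynomial ι ℂ)) (β : ι → ℝ) (hβ : ∀ i, 0 < β i)
    (hS : ∀ i, S i ≠ 0)
    (hval : ∀ i k, (S i).coeff k ≠ 0 →
      h (MvPolynomial.aeval y' ((S i).coeff k)) * h (y i) ^ k = β i)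
    (hb : ∀ i k, ∀ α ∈ ((S i).coeff k).support,
      mw σ' α ≤ h (MvPolynomial.aeval y' ((S i).coeff k)))
    (hlt : ∀ i, h (relv y' (S i) (y i)) < β i) : Mono h y' σ' := by
  classical
  obtain ⟨Ω, _, _, ψ, w, hw, hψ⟩ := exists_algClosed_hom h hna hT.resZero
  let P : Finset ι → Prop := fun I => ∀ G : MvPolynomial ι ℂ,
    (∀ α ∈ G.support, α.support ⊆ I) → ∀ α ∈ G.support, mw σ' α ≤ h (MvPolynomial.aeval y' G)
  have hP0 : P ∅ := by
    intro G hG α hα
    have h0 : ∀ β ∈ G.support, β = 0 := fun β hβ => by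
      have := hG β hβ
      rwa [Finset.subset_empty, Finsupp.support_eq_empty] at this
    have h1 := h0 α hα
    subst h1
    have h2 : G.support = {0} := Finset.eq_singleton_iff_unique_mem.2 ⟨hα, h0⟩
    rw [p_aeval, h2, Finset.sum_singleton]
    have h3 := hT (G.coeff 0) (MvPolynomial.mem_support_iff.1 hα)
    simp [mw, h3]
  obtain ⟨I, hI, hmax⟩ : ∃ I, P I ∧ ∀ J, P J → J.card ≤ I.card := by
    obtain ⟨I, hI, hmax⟩ := Finset.exists_max_image (Finset.univ.filter P) Finset.card
      ⟨∅, Finset.mem_filter.2 ⟨Finset.mem_univ _, hP0⟩⟩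
    exact ⟨I, (Finset.mem_filter.1 hI).2, fun J hJ =>
      hmax J (Finset.mem_filter.2 ⟨Finset.mem_univ _, hJ⟩)⟩
  by_cases hU : I = Finset.univ
  · exact ⟨hy', hσ', fun G α hα => hI G (fun β _ => by rw [hU]; exact Finset.subset_univ _) α hα⟩
  exfalso
  have hcard : I.card < Fintype.card ι := by
    rw [← Finset.card_univ]
    exact Finset.card_lt_card (Finset.ssubset_univ_iff.2 hU)
  let alg : Algebra ℂ Ω := (ψ.comp (algebraMap ℂ R)).toAlgebra
  have halg : ∀ c : ℂ, algebraMap ℂ Ω c = ψ (algebraMap ℂ R c) := fun c => rfl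
  obtain ⟨M, hM, hMi⟩ := exists_relCl
    (MvPolynomial.aeval (fun j : I => ψ (y' j)) : MvPolynomial I ℂ →ₐ[ℂ] Ω).toRingHom
  have hMmem : ∀ p : MvPolynomial I ℂ, MvPolynomial.aeval (fun j : I => ψ (y' j)) p ∈ M := by
    intro p
    rw [hMi]
    refine ⟨X - C p, ?_, by simp⟩
    rw [Polynomial.map_sub, Polynomial.map_X, Polynomial.map_C]
    exact X_sub_C_ne_zero _
  have hMC : ∀ c : ℂ, ψ (algebraMap ℂ R c) ∈ M := by
    intro c
    have := hMmem (MvPolynomial.C c)
    rwa [MvPolynomial.aeval_C, halg] at this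
  have hMy : ∀ j ∈ I, ψ (y' j) ∈ M := by
    intro j hj
    have := hMmem (MvPolynomial.X ⟨j, hj⟩)
    rwa [MvPolynomial.aeval_X] at this
  have hMG : ∀ G : MvPolynomial ι ℂ, (∀ α ∈ G.support, α.support ⊆ I) →
      ψ (MvPolynomial.aeval y' G) ∈ M := by
    intro G hG
    rw [p_aeval, map_sum]
    refine sum_mem fun α hα => ?_
    rw [map_mul, map_prod]
    refine mul_mem (hMC _) (prod_mem fun i hi => ?_)
    rw [map_pow]
    exact pow_mem (hMy i (hG α hα hi)) _
  have hne : ∀ i, ψ (y' i) ≠ 0 := by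
    intro i h0
    have h1 := hψ (y' i)
    rw [h0, w.map_zero, hy'] at h1
    exact (hσ' i).ne h1
  -- step 1
  have hnear' : ∀ i, Near w M (ψ (y' i)) := by
    intro i
    by_cases hi : i ∈ I
    · exact near_of_mem (hMy i hi) (hne i)
    have hnP : ¬ P (insert i I) := fun hc => by
      have := hmax _ hc
      rw [Finset.card_insert_of_notMem hi] at this
      omega
    simp only [P] at hnP
    push Not at hnP
    obtain ⟨G, hG, α₀, hα₀, hlt0⟩ := hnP
    let g : ℕ → MvPolynomial ι ℂ := fun k => ∑ α ∈ G.support,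
      if k = α i then MvPolynomial.monomial (α.erase i) (G.coeff α) else 0
    have hgs : ∀ k, ∀ β ∈ (g k).support, β.support ⊆ I := by
      intro k β hβ
      rw [MvPolynomial.mem_support_iff] at hβ
      simp only [g] at hβ
      rw [MvPolynomial.coeff_sum] at hβ
      obtain ⟨α, hα, h1⟩ := Finset.exists_ne_zero_of_sum_ne_zero hβ
      split_ifs at h1 with h2
      · rw [MvPolynomial.coeff_monomial] at h1
        split_ifs at h1 with h3
        · rw [← h3, Finsupp.support_erase]
          intro j hj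
          rw [Finset.mem_erase] at hj
          have := hG α hα hj.2
          rw [Finset.mem_insert] at this
          exact this.resolve_left hj.1
        · exact absurd rfl h1
      · rw [MvPolynomial.coeff_zero] at h1
        exact absurd rfl h1
    have hg0 : (α₀.erase i) ∈ (g (α₀ i)).support := by
      rw [MvPolynomial.mem_support_iff]
      simp only [g]
      rw [MvPolynomial.coeff_sum, Finset.sum_eq_single α₀]
      · rw [if_pos rfl, MvPolynomial.coeff_monomial, if_pos rfl]
        exact MvPolynomial.mem_support_iff.1 hα₀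
      · intro α _ hne
        split_ifs with h2
        · rw [MvPolynomial.coeff_monomial, if_neg]
          intro h3
          apply hne
          ext j
          by_cases hj : j = i
          · rw [hj, h2]
          · have := DFunLike.congr_fun h3 j
            rwa [Finsupp.erase_ne hj, Finsupp.erase_ne hj] at this
        · exact MvPolynomial.coeff_zero _
      · intro h
        exact absurd hα₀ h
    let q : Polynomial Ω := ∑ α ∈ G.support,
      C (ψ (MvPolynomial.aeval y' (MvPolynomial.monomial (α.erase i) (G.coeff α)))) * X ^ (α i)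
    have hqc : ∀ k, q.coeff k = ψ (MvPolynomial.aeval y' (g k)) := by
      intro k
      simp only [q, g]
      rw [Polynomial.finsetSum_coeff, map_sum, map_sum]
      refine Finset.sum_congr rfl fun α _ => ?_
      rw [Polynomial.coeff_C_mul, Polynomial.coeff_X_pow]
      split_ifs
      · rw [mul_one]
      · rw [mul_zero, map_zero, map_zero]
    have hqe : q.eval (ψ (y' i)) = ψ (MvPolynomial.aeval y' G) := by
      have h1 : G = ∑ α ∈ G.support, MvPolynomial.monomial (α.erase i) (G.coeff α) *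
          MvPolynomial.X i ^ (α i) := by
        conv_lhs => rw [G.as_sum]
        refine Finset.sum_congr rfl fun α _ => ?_
        rw [MvPolynomial.X_pow_eq_monomial, MvPolynomial.monomial_mul, mul_one,
          Finsupp.erase_add_single]
      conv_rhs => rw [h1]
      simp only [q]
      rw [Polynomial.eval_finsetSum, map_sum, map_sum]
      refine Finset.sum_congr rfl fun α _ => ?_
      rw [Polynomial.eval_mul, Polynomial.eval_C, Polynomial.eval_pow, Polynomial.eval_X,
        map_mul, map_mul, map_pow, map_pow, MvPolynomial.aeval_X]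
    have hval0 : mw σ' (α₀.erase i) ≤ w (q.coeff (α₀ i)) := by
      rw [hqc, hψ]
      exact hI (g (α₀ i)) (hgs _) _ hg0
    have hwz : w (ψ (y' i)) = σ' i := by rw [hψ, hy']
    refine root_lemma hw hM q ?_ (fun k => ?_) _ (hne i) ?_
    · intro h0
      rw [h0, Polynomial.coeff_zero, w.map_zero] at hval0
      exact absurd hval0 (not_le.2 (p_mw_pos hσ' _))
    · rw [hqc]
      exact hMG _ (hgs k)
    · rw [hqe, hψ]
      refine lt_of_lt_of_le hlt0 ?_
      have h1 : mw σ' α₀ = σ' i ^ (α₀ i) * mw σ' (α₀.erase i) :=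
        (Finsupp.mul_prod_erase' α₀ i (fun j k => σ' j ^ k) fun j => pow_zero _).symm
      rw [h1, mul_comm]
      refine le_trans ?_ (Polynomial.le_gaussNorm w q (w.nonneg _) (α₀ i))
      rw [hwz]
      exact mul_le_mul_of_nonneg_right hval0 (pow_nonneg (hσ' i).le _)
  -- step 2
  have hnearC : ∀ c : ℂ, c ≠ 0 → Near w M (ψ (algebraMap ℂ R c)) := by
    intro c hc
    refine near_of_mem (hMC c) fun h0 => ?_
    have h1 := hψ (algebraMap ℂ R c)
    rw [h0, w.map_zero, hT c hc] at h1
    exact zero_ne_one h1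
  have hnearS : ∀ i k, (S i).coeff k ≠ 0 →
      ψ (MvPolynomial.aeval y' ((S i).coeff k)) ≠ 0 ∧
        Near w M (ψ (MvPolynomial.aeval y' ((S i).coeff k))) := by
    intro i k hk
    have hne0 : ψ (MvPolynomial.aeval y' ((S i).coeff k)) ≠ 0 := by
      intro h0
      have h1 := hψ (MvPolynomial.aeval y' ((S i).coeff k))
      rw [h0, w.map_zero] at h1
      have h2 := hval i k hk
      rw [← h1, zero_mul] at h2
      exact (hβ i).ne h2
    refine ⟨hne0, ?_⟩
    have hexp : ψ (MvPolynomial.aeval y' ((S i).coeff k)) =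
        ∑ α ∈ ((S i).coeff k).support, ψ (algebraMap ℂ R (((S i).coeff k).coeff α)) *
          ∏ j ∈ α.support, ψ (y' j) ^ α j := by
      rw [p_aeval, map_sum]
      refine Finset.sum_congr rfl fun α _ => ?_
      rw [map_mul, map_prod]
      congr 1
      exact Finset.prod_congr rfl fun j _ => map_pow _ _ _
    rw [hexp]
    refine near_sum hw _ _ (fun α hα => Or.inr ?_) (by rwa [← hexp]) fun α hα => ?_
    · exact Near.mul hw (hnearC _ (MvPolynomial.mem_support_iff.1 hα))
        (pnear_prod hw _ _ fun j _ => Near.pow hw (hnear' j) _)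
    · rw [← hexp, hψ, w.map_mul, hψ, hT _ (MvPolynomial.mem_support_iff.1 hα), one_mul]
      have h1 : w (∏ j ∈ α.support, ψ (y' j) ^ α j) = mw σ' α :=
        p_mw w (fun j => ψ (y' j)) σ' (fun j => by rw [hψ, hy']) α
      rw [h1]
      exact hb i k α hα
  -- step 3
  have hyne : ∀ i, ψ (y i) ≠ 0 := by
    intro i h0
    have h1 := hψ (y i)
    rw [h0, w.map_zero, hy.val] at h1
    exact (hy.pos i).ne h1
  have hnear : ∀ i, Near w M (ψ (y i)) := by
    intro i
    let φ : MvPolynomial ι ℂ →+* Ω :=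
      ψ.comp (MvPolynomial.aeval y' : MvPolynomial ι ℂ →ₐ[ℂ] R).toRingHom
    have hφ : ∀ G, φ G = ψ (MvPolynomial.aeval y' G) := fun G => rfl
    obtain ⟨k, hk⟩ : ∃ k, (S i).coeff k ≠ 0 := by
      by_contra hc
      push Not at hc
      exact hS i (Polynomial.ext fun k => by rw [hc, Polynomial.coeff_zero])
    have hqk : ((S i).map φ).coeff k ≠ 0 := by
      rw [Polynomial.coeff_map, hφ]
      exact (hnearS i k hk).1
    refine root_lemma' hw hM ((S i).map φ) ?_ (fun l => ?_) _ (hyne i) ?_
    · intro h0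
      rw [h0, Polynomial.coeff_zero] at hqk
      exact hqk rfl
    · rw [Polynomial.coeff_map, hφ]
      by_cases hl : (S i).coeff l = 0
      · left
        rw [hl, map_zero, map_zero]
      · exact Or.inr (hnearS i l hl).2
    · have h1 : ((S i).map φ).eval (ψ (y i)) = ψ (relv y' (S i) (y i)) := by
        rw [Polynomial.eval_map]
        unfold relv
        rw [Polynomial.hom_eval₂]
      rw [h1, hψ]
      refine lt_of_lt_of_le (hlt i) ?_
      refine le_trans ?_ (Polynomial.le_gaussNorm w _ (w.nonneg _) k)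
      rw [Polynomial.coeff_map, hφ, hψ, hψ, hval i k hk]
  -- step 4
  choose γ hγM hγ using hnear
  have halgγ : ∀ i, IsAlgebraic (Algebra.adjoin ℂ ((fun i => ψ (y' i)) '' I)) (γ i) := by
    intro i
    obtain ⟨p, hp, hpe⟩ := (hMi (γ i)).1 (hγM i)
    have hmem : ∀ r : MvPolynomial I ℂ, MvPolynomial.aeval (fun j : I => ψ (y' j)) r ∈
        Algebra.adjoin ℂ ((fun i => ψ (y' i)) '' (I : Set ι)) := by
      intro r
      rw [p_aeval]
      refine sum_mem fun α _ => mul_mem (Subalgebra.algebraMap_mem _ _)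
        (prod_mem fun j _ => pow_mem (Algebra.subset_adjoin
          (Set.mem_image_of_mem (fun i => ψ (y' i)) (Finset.mem_coe.2 j.2))) _)
    let θ : MvPolynomial I ℂ →+* Algebra.adjoin ℂ ((fun i => ψ (y' i)) '' (I : Set ι)) :=
      (MvPolynomial.aeval (fun j : I => ψ (y' j)) : MvPolynomial I ℂ →ₐ[ℂ] Ω).toRingHom.codRestrict
        _ hmem
    have hθ : (algebraMap (Algebra.adjoin ℂ ((fun i => ψ (y' i)) '' (I : Set ι))) Ω).comp θ =
        (MvPolynomial.aeval (fun j : I => ψ (y' j)) : MvPolynomial I ℂ →ₐ[ℂ] Ω).toRingHom := rfl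
    refine ⟨p.map θ, fun h0 => hp ?_, ?_⟩
    · rw [← hθ, ← Polynomial.map_map, h0, Polynomial.map_zero]
    · rw [Polynomial.aeval_def, Polynomial.eval₂_map, hθ]
      exact hpe
  obtain ⟨G, hG0, hG⟩ := p_dep I hcard (fun i => ψ (y' i)) γ halgγ
  have hsupp : G.support.Nonempty := MvPolynomial.support_nonempty.2 hG0
  obtain ⟨α₀, hα₀, hm⟩ := Finset.exists_max_image G.support (mw σ) hsupp
  have h1 := hy.le G α₀ hα₀
  have h2 : ψ (MvPolynomial.aeval y G) = ∑ α ∈ G.support, ψ (algebraMap ℂ R (G.coeff α)) *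
      (∏ j ∈ α.support, ψ (y j) ^ α j - ∏ j ∈ α.support, γ j ^ α j) := by
    have h3 := hG
    rw [p_aeval] at h3
    simp only [halg] at h3
    rw [p_aeval, map_sum, ← sub_zero (∑ x ∈ G.support, _), ← h3, ← Finset.sum_sub_distrib]
    refine Finset.sum_congr rfl fun α _ => ?_
    rw [map_mul, map_prod, mul_sub]
    congr 2
    exact Finset.prod_congr rfl fun j _ => map_pow _ _ _
  have h3 : w (ψ (MvPolynomial.aeval y G)) < mw σ α₀ := by
    rw [h2]
    refine psum_lt hw _ _ _ (p_mw_pos hy.pos _) fun α hα => ?_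
    rw [w.map_mul, hψ, hT _ (MvPolynomial.mem_support_iff.1 hα), one_mul]
    have h4 : PCl w (∏ j ∈ α.support, ψ (y j) ^ α j) (∏ j ∈ α.support, γ j ^ α j) :=
      pcl_prod hw _ _ _ fun j _ => pcl_pow hw (hγ j) _
    have h5 : w (∏ j ∈ α.support, ψ (y j) ^ α j) = mw σ α :=
      p_mw w (fun j => ψ (y j)) σ (fun j => by rw [hψ, hy.val]) α
    unfold PCl at h4
    rw [h5] at h4
    exact lt_of_lt_of_le h4 (hm α hα)
  rw [hψ] at h3
  exact absurd h1 (not_le.2 h3)

end Pool.Agent.DaeB
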