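import Pool.Agent.DaeB.ValueFormula

/-!
# MP_dae5d3_ag, half (B), step 7: rigidity (DB27) and the orbit (DB30)
-/

set_option autoImplicit false

namespace Pool.Agent.DaeB

open MvPolynomial

/-- **Rigidity** (step 7 of note 1743). The terms of the relation have `h`-values
`β ^ t * (h F / W F ^ t) ^ k`.  If `h F ≠ W F ^ t` the largest one (at `k = natDegree` resp.
`k = 0`) is the unique maximum and it is `≥ β ^ t`, so `h (relv y a F) ≥ β ^ t`. -/
theorem rigid {ι : Type*} {R : Type*} [CommRing R] [IsDomain R] [Algebra ℂ R]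
    (W h : AbsoluteValue R ℝ) (hh : IsNonarchimedean h) (y : ι → R)
    (a : Polynomial (MvPolynomial ι ℂ)) (β : ℝ) (F : R) (hF : F ≠ 0) (hβ : 0 < β)
    (ha0 : a.coeff 0 ≠ 0) (ha : 0 < a.natDegree)
    (heq : ∀ k, a.coeff k ≠ 0 → W (MvPolynomial.aeval y (a.coeff k)) * W F ^ k = β)
    (t : ℝ) (_ht : 0 < t)
    (hG : ∀ G : MvPolynomial ι ℂ, h (MvPolynomial.aeval y G) = W (MvPolynomial.aeval y G) ^ t)
    (hlt : h (relv y a F) < β ^ t) : h F = W F ^ t := by
  classical
  have hw : 0 < W F := W.pos hF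
  have hx : 0 < h F := h.pos hF
  have hwt : 0 < W F ^ t := Real.rpow_pos_of_pos hw t
  have hβt : 0 < β ^ t := Real.rpow_pos_of_pos hβ t
  set ρ : ℝ := h F / W F ^ t with hρ
  have hρ0 : 0 < ρ := div_pos hx hwt
  have ha' : a ≠ 0 := by
    rintro rfl
    simp at ha
  -- the values of the terms
  have hterm : ∀ k, a.coeff k ≠ 0 → h (aeval y (a.coeff k) * F ^ k) = β ^ t * ρ ^ k := by
    intro k hk
    rw [map_mul, map_pow, hG, ← heq k hk, Real.mul_rpow (W.nonneg _) (by positivity), hρ,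
      div_pow]
    have h1 : (W F ^ k) ^ t = (W F ^ t) ^ k := by
      rw [← Real.rpow_natCast, ← Real.rpow_natCast, ← Real.rpow_mul hw.le,
        ← Real.rpow_mul hw.le, mul_comm]
    rw [h1]
    field_simp
  have hsum : relv y a F = ∑ k ∈ a.support, aeval y (a.coeff k) * F ^ k := by
    rw [relv, Polynomial.eval₂_eq_sum, Polynomial.sum]
    rfl
  by_contra hne
  rcases lt_or_gt_of_ne hne with hlt' | hgt'
  · -- `ρ < 1`: the constant term is the unique maximum
    have hρ1 : ρ < 1 := (div_lt_one hwt).2 hlt'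
    have h0 : (0 : ℕ) ∈ a.support := Polynomial.mem_support_iff.2 ha0
    have h1 := av_sum_eq hh a.support (fun k => aeval y (a.coeff k) * F ^ k) h0
      (fun k hk hk0 => by
        rw [hterm k (Polynomial.mem_support_iff.1 hk), hterm 0 ha0]
        exact mul_lt_mul_of_pos_left
          (by rw [pow_zero]; exact pow_lt_one₀ hρ0.le hρ1 hk0) hβt)
    rw [hsum, h1, hterm 0 ha0, pow_zero, mul_one] at hlt
    exact lt_irrefl _ hlt
  · have hρ1 : 1 < ρ := (one_lt_div hwt).2 hgt'
    have hm : a.natDegree ∈ a.support := Polynomial.natDegree_mem_support_of_nonzero ha'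
    have hm' : a.coeff a.natDegree ≠ 0 := Polynomial.mem_support_iff.1 hm
    have h1 := av_sum_eq hh a.support (fun k => aeval y (a.coeff k) * F ^ k) hm
      (fun k hk hkm => by
        rw [hterm k (Polynomial.mem_support_iff.1 hk), hterm _ hm']
        refine mul_lt_mul_of_pos_left (pow_lt_pow_right₀ hρ1 ?_) hβt
        exact lt_of_le_of_ne (Polynomial.le_natDegree_of_mem_supp k hk) hkm)
    rw [hsum, h1, hterm _ hm'] at hlt
    have h2 : 1 ≤ ρ ^ a.natDegree := one_le_pow₀ hρ1.le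
    nlinarith

/-- the value of the iterates of an eigenvaluation -/
lemma eigen_pow {d : ℕ} {W : AbsoluteValue (A d) ℝ} {φ : A d ≃ₐ[ℂ] A d} {lam : ℝ}
    (hφ : ∀ P, W (φ P) = W P ^ lam) (j : ℕ) (P : A d) : W ((φ ^ j) P) = W P ^ (lam ^ j) := by
  induction j generalizing P with
  | zero => simp
  | succ j ih =>
    rw [pow_succ, AlgEquiv.mul_apply, ih, hφ, ← Real.rpow_mul (W.nonneg _), pow_succ, mul_comm]

/-- **The orbit** (induction of step 8): the system property propagates. -/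
theorem orbit {d : ℕ} {W : AbsoluteValue (A d) ℝ} {φ : A d ≃ₐ[ℂ] A d} {lam : ℝ}
    (hlam : 0 < lam) (hφ : ∀ P, W (φ P) = W P ^ lam) {ι : Type*} {y : ι → A d}
    {L : Finset (A d)} {ε : ℝ}
    (hL : ∀ h : AbsoluteValue (A d) ℝ, IsNonarchimedean h → TrivC h → ∀ t : ℝ, 0 < t →
      (∀ G : MvPolynomial ι ℂ, h (aeval y G) = W (aeval y G) ^ t) →
      (∀ P ∈ L, h P ≤ W P ^ t * Real.exp (t * ε)) →
      ∀ G : MvPolynomial ι ℂ, h (φ (aeval y G)) = W (φ (aeval y G)) ^ t)
    {V : AbsoluteValue (A d) ℝ} (hV : IsNonarchimedean V) (hVC : TrivC V)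
    (hVy : ∀ G : MvPolynomial ι ℂ, V (aeval y G) = W (aeval y G)) {n : ℕ}
    (hn : ∀ j < n, ∀ P ∈ L,
      |Real.log (V ((φ ^ j) P)) - Real.log (W ((φ ^ j) P))| ≤ lam ^ j * ε) :
    ∀ j ≤ n, ∀ G : MvPolynomial ι ℂ, V ((φ ^ j) (aeval y G)) = W (aeval y G) ^ (lam ^ j) := by
  intro j
  induction j with
  | zero =>
    intro _ G
    rw [pow_zero, pow_zero, Real.rpow_one]
    exact hVy G
  | succ j ih =>
    intro hj G
    have ih' := ih (by omega)
    set h : AbsoluteValue (A d) ℝ :=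
      V.comp (f := ((φ ^ j : A d ≃ₐ[ℂ] A d) : A d →+* A d)) (φ ^ j).injective with hh
    have hh' : ∀ P, h P = V ((φ ^ j) P) := fun P => rfl
    have ht : 0 < lam ^ j := pow_pos hlam j
    have h1 := hL h (fun P Q => by
        rw [hh', hh', hh', map_add]
        exact hV _ _) (fun z hz => by
        rw [hh', AlgEquiv.commutes]
        exact hVC z hz) (lam ^ j) ht (fun G => by rw [hh', ih' G]) (fun P hP => by
        rw [hh']
        rcases eq_or_ne P 0 with rfl | hP0
        · rw [map_zero, map_zero, map_zero, Real.zero_rpow ht.ne', zero_mul]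
        have hP' : (φ ^ j) P ≠ 0 := (map_ne_zero_iff _ (φ ^ j).injective).2 hP0
        have h2 := (abs_le.1 (hn j (by omega) P hP)).2
        rw [← eigen_pow hφ j P]
        have h3 : Real.log (V ((φ ^ j) P)) ≤ Real.log (W ((φ ^ j) P)) + lam ^ j * ε := by
          linarith
        rw [← Real.exp_log (V.pos hP'), ← Real.exp_log (W.pos hP'), ← Real.exp_add,
          Real.exp_le_exp]
        exact h3) G
    rw [hh'] at h1
    rw [pow_succ φ j, AlgEquiv.mul_apply, h1, hφ, ← Real.rpow_mul (W.nonneg _), pow_succ,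
      mul_comm]

end Pool.Agent.DaeB
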