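import Pool.Agent.DaeB.Rel
import Pool.Agent.DaeB.Propagate
import Pool.Agent.DaeB.Rigid

/-! # DaeB: the finite system of inequalities which propagates equality (package DB29) -/

set_option autoImplicit false

namespace Pool.Agent.DaeB

open Polynomial

private lemma sys_mw_pos {ι : Type*} {σ : ι → ℝ} (h : ∀ i, 0 < σ i) (α : ι →₀ ℕ) :
    0 < mw σ α :=
  Finset.prod_pos fun i _ => pow_pos (h i) _

private lemma sys_pow_rpow {x : ℝ} (hx : 0 ≤ x) (s : ℝ) (k : ℕ) : (x ^ s) ^ k = (x ^ k) ^ s := by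
  rw [← Real.rpow_natCast, ← Real.rpow_mul hx, mul_comm, Real.rpow_mul hx, Real.rpow_natCast]

private lemma sys_mw_rpow {ι : Type*} {σ : ι → ℝ} (h : ∀ i, 0 < σ i) (s : ℝ) (α : ι →₀ ℕ) :
    mw (fun i => σ i ^ s) α = mw σ α ^ s := by
  unfold mw Finsupp.prod
  rw [← Real.finsetProd_rpow _ _ (fun i _ => (pow_pos (h i) _).le)]
  exact Finset.prod_congr rfl fun i _ => sys_pow_rpow (h i).le s _

/-- the value of a nonzero element of `ℂ[U]` is the maximum of the weights -/
private lemma sys_max {ι : Type*} {R : Type*} [CommRing R] [IsDomain R] [Algebra ℂ R]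
    (v : AbsoluteValue R ℝ) (hv : IsNonarchimedean v) (hT : TrivC v) (U : ι → R) (σ : ι → ℝ)
    (hM : Mono v U σ) (G : MvPolynomial ι ℂ) (hG : G ≠ 0) :
    ∃ α ∈ G.support, v (MvPolynomial.aeval U G) = mw σ α ∧
      ∀ α' ∈ G.support, mw σ α' ≤ mw σ α := by
  classical
  have hne : G.support.Nonempty := by
    rw [Finset.nonempty_iff_ne_empty]
    intro h
    exact hG (MvPolynomial.support_eq_empty.1 h)
  have hsum : MvPolynomial.aeval U G = ∑ d ∈ G.support,
      algebraMap ℂ R (G.coeff d) * ∏ i ∈ d.support, U i ^ d i := by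
    rw [MvPolynomial.aeval_def, MvPolynomial.eval₂_eq]
  have hterm : ∀ d ∈ G.support,
      v (algebraMap ℂ R (G.coeff d) * ∏ i ∈ d.support, U i ^ d i) = mw σ d := by
    intro d hd
    rw [map_mul, hT _ (MvPolynomial.mem_support_iff.1 hd), one_mul, map_prod]
    unfold mw Finsupp.prod
    refine Finset.prod_congr rfl fun i _ => ?_
    rw [map_pow, hM.val]
  obtain ⟨b, hb, hle⟩ := IsNonarchimedean.finset_image_add_of_nonempty hv
    (fun d => algebraMap ℂ R (G.coeff d) * ∏ i ∈ d.support, U i ^ d i) hne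
  rw [← hsum] at hle
  have hle' : v (MvPolynomial.aeval U G) ≤ mw σ b := by
    rw [← hterm b hb]
    exact hle
  have heq : v (MvPolynomial.aeval U G) = mw σ b := le_antisymm hle' (hM.le G b hb)
  exact ⟨b, hb, heq, fun α' hα' => heq ▸ hM.le G α' hα'⟩

/-- two monomial values with proportional weights are proportional -/
private lemma sys_rpow {ι : Type*} {R : Type*} [CommRing R] [IsDomain R] [Algebra ℂ R]
    (v w : AbsoluteValue R ℝ) (hv : IsNonarchimedean v) (hw : IsNonarchimedean w)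
    (hTv : TrivC v) (hTw : TrivC w) (U : ι → R) (σ : ι → ℝ) (t : ℝ) (ht : 0 < t)
    (hMw : Mono w U σ) (hMv : Mono v U (fun i => σ i ^ t)) (G : MvPolynomial ι ℂ) :
    v (MvPolynomial.aeval U G) = w (MvPolynomial.aeval U G) ^ t := by
  by_cases hG : G = 0
  · simp [hG, Real.zero_rpow ht.ne']
  obtain ⟨α, hα, h1, h2⟩ := sys_max v hv hTv U _ hMv G hG
  obtain ⟨β, hβ, h3, h4⟩ := sys_max w hw hTw U _ hMw G hG
  have e1 := h2 β hβ
  rw [sys_mw_rpow hMw.pos, sys_mw_rpow hMw.pos] at e1
  have e2 : mw σ α ^ t ≤ mw σ β ^ t :=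
    Real.rpow_le_rpow (sys_mw_pos hMw.pos α).le (h4 α hα) ht.le
  rw [h1, h3, sys_mw_rpow hMw.pos]
  exact le_antisymm e2 e1

/-- a finite set of strict inequalities leaves room -/
private lemma sys_eps {T : Type*} (L : Finset T) (a b : T → ℝ) (h : ∀ x ∈ L, a x < b x) :
    ∃ ε : ℝ, 0 < ε ∧ ∀ x ∈ L, a x * Real.exp ε < b x := by
  have key : ∀ x ∈ L, ∀ᶠ ε in nhdsWithin (0 : ℝ) (Set.Ioi 0), a x * Real.exp ε < b x := by
    intro x hx
    have hc : ContinuousAt (fun ε : ℝ => a x * Real.exp ε) 0 := by fun_prop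
    have h0 : (fun ε : ℝ => a x * Real.exp ε) 0 < b x := by simpa using h x hx
    exact (hc.eventually (gt_mem_nhds h0)).filter_mono nhdsWithin_le_nhds
  have h2 := (Filter.eventually_all_finset L).2 key
  have h3 : ∀ᶠ ε in nhdsWithin (0 : ℝ) (Set.Ioi 0), ε ∈ Set.Ioi (0 : ℝ) := self_mem_nhdsWithin
  obtain ⟨ε, hε1, hε2⟩ := (h3.and h2).exists
  exact ⟨ε, hε1, hε2⟩

private lemma sys_aeval_map {ι : Type*} {R : Type*} [CommRing R] [Algebra ℂ R] (φ : R ≃ₐ[ℂ] R)
    (y : ι → R) (G : MvPolynomial ι ℂ) :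
    φ (MvPolynomial.aeval y G) = MvPolynomial.aeval (fun i => φ (y i)) G := by
  have h3 : ((φ : R →ₐ[ℂ] R).comp (MvPolynomial.aeval y)) G =
      MvPolynomial.aeval (fun i => (φ : R →ₐ[ℂ] R) (y i)) G := by
    rw [MvPolynomial.comp_aeval]
  exact h3

private lemma sys_relv_map {ι : Type*} {R : Type*} [CommRing R] [Algebra ℂ R] (φ : R ≃ₐ[ℂ] R)
    (y : ι → R) (a : Polynomial (MvPolynomial ι ℂ)) (F : R) :
    φ (relv y a F) = relv (fun i => φ (y i)) a (φ F) := by
  unfold relv
  have h1 : φ (Polynomial.eval₂ (MvPolynomial.aeval y : MvPolynomial ι ℂ →ₐ[ℂ] R).toRingHom F a) =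
      (φ : R →+* R)
        (Polynomial.eval₂ (MvPolynomial.aeval y : MvPolynomial ι ℂ →ₐ[ℂ] R).toRingHom F a) := rfl
  rw [h1, Polynomial.hom_eval₂]
  congr 1
  exact RingHom.ext fun G => sys_aeval_map φ y G

/-- Let `y' = φ y`.  `S i` = relation of `rel_exists` for `φ⁻¹ (y i)`; applying `φ`:
`W (φ P) = W P ^ lam` gives the relation `relv y' (S i) (y i)` with equal values `β_i ^ lam`.  For
`F ∈ {y' i} ∪ {aeval y' ((S i).coeff k) ≠ 0}` take the relation `a_F`, `β_F` of `rel_exists`.  `L` =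
the finite set of all `relv y a_F F` and `relv y' (S i) (y i)`, `ε` so small that
`W P * exp ε < β` for each of them.  Given `h`: `h P ≤ (W P exp ε)^t < β^t`; `rigid` gives
`h F = W F ^ t` for all the `F`, then `propagate` gives `Mono h y' (h ∘ y')`, and `W` is monomial on
`ℂ[y']` with weights `W (y' i)`; so `h (aeval y' G) = max mw = (W (aeval y' G)) ^ t`. -/
theorem system_exists (n : ℕ) (W : AbsoluteValue (A n) ℝ) (hW : IsNonarchimedean W)
    (hT : TrivC W) (hR : ∀ i, 0 < Rinf n W i)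
    (hM : Mono W (fun i : {i // Att n W i} => ymin n W i) (fun i => W (ymin n W i)))
    (φ : A n ≃ₐ[ℂ] A n) (lam : ℝ) (hlam : 0 < lam) (hφ : ∀ P, W (φ P) = W P ^ lam) :
    ∃ (L : Finset (A n)) (ε : ℝ), 0 < ε ∧
      ∀ h : AbsoluteValue (A n) ℝ, IsNonarchimedean h → TrivC h → ∀ t : ℝ, 0 < t →
        (∀ G : MvPolynomial {i // Att n W i} ℂ,
          h (MvPolynomial.aeval (fun i : {i // Att n W i} => ymin n W i) G) =
          W (MvPolynomial.aeval (fun i : {i // Att n W i} => ymin n W i) G) ^ t) →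
        (∀ P ∈ L, h P ≤ W P ^ t * Real.exp (t * ε)) →
        ∀ G : MvPolynomial {i // Att n W i} ℂ,
          h (φ (MvPolynomial.aeval (fun i : {i // Att n W i} => ymin n W i) G)) =
          W (φ (MvPolynomial.aeval (fun i : {i // Att n W i} => ymin n W i) G)) ^ t := by
  classical
  have : Fintype {i // Att n W i} := Fintype.ofFinite _
  set y : {i // Att n W i} → A n := fun i => ymin n W i with hydef
  set y' : {i // Att n W i} → A n := fun i => φ (y i) with hy'def
  have hWy : ∀ i, 0 < W (y i) := fun i => hM.pos i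
  have hy0 : ∀ i, y i ≠ 0 := fun i h => by
    have := hWy i
    rw [h, map_zero] at this
    exact lt_irrefl _ this
  have hinv0 : ∀ i, φ.symm (y i) ≠ 0 := fun i h => by
    apply hy0 i
    have := congrArg φ h
    simpa using this
  choose S βS hβS hS0 hSd hSval hSlt using
    fun i => rel_exists n W hW hT hR hM (φ.symm (y i)) (hinv0 i)
  have hWy' : ∀ i, W (y' i) = W (y i) ^ lam := fun i => hφ _
  have hWy'pos : ∀ i, 0 < W (y' i) := fun i => by
    rw [hWy' i]; exact Real.rpow_pos_of_pos (hWy i) _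
  have hae : ∀ G : MvPolynomial {i // Att n W i} ℂ,
      φ (MvPolynomial.aeval y G) = MvPolynomial.aeval y' G := fun G => sys_aeval_map φ y G
  have hWae : ∀ G : MvPolynomial {i // Att n W i} ℂ,
      W (MvPolynomial.aeval y' G) = W (MvPolynomial.aeval y G) ^ lam := fun G => by
    rw [← hae, hφ]
  -- `W` is monomial on `ℂ[y']`
  have hM' : Mono W y' (fun i => W (y' i)) := by
    refine ⟨fun i => rfl, hWy'pos, fun G α hα => ?_⟩
    have e : (fun i => W (y' i)) = fun i => W (y i) ^ lam := funext hWy'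
    rw [e, sys_mw_rpow hWy, hWae]
    exact Real.rpow_le_rpow (sys_mw_pos hWy α).le (hM.le G α hα) hlam.le
  -- the values of the relations `S i`
  have hWF : ∀ i, W (φ.symm (y i)) ^ lam = W (y i) := fun i => by
    rw [← hφ]; simp
  have hval' : ∀ i k, (S i).coeff k ≠ 0 →
      W (MvPolynomial.aeval y' ((S i).coeff k)) * W (y i) ^ k = βS i ^ lam := by
    intro i k hk
    rw [hWae, ← hWF i, sys_pow_rpow (apply_nonneg W _), ← Real.mul_rpow (apply_nonneg W _)
      (pow_nonneg (apply_nonneg W _) _), hSval i k hk]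
  have hrel' : ∀ i, W (relv y' (S i) (y i)) < βS i ^ lam := by
    intro i
    have e : relv y' (S i) (y i) = φ (relv y (S i) (φ.symm (y i))) := by
      rw [sys_relv_map φ y]
      simp [hy'def]
    rw [e, hφ]
    exact Real.rpow_lt_rpow (apply_nonneg W _) (hSlt i) hlam
  have hc0 : ∀ i k, (S i).coeff k ≠ 0 → MvPolynomial.aeval y' ((S i).coeff k) ≠ 0 := by
    intro i k hk h
    have := hval' i k hk
    rw [h, map_zero, zero_mul] at this
    exact absurd this.symm (Real.rpow_pos_of_pos (hβS i) _).ne'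
  -- the elements to which rigidity is applied
  set FF : Finset (A n) := (Finset.univ.image y') ∪
    Finset.univ.biUnion (fun i => (S i).support.image
      fun k => MvPolynomial.aeval y' ((S i).coeff k)) with hFF
  have hFF0 : ∀ F ∈ FF, F ≠ 0 := by
    intro F hF
    rw [hFF, Finset.mem_union, Finset.mem_image, Finset.mem_biUnion] at hF
    rcases hF with ⟨i, -, rfl⟩ | ⟨i, -, hF⟩
    · intro h
      have := hWy'pos i
      rw [h, map_zero] at this
      exact lt_irrefl _ this
    · rw [Finset.mem_image] at hF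
      obtain ⟨k, hk, rfl⟩ := hF
      exact hc0 i k (Polynomial.mem_support_iff.1 hk)
  choose! a βa hβa ha0 had haval halt using
    fun F (hF : F ∈ FF) => rel_exists n W hW hT hR hM F (hFF0 F hF)
  obtain ⟨ε1, hε1, hε1'⟩ := sys_eps FF (fun F => W (relv y (a F) F)) βa halt
  obtain ⟨ε2, hε2, hε2'⟩ := sys_eps (Finset.univ : Finset {i // Att n W i})
    (fun i => W (relv y' (S i) (y i))) (fun i => βS i ^ lam) (fun i _ => hrel' i)
  refine ⟨FF.image (fun F => relv y (a F) F) ∪
    Finset.univ.image (fun i => relv y' (S i) (y i)), min ε1 ε2, lt_min hε1 hε2, ?_⟩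
  intro h hna hTh t ht h0 hL G
  have hstep : ∀ P : A n, ∀ β ε' : ℝ, min ε1 ε2 ≤ ε' → W P * Real.exp ε' < β →
      h P ≤ W P ^ t * Real.exp (t * min ε1 ε2) → h P < β ^ t := by
    intro P β ε' hε' hlt hle
    have hWP := apply_nonneg W P
    have e1 : W P ^ t * Real.exp (t * min ε1 ε2) = (W P * Real.exp (min ε1 ε2)) ^ t := by
      rw [Real.mul_rpow hWP (Real.exp_pos _).le, ← Real.exp_mul, mul_comm t]
    have e2 : W P * Real.exp (min ε1 ε2) ≤ W P * Real.exp ε' :=
      mul_le_mul_of_nonneg_left (Real.exp_le_exp.2 hε') hWP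
    refine hle.trans_lt ?_
    rw [e1]
    exact Real.rpow_lt_rpow (mul_nonneg hWP (Real.exp_pos _).le) (e2.trans_lt hlt) ht
  have hrig : ∀ F ∈ FF, h F = W F ^ t := by
    intro F hF
    refine rigid W h hna y (a F) (βa F) F (hFF0 F hF) (hβa F hF) (ha0 F hF) (had F hF)
      (haval F hF) t ht h0 ?_
    refine hstep _ _ ε1 (min_le_left _ _) (hε1' F hF) (hL _ ?_)
    exact Finset.mem_union_left _ (Finset.mem_image_of_mem _ hF)
  have hhy : ∀ i, h (y i) = W (y i) ^ t := fun i => by
    have := h0 (MvPolynomial.X i)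
    simpa using this
  have hhy' : ∀ i, h (y' i) = W (y' i) ^ t := fun i =>
    hrig _ (by
      rw [hFF]
      exact Finset.mem_union_left _ (Finset.mem_image_of_mem _ (Finset.mem_univ i)))
  have hhc : ∀ i k, (S i).coeff k ≠ 0 → h (MvPolynomial.aeval y' ((S i).coeff k)) =
      W (MvPolynomial.aeval y' ((S i).coeff k)) ^ t := fun i k hk =>
    hrig _ (by
      rw [hFF]
      refine Finset.mem_union_right _ (Finset.mem_biUnion.2 ⟨i, Finset.mem_univ i, ?_⟩)
      exact Finset.mem_image.2 ⟨k, Polynomial.mem_support_iff.2 hk, rfl⟩)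
  have hMhy : Mono h y (fun i => W (y i) ^ t) := by
    refine ⟨hhy, fun i => Real.rpow_pos_of_pos (hWy i) _, fun G α hα => ?_⟩
    rw [sys_mw_rpow hWy, h0]
    exact Real.rpow_le_rpow (sys_mw_pos hWy α).le (hM.le G α hα) ht.le
  have hMh : Mono h y' (fun i => W (y' i) ^ t) := by
    refine propagate h hna hTh y y' _ _ hMhy hhy'
      (fun i => Real.rpow_pos_of_pos (hWy'pos i) _) S (fun i => (βS i ^ lam) ^ t)
      (fun i => Real.rpow_pos_of_pos (Real.rpow_pos_of_pos (hβS i) _) _) ?_ ?_ ?_ ?_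
    · intro i h
      apply hS0 i
      rw [h, Polynomial.coeff_zero]
    · intro i k hk
      rw [hhc i k hk, hhy i, sys_pow_rpow (apply_nonneg W _), ← Real.mul_rpow (apply_nonneg W _)
        (pow_nonneg (apply_nonneg W _) _), hval' i k hk]
    · intro i k α hα
      have hk : (S i).coeff k ≠ 0 := by
        intro h
        rw [h] at hα
        simp at hα
      rw [hhc i k hk, sys_mw_rpow hWy'pos]
      exact Real.rpow_le_rpow (sys_mw_pos hWy'pos α).le (hM'.le _ α hα) ht.le
    · intro i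
      refine hstep _ _ ε2 (min_le_right _ _) (hε2' i (Finset.mem_univ i)) (hL _ ?_)
      exact Finset.mem_union_right _ (Finset.mem_image_of_mem _ (Finset.mem_univ i))
  rw [hae]
  exact sys_rpow h W hna hW hTh hT y' _ t ht hM' hMh G

end Pool.Agent.DaeB
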