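import Pool.Agent.DaeB.FinalGood
import Pool.Agent.DaeB.Bridge
import Pool.Agent.DaeB.Rate
import Pool.Agent.DaeB.MonoYmin
import Pool.Agent.DaeB.System
import Pool.Agent.H17Dyn.Degree

/-!
# MP_dae5d3_ag, half (B): Theorem B (DB34)
-/

set_option autoImplicit false

namespace Pool.Agent.DaeB

open MvPolynomial

/-- two valuations which are monomial in `y` with the same weights agree on `ℂ[y]` -/
lemma Mono.eq_of_mono {R : Type*} [CommRing R] [Nontrivial R] [Algebra ℂ R]
    {V W : AbsoluteValue R ℝ} (hV : IsNonarchimedean V) (hVC : TrivC V)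
    (hW : IsNonarchimedean W) (hWC : TrivC W) {ι : Type*} {y : ι → R} {σ : ι → ℝ}
    (h1 : Mono V y σ) (h2 : Mono W y σ) (G : MvPolynomial ι ℂ) :
    V (aeval y G) = W (aeval y G) := by
  rcases eq_or_ne G 0 with rfl | hG
  · rw [map_zero, map_zero, map_zero]
  refine le_antisymm ?_ ?_
  · obtain ⟨α, hα, h3⟩ := h1.exists_eq hV hVC hG
    rw [h3]
    exact h2.le G α hα
  · obtain ⟨α, hα, h3⟩ := h2.exists_eq hW hWC hG
    rw [h3]
    exact h1.le G α hα

/-- restriction of a monomial valuation to a part of the variables -/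
lemma Mono.comp {R : Type*} [CommRing R] [Algebra ℂ R] {V : AbsoluteValue R ℝ} {ι κ : Type*}
    {U : κ → R} {σ : κ → ℝ} (h : Mono V U σ) (e : ι → κ) (he : Function.Injective e) :
    Mono V (fun i => U (e i)) (fun i => σ (e i)) := by
  refine ⟨fun i => h.val _, fun i => h.pos _, fun G α hα => ?_⟩
  have hsupp : α.mapDomain e ∈ (rename e G).support := by
    rw [mem_support_iff, coeff_rename_mapDomain _ he]
    exact mem_support_iff.1 hα
  have h1 := h.le _ _ hsupp
  rw [mw_mapDomain _ he, aeval_rename] at h1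
  exact h1

/-- **Theorem B** of MP_dae5d3_ag: the multiplier of a fat eigenvaluation with multiplier `λ₁` is an
algebraic integer, and all its conjugates have absolute value at most `λ₁`. -/
theorem theoremB (d : ℕ) [NeZero d] : DAE.TheoremBStatement d := by
  classical
  intro φ lam hlam h1 h hh hφ
  obtain ⟨W, hWna, hWT, hWF, hWexp, hWlog, hWle, hWX, i₀, hi₀⟩ := exists_av hh
  have hlam0 : 0 < lam := by linarith
  have hφ' := av_eigen hWexp hlam0 hφ
  have hR : ∀ i, 0 < Rinf d W i := fun i => hWF.Rinf_pos i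
  obtain ⟨C, κ, hC, hκ, hrate⟩ := rate d W hWna hWT hWF φ lam h1 hφ' hWX
  have hM := mono_ymin d W hWna hWT hR (Real.exp 1) (Real.exp_pos 1)
    (Real.one_lt_exp_iff.2 one_pos).ne' C κ hC hκ hrate
  set y : {i // Att d W i} → A d := fun i => ymin d W i with hy
  -- an attained minimiser of value `≠ 1`
  obtain ⟨i₁, hi₁⟩ : ∃ i₁ : {i // Att d W i}, W (y i₁) ≠ 1 := by
    by_contra hcon
    push Not at hcon
    obtain ⟨a, β, hβ, ha0, ha, hval, -⟩ := rel_exists d W hWna hWT hR hM
      (X i₀) (X_ne_zero i₀)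
    have hone : ∀ G : MvPolynomial {i // Att d W i} ℂ, G ≠ 0 → W (aeval y G) = 1 := by
      intro G hG
      obtain ⟨α, -, h3⟩ := hM.exists_eq hWna hWT hG
      rw [h3, mw, Finsupp.prod]
      refine Finset.prod_eq_one fun i _ => ?_
      have h4 : W (ymin d W i) = 1 := hcon i
      rw [h4, one_pow]
    have ha' : a.coeff a.natDegree ≠ 0 := by
      rw [Polynomial.coeff_natDegree, Ne, Polynomial.leadingCoeff_eq_zero]
      rintro rfl
      exact ha0 rfl
    have e1 := hval 0 ha0
    have e2 := hval a.natDegree ha'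
    rw [hone _ ha0, pow_zero, mul_one] at e1
    rw [hone _ ha', one_mul, hi₀, ← e1] at e2
    have e3 : 1 < Real.exp 1 ^ a.natDegree := one_lt_pow₀ (Real.one_lt_exp_iff.2 one_pos) ha.ne'
    exact e3.ne' e2
  have hy0 : y i₁ ≠ 0 := by
    intro h0
    have := hM.pos i₁
    have h2 : W (ymin d W i₁) = 0 := by
      rw [show ymin d W i₁ = y i₁ from rfl, h0, map_zero]
    linarith
  have hpos : 0 < W (y i₁) := W.pos hy0
  obtain ⟨C', κ', K, hC', hκ', hgood⟩ := good_tower d W hWna hWT hR (W (y i₁)) hpos hi₁ C κ hC hκ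
    hrate
  obtain ⟨L, ε, hε, hL⟩ := system_exists d W hWna hWT hR hM φ lam hlam0 hφ'
  -- `λ` is algebraic
  have hnt : ∃ P, P ≠ 0 ∧ h P ≠ 0 := by
    refine ⟨X i₀, X_ne_zero i₀, ?_⟩
    have h3 := hWexp (X i₀) (X_ne_zero i₀)
    rw [hi₀] at h3
    have h4 : h (X i₀) = 1 := (Real.exp_injective h3).symm
    rw [h4]
    exact one_ne_zero
  have halg : IsIntegral ℚ lam :=
    (H17Dyn.eigen_degree φ hh.1.1.isLogVal h1.ne' (fun P _ => hφ P) hnt).1.isIntegral
  -- bounds for the values
  have hd1 : (1 : ℝ) ≤ d := by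
    have : 1 ≤ d := Nat.one_le_iff_ne_zero.2 (NeZero.ne d)
    exact_mod_cast this
  have hW0 : ∀ P, P ≠ 0 → |Real.log (W P)| ≤ (d : ℝ) * P.totalDegree := by
    intro P hP
    rw [hWlog P hP, abs_le]
    have e1 := DAE.J1.neg_le hh P
    have e2 := hh.1.1.le_totalDegree hh.2.le P
    have e3 : (0 : ℝ) ≤ P.totalDegree := Nat.cast_nonneg _
    constructor
    · nlinarith
    · nlinarith
  have hG₀ : aeval y (X i₁ : MvPolynomial {i // Att d W i} ℂ) = y i₁ := aeval_X y i₁
  refine final_good h1 hlam halg hφ' (C₀ := d) (by linarith) hW0 (y := y)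
    (G₀ := X i₁) ?_ hε hL hC' hκ' (K := K) fun c hc => ?_
  · rw [hG₀]
    intro h0
    rcases Real.log_eq_zero.1 h0 with h2 | h2 | h2
    · linarith
    · exact hi₁ h2
    · linarith
  · obtain ⟨V, U, hVna, hVT, hVM, hVdeg, hVW, hVatt, hVnatt⟩ := hgood c hc
    refine ⟨V, U, hVna, hVT, hVM, hVdeg, hVW, ?_, fun i => ?_⟩
    · have e1 : (fun i : {i // Att d W i} => U i) = y := by
        funext i
        exact (hVatt i.1 i.2).1
      have e2 : (fun i : {i // Att d W i} => V (U i)) =
          fun i : {i // Att d W i} => W (ymin d W i) := by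
        funext i
        rw [(hVatt i.1 i.2).2, (hVatt i.1 i.2).1]
      have hMV := hVM.comp (Subtype.val : {i // Att d W i} → Fin d) Subtype.val_injective
      rw [e1, e2] at hMV
      exact fun G => hMV.eq_of_mono hVna hVT hWna hWT hM G
    · by_cases hi : Att d W i
      · left
        refine ⟨⟨i, hi⟩, ?_⟩
        rw [(hVatt i hi).2, (hVatt i hi).1]
      · right
        obtain ⟨q, p, hq1, hq2, hq3⟩ := hVnatt i hi
        refine ⟨q, p, hq1, hq2, ?_⟩
        rw [hG₀]
        exact hq3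

end Pool.Agent.DaeB
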