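import Mathlib

/-!
# MP_dae5d3_ag, half (B), step 9: the arithmetic of the multiplier (DB33)

If `q λ^n θ_0` is, for all large `n`, a combination with integral coefficients `β_i` of finitely
many fixed real numbers, where `q` grows subexponentially and `|β_i|` not faster than `λ^n`, then
`λ` is an algebraic integer and all its conjugates have absolute value at most `λ`.
-/

set_option autoImplicit false

namespace Pool.Agent.DaeB

open Filter Topology

open scoped IntermediateField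

/-- comparison of exponential growth rates -/
lemma nt_le_of_pow_le {x l C : ℝ} (hl : 0 < l) {n₁ : ℕ}
    (hbd : ∀ n, n₁ ≤ n → x ^ n ≤ C * l ^ n) : x ≤ l := by
  by_contra hcon
  have h1 : 1 < x / l := (one_lt_div hl).2 (not_le.1 hcon)
  obtain ⟨n, hn⟩ := pow_unbounded_of_one_lt C h1
  have h2 : C < (x / l) ^ (max n n₁) :=
    hn.trans_le (pow_le_pow_right₀ h1.le (le_max_left _ _))
  have h3 := hbd (max n n₁) (le_max_right _ _)
  rw [div_pow, lt_div_iff₀ (pow_pos hl _)] at h2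
  linarith

/-- an element of a number field whose powers have subexponential denominators is integral -/
theorem nt_isIntegral {M : Type*} [Field M] [NumberField M] {x : M} {D : ℤ} (hD : D ≠ 0)
    (h : ∀ ε : ℝ, 0 < ε → ∃ n₁ : ℕ, ∀ n, n₁ ≤ n → ∃ N : ℕ, 1 ≤ N ∧
      (N : ℝ) ≤ Real.exp (ε * n) ∧ IsIntegral ℤ ((D : M) * ((N : M) * x ^ n))) :
    IsIntegral ℤ x := by
  by_contra hx
  have hx' : ¬ ∀ v : IsDedekindDomain.HeightOneSpectrum (NumberField.RingOfIntegers M),
      v.valuation M x ≤ 1 := by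
    intro hv
    obtain ⟨y, hy⟩ :=
      IsDedekindDomain.HeightOneSpectrum.mem_integers_of_valuation_le_one M x hv
    exact hx (hy ▸ y.2)
  push Not at hx'
  obtain ⟨v, hv⟩ := hx'
  have hx0 : x ≠ 0 := by
    rintro rfl
    rw [map_zero] at hv
    exact absurd hv (by simp)
  set m : ℕ := Module.finrank ℚ M with hm
  have hm0 : 0 < m := Module.finrank_pos
  have hm0' : (0 : ℝ) < m := by exact_mod_cast hm0
  set ε : ℝ := Real.log 2 / (2 * m) with hε
  have hε0 : 0 < ε := by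
    have := Real.log_pos (one_lt_two (α := ℝ))
    positivity
  obtain ⟨n₁, hn₁⟩ := h ε hε0
  -- `2 ^ n ≤ |D N| ^ m`
  have key : ∀ n, n₁ ≤ n → (2 : ℝ) ^ n ≤ |(D : ℝ)| ^ m * (Real.exp (ε * n)) ^ m := by
    intro n hn
    obtain ⟨N, hN1, hNB, hint⟩ := hn₁ n hn
    have hDN : D * (N : ℤ) ≠ 0 := mul_ne_zero hD (by exact_mod_cast (by omega : N ≠ 0))
    -- the valuation of `D N`
    set a : NumberField.RingOfIntegers M := algebraMap ℤ _ (D * (N : ℤ)) with ha
    have haM : algebraMap (NumberField.RingOfIntegers M) M a = (D : M) * (N : M) := by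
      rw [ha, ← IsScalarTower.algebraMap_apply]
      simp
    have h1 : v.valuation M ((D : M) * ((N : M) * x ^ n)) ≤ 1 := by
      have h2 := v.valuation_le_one (K := M) ⟨_, hint⟩
      exact h2
    have h2 : v.valuation M (algebraMap (NumberField.RingOfIntegers M) M a) *
        v.valuation M x ^ n ≤ 1 := by
      rw [haM, ← map_pow, ← map_mul, mul_assoc]
      exact h1
    rw [v.valuation_of_algebraMap] at h2
    have h3 : (WithZero.exp (1 : ℤ) : WithZero (Multiplicative ℤ)) ≤ v.valuation M x := by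
      have h4 : v.valuation M x ≠ 0 := (Valuation.ne_zero_iff _).2 hx0
      obtain ⟨k, hk⟩ : ∃ k : ℤ, v.valuation M x = WithZero.exp k :=
        ⟨WithZero.log (v.valuation M x), (WithZero.exp_log h4).symm⟩
      rw [hk] at hv ⊢
      rw [WithZero.exp_le_exp]
      rw [← WithZero.exp_zero, WithZero.exp_lt_exp] at hv
      omega
    have h5 : v.intValuation a ≤ WithZero.exp (-(n : ℤ)) := by
      have h6 : v.intValuation a * WithZero.exp (n : ℤ) ≤ 1 := by
        refine le_trans ?_ h2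
        have h7 : (WithZero.exp (n : ℤ) : WithZero (Multiplicative ℤ)) ≤
            v.valuation M x ^ n := by
          have : (WithZero.exp (n : ℤ) : WithZero (Multiplicative ℤ)) =
              WithZero.exp (1 : ℤ) ^ n := by
            rw [← WithZero.exp_nsmul]
            simp
          rw [this]
          exact pow_le_pow_left₀ zero_le h3 n
        gcongr
      have h8 : v.intValuation a = v.intValuation a * WithZero.exp (n : ℤ) *
          WithZero.exp (-(n : ℤ)) := by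
        rw [mul_assoc, ← WithZero.exp_add]
        simp
      rw [h8]
      calc v.intValuation a * WithZero.exp (n : ℤ) * WithZero.exp (-(n : ℤ))
          ≤ 1 * WithZero.exp (-(n : ℤ)) := by gcongr
        _ = WithZero.exp (-(n : ℤ)) := one_mul _
    rw [v.intValuation_le_pow_iff_dvd] at h5
    have h9 := map_dvd Ideal.absNorm h5
    rw [map_pow, Ideal.absNorm_span_singleton, ha, Algebra.norm_algebraMap,
      NumberField.RingOfIntegers.rank] at h9
    have h10 : 2 ^ n ≤ (D * (N : ℤ)).natAbs ^ m := by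
      have h11 : ((D * (N : ℤ)) ^ m).natAbs ≠ 0 := by
        rw [Int.natAbs_ne_zero]
        exact pow_ne_zero _ hDN
      have h12 : Ideal.absNorm v.asIdeal ^ n ≤ ((D * (N : ℤ)) ^ m).natAbs :=
        Nat.le_of_dvd (Nat.pos_of_ne_zero h11) h9
      rw [Int.natAbs_pow] at h12
      refine le_trans (Nat.pow_le_pow_left ?_ n) h12
      have h13 : Ideal.absNorm v.asIdeal ≠ 0 := by
        rw [Ne, Ideal.absNorm_eq_zero_iff]
        exact v.ne_bot
      have h14 : Ideal.absNorm v.asIdeal ≠ 1 := by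
        rw [Ne, Ideal.absNorm_eq_one_iff]
        exact v.isPrime.ne_top
      omega
    have h15 : ((2 : ℝ)) ^ n ≤ (|(D : ℝ)| * (N : ℝ)) ^ m := by
      have h16 : (((D * (N : ℤ)).natAbs : ℕ) : ℝ) = |(D : ℝ)| * (N : ℝ) := by
        rw [Nat.cast_natAbs]
        push_cast
        rw [abs_mul, Nat.abs_cast]
      rw [← h16]
      exact_mod_cast h10
    refine h15.trans ?_
    rw [mul_pow]
    gcongr
  have key2 : ∀ n, n₁ ≤ n → (2 : ℝ) ^ n ≤ |(D : ℝ)| ^ m * (Real.exp (Real.log 2 / 2)) ^ n := by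
    intro n hn
    refine (key n hn).trans (le_of_eq ?_)
    rw [← Real.exp_nat_mul, ← Real.exp_nat_mul, hε]
    congr 2
    field_simp
  have h1 := nt_le_of_pow_le (Real.exp_pos _) key2
  have h2 : Real.exp (Real.log 2 / 2) < 2 := by
    calc Real.exp (Real.log 2 / 2) < Real.exp (Real.log 2) := by
          rw [Real.exp_lt_exp]
          have := Real.log_pos (one_lt_two (α := ℝ))
          linarith
      _ = 2 := Real.exp_log (by norm_num)
  linarith

/-- **The arithmetic of the multiplier** (step 9 of note 1743), for an algebraic multiplier. -/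
theorem nt_final_alg {lam : ℝ} (hintQ : IsIntegral ℚ lam) {ι : Type*} [Fintype ι] {θ : ι → ℝ}
    {i₀ : ι} (hθ : θ i₀ ≠ 0) (hlam0 : 0 < lam)
    (h : ∀ ε : ℝ, 0 < ε → ∃ n₁ : ℕ, ∀ n, n₁ ≤ n → ∃ N : ℕ, ∃ β : ι → ℤ, 1 ≤ N ∧
      (N : ℝ) ≤ Real.exp (ε * n) ∧ (∀ i, |(β i : ℝ)| ≤ Real.exp (ε * n) * lam ^ n) ∧
      (N : ℝ) * (lam ^ n * θ i₀) = ∑ i, (β i : ℝ) * θ i) :
    IsIntegral ℤ lam ∧ ∀ μ : ℂ, Polynomial.aeval μ (minpoly ℤ lam) = 0 → ‖μ‖ ≤ lam := by
  have : FiniteDimensional ℚ ℚ⟮lam⟯ := IntermediateField.adjoin.finiteDimensional hintQ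
  have : NumberField ℚ⟮lam⟯ := { to_charZero := inferInstance, to_finiteDimensional := this }
  set g : ℚ⟮lam⟯ := IntermediateField.AdjoinSimple.gen ℚ lam with hg
  have hg' : algebraMap ℚ⟮lam⟯ ℝ g = lam := IntermediateField.AdjoinSimple.algebraMap_gen ℚ lam
  -- the projection
  let e : ℚ⟮lam⟯ →ₗ[ℚ] ℝ :=
    { toFun := fun m => (algebraMap ℚ⟮lam⟯ ℝ m) * θ i₀
      map_add' := fun a b => by rw [map_add, add_mul]
      map_smul' := fun c a => by
        rw [Algebra.smul_def, map_mul, RingHom.id_apply, Algebra.smul_def, mul_assoc,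
          ← IsScalarTower.algebraMap_apply] }
  have he : Function.Injective e := by
    intro a b hab
    have h1 : (algebraMap ℚ⟮lam⟯ ℝ a) * θ i₀ = (algebraMap ℚ⟮lam⟯ ℝ b) * θ i₀ := hab
    exact (algebraMap ℚ⟮lam⟯ ℝ).injective (mul_right_cancel₀ hθ h1)
  obtain ⟨s, hs⟩ := LinearMap.exists_leftInverse_of_injective e (LinearMap.ker_eq_bot.2 he)
  have hs' : ∀ m, s (e m) = m := fun m => by
    rw [← LinearMap.comp_apply, hs, LinearMap.id_apply]
  have hrep : ∀ ε : ℝ, 0 < ε → ∃ n₁ : ℕ, ∀ n, n₁ ≤ n → ∃ N : ℕ, ∃ β : ι → ℤ, 1 ≤ N ∧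
      (N : ℝ) ≤ Real.exp (ε * n) ∧ (∀ i, |(β i : ℝ)| ≤ Real.exp (ε * n) * lam ^ n) ∧
        (N : ℚ⟮lam⟯) * g ^ n = ∑ i, (β i : ℚ⟮lam⟯) * s (θ i) := by
    intro ε hε
    obtain ⟨n₁, hn₁⟩ := h ε hε
    refine ⟨n₁, fun n hn => ?_⟩
    obtain ⟨N, β, hN1, hN2, hβ, heq⟩ := hn₁ n hn
    refine ⟨N, β, hN1, hN2, hβ, ?_⟩
    have h1 : e ((N : ℚ⟮lam⟯) * g ^ n) = (N : ℝ) * (lam ^ n * θ i₀) := by
      change (algebraMap ℚ⟮lam⟯ ℝ ((N : ℚ⟮lam⟯) * g ^ n)) * θ i₀ = _
      rw [map_mul, map_pow, hg', map_natCast, mul_assoc]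
    rw [← hs' ((N : ℚ⟮lam⟯) * g ^ n), h1, heq, map_sum]
    refine Finset.sum_congr rfl fun i _ => ?_
    have h2 : (β i : ℝ) * θ i = ((β i : ℤ) : ℚ) • θ i := by
      rw [Algebra.smul_def]
      simp
    rw [h2, map_smul, Algebra.smul_def]
    simp
  -- integrality
  have hgint : IsIntegral ℤ g := by
    obtain ⟨D, hD0, hD⟩ := exists_integral_multiples ℤ ℚ (L := ℚ⟮lam⟯)
      (Finset.univ.image fun i => s (θ i))
    refine nt_isIntegral hD0 fun ε hε => ?_
    obtain ⟨n₁, hn₁⟩ := hrep ε hε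
    refine ⟨n₁, fun n hn => ?_⟩
    obtain ⟨N, β, hN1, hN2, hβ, heq⟩ := hn₁ n hn
    refine ⟨N, hN1, hN2, ?_⟩
    rw [heq, Finset.mul_sum]
    refine IsIntegral.sum _ fun i _ => ?_
    have h1 := hD (s (θ i)) (Finset.mem_image_of_mem _ (Finset.mem_univ i))
    have h2 : (D : ℚ⟮lam⟯) * ((β i : ℚ⟮lam⟯) * s (θ i)) = (β i : ℚ⟮lam⟯) * (D • s (θ i)) := by
      rw [zsmul_eq_mul]
      ring
    rw [h2]
    refine IsIntegral.mul ?_ h1
    have h3 : (β i : ℚ⟮lam⟯) = algebraMap ℤ ℚ⟮lam⟯ (β i) := by simp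
    rw [h3]
    exact isIntegral_algebraMap
  have hint : IsIntegral ℤ lam := by
    rw [← hg']
    exact hgint.map (IsScalarTower.toAlgHom ℤ ℚ⟮lam⟯ ℝ)
  refine ⟨hint, fun μ hμ => ?_⟩
  have hmin : minpoly ℚ lam = (minpoly ℤ lam).map (algebraMap ℤ ℚ) :=
    minpoly.isIntegrallyClosed_eq_field_fractions' ℚ hint
  have hroot : μ ∈ (minpoly ℚ lam).aroots ℂ := by
    rw [Polynomial.mem_aroots]
    refine ⟨minpoly.ne_zero hintQ, ?_⟩
    rw [hmin, Polynomial.aeval_map_algebraMap]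
    exact hμ
  let σ : ℚ⟮lam⟯ →ₐ[ℚ] ℂ := (IntermediateField.algHomAdjoinIntegralEquiv ℚ hintQ).symm ⟨μ, hroot⟩
  have hσ : σ g = μ :=
    IntermediateField.algHomAdjoinIntegralEquiv_symm_apply_gen ℚ hintQ ⟨μ, hroot⟩
  set C : ℝ := 1 + ∑ i, ‖σ (s (θ i))‖ with hC
  have hC1 : 1 ≤ C := by
    rw [hC]
    have := Finset.sum_nonneg (s := Finset.univ) (f := fun i => ‖σ (s (θ i))‖)
      fun i _ => norm_nonneg _
    linarith
  have hbd : ∀ ε : ℝ, 0 < ε → ‖μ‖ ≤ Real.exp ε * lam := by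
    intro ε hε
    obtain ⟨n₁, hn₁⟩ := hrep ε hε
    refine nt_le_of_pow_le (C := C) (n₁ := n₁) (by positivity) fun n hn => ?_
    obtain ⟨N, β, hN1, hN2, hβ, heq⟩ := hn₁ n hn
    have h1 := congrArg σ heq
    rw [map_mul, map_natCast, map_pow, hσ, map_sum] at h1
    have hBd : 0 ≤ Real.exp (ε * n) * lam ^ n := by positivity
    have h2 : (N : ℝ) * ‖μ‖ ^ n ≤ ∑ i, (Real.exp (ε * n) * lam ^ n) * ‖σ (s (θ i))‖ := by
      have h3 : ‖(N : ℂ) * μ ^ n‖ = (N : ℝ) * ‖μ‖ ^ n := by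
        rw [norm_mul, norm_pow]
        simp
      rw [← h3, h1]
      refine (norm_sum_le _ _).trans (Finset.sum_le_sum fun i _ => ?_)
      rw [map_mul, norm_mul]
      refine mul_le_mul_of_nonneg_right ?_ (norm_nonneg _)
      rw [map_intCast, Complex.norm_intCast]
      exact hβ i
    rw [← Finset.mul_sum] at h2
    have h4 : ‖μ‖ ^ n ≤ (N : ℝ) * ‖μ‖ ^ n := by
      have : (1 : ℝ) ≤ N := by exact_mod_cast hN1
      nlinarith [pow_nonneg (norm_nonneg μ) n]
    refine (h4.trans h2).trans ?_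
    have h5 : (Real.exp ε * lam) ^ n = Real.exp (ε * n) * lam ^ n := by
      rw [mul_pow, ← Real.exp_nat_mul, mul_comm ε]
    rw [h5, mul_comm C]
    refine mul_le_mul_of_nonneg_left ?_ hBd
    rw [hC]
    linarith
  have hlim : Tendsto (fun ε : ℝ => Real.exp ε * lam) (𝓝[>] 0) (𝓝 (Real.exp 0 * lam)) := by
    refine Tendsto.mono_left ?_ nhdsWithin_le_nhds
    exact (Real.continuous_exp.mul continuous_const).tendsto 0
  rw [Real.exp_zero, one_mul] at hlim
  refine ge_of_tendsto hlim ?_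
  filter_upwards [self_mem_nhdsWithin] with ε hε
  exact hbd ε hε

/-- **The arithmetic of the multiplier** (step 9 of note 1743). -/
theorem nt_final {lam : ℝ} (hlam : 1 < lam) {ι : Type*} [Fintype ι] {θ : ι → ℝ} {i₀ : ι}
    (hθ : θ i₀ ≠ 0) (hst : ∀ i, lam * θ i ∈ Submodule.span ℚ (Set.range θ))
    (h : ∀ ε : ℝ, 0 < ε → ∃ n₁ : ℕ, ∀ n, n₁ ≤ n → ∃ N : ℕ, ∃ β : ι → ℤ, 1 ≤ N ∧
      (N : ℝ) ≤ Real.exp (ε * n) ∧ (∀ i, |(β i : ℝ)| ≤ Real.exp (ε * n) * lam ^ n) ∧
      (N : ℝ) * (lam ^ n * θ i₀) = ∑ i, (β i : ℝ) * θ i) :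
    IsIntegral ℤ lam ∧ ∀ μ : ℂ, Polynomial.aeval μ (minpoly ℤ lam) = 0 → ‖μ‖ ≤ lam := by
  have hintQ : IsIntegral ℚ lam := by
    set S : Submodule ℚ ℝ := Submodule.span ℚ (Set.range θ) with hS
    have hfg : S.FG := Submodule.fg_span (Set.finite_range θ)
    refine isIntegral_of_smul_mem_submodule (M := ℝ) S ?_ hfg lam ?_
    · intro hbot
      have h1 : θ i₀ ∈ S := Submodule.subset_span ⟨i₀, rfl⟩
      rw [hbot, Submodule.mem_bot] at h1
      exact hθ h1
    · intro y hy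
      induction hy using Submodule.span_induction with
      | mem y hy =>
        obtain ⟨i, rfl⟩ := hy
        exact hst i
      | zero => simp
      | add y z _ _ h1 h2 =>
        rw [smul_add]
        exact S.add_mem h1 h2
      | smul c y _ h1 =>
        rw [smul_comm]
        exact S.smul_mem c h1
  exact nt_final_alg hintQ hθ (by linarith) h

end Pool.Agent.DaeB
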