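import Pool.Agent.DaeB.FinalStep
import Pool.Agent.DaeB.Rigid
import Pool.Agent.DaeB.NT
import Pool.Agent.H17Dyn.Aut

/-!
# MP_dae5d3_ag, half (B), end: the growth and the choice of the threshold (DB34b)
-/

set_option autoImplicit false

namespace Pool.Agent.DaeB

open MvPolynomial Filter Topology

lemma dg_eq_adeg {d : ℕ} (φ : A d ≃ₐ[ℂ] A d) (n : ℕ) : dg φ n = H17Dyn.adeg (φ ^ n) := rfl

lemma totalDegree_pow_apply_le {d : ℕ} (φ : A d ≃ₐ[ℂ] A d) (n : ℕ) (P : A d) :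
    ((φ ^ n) P).totalDegree ≤ P.totalDegree * dg φ n := by
  rw [dg_eq_adeg]
  exact H17Dyn.totalDegree_apply_le (φ ^ n) P

/-- growth of the degrees -/
lemma dg_growth {d : ℕ} {φ : A d ≃ₐ[ℂ] A d} {lam : ℝ} (hlam : 0 < lam)
    (hlim : Tendsto (fun n : ℕ => (dg φ n : ℝ) ^ ((1 : ℝ) / (n : ℝ))) atTop (𝓝 lam)) {δ : ℝ}
    (hδ : 0 < δ) : ∃ Cδ : ℝ, 1 ≤ Cδ ∧ ∀ n, (dg φ n : ℝ) ≤ Cδ * (lam ^ n * Real.exp (δ * n)) := by
  have h1 : lam < lam * Real.exp δ := by
    have := Real.one_lt_exp_iff.2 hδ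
    nlinarith
  obtain ⟨n₀, hn₀⟩ := eventually_atTop.1 (hlim.eventually (gt_mem_nhds h1))
  set M : ℝ := ∑ n ∈ Finset.range (n₀ + 1), (dg φ n : ℝ) / (lam ^ n * Real.exp (δ * n)) with hM
  have hpos : ∀ n : ℕ, 0 < lam ^ n * Real.exp (δ * n) := fun n => by positivity
  have hterm : ∀ n : ℕ, 0 ≤ (dg φ n : ℝ) / (lam ^ n * Real.exp (δ * n)) := fun n => by
    have := hpos n
    positivity
  have hM0 : 0 ≤ M := Finset.sum_nonneg fun n _ => hterm n
  refine ⟨1 + M, by linarith, fun n => ?_⟩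
  by_cases hn : n ≤ n₀
  · have h2 : (dg φ n : ℝ) / (lam ^ n * Real.exp (δ * n)) ≤ M :=
      Finset.single_le_sum (f := fun n : ℕ => (dg φ n : ℝ) / (lam ^ n * Real.exp (δ * n)))
        (fun n _ => hterm n) (Finset.mem_range.2 (by omega))
    rw [div_le_iff₀ (hpos n)] at h2
    have := hpos n
    nlinarith
  · have hn' : n₀ ≤ n := by omega
    have hn0 : (n : ℝ) ≠ 0 := by
      have : 0 < n := by omega
      exact_mod_cast this.ne'
    have h2 := (hn₀ n hn').le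
    have h3 : (dg φ n : ℝ) ≤ (lam * Real.exp δ) ^ n := by
      have h4 : (dg φ n : ℝ) = ((dg φ n : ℝ) ^ ((1 : ℝ) / (n : ℝ))) ^ n := by
        rw [← Real.rpow_natCast, ← Real.rpow_mul (Nat.cast_nonneg _), one_div_mul_cancel hn0,
          Real.rpow_one]
      rw [h4]
      exact pow_le_pow_left₀ (by positivity) h2 n
    have h5 : (lam * Real.exp δ) ^ n = lam ^ n * Real.exp (δ * n) := by
      rw [mul_pow, ← Real.exp_nat_mul, mul_comm δ]
    rw [h5] at h3
    have := hpos n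
    nlinarith

/-- **The end of half (B)** from the approximating valuations. -/
theorem final_good {d : ℕ} {φ : A d ≃ₐ[ℂ] A d} {lam : ℝ} (h1 : 1 < lam)
    (hlim : Tendsto (fun n : ℕ => (dg φ n : ℝ) ^ ((1 : ℝ) / (n : ℝ))) atTop (𝓝 lam))
    (halg : IsIntegral ℚ lam) {W : AbsoluteValue (A d) ℝ} (hφ : ∀ P, W (φ P) = W P ^ lam)
    {C₀ : ℝ} (hC₀ : 0 ≤ C₀) (hW0 : ∀ P, P ≠ 0 → |Real.log (W P)| ≤ C₀ * P.totalDegree)
    {ι : Type*} [Fintype ι] {y : ι → A d} {G₀ : MvPolynomial ι ℂ}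
    (hG₀ : Real.log (W (aeval y G₀)) ≠ 0) {L : Finset (A d)} {ε : ℝ} (hε : 0 < ε)
    (hL : ∀ h : AbsoluteValue (A d) ℝ, IsNonarchimedean h → TrivC h → ∀ t : ℝ, 0 < t →
      (∀ G : MvPolynomial ι ℂ, h (aeval y G) = W (aeval y G) ^ t) →
      (∀ P ∈ L, h P ≤ W P ^ t * Real.exp (t * ε)) →
      ∀ G : MvPolynomial ι ℂ, h (φ (aeval y G)) = W (φ (aeval y G)) ^ t)
    {C κ : ℝ} {K : ℕ} (hC : 1 ≤ C) (hκ : 0 < κ)
    (hgood : ∀ c : ℕ, 1 ≤ c → ∃ (V : AbsoluteValue (A d) ℝ) (U : Fin d → A d),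
      IsNonarchimedean V ∧ TrivC V ∧ Mono V U (fun i => V (U i)) ∧
      (∀ i, ((U i).totalDegree : ℝ) ≤ C * (c : ℝ) ^ K) ∧
      (∀ P, P ≠ 0 → |Real.log (V P) - Real.log (W P)| ≤ C * (c : ℝ) ^ (-κ) * P.totalDegree) ∧
      (∀ G : MvPolynomial ι ℂ, V (aeval y G) = W (aeval y G)) ∧
      ∀ i, (∃ j, V (U i) = W (y j)) ∨ ∃ (q : ℕ) (p : ℤ), 1 ≤ q ∧
        (q : ℝ) ≤ C * (c : ℝ) ^ K ∧
        (q : ℝ) * Real.log (V (U i)) = p * Real.log (W (aeval y G₀))) :
    IsIntegral ℤ lam ∧ ∀ μ : ℂ, Polynomial.aeval μ (minpoly ℤ lam) = 0 → ‖μ‖ ≤ lam := by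
  classical
  have hlam0 : 0 < lam := by linarith
  set θ₀ : ℝ := Real.log (W (aeval y G₀)) with hθ₀
  have hP₀ : aeval y G₀ ≠ 0 := by
    intro h
    apply hG₀
    rw [hθ₀, h, map_zero, Real.log_zero]
  set P₀ : A d := aeval y G₀ with hP₀def
  -- the main estimate for given `n` and `c`
  have key : ∀ (c n : ℕ), 1 ≤ c →
      (∀ j < n, ∀ P ∈ L, C * (c : ℝ) ^ (-κ) * ((φ ^ j) P).totalDegree ≤ lam ^ j * ε) →
      ∃ (N : ℕ) (β : Option ι → ℤ), 1 ≤ N ∧
        (N : ℝ) ≤ (1 + d) ^ d * (C * (c : ℝ) ^ K) ^ (2 * d) ∧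
        (∀ o, |(β o : ℝ)| ≤ d * (1 + d) ^ d * (1 + (C₀ + C) / |θ₀|) *
          (C * (c : ℝ) ^ K) ^ (2 * d + 2) * (P₀.totalDegree * dg φ n)) ∧
        (N : ℝ) * (lam ^ n * θ₀) = ∑ o, (β o : ℝ) * refval W y θ₀ o := by
    intro c n hc hcn
    obtain ⟨V, U, hV, hVC, hU, hdeg, hclose, hVy, hatt⟩ := hgood c hc
    have hc1 : (1 : ℝ) ≤ c := by exact_mod_cast hc
    have hB : 1 ≤ C * (c : ℝ) ^ K := one_le_mul_of_one_le_of_one_le hC (one_le_pow₀ hc1)
    have horb := orbit hlam0 hφ hL hV hVC hVy (n := n) (fun j hj P hP => by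
      rcases eq_or_ne P 0 with rfl | hP0
      · rw [map_zero, map_zero, map_zero, sub_self, abs_zero]
        positivity
      exact (hclose _ ((map_ne_zero_iff _ (φ ^ j).injective).2 hP0)).trans (hcn j hj P hP))
    have h2 := horb n le_rfl G₀
    have hcκ : (c : ℝ) ^ (-κ) ≤ 1 := Real.rpow_le_one_of_one_le_of_nonpos hc1 (by linarith)
    have hlogU : ∀ i, |Real.log (V (U i))| ≤ (C₀ + C) * (C * (c : ℝ) ^ K) := by
      intro i
      by_cases hUi : U i = 0
      · rw [hUi, map_zero, Real.log_zero, abs_zero]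
        positivity
      have e1 := hclose _ hUi
      have e2 := hW0 _ hUi
      have e3 := hdeg i
      have e4 : |Real.log (V (U i))| ≤
          |Real.log (V (U i)) - Real.log (W (U i))| + |Real.log (W (U i))| := by
        have := abs_add_le (Real.log (V (U i)) - Real.log (W (U i))) (Real.log (W (U i)))
        rwa [sub_add_cancel] at this
      have e5 : C * (c : ℝ) ^ (-κ) * (U i).totalDegree ≤ C * (C * (c : ℝ) ^ K) := by
        refine mul_le_mul ?_ e3 (Nat.cast_nonneg _) (by linarith)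
        nlinarith
      have e6 : C₀ * ((U i).totalDegree : ℝ) ≤ C₀ * (C * (c : ℝ) ^ K) :=
        mul_le_mul_of_nonneg_left e3 hC₀
      linarith
    have hP : (φ ^ n) P₀ ≠ 0 := (map_ne_zero_iff _ (φ ^ n).injective).2 hP₀
    obtain ⟨N, β, hN1, hN2, hβ, heq⟩ := final_step (W := W) hV hVC hU hB hdeg
      (C₁ := C₀ + C) (by linarith) hlogU (y := y) hG₀ hatt hP
    refine ⟨N, β, hN1, hN2, fun o => (hβ o).trans ?_, ?_⟩
    · refine mul_le_mul_of_nonneg_left ?_ (by positivity)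
      have := totalDegree_pow_apply_le φ n P₀
      exact_mod_cast this
    · have h3 : Real.log (V ((φ ^ n) P₀)) = lam ^ n * θ₀ := by
        rw [hP₀def, h2, Real.log_rpow (W.pos hP₀)]
      rw [← h3]
      exact heq
  -- constants
  set DL : ℝ := 1 + ∑ P ∈ L, (P.totalDegree : ℝ) with hDL
  have hDL0 : 0 ≤ ∑ P ∈ L, (P.totalDegree : ℝ) := Finset.sum_nonneg fun _ _ => Nat.cast_nonneg _
  have hDLP : ∀ P ∈ L, (P.totalDegree : ℝ) ≤ DL := by
    intro P hP
    have := Finset.single_le_sum (f := fun P : A d => (P.totalDegree : ℝ))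
      (fun _ _ => Nat.cast_nonneg _) hP
    rw [hDL]
    linarith
  refine nt_final_alg halg (θ := refval W y θ₀) (i₀ := none) hG₀ hlam0 fun η hη => ?_
  -- the exponents
  set E : ℕ := K * (2 * d + 2) with hE
  set δ : ℝ := η / (2 * (E / κ + 1)) with hδ
  have hEκ : 0 < (E : ℝ) / κ + 1 := by positivity
  have hδ0 : 0 < δ := by positivity
  obtain ⟨Cδ, hCδ1, hCδ⟩ := dg_growth hlam0 hlim hδ0
  set M : ℝ := 1 + C * DL * Cδ / ε with hM
  have hM1 : 1 ≤ M := by
    have : 0 ≤ C * DL * Cδ / ε := by positivity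
    linarith
  set A₁ : ℝ := 2 * M ^ (1 / κ) with hA₁
  have hMκ : 1 ≤ M ^ (1 / κ) := Real.one_le_rpow hM1 (by positivity)
  -- the threshold
  let cc : ℕ → ℕ := fun n => ⌈(M * Real.exp (δ * n)) ^ (1 / κ)⌉₊
  have hcc : ∀ n, 1 ≤ cc n ∧ (M * Real.exp (δ * n)) ≤ (cc n : ℝ) ^ κ ∧
      (cc n : ℝ) ≤ A₁ * Real.exp (δ * n / κ) := by
    intro n
    have e0 : 1 ≤ Real.exp (δ * n) := Real.one_le_exp (by positivity)
    have e1 : 1 ≤ M * Real.exp (δ * n) := one_le_mul_of_one_le_of_one_le hM1 e0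
    have e2 : 1 ≤ (M * Real.exp (δ * n)) ^ (1 / κ) := Real.one_le_rpow e1 (by positivity)
    have e3 : (M * Real.exp (δ * n)) ^ (1 / κ) ≤ (cc n : ℝ) := Nat.le_ceil _
    refine ⟨?_, ?_, ?_⟩
    · have : (1 : ℝ) ≤ (cc n : ℝ) := e2.trans e3
      exact_mod_cast this
    · have e4 : M * Real.exp (δ * n) = ((M * Real.exp (δ * n)) ^ (1 / κ)) ^ κ := by
        rw [← Real.rpow_mul (by positivity), one_div_mul_cancel hκ.ne', Real.rpow_one]
      rw [e4]
      exact Real.rpow_le_rpow (by positivity) e3 hκ.le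
    · have e5 : (cc n : ℝ) ≤ (M * Real.exp (δ * n)) ^ (1 / κ) + 1 :=
        (Nat.ceil_lt_add_one (by positivity)).le
      have e6 : (M * Real.exp (δ * n)) ^ (1 / κ) = M ^ (1 / κ) * Real.exp (δ * n / κ) := by
        rw [Real.mul_rpow (by positivity) (by positivity), ← Real.exp_mul]
        congr 2
        ring
      have e7 : (cc n : ℝ) ≤ 2 * (M * Real.exp (δ * n)) ^ (1 / κ) := by linarith
      rw [e6, ← mul_assoc] at e7
      exact e7
  -- the total bound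
  set Q : ℝ := (d + 1) * (1 + d) ^ d * (1 + (C₀ + C) / |θ₀|) * (C ^ (2 * d + 2) * A₁ ^ E) *
    ((1 + P₀.totalDegree) * Cδ) with hQ
  have hA₁1 : 1 ≤ A₁ := by rw [hA₁]; linarith
  have hθ₀' : 0 < |θ₀| := abs_pos.2 hG₀
  have hQ0 : 0 < Q := by positivity
  obtain ⟨n₁, hn₁⟩ : ∃ n₁ : ℕ, ∀ n : ℕ, n₁ ≤ n → Q ≤ Real.exp (η / 2 * n) := by
    have h2 : Tendsto (fun n : ℕ => Real.exp (η / 2 * n)) atTop atTop := by
      refine Real.tendsto_exp_atTop.comp ?_
      exact Tendsto.const_mul_atTop (by positivity) tendsto_natCast_atTop_atTop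
    exact eventually_atTop.1 (h2.eventually_ge_atTop Q)
  refine ⟨n₁, fun n hn => ?_⟩
  obtain ⟨hc1, hc2, hc3⟩ := hcc n
  have hc1' : (1 : ℝ) ≤ cc n := by exact_mod_cast hc1
  have hc0 : (0 : ℝ) < cc n := by linarith
  obtain ⟨N, β, hN1, hN2, hβ, heq⟩ := key (cc n) n hc1 (fun j hj P hP => by
    have e1 : (((φ ^ j) P).totalDegree : ℝ) ≤ DL * (Cδ * (lam ^ j * Real.exp (δ * n))) := by
      have e2 : (((φ ^ j) P).totalDegree : ℝ) ≤ P.totalDegree * dg φ j := by
        exact_mod_cast totalDegree_pow_apply_le φ j P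
      refine e2.trans (mul_le_mul (hDLP P hP) ?_ (Nat.cast_nonneg _) (by linarith))
      refine (hCδ j).trans ?_
      refine mul_le_mul_of_nonneg_left ?_ (by linarith)
      refine mul_le_mul_of_nonneg_left ?_ (by positivity)
      rw [Real.exp_le_exp]
      have : (j : ℝ) ≤ n := by exact_mod_cast hj.le
      exact mul_le_mul_of_nonneg_left this hδ0.le
    have e3 : ((cc n : ℝ)) ^ (-κ) ≤ (M * Real.exp (δ * n))⁻¹ := by
      rw [Real.rpow_neg hc0.le]
      exact inv_anti₀ (by positivity) hc2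
    have e4 : 0 < M * Real.exp (δ * n) := by positivity
    calc C * (cc n : ℝ) ^ (-κ) * ((φ ^ j) P).totalDegree
        ≤ C * (M * Real.exp (δ * n))⁻¹ * (DL * (Cδ * (lam ^ j * Real.exp (δ * n)))) := by
          refine mul_le_mul (mul_le_mul_of_nonneg_left e3 (by linarith)) e1 (Nat.cast_nonneg _)
            (by positivity)
      _ = lam ^ j * ((C * DL * Cδ) / M) := by
          field_simp
      _ ≤ lam ^ j * ε := by
          refine mul_le_mul_of_nonneg_left ?_ (by positivity)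
          rw [div_le_iff₀ (by linarith), hM]
          have e5 : C * DL * Cδ / ε * ε = C * DL * Cδ := by field_simp
          nlinarith)
  -- the bounds
  have hcE : (C * (cc n : ℝ) ^ K) ^ (2 * d + 2) ≤
      (C ^ (2 * d + 2) * A₁ ^ E) * Real.exp (δ * (E / κ) * n) := by
    rw [mul_pow, ← pow_mul, ← hE]
    have e1 : (cc n : ℝ) ^ E ≤ (A₁ * Real.exp (δ * n / κ)) ^ E := pow_le_pow_left₀ hc0.le hc3 E
    rw [mul_pow, ← Real.exp_nat_mul] at e1
    have e2 : (E : ℝ) * (δ * n / κ) = δ * (E / κ) * n := by ring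
    rw [e2] at e1
    calc C ^ (2 * d + 2) * (cc n : ℝ) ^ E
        ≤ C ^ (2 * d + 2) * (A₁ ^ E * Real.exp (δ * (E / κ) * n)) :=
          mul_le_mul_of_nonneg_left e1 (by positivity)
      _ = (C ^ (2 * d + 2) * A₁ ^ E) * Real.exp (δ * (E / κ) * n) := by ring
  have hηδ : δ * (E / κ) * n + δ * n = η / 2 * n := by
    rw [hδ]
    field_simp
  have hbase : 1 ≤ C * (cc n : ℝ) ^ K := one_le_mul_of_one_le_of_one_le hC (one_le_pow₀ hc1')
  have hηn : Real.exp (η / 2 * n) * Real.exp (η / 2 * n) = Real.exp (η * n) := by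
    rw [← Real.exp_add]
    congr 1
    ring
  refine ⟨N, β, hN1, ?_, fun o => ?_, heq⟩
  · have e1 : (C * (cc n : ℝ) ^ K) ^ (2 * d) ≤ (C * (cc n : ℝ) ^ K) ^ (2 * d + 2) :=
      pow_le_pow_right₀ hbase (by omega)
    have e2 : (N : ℝ) ≤ Q * Real.exp (η / 2 * n) := by
      calc (N : ℝ) ≤ (1 + d) ^ d * (C * (cc n : ℝ) ^ K) ^ (2 * d) := hN2
        _ ≤ (1 + d) ^ d * ((C ^ (2 * d + 2) * A₁ ^ E) * Real.exp (δ * (E / κ) * n)) :=
            mul_le_mul_of_nonneg_left (e1.trans hcE) (by positivity)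
        _ ≤ (1 + d) ^ d * ((C ^ (2 * d + 2) * A₁ ^ E) * Real.exp (η / 2 * n)) := by
            refine mul_le_mul_of_nonneg_left (mul_le_mul_of_nonneg_left ?_ (by positivity))
              (by positivity)
            rw [Real.exp_le_exp, ← hηδ]
            have : 0 ≤ δ * n := by positivity
            linarith
        _ = 1 * (1 + d) ^ d * 1 * (C ^ (2 * d + 2) * A₁ ^ E) * (1 * 1) *
            Real.exp (η / 2 * n) := by ring
        _ ≤ Q * Real.exp (η / 2 * n) := by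
            rw [hQ]
            have f1 : (1 : ℝ) ≤ d + 1 := by
              have : (0 : ℝ) ≤ d := Nat.cast_nonneg d
              linarith
            have f2 : (1 : ℝ) ≤ 1 + (C₀ + C) / |θ₀| := by
              have : 0 ≤ (C₀ + C) / |θ₀| := by positivity
              linarith
            have f3 : (1 : ℝ) ≤ 1 + P₀.totalDegree := by
              have : (0 : ℝ) ≤ P₀.totalDegree := Nat.cast_nonneg _
              linarith
            gcongr
    calc (N : ℝ) ≤ Q * Real.exp (η / 2 * n) := e2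
      _ ≤ Real.exp (η / 2 * n) * Real.exp (η / 2 * n) :=
          mul_le_mul_of_nonneg_right (hn₁ n hn) (by positivity)
      _ = Real.exp (η * n) := hηn
  · have e1 : (P₀.totalDegree : ℝ) * dg φ n ≤
        ((1 + P₀.totalDegree) * Cδ) * (lam ^ n * Real.exp (δ * n)) := by
      have := hCδ n
      have f1 : (0 : ℝ) ≤ P₀.totalDegree := Nat.cast_nonneg _
      have f2 : 0 < lam ^ n * Real.exp (δ * n) := by positivity
      calc (P₀.totalDegree : ℝ) * dg φ n
          ≤ (1 + P₀.totalDegree) * (Cδ * (lam ^ n * Real.exp (δ * n))) :=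
            mul_le_mul (by linarith) this (Nat.cast_nonneg _) (by linarith)
        _ = ((1 + P₀.totalDegree) * Cδ) * (lam ^ n * Real.exp (δ * n)) := by ring
    have e2 : |(β o : ℝ)| ≤ Q * (Real.exp (η / 2 * n) * lam ^ n) := by
      calc |(β o : ℝ)| ≤ d * (1 + d) ^ d * (1 + (C₀ + C) / |θ₀|) *
            (C * (cc n : ℝ) ^ K) ^ (2 * d + 2) * (P₀.totalDegree * dg φ n) := hβ o
        _ ≤ d * (1 + d) ^ d * (1 + (C₀ + C) / |θ₀|) *
            ((C ^ (2 * d + 2) * A₁ ^ E) * Real.exp (δ * (E / κ) * n)) *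
            (((1 + P₀.totalDegree) * Cδ) * (lam ^ n * Real.exp (δ * n))) := by
            refine mul_le_mul (mul_le_mul_of_nonneg_left hcE (by positivity)) e1 (by positivity)
              (by positivity)
        _ = d * ((1 + d) ^ d * (1 + (C₀ + C) / |θ₀|) * (C ^ (2 * d + 2) * A₁ ^ E) *
            ((1 + P₀.totalDegree) * Cδ)) *
            ((Real.exp (δ * (E / κ) * n) * Real.exp (δ * n)) * lam ^ n) := by ring
        _ = d * ((1 + d) ^ d * (1 + (C₀ + C) / |θ₀|) * (C ^ (2 * d + 2) * A₁ ^ E) *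
            ((1 + P₀.totalDegree) * Cδ)) * (Real.exp (η / 2 * n) * lam ^ n) := by
            rw [← Real.exp_add, hηδ]
        _ ≤ (d + 1) * ((1 + d) ^ d * (1 + (C₀ + C) / |θ₀|) * (C ^ (2 * d + 2) * A₁ ^ E) *
            ((1 + P₀.totalDegree) * Cδ)) * (Real.exp (η / 2 * n) * lam ^ n) := by
            gcongr
            linarith
        _ = Q * (Real.exp (η / 2 * n) * lam ^ n) := by rw [hQ]; ring
    calc |(β o : ℝ)| ≤ Q * (Real.exp (η / 2 * n) * lam ^ n) := e2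
      _ ≤ Real.exp (η / 2 * n) * (Real.exp (η / 2 * n) * lam ^ n) :=
          mul_le_mul_of_nonneg_right (hn₁ n hn) (by positivity)
      _ = Real.exp (η * n) * lam ^ n := by rw [← mul_assoc, hηn]

end Pool.Agent.DaeB
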