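import Pool.Agent.DaeB.ValueFormula

/-!
# MP_dae5d3_ag, half (B), end: the representation of a value with explicit bounds (DB34a)
-/

set_option autoImplicit false

namespace Pool.Agent.DaeB

open MvPolynomial

/-- the reference values: `θ₀` and the logarithms of the values of `y` -/
noncomputable def refval {d : ℕ} (W : AbsoluteValue (A d) ℝ) {ι : Type*} (y : ι → A d) (θ₀ : ℝ) :
    Option ι → ℝ
  | none => θ₀
  | some j => Real.log (W (y j))

lemma sk_le {d : ℕ} {B : ℝ} (hB : 1 ≤ B) : ((sk d ⌊B⌋₊ : ℕ) : ℝ) ≤ ((1 + d) * B) ^ d := by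
  rw [sk]
  push_cast
  refine pow_le_pow_left₀ (by positivity) ?_ d
  have h1 : ((⌊B⌋₊ : ℕ) : ℝ) ≤ B := Nat.floor_le (by linarith)
  have h2 : (d : ℝ) * (⌊B⌋₊ : ℕ) ≤ d * B := mul_le_mul_of_nonneg_left h1 (Nat.cast_nonneg d)
  nlinarith

/-- **The representation of the value of `P`** by the reference values. -/
theorem final_step {d : ℕ} {W V : AbsoluteValue (A d) ℝ} (hV : IsNonarchimedean V)
    (hVC : TrivC V) {U : Fin d → A d} (hU : Mono V U fun i => V (U i)) {B : ℝ} (hB : 1 ≤ B)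
    (hdeg : ∀ i, ((U i).totalDegree : ℝ) ≤ B) {C₁ : ℝ} (hC₁ : 0 ≤ C₁)
    (hlog : ∀ i, |Real.log (V (U i))| ≤ C₁ * B) {ι : Type*} [Fintype ι] {y : ι → A d} {θ₀ : ℝ}
    (hθ₀ : θ₀ ≠ 0)
    (hatt : ∀ i, (∃ j, V (U i) = W (y j)) ∨ ∃ (q : ℕ) (p : ℤ), 1 ≤ q ∧ (q : ℝ) ≤ B ∧
      (q : ℝ) * Real.log (V (U i)) = p * θ₀) {P : A d} (hP : P ≠ 0) :
    ∃ (N : ℕ) (β : Option ι → ℤ), 1 ≤ N ∧ (N : ℝ) ≤ (1 + d) ^ d * B ^ (2 * d) ∧
      (∀ o, |(β o : ℝ)| ≤ d * (1 + d) ^ d * (1 + C₁ / |θ₀|) * B ^ (2 * d + 2) * P.totalDegree) ∧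
      (N : ℝ) * Real.log (V P) = ∑ o, (β o : ℝ) * refval W y θ₀ o := by
  classical
  have hB0 : 0 < B := by linarith
  have hθ₀' : 0 < |θ₀| := abs_pos.2 hθ₀
  -- uniform description
  have hall : ∀ i, ∃ (o : Option ι) (q : ℕ) (p : ℤ), 1 ≤ q ∧ (q : ℝ) ≤ B ∧
      |(p : ℝ)| ≤ (1 + C₁ / |θ₀|) * B ^ 2 ∧
      (q : ℝ) * Real.log (V (U i)) = p * refval W y θ₀ o := by
    intro i
    have hpos : 0 ≤ C₁ / |θ₀| := by positivity
    have hB2 : 1 ≤ B ^ 2 := one_le_pow₀ hB
    rcases hatt i with ⟨j, hj⟩ | ⟨q, p, hq1, hq2, hqp⟩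
    · refine ⟨some j, 1, 1, le_rfl, by simpa using hB, ?_, ?_⟩
      · rw [Int.cast_one, abs_one]
        nlinarith
      · rw [Nat.cast_one, Int.cast_one, one_mul, one_mul, hj]
        rfl
    · refine ⟨none, q, p, hq1, hq2, ?_, hqp⟩
      have h1 : |(p : ℝ)| * |θ₀| ≤ B * (C₁ * B) := by
        rw [← abs_mul, ← hqp, abs_mul, Nat.abs_cast]
        exact mul_le_mul hq2 (hlog i) (abs_nonneg _) hB0.le
      have h2 : |(p : ℝ)| ≤ B * (C₁ * B) / |θ₀| := by
        rw [le_div_iff₀ hθ₀']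
        exact h1
      refine h2.trans ?_
      have h3 : B * (C₁ * B) / |θ₀| = C₁ / |θ₀| * B ^ 2 := by ring
      rw [h3]
      nlinarith
  choose o q p hq1 hq2 hp hqp using hall
  have hdeg' : ∀ i, (U i).totalDegree ≤ ⌊B⌋₊ := fun i => Nat.le_floor (hdeg i)
  obtain ⟨m, β, hm1, hm2, hβ, heq⟩ := exists_value hV hVC hU hdeg' hP
  have hm2' : (m : ℝ) ≤ ((1 + d) * B) ^ d := (Nat.cast_le.2 hm2).trans (sk_le hB)
  set b : Fin d → ℤ := fun i => β i * ((∏ i' ∈ Finset.univ.erase i, q i' : ℕ) : ℤ) * p i with hb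
  refine ⟨m * ∏ i, q i, fun t => ∑ i ∈ Finset.univ.filter (fun i => o i = t), b i, ?_, ?_, ?_, ?_⟩
  · exact Nat.mul_pos hm1 (Finset.prod_pos fun i _ => hq1 i)
  · push_cast
    have h1 : ∏ i, (q i : ℝ) ≤ B ^ d := by
      calc ∏ i, (q i : ℝ) ≤ ∏ _i : Fin d, B :=
            Finset.prod_le_prod (fun i _ => Nat.cast_nonneg _) fun i _ => hq2 i
        _ = B ^ d := by rw [Finset.prod_const, Finset.card_univ, Fintype.card_fin]
    calc (m : ℝ) * ∏ i, (q i : ℝ) ≤ ((1 + d) * B) ^ d * B ^ d :=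
          mul_le_mul hm2' h1 (Finset.prod_nonneg fun i _ => Nat.cast_nonneg _) (by positivity)
      _ = (1 + d) ^ d * B ^ (2 * d) := by rw [mul_pow]; ring
  · intro t
    have hbi : ∀ i, |(b i : ℝ)| ≤
        (1 + d) ^ d * (1 + C₁ / |θ₀|) * B ^ (2 * d + 2) * P.totalDegree := by
      intro i
      rw [hb]
      push_cast
      rw [abs_mul, abs_mul]
      have h1 : |(β i : ℝ)| ≤ ((1 + d) * B) ^ d * P.totalDegree := by
        have h2 : |(β i : ℝ)| ≤ ((sk d ⌊B⌋₊ * P.totalDegree : ℕ) : ℝ) := by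
          exact_mod_cast hβ i
        refine h2.trans ?_
        push_cast
        exact mul_le_mul_of_nonneg_right (sk_le hB) (Nat.cast_nonneg _)
      have h2 : |∏ i' ∈ Finset.univ.erase i, (q i' : ℝ)| ≤ B ^ d := by
        rw [abs_of_nonneg (Finset.prod_nonneg fun i _ => Nat.cast_nonneg _)]
        calc ∏ i' ∈ Finset.univ.erase i, (q i' : ℝ) ≤ ∏ _i' ∈ Finset.univ.erase i, B :=
              Finset.prod_le_prod (fun i _ => Nat.cast_nonneg _) fun i _ => hq2 i
          _ = B ^ (Finset.univ.erase i).card := by rw [Finset.prod_const]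
          _ ≤ B ^ d := by
              refine pow_le_pow_right₀ hB ?_
              have := Finset.card_le_univ (Finset.univ.erase i)
              rwa [Fintype.card_fin] at this
      calc |(β i : ℝ)| * |∏ i' ∈ Finset.univ.erase i, (q i' : ℝ)| * |(p i : ℝ)|
          ≤ ((1 + d) * B) ^ d * P.totalDegree * B ^ d * ((1 + C₁ / |θ₀|) * B ^ 2) := by
            refine mul_le_mul (mul_le_mul h1 h2 (abs_nonneg _) (by positivity)) (hp i)
              (abs_nonneg _) (by positivity)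
        _ = (1 + d) ^ d * (1 + C₁ / |θ₀|) * B ^ (2 * d + 2) * P.totalDegree := by
            rw [mul_pow]; ring
    push_cast
    refine (Finset.abs_sum_le_sum_abs _ _).trans ?_
    have hpos : 0 ≤ (1 + (d : ℝ)) ^ d * (1 + C₁ / |θ₀|) * B ^ (2 * d + 2) * P.totalDegree := by
      positivity
    calc ∑ i ∈ Finset.univ.filter (fun i => o i = t), |(b i : ℝ)|
        ≤ ∑ _i ∈ Finset.univ.filter (fun i => o i = t),
          ((1 + (d : ℝ)) ^ d * (1 + C₁ / |θ₀|) * B ^ (2 * d + 2) * P.totalDegree) :=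
          Finset.sum_le_sum fun i _ => hbi i
      _ = ((Finset.univ.filter (fun i => o i = t)).card : ℝ) *
          ((1 + (d : ℝ)) ^ d * (1 + C₁ / |θ₀|) * B ^ (2 * d + 2) * P.totalDegree) := by
          rw [Finset.sum_const, nsmul_eq_mul]
      _ ≤ d * ((1 + (d : ℝ)) ^ d * (1 + C₁ / |θ₀|) * B ^ (2 * d + 2) * P.totalDegree) := by
          refine mul_le_mul_of_nonneg_right ?_ hpos
          have := Finset.card_le_univ (Finset.univ.filter (fun i => o i = t))
          rw [Fintype.card_fin] at this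
          exact_mod_cast this
      _ = d * (1 + d) ^ d * (1 + C₁ / |θ₀|) * B ^ (2 * d + 2) * P.totalDegree := by ring
  · have h1 : ∑ t, ((∑ i ∈ Finset.univ.filter (fun i => o i = t), b i : ℤ) : ℝ) *
        refval W y θ₀ t = ∑ i, (b i : ℝ) * refval W y θ₀ (o i) := by
      have h2 : ∀ t, ((∑ i ∈ Finset.univ.filter (fun i => o i = t), b i : ℤ) : ℝ) *
          refval W y θ₀ t =
          ∑ i ∈ Finset.univ.filter (fun i => o i = t), (b i : ℝ) * refval W y θ₀ (o i) := by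
        intro t
        push_cast
        rw [Finset.sum_mul]
        refine Finset.sum_congr rfl fun i hi => ?_
        rw [(Finset.mem_filter.1 hi).2]
      rw [Finset.sum_congr rfl fun t _ => h2 t]
      exact Finset.sum_fiberwise Finset.univ o fun i => (b i : ℝ) * refval W y θ₀ (o i)
    rw [h1]
    push_cast
    calc (m : ℝ) * (∏ i, (q i : ℝ)) * Real.log (V P)
        = (∏ i, (q i : ℝ)) * ((m : ℝ) * Real.log (V P)) := by ring
      _ = ∑ i, (∏ i, (q i : ℝ)) * ((β i : ℝ) * Real.log (V (U i))) := by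
          rw [heq, Finset.mul_sum]
      _ = ∑ i, (b i : ℝ) * refval W y θ₀ (o i) := by
          refine Finset.sum_congr rfl fun i _ => ?_
          rw [hb]
          push_cast
          rw [← Finset.mul_prod_erase Finset.univ (fun i => (q i : ℝ)) (Finset.mem_univ i)]
          have := hqp i
          calc (q i : ℝ) * (∏ i' ∈ Finset.univ.erase i, (q i' : ℝ)) *
                ((β i : ℝ) * Real.log (V (U i)))
              = (β i : ℝ) * (∏ i' ∈ Finset.univ.erase i, (q i' : ℝ)) *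
                ((q i : ℝ) * Real.log (V (U i))) := by ring
            _ = (β i : ℝ) * (∏ i' ∈ Finset.univ.erase i, (q i' : ℝ)) * p i *
                refval W y θ₀ (o i) := by rw [this]; ring

end Pool.Agent.DaeB
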