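import Pool.Agent.DaeB.ApproxStep
import Pool.Agent.DaeB.PolyTransport

/-! # DaeB: the approximating tower (package DB21) -/

set_option autoImplicit false

namespace Pool.Agent.DaeB

open Polynomial

private lemma gt_le_pow {x : ℝ} (hx : 1 ≤ x) {C' C'' : ℝ} (h0 : 0 ≤ C') (hC : C' ≤ C'') {a b : ℕ}
    (hab : a ≤ b) : C' * x ^ a ≤ C'' * x ^ b :=
  mul_le_mul hC (pow_le_pow_right₀ hx hab) (by positivity) (h0.trans hC)

private lemma gt_zero (W : AbsoluteValue (A 0) ℝ) (hT : TrivC W) {P : A 0} (hP : P ≠ 0) :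
    W P = 1 := by
  have h1 : P = MvPolynomial.C (P.coeff 0) := MvPolynomial.eq_C_of_isEmpty P
  have h2 : P.coeff 0 ≠ 0 := by
    intro h
    rw [h, map_zero] at h1
    exact hP h1
  rw [h1]
  exact hT _ h2

/-- Induction on `n`.  For `n + 1` use the induction hypothesis for `res W` at the threshold `c ^ k`,
`k = ⌈4 / κ'⌉₊`: `|log V' - log (res W)| ≤ C' c ^ (-4) deg`, so `δ = C' c ^ (-4)` and `approx_step` (for
`toPoly W` and `c`) gives the error `(C1 c ^ (-κ) + C1 C' c ^ (-1)) deg`.  New exponent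
`min κ 1`, new constants: maxima of products.  Data as in `exact_tower`: `ofPoly V`,
`Fin.cons ((eqv n).symm U0) (fun i => incl n (U' i))`. -/
theorem good_tower (n : ℕ) (W : AbsoluteValue (A n) ℝ) (hW : IsNonarchimedean W)
    (hT : TrivC W) (hR : ∀ i, 0 < Rinf n W i) (w0 : ℝ) (hw0 : 0 < w0) (hw1 : w0 ≠ 1)
    (C κ : ℝ) (hC : 0 ≤ C) (hκ : 0 < κ)
    (hrate : ∀ c : ℕ, 1 ≤ c → ∀ i, Rc c n W i ≤ Rinf n W i * Real.exp (C * (c : ℝ) ^ (-κ))) :
    ∃ (C' κ' : ℝ) (K : ℕ), 1 ≤ C' ∧ 0 < κ' ∧ ∀ c : ℕ, 1 ≤ c →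
      ∃ (V : AbsoluteValue (A n) ℝ) (U : Fin n → A n), IsNonarchimedean V ∧ TrivC V ∧
        Mono V U (fun i => V (U i)) ∧
        (∀ i, ((U i).totalDegree : ℝ) ≤ C' * (c : ℝ) ^ K) ∧
        (∀ P : A n, P ≠ 0 → |Real.log (V P) - Real.log (W P)| ≤
          C' * (c : ℝ) ^ (-κ') * P.totalDegree) ∧
        (∀ i, Att n W i → U i = ymin n W i ∧ V (U i) = W (U i)) ∧
        ∀ i, ¬ Att n W i → ∃ (q : ℕ) (p : ℤ), 1 ≤ q ∧ (q : ℝ) ≤ C' * (c : ℝ) ^ K ∧
          q * Real.log (V (U i)) = p * Real.log w0 := by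
  induction n with
  | zero =>
    refine ⟨1, 1, 0, le_refl _, one_pos, fun c _ => ⟨W, Fin.elim0, hW, hT, ⟨fun i => i.elim0,
      fun i => i.elim0, fun G α hα => ?_⟩, fun i => i.elim0, fun P _ => ?_, fun i => i.elim0,
      fun i => i.elim0⟩⟩
    · have hG : G ≠ 0 := by
        rintro rfl
        simp at hα
      have h1 : G = MvPolynomial.C (G.coeff 0) := MvPolynomial.eq_C_of_isEmpty G
      have h2 : G.coeff 0 ≠ 0 := by
        intro h
        rw [h, map_zero] at h1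
        exact hG h1
      have h3 : mw (fun i : Fin 0 => W ((Fin.elim0 : Fin 0 → A 0) i)) α = 1 := by
        rw [mw, Finsupp.prod_fintype _ _ fun i => pow_zero _]
        exact Finset.prod_of_isEmpty _
      rw [h3, h1, MvPolynomial.aeval_C]
      exact (hT _ h2).ge
    · rw [sub_self, abs_zero]
      positivity
  | succ n ih =>
    have hR0 : 0 < Rtop (toPoly W) := hR 0
    have hR' : ∀ i, 0 < Rinf n (res W) i := fun i => hR i.succ
    have hrate0 : ∀ c : ℕ, 1 ≤ c → RtopC (sizeA n) (toPoly W) c ≤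
        Rtop (toPoly W) * Real.exp (C * (c : ℝ) ^ (-κ)) := fun c hc => hrate c hc 0
    have hrate' : ∀ c : ℕ, 1 ≤ c → ∀ i, Rc c n (res W) i ≤
        Rinf n (res W) i * Real.exp (C * (c : ℝ) ^ (-κ)) := fun c hc i => hrate c hc i.succ
    obtain ⟨C', κ', K, hC', hκ', hind⟩ := ih (res W) (res_na hW) (res_trivC hT) hR' hrate'
    obtain ⟨C1, hC1, hstep⟩ := approx_step n (toPoly W) (toPoly_na hW) (toPoly_trivC hT) hR0 w0
      hw0 hw1 C κ hC hκ hrate0
    obtain ⟨k, hk⟩ : ∃ k : ℕ, 4 / κ' ≤ k := ⟨⌈4 / κ'⌉₊, Nat.le_ceil _⟩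
    obtain ⟨m, hm⟩ : ∃ m : ℕ, κ ≤ m := ⟨⌈κ⌉₊, Nat.le_ceil _⟩
    have hkκ : 4 ≤ k * κ' := by rwa [div_le_iff₀ hκ'] at hk
    have hCC : 1 ≤ C1 * C' := by nlinarith
    have hle1 : C1 ≤ C1 + C' + C1 * C' := by linarith
    have hle2 : C' ≤ C1 + C' + C1 * C' := by linarith
    refine ⟨C1 + C' + C1 * C', min κ 1, k * K + 1 + m, by linarith, lt_min hκ one_pos,
      fun c hc => ?_⟩
    have hc1 : (1 : ℝ) ≤ c := by exact_mod_cast hc
    have hc0 : (0 : ℝ) < c := by linarith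
    obtain ⟨V', U', hV'na, hV'T, hV'M, hV'deg, hV'err, hV'att, hV'natt⟩ :=
      hind (c ^ k) (Nat.one_le_pow _ _ (by omega))
    have hpow : C' * ((c ^ k : ℕ) : ℝ) ^ (-κ') ≤ C' * (c : ℝ) ^ (-4 : ℝ) := by
      refine mul_le_mul_of_nonneg_left ?_ (by linarith)
      rw [Nat.cast_pow, ← Real.rpow_natCast, ← Real.rpow_mul hc0.le]
      refine Real.rpow_le_rpow_of_exponent_le hc1 ?_
      nlinarith
    have hδ : 0 ≤ C' * (c : ℝ) ^ (-4 : ℝ) := by positivity
    obtain ⟨V, U0, hVna, hVC, hU0, hVG, hU0deg, hVerr, hVatt, hVnatt⟩ :=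
      hstep c hc V' hV'na hV'T (C' * (c : ℝ) ^ (-4 : ℝ)) hδ (by
        intro b hb
        have h1 := hV'err b hb
        refine h1.trans ?_
        exact mul_le_mul_of_nonneg_right hpow (Nat.cast_nonneg _))
    have hU00 : U0 ≠ 0 := by
      rintro rfl
      exact hU0 derivative_zero
    have hM := mono_cons hVC hV'M hU00 hVG
    have hval : (fun i : Fin (n + 1) => ofPoly V
        ((Fin.cons ((eqv n).symm U0) (fun i => incl n (U' i)) : Fin (n + 1) → A (n + 1)) i)) =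
        (Fin.cons (V U0) (fun i => V' (U' i)) : Fin (n + 1) → ℝ) := by
      funext i
      exact hM.val i
    refine ⟨ofPoly V, Fin.cons ((eqv n).symm U0) (fun i => incl n (U' i)), ofPoly_na hVna,
      ofPoly_trivC ?_, ?_, ?_, ?_, ?_, ?_⟩
    · intro z hz
      rw [resB_apply, hVC]
      exact hV'T z hz
    · rw [hval]
      exact hM
    · intro i
      refine Fin.cases ?_ (fun j => ?_) i
      · rw [Fin.cons_zero, ← size_eqv, AlgEquiv.apply_symm_apply]
        refine hU0deg.trans ?_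
        have h1 := gt_le_pow hc1 (by linarith) hle1 (show 1 ≤ k * K + 1 + m by omega)
        rwa [pow_one] at h1
      · rw [Fin.cons_succ, totalDegree_incl]
        refine (hV'deg j).trans ?_
        rw [Nat.cast_pow, ← pow_mul]
        exact gt_le_pow hc1 (by linarith) hle2 (by omega)
    · intro P hP
      have hP' : eqv n P ≠ 0 := by
        intro h
        exact hP ((map_eq_zero_iff _ (eqv n).injective).1 h)
      have h1 := hVerr (eqv n P) hP'
      rw [toPoly_apply, AlgEquiv.symm_apply_apply, size_eqv] at h1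
      rw [ofPoly_apply]
      refine h1.trans (mul_le_mul_of_nonneg_right ?_ (Nat.cast_nonneg _))
      have h2 : (c : ℝ) ^ (-κ) ≤ (c : ℝ) ^ (-min κ 1) :=
        Real.rpow_le_rpow_of_exponent_le hc1 (neg_le_neg (min_le_left _ _))
      have h3 : (c : ℝ) ^ (-1 : ℝ) ≤ (c : ℝ) ^ (-min κ 1) :=
        Real.rpow_le_rpow_of_exponent_le hc1 (neg_le_neg (min_le_right _ _))
      have h4 : (c : ℝ) ^ 3 * (c : ℝ) ^ (-4 : ℝ) = (c : ℝ) ^ (-1 : ℝ) := by
        rw [← Real.rpow_natCast (c : ℝ) 3, ← Real.rpow_add hc0]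
        norm_num
      have h5 : 0 < (c : ℝ) ^ (-min κ 1) := Real.rpow_pos_of_pos hc0 _
      calc C1 * (c : ℝ) ^ (-κ) + C1 * (c : ℝ) ^ 3 * (C' * (c : ℝ) ^ (-4 : ℝ))
          = C1 * (c : ℝ) ^ (-κ) + C1 * C' * ((c : ℝ) ^ 3 * (c : ℝ) ^ (-4 : ℝ)) := by ring
        _ = C1 * (c : ℝ) ^ (-κ) + C1 * C' * (c : ℝ) ^ (-1 : ℝ) := by rw [h4]
        _ ≤ C1 * (c : ℝ) ^ (-min κ 1) + C1 * C' * (c : ℝ) ^ (-min κ 1) :=
            add_le_add (mul_le_mul_of_nonneg_left h2 (by linarith))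
              (mul_le_mul_of_nonneg_left h3 (by linarith))
        _ ≤ (C1 + C' + C1 * C') * (c : ℝ) ^ (-min κ 1) := by nlinarith
    · intro i
      refine Fin.cases ?_ (fun j => ?_) i
      · intro h
        obtain ⟨h1, h2⟩ := hVatt h
        refine ⟨?_, ?_⟩
        · rw [Fin.cons_zero, h1]
          rfl
        · rw [Fin.cons_zero, ofPoly_apply, AlgEquiv.apply_symm_apply, h2, toPoly_apply]
      · intro h
        obtain ⟨h1, h2⟩ := hV'att j h
        refine ⟨?_, ?_⟩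
        · rw [Fin.cons_succ, h1]
          rfl
        · rw [Fin.cons_succ, ofPoly_apply, eqv_incl, hVC, h2, res_apply]
    · intro i
      refine Fin.cases ?_ (fun j => ?_) i
      · intro h
        obtain ⟨q, p, hq, hqle, hqp⟩ := hVnatt h
        refine ⟨q, p, hq, hqle.trans ?_, ?_⟩
        · have h1 : (c : ℝ) ^ κ ≤ (c : ℝ) ^ m := by
            rw [← Real.rpow_natCast]
            exact Real.rpow_le_rpow_of_exponent_le hc1 hm
          exact (mul_le_mul_of_nonneg_left h1 (by linarith)).trans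
            (gt_le_pow hc1 (by linarith) hle1 (by omega))
        · rw [Fin.cons_zero, ofPoly_apply, AlgEquiv.apply_symm_apply]
          exact hqp
      · intro h
        obtain ⟨q, p, hq, hqle, hqp⟩ := hV'natt j h
        refine ⟨q, p, hq, hqle.trans ?_, ?_⟩
        · rw [Nat.cast_pow, ← pow_mul]
          exact gt_le_pow hc1 (by linarith) hle2 (by omega)
        · rw [Fin.cons_succ, ofPoly_apply, eqv_incl, hVC]
          exact hqp

end Pool.Agent.DaeB
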