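import Pool.Agent.DaeB.Defs

/-! # DaeB: elementary lemmas on monomial absolute values -/

set_option autoImplicit false

namespace Pool.Agent.DaeB

open MvPolynomial

lemma mw_nonneg {ι : Type*} {σ : ι → ℝ} (hσ : ∀ i, 0 ≤ σ i) (α : ι →₀ ℕ) : 0 ≤ mw σ α :=
  Finset.prod_nonneg fun i _ => pow_nonneg (hσ i) _

lemma mw_pos {ι : Type*} {σ : ι → ℝ} (hσ : ∀ i, 0 < σ i) (α : ι →₀ ℕ) : 0 < mw σ α :=
  Finset.prod_pos fun i _ => pow_pos (hσ i) _

lemma TrivC.nontrivial {R : Type*} [CommRing R] [Algebra ℂ R] {v : AbsoluteValue R ℝ}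
    (hT : TrivC v) : Nontrivial R := by
  refine ⟨⟨1, 0, fun h => ?_⟩⟩
  have h1 := hT 1 one_ne_zero
  rw [map_one, h, map_zero] at h1
  exact zero_ne_one h1

/-- value of a monomial -/
lemma v_monomial {ι : Type*} {R : Type*} [CommRing R] [Algebra ℂ R]
    {v : AbsoluteValue R ℝ} (hT : TrivC v) {U : ι → R} {σ : ι → ℝ} (hU : ∀ i, v (U i) = σ i)
    (α : ι →₀ ℕ) {z : ℂ} (hz : z ≠ 0) : v (aeval U (monomial α z)) = mw σ α := by
  have : Nontrivial R := hT.nontrivial
  rw [aeval_monomial, map_mul, hT z hz, one_mul, mw, Finsupp.prod, Finsupp.prod, map_prod]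
  refine Finset.prod_congr rfl fun i _ => ?_
  rw [map_pow, hU]

/-- the ultrametric upper bound -/
lemma v_aeval_le {ι : Type*} {R : Type*} [CommRing R] [Algebra ℂ R]
    {v : AbsoluteValue R ℝ} (hv : IsNonarchimedean v) (hT : TrivC v) {U : ι → R} {σ : ι → ℝ}
    (hU : ∀ i, v (U i) = σ i) (G : MvPolynomial ι ℂ) {b : ℝ} (hb : 0 ≤ b)
    (h : ∀ α ∈ G.support, mw σ α ≤ b) : v (aeval U G) ≤ b := by
  classical
  have key : ∀ s : Finset (ι →₀ ℕ), s ⊆ G.support →
      v (aeval U (∑ α ∈ s, monomial α (G.coeff α))) ≤ b := by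
    intro s
    induction s using Finset.induction_on with
    | empty =>
      intro _
      rw [Finset.sum_empty, map_zero, map_zero]
      exact hb
    | insert α s hα ih =>
      intro hs
      rw [Finset.sum_insert hα, map_add]
      refine (hv _ _).trans (max_le ?_ (ih fun x hx => hs (Finset.mem_insert_of_mem hx)))
      have h1 : α ∈ G.support := hs (Finset.mem_insert_self _ _)
      rw [v_monomial hT hU α (mem_support_iff.1 h1)]
      exact h α h1
  have h2 := key G.support (Finset.Subset.refl _)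
  rwa [← as_sum G] at h2

/-- two monomial absolute values with the same weights agree -/
lemma Mono.eq {ι : Type*} {R R' : Type*} [CommRing R] [Algebra ℂ R] [CommRing R'] [Algebra ℂ R']
    {v : AbsoluteValue R ℝ} {v' : AbsoluteValue R' ℝ} (hv : IsNonarchimedean v)
    (hv' : IsNonarchimedean v') (hT : TrivC v) (hT' : TrivC v') {U : ι → R} {U' : ι → R'}
    {σ : ι → ℝ} (h : Mono v U σ) (h' : Mono v' U' σ) (G : MvPolynomial ι ℂ) :
    v (aeval U G) = v' (aeval U' G) := by
  refine le_antisymm ?_ ?_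
  · exact v_aeval_le hv hT h.val G (v'.nonneg _) (h'.le G)
  · exact v_aeval_le hv' hT' h'.val G (v.nonneg _) (h.le G)

/-- restriction to a subfamily -/
lemma Mono.comp {ι κ : Type*} {R : Type*} [CommRing R] [Algebra ℂ R] {v : AbsoluteValue R ℝ}
    {U : ι → R} {σ : ι → ℝ} (h : Mono v U σ) (f : κ → ι) (hf : Function.Injective f) :
    Mono v (fun k => U (f k)) (fun k => σ (f k)) where
  val k := h.val _
  pos k := h.pos _
  le G α hα := by
    classical
    have h1 := h.le (rename f G) (α.mapDomain f) (by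
      rw [support_rename_of_injective hf]
      exact Finset.mem_image_of_mem _ hα)
    rw [aeval_rename] at h1
    have h2 : mw σ (α.mapDomain f) = mw (fun k => σ (f k)) α := by
      rw [mw, mw, Finsupp.prod_mapDomain_index_inj hf]
    rwa [h2] at h1

/-- two absolute values which are both monomial with related weights -/
lemma Mono.rpow_eq {ι : Type*} {R R' : Type*} [CommRing R] [Algebra ℂ R] [CommRing R']
    [Algebra ℂ R'] {v : AbsoluteValue R ℝ} {v' : AbsoluteValue R' ℝ} (hv : IsNonarchimedean v)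
    (hv' : IsNonarchimedean v') (hT : TrivC v) (hT' : TrivC v') {U : ι → R} {U' : ι → R'}
    {σ σ' : ι → ℝ} (h : Mono v U σ) (h' : Mono v' U' σ') {t : ℝ} (ht : 0 < t)
    (hσ : ∀ i, σ i = σ' i ^ t) (G : MvPolynomial ι ℂ) :
    v (aeval U G) = v' (aeval U' G) ^ t := by
  have hmw : ∀ α : ι →₀ ℕ, mw σ α = mw σ' α ^ t := by
    intro α
    rw [mw, mw, Finsupp.prod, Finsupp.prod, ← Real.finsetProd_rpow _ _
      (fun i _ => pow_nonneg (h'.pos i).le _)]
    refine Finset.prod_congr rfl fun i _ => ?_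
    rw [hσ, ← Real.rpow_natCast, ← Real.rpow_natCast, ← Real.rpow_mul (h'.pos i).le,
      ← Real.rpow_mul (h'.pos i).le, mul_comm]
  refine le_antisymm ?_ ?_
  · refine v_aeval_le hv hT h.val G (Real.rpow_nonneg (v'.nonneg _) _) fun α hα => ?_
    rw [hmw]
    exact Real.rpow_le_rpow (mw_nonneg (fun i => (h'.pos i).le) _) (h'.le G α hα) ht.le
  · have h1 : v' (aeval U' G) ≤ v (aeval U G) ^ t⁻¹ := by
      refine v_aeval_le hv' hT' h'.val G (Real.rpow_nonneg (v.nonneg _) _) fun α hα => ?_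
      have h2 := Real.rpow_le_rpow (mw_nonneg (fun i => (h.pos i).le) _) (h.le G α hα)
        (inv_nonneg.2 ht.le)
      rwa [hmw, ← Real.rpow_mul (mw_nonneg (fun i => (h'.pos i).le) _), mul_inv_cancel₀ ht.ne',
        Real.rpow_one] at h2
    have h2 := Real.rpow_le_rpow (v'.nonneg _) h1 ht.le
    rwa [← Real.rpow_mul (v.nonneg _), inv_mul_cancel₀ ht.ne', Real.rpow_one] at h2

end Pool.Agent.DaeB
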