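import Pool.Agent.DaeB.Ext

/-! # DaeB: approximation by relatively algebraically closed subfields (package DB23) -/

set_option autoImplicit false

namespace Pool.Agent.DaeB

open Polynomial

/-- relatively algebraically closed subfield -/
def RAC {Ω : Type*} [Field Ω] (M : Subfield Ω) : Prop :=
  ∀ q : Polynomial Ω, q ≠ 0 → (∀ k, q.coeff k ∈ M) → ∀ z, q.eval z = 0 → z ∈ M

/-- `z` is approximated by `M` (its initial form is the initial form of an element of `M`) -/
def Near {Ω : Type*} [Field Ω] (w : AbsoluteValue Ω ℝ) (M : Subfield Ω) (z : Ω) : Prop :=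
  ∃ γ ∈ M, w (z - γ) < w z

/-- the relative algebraic closure of the image of a ring (Mathlib: `algebraicClosure`,
`Subalgebra.algebraicClosure`, `IsAlgebraic`, `isAlgebraic_iff`, transitivity) -/
theorem exists_relCl {R : Type*} [CommRing R] {Ω : Type*} [Field Ω] (f : R →+* Ω) :
    ∃ M : Subfield Ω, RAC M ∧ ∀ z, z ∈ M ↔ ∃ p : R[X], p.map f ≠ 0 ∧ p.eval₂ f z = 0 := by
  set S : Subring Ω := f.range with hS
  set N : Subalgebra S Ω := Subalgebra.algebraicClosure S Ω with hN
  let M : Subfield Ω :=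
    { N.toSubring with
      inv_mem' := fun x hx => by
        change IsAlgebraic S x⁻¹
        rw [IsAlgebraic.inv_iff]
        exact hx }
  have hM : ∀ z, z ∈ M ↔ IsAlgebraic S z := fun z => Iff.rfl
  refine ⟨M, ?_, ?_⟩
  · intro q hq hqM z hz
    rw [hM]
    have hcoef : ∀ k, q.coeff k ∈ N := fun k => hqM k
    obtain ⟨q', hq'⟩ : ∃ q' : Polynomial N, q'.map (algebraMap N Ω) = q := by
      have h1 : q ∈ Polynomial.lifts (algebraMap N Ω) := by
        rw [Polynomial.lifts_iff_coeff_lifts]
        intro k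
        exact ⟨⟨q.coeff k, hcoef k⟩, rfl⟩
      obtain ⟨q', h2⟩ := (Polynomial.mem_lifts q).1 h1
      exact ⟨q', h2⟩
    have hzN : IsAlgebraic N z := by
      refine ⟨q', ?_, ?_⟩
      · rintro rfl
        exact hq (by rw [← hq', Polynomial.map_zero])
      · rw [Polynomial.aeval_def, ← Polynomial.eval_map, hq', hz]
    exact hzN.restrictScalars S
  · intro z
    rw [hM]
    constructor
    · rintro ⟨p, hp, hz⟩
      obtain ⟨p', hp'⟩ : ∃ p' : R[X], p'.map f.rangeRestrict = p := by
        have h1 : Function.Surjective (Polynomial.map f.rangeRestrict) :=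
          Polynomial.map_surjective _ f.rangeRestrict_surjective
        exact h1 p
      have hcomp : (algebraMap S Ω).comp f.rangeRestrict = f := RingHom.ext fun _ => rfl
      have hmap : p'.map f = p.map (algebraMap S Ω) := by
        rw [← hp', Polynomial.map_map, hcomp]
      refine ⟨p', ?_, ?_⟩
      · rw [hmap]
        intro h0
        exact hp ((Polynomial.map_eq_zero_iff
          (show Function.Injective (algebraMap S Ω) from Subtype.val_injective)).1 h0)
      · rw [← Polynomial.eval_map, hmap, Polynomial.eval_map, ← Polynomial.aeval_def, hz]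
    · rintro ⟨p, hp, hz⟩
      have hcomp : (algebraMap S Ω).comp f.rangeRestrict = f := RingHom.ext fun _ => rfl
      refine ⟨p.map f.rangeRestrict, ?_, ?_⟩
      · intro h0
        apply hp
        rw [← hcomp, ← Polynomial.map_map, h0, Polynomial.map_zero]
      · rw [Polynomial.aeval_def, Polynomial.eval₂_map, hcomp, hz]

section

variable {Ω : Type*} [Field Ω] {w : AbsoluteValue Ω ℝ} (hw : IsNonarchimedean w)
  {M : Subfield Ω}

theorem near_of_mem {z : Ω} (hz : z ∈ M) (h0 : z ≠ 0) : Near w M z := by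
  refine ⟨z, hz, ?_⟩
  rw [sub_self, w.map_zero]
  exact w.pos h0

private theorem near_eq (hw : IsNonarchimedean w) {z γ : Ω} (h : w (z - γ) < w z) :
    w γ = w z := by
  refine le_antisymm ?_ ?_
  · have h1 := hw (-(z - γ)) z
    rw [w.map_neg, neg_sub, sub_add_cancel] at h1
    exact h1.trans (max_le h.le le_rfl)
  · by_contra hcon
    push Not at hcon
    have h1 := hw (z - γ) γ
    rw [sub_add_cancel] at h1
    exact absurd h1 (not_le.2 (max_lt h hcon))

private theorem near_pos {z γ : Ω} (h : w (z - γ) < w z) : 0 < w z :=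
  lt_of_le_of_lt (w.nonneg _) h

private theorem sum_lt (hw : IsNonarchimedean w) {ι : Type*} (s : Finset ι) (g : ι → Ω) (B : ℝ)
    (hB : 0 < B) (h : ∀ i ∈ s, w (g i) < B) : w (∑ i ∈ s, g i) < B := by
  classical
  induction s using Finset.induction_on with
  | empty => simpa using hB
  | insert a t ha ih =>
    rw [Finset.sum_insert ha]
    exact lt_of_le_of_lt (hw _ _) (max_lt (h a (Finset.mem_insert_self _ _))
      (ih fun i hi => h i (Finset.mem_insert_of_mem hi)))

include hw in
theorem Near.mul {z z' : Ω} (h : Near w M z) (h' : Near w M z') : Near w M (z * z') := by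
  obtain ⟨γ, hγ, h1⟩ := h
  obtain ⟨γ', hγ', h2⟩ := h'
  refine ⟨γ * γ', mul_mem hγ hγ', ?_⟩
  have hp := near_pos h1
  have hp' := near_pos h2
  have he := near_eq hw h2
  have h3 : z * z' - γ * γ' = z * (z' - γ') + (z - γ) * γ' := by ring
  rw [h3]
  refine lt_of_le_of_lt (hw _ _) (max_lt ?_ ?_)
  · rw [w.map_mul, w.map_mul]
    exact mul_lt_mul_of_pos_left h2 hp
  · rw [w.map_mul, w.map_mul, he]
    exact mul_lt_mul_of_pos_right h1 hp'

include hw in
theorem Near.pow {z : Ω} (h : Near w M z) (k : ℕ) : Near w M (z ^ k) := by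
  induction k with
  | zero =>
    rw [pow_zero]
    exact near_of_mem (one_mem M) one_ne_zero
  | succ k ih =>
    rw [pow_succ]
    exact Near.mul hw ih h

include hw in
theorem Near.inv {z : Ω} (h : Near w M z) : Near w M z⁻¹ := by
  obtain ⟨γ, hγ, h1⟩ := h
  have hp := near_pos h1
  have he := near_eq hw h1
  have hz0 : z ≠ 0 := (w.pos_iff).1 hp
  have hγ0 : γ ≠ 0 := (w.pos_iff).1 (by rw [he]; exact hp)
  refine ⟨γ⁻¹, inv_mem hγ, ?_⟩
  have h3 : z⁻¹ - γ⁻¹ = -(z - γ) * (z⁻¹ * γ⁻¹) := by
    field_simp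
    ring
  rw [h3, w.map_mul, w.map_neg, w.map_mul, map_inv₀, map_inv₀, he]
  have h4 : w (z - γ) * ((w z)⁻¹ * (w z)⁻¹) < w z * ((w z)⁻¹ * (w z)⁻¹) :=
    mul_lt_mul_of_pos_right h1 (by positivity)
  have h5 : w z * ((w z)⁻¹ * (w z)⁻¹) = (w z)⁻¹ := by
    field_simp
  rw [h5] at h4
  exact h4

include hw in
/-- a sum without cancellation of approximated elements is approximated -/
theorem near_sum {ι : Type*} (s : Finset ι) (f : ι → Ω) (h : ∀ i ∈ s, f i = 0 ∨ Near w M (f i))
    (h0 : ∑ i ∈ s, f i ≠ 0) (hs : ∀ i ∈ s, w (f i) ≤ w (∑ i ∈ s, f i)) :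
    Near w M (∑ i ∈ s, f i) := by
  have hex : ∀ i : ι, ∃ γ ∈ M, i ∈ s → w (f i - γ) < w (∑ i ∈ s, f i) := by
    intro i
    by_cases hi : i ∈ s
    · rcases h i hi with hf | ⟨γ, hγ, h1⟩
      · refine ⟨0, zero_mem M, fun _ => ?_⟩
        rw [hf, sub_zero, w.map_zero]
        exact w.pos h0
      · exact ⟨γ, hγ, fun _ => lt_of_lt_of_le h1 (hs i hi)⟩
    · exact ⟨0, zero_mem M, fun hi' => absurd hi' hi⟩
  choose γ hγ hlt using hex
  refine ⟨∑ i ∈ s, γ i, sum_mem fun i _ => hγ i, ?_⟩
  rw [← Finset.sum_sub_distrib]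
  exact sum_lt hw s _ _ (w.pos h0) fun i hi => hlt i hi

include hw in
/-- transitivity -/
theorem Near.trans {N : Subfield Ω} {z : Ω} (h : Near w N z)
    (hN : ∀ γ ∈ N, γ ≠ 0 → Near w M γ) : Near w M z := by
  obtain ⟨γ, hγ, h1⟩ := h
  have hp := near_pos h1
  have he := near_eq hw h1
  have hγ0 : γ ≠ 0 := (w.pos_iff).1 (by rw [he]; exact hp)
  obtain ⟨δ, hδ, h2⟩ := hN γ hγ hγ0
  refine ⟨δ, hδ, ?_⟩
  have h3 : z - δ = (z - γ) + (γ - δ) := by ring
  rw [h3]
  refine lt_of_le_of_lt (hw _ _) (max_lt h1 ?_)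
  rwa [he] at h2

private theorem gauss_lin (hw : IsNonarchimedean w) (c : ℝ) (hc : 0 < c) (r : Ω) :
    (X - C r : Polynomial Ω).gaussNorm w c ≤ max c (w r) := by
  have h1 := isNonarchimedean_gaussNorm w hw hc.le (X : Polynomial Ω) (C (-r))
  have h2 : (X : Polynomial Ω).gaussNorm w c = c := by
    have := gaussNorm_monomial w c 1 (1 : Ω)
    rw [Polynomial.monomial_one_one_eq_X, w.map_one, one_mul, pow_one] at this
    exact this
  rw [h2, gaussNorm_C, w.map_neg, C_neg, ← sub_eq_add_neg] at h1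
  exact h1

private theorem gauss_prod (hw : IsNonarchimedean w) (c : ℝ) (hc : 0 < c) (z : Ω)
    (m : Multiset Ω) (h : ∀ r ∈ m, max c (w r) ≤ w (z - r)) :
    ((m.map fun r => (X - C r : Polynomial Ω)).prod).gaussNorm w c ≤
      w (((m.map fun r => (X - C r : Polynomial Ω)).prod).eval z) := by
  induction m using Multiset.induction_on with
  | empty =>
    rw [Multiset.map_zero, Multiset.prod_zero, eval_one, w.map_one, ← C_1, gaussNorm_C, w.map_one]
  | cons a t ih =>
    rw [Multiset.map_cons, Multiset.prod_cons, gaussNorm_mul hw hc, eval_mul, w.map_mul]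
    refine mul_le_mul ?_ (ih fun r hr => h r (Multiset.mem_cons_of_mem hr))
      (gaussNorm_nonneg w _ hc.le) (w.nonneg _)
    rw [eval_sub, eval_X, eval_C]
    exact (gauss_lin hw c hc a).trans (h a (Multiset.mem_cons_self a t))

include hw in
/-- **root lemma**: `q = l ∏ (X - r_i)` with all `r_i ∈ M` (`RAC`), the Gauss norm at radius `w z` is
`w l * ∏ max (w z) (w r_i)` (`gaussNorm_mul`), so some `w (z - r_i) < max (w z) (w r_i)`. -/
theorem root_lemma [IsAlgClosed Ω] (hM : RAC M) (q : Polynomial Ω) (hq : q ≠ 0)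
    (hqM : ∀ k, q.coeff k ∈ M) (z : Ω) (hz : z ≠ 0) (h : w (q.eval z) < q.gaussNorm w (w z)) :
    Near w M z := by
  have hc : 0 < w z := w.pos hz
  have hsplit : C q.leadingCoeff * (q.roots.map fun r => (X - C r : Polynomial Ω)).prod = q :=
    C_leadingCoeff_mul_prod_multiset_X_sub_C (IsAlgClosed.card_roots_eq_natDegree (p := q))
  have hex : ∃ r ∈ q.roots, w (z - r) < max (w z) (w r) := by
    by_contra hcon
    push Not at hcon
    have h1 := gauss_prod hw (w z) hc z q.roots hcon
    rw [← hsplit, gaussNorm_mul hw hc, eval_mul, w.map_mul, gaussNorm_C, eval_C] at h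
    exact absurd h (not_lt.2 (mul_le_mul_of_nonneg_left h1 (w.nonneg _)))
  obtain ⟨r, hr, h1⟩ := hex
  have hrM : r ∈ M := hM q hq hqM r ((mem_roots hq).1 hr)
  refine ⟨r, hrM, ?_⟩
  rcases lt_max_iff.1 h1 with h2 | h2
  · exact h2
  · by_contra hcon
    push Not at hcon
    have h3 : w (r - z) < w r := by
      rw [← w.map_neg, neg_sub]
      exact h2
    have h4 := near_eq hw h3
    rw [h4] at hcon
    exact absurd h2 (not_lt.2 hcon)

include hw in
/-- the same with approximated coefficients: replace the coefficients by elements of `M` -/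
theorem root_lemma' [IsAlgClosed Ω] (hM : RAC M) (q : Polynomial Ω) (hq : q ≠ 0)
    (hqM : ∀ k, q.coeff k = 0 ∨ Near w M (q.coeff k)) (z : Ω) (hz : z ≠ 0)
    (h : w (q.eval z) < q.gaussNorm w (w z)) : Near w M z := by
  have hc : 0 < w z := w.pos hz
  have hex : ∀ k, ∃ γ ∈ M, (q.coeff k = 0 ∧ γ = 0) ∨ w (q.coeff k - γ) < w (q.coeff k) := by
    intro k
    rcases hqM k with h0 | ⟨γ, hγ, h1⟩
    · exact ⟨0, zero_mem M, Or.inl ⟨h0, rfl⟩⟩
    · exact ⟨γ, hγ, Or.inr h1⟩
  choose γ hγ hlt using hex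
  set p : Polynomial Ω := ∑ k ∈ q.support, monomial k (γ k) with hp
  have hpc : ∀ k, p.coeff k = γ k := by
    intro k
    rw [hp, finsetSum_coeff]
    simp only [coeff_monomial]
    rw [Finset.sum_ite_eq' q.support k]
    by_cases hk : k ∈ q.support
    · rw [if_pos hk]
    · rw [if_neg hk]
      rw [mem_support_iff, not_not] at hk
      rcases hlt k with h0 | h0
      · exact h0.2.symm
      · rw [hk, w.map_zero] at h0
        exact absurd h0 (not_lt.2 (w.nonneg _))
  have hq0 : 0 < q.gaussNorm w (w z) := lt_of_le_of_lt (w.nonneg _) h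
  have hd : (q - p).gaussNorm w (w z) < q.gaussNorm w (w z) := by
    obtain ⟨k, hk⟩ := exists_eq_gaussNorm w (w z) (q - p)
    rw [hk, coeff_sub, hpc]
    rcases hlt k with h0 | h0
    · rw [h0.1, h0.2, sub_zero, w.map_zero, zero_mul]
      exact hq0
    · refine lt_of_lt_of_le (mul_lt_mul_of_pos_right h0 (pow_pos hc k)) (le_gaussNorm w q hc.le k)
  have he : p.gaussNorm w (w z) = q.gaussNorm w (w z) := by
    have hna := isNonarchimedean_gaussNorm w hw hc.le
    have hneg : ∀ f : Polynomial Ω, (-f).gaussNorm w (w z) = f.gaussNorm w (w z) := by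
      intro f
      have h1 : -f = C (-1) * f := by
        rw [C_neg, C_1, neg_mul, one_mul]
      rw [h1, gaussNorm_mul hw hc, gaussNorm_C, w.map_neg, w.map_one, one_mul]
    refine le_antisymm ?_ ?_
    · have h1 := hna (-(q - p)) q
      rw [hneg, neg_sub, sub_add_cancel] at h1
      exact h1.trans (max_le hd.le le_rfl)
    · by_contra hcon
      push Not at hcon
      have h1 := hna (q - p) p
      rw [sub_add_cancel] at h1
      exact absurd h1 (not_le.2 (max_lt hd hcon))
  refine root_lemma hw hM p ?_ (fun k => by rw [hpc]; exact hγ k) z hz ?_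
  · rintro h0
    rw [h0, gaussNorm_zero] at he
    exact hq0.ne he
  · rw [he]
    have h1 : p.eval z = q.eval z + -((q - p).eval z) := by
      rw [eval_sub]
      ring
    rw [h1]
    refine lt_of_le_of_lt (hw _ _) (max_lt h ?_)
    rw [w.map_neg]
    refine lt_of_le_of_lt ?_ hd
    rw [eval_eq_sum_range]
    refine (IsNonarchimedean.apply_sum_le_sup hw
      (s := Finset.range ((q - p).natDegree + 1)) ⟨0, by simp⟩).trans ?_
    refine Finset.sup'_le _ _ fun k _ => ?_
    rw [w.map_mul, w.map_pow]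
    exact le_gaussNorm w (q - p) hc.le k

include hw in
/-- elements which are algebraic over approximated elements are approximated -/
theorem near_of_algebraic [IsAlgClosed Ω] (hM : RAC M) (q : Polynomial Ω) (hq : q ≠ 0)
    (hqM : ∀ k, q.coeff k = 0 ∨ Near w M (q.coeff k)) (z : Ω) (hz : z ≠ 0)
    (h : q.eval z = 0) : Near w M z := by
  refine root_lemma' hw hM q hq hqM z hz ?_
  rw [h, w.map_zero]
  have hc : 0 < w z := w.pos hz
  refine lt_of_le_of_ne (gaussNorm_nonneg w q hc.le) fun h0 => hq ?_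
  exact (gaussNorm_eq_zero_iff w q (fun x hx => w.eq_zero.1 hx) hc).1 h0.symm

end

end Pool.Agent.DaeB
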