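import Pool.Agent.DaeB.NotAtt
import Pool.Agent.DaeB.PolyTransport

/-! # DaeB: every element is algebraic over the attained minimisers modulo smaller terms
(package DB25) -/

set_option autoImplicit false

namespace Pool.Agent.DaeB

open Polynomial

private lemma ntw_multiset {Ω : Type*} [Field Ω] {w : AbsoluteValue Ω ℝ}
    (hw : IsNonarchimedean w) {M : Subfield Ω} (s : Multiset Ω)
    (h : ∀ z ∈ s, Near w M z) : Near w M s.prod := by
  induction s using Multiset.induction_on with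
  | empty =>
    rw [Multiset.prod_zero]
    exact near_of_mem M.one_mem one_ne_zero
  | cons a s ih =>
    rw [Multiset.prod_cons]
    exact Near.mul hw (h a (Multiset.mem_cons_self a s))
      (ih fun z hz => h z (Multiset.mem_cons_of_mem hz))

private lemma ntw_map_coeff {R : Type*} [CommRing R] {Ω : Type*} [Field Ω]
    {w : AbsoluteValue Ω ℝ} {M : Subfield Ω} (f : R →+* Ω)
    (hf : ∀ b : R, b ≠ 0 → Near w M (f b)) (p : R[X]) (k : ℕ) :
    (p.map f).coeff k = 0 ∨ Near w M ((p.map f).coeff k) := by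
  rw [coeff_map]
  by_cases h : p.coeff k = 0
  · left
    rw [h, map_zero]
  · right
    exact hf _ h

/-- elements of the relative algebraic closure are approximated -/
private lemma ntw_relCl {R : Type*} [CommRing R] {Ω : Type*} [Field Ω] [IsAlgClosed Ω]
    {w : AbsoluteValue Ω ℝ} (hw : IsNonarchimedean w) {M : Subfield Ω} (hM : RAC M)
    (f : R →+* Ω) (hf : ∀ b : R, b ≠ 0 → Near w M (f b)) (N : Subfield Ω)
    (hN : ∀ z, z ∈ N ↔ ∃ p : R[X], p.map f ≠ 0 ∧ p.eval₂ f z = 0) (z : Ω) (hz : z ∈ N)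
    (h0 : z ≠ 0) : Near w M z := by
  obtain ⟨p, hp, hpz⟩ := (hN z).1 hz
  refine near_of_algebraic hw hM (p.map f) hp (ntw_map_coeff f hf p) z h0 ?_
  rw [eval_map]
  exact hpz

/-- the attained case -/
private lemma ntw_att {B : Type} [CommRing B] (W : AbsoluteValue B[X] ℝ)
    (hW : IsNonarchimedean W) (h0 : ResZero W) (hR : 0 < Rtop W) (hA : AttTop W) {Ω : Type}
    [Field Ω] [IsAlgClosed Ω]
    (w : AbsoluteValue Ω ℝ) (hw : IsNonarchimedean w) (ψ : B[X] →+* Ω)
    (hψ : ∀ P, w (ψ P) = W P) (M : Subfield Ω) (hM : RAC M)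
    (hB : ∀ b : B, b ≠ 0 → Near w M (ψ (C b))) (hy : ψ (minTop W) ∈ M)
    (P : B[X]) (hP : P ≠ 0) : Near w M (ψ P) := by
  obtain ⟨hU1, hU2⟩ := minTop_spec W hA
  have hUG := gauss_of_att W hW h0 hR hA
  set U := minTop W with hU
  have hinj : ∀ Q : B[X], Q ≠ 0 → ψ Q ≠ 0 := by
    intro Q hQ h
    have h1 := hψ Q
    rw [h, map_zero] at h1
    exact hQ ((AbsoluteValue.eq_zero W).1 h1.symm)
  have hU0 : U ≠ 0 := by
    intro h
    rw [h, derivative_zero] at hU1
    exact hU1 rfl
  have hu0 : ψ U ≠ 0 := hinj U hU0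
  -- polynomials in `U`
  have key : ∀ Q : B[X], Q ≠ 0 → Near w M (ψ (Q.comp U)) := by
    intro Q hQ
    have e1 : ψ (Q.comp U) = ∑ j ∈ Q.support, ψ (C (Q.coeff j)) * ψ U ^ j := by
      rw [comp, eval₂_eq_sum, sum_def, map_sum]
      refine Finset.sum_congr rfl fun j _ => ?_
      rw [map_mul, map_pow]
    have hle : ∀ j, w (ψ (C (Q.coeff j)) * ψ U ^ j) ≤ w (ψ (Q.comp U)) := by
      intro j
      rw [map_mul, map_pow, hψ, hψ, hψ, hUG Q]
      exact le_gaussNorm (resB W) Q (AbsoluteValue.nonneg W U) j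
    have hne : ψ (Q.comp U) ≠ 0 := by
      obtain ⟨j, hj⟩ := Polynomial.support_nonempty.2 hQ
      have hj0 : Q.coeff j ≠ 0 := mem_support_iff.1 hj
      intro h
      have h1 := hle j
      rw [h, map_zero] at h1
      have h2 : ψ (C (Q.coeff j)) * ψ U ^ j ≠ 0 :=
        mul_ne_zero (hinj _ (by rwa [Ne, C_eq_zero])) (pow_ne_zero _ hu0)
      have h3 := (AbsoluteValue.pos_iff w).2 h2
      linarith
    rw [e1]
    refine near_sum hw _ _ (fun j hj => Or.inr ?_) (by rwa [← e1]) (fun j _ => ?_)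
    · exact Near.mul hw (hB _ (mem_support_iff.1 hj))
        (near_of_mem (M.pow_mem hy j) (pow_ne_zero _ hu0))
    · rw [← e1]
      exact hle j
  -- the relative algebraic closure of `B[U]`
  set g : B[X] →+* Ω := ψ.comp (compRingHom U) with hg
  have hgQ : ∀ Q : B[X], g Q = ψ (Q.comp U) := fun Q => rfl
  obtain ⟨N, hNR, hN⟩ := exists_relCl g
  have hNg : ∀ Q : B[X], g Q ∈ N := by
    intro Q
    refine (hN _).2 ⟨X - C Q, ?_, ?_⟩
    · rw [Polynomial.map_sub, map_X, map_C]
      exact X_sub_C_ne_zero _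
    · rw [eval₂_sub, eval₂_X, eval₂_C, sub_self]
  have hNC : ∀ b : B, ψ (C b) ∈ N := by
    intro b
    have h := hNg (C b)
    rwa [hgQ, C_comp] at h
  have hNU : ψ U ∈ N := by
    have h := hNg X
    rwa [hgQ, X_comp] at h
  have hNX : ψ X ∈ N := by
    have hne : U.map (ψ.comp C) - C (ψ U) ≠ 0 := by
      intro h
      have h1 : U.natDegree ≠ 0 := by
        intro h1
        rw [natDegree_eq_zero] at h1
        obtain ⟨c, hc⟩ := h1
        rw [← hc, derivative_C] at hU1
        exact hU1 rfl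
      have h2 := congrArg (fun q => q.coeff U.natDegree) h
      simp only [coeff_sub, coeff_map, coeff_zero, coeff_C, if_neg h1, sub_zero] at h2
      refine hinj (C (U.coeff U.natDegree)) ?_ h2
      rw [Ne, C_eq_zero]
      simpa using hU0
    refine hNR _ hne (fun k => ?_) (ψ X) ?_
    · rw [coeff_sub, coeff_map, coeff_C]
      refine N.sub_mem (hNC _) ?_
      split_ifs
      · exact hNU
      · exact N.zero_mem
    · rw [eval_sub, eval_map, eval_C]
      have h : eval₂ (ψ.comp C) (ψ X) U = ψ U := by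
        rw [← hom_eval₂, eval₂_C_X]
      rw [h, sub_self]
  have hNP : ψ P ∈ N := by
    have h : eval₂ (ψ.comp C) (ψ X) P = ψ P := by
      rw [← hom_eval₂, eval₂_C_X]
    rw [← h, eval₂_eq_sum, sum_def]
    exact N.sum_mem fun j _ => N.mul_mem (hNC _) (N.pow_mem hNX j)
  exact ntw_relCl hw hM g (fun Q hQ => key Q hQ) N hN _ hNP (hinj P hP)

/-- the case which is not attained -/
private lemma ntw_notAtt {B : Type} [CommRing B] [IsDomain B] (W : AbsoluteValue B[X] ℝ)
    (hW : IsNonarchimedean W) (h0 : ResZero W) (hA : ¬ AttTop W) {Ω : Type}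
    [Field Ω] [IsAlgClosed Ω]
    (w : AbsoluteValue Ω ℝ) (hw : IsNonarchimedean w) (ψ : B[X] →+* Ω)
    (hψ : ∀ P, w (ψ P) = W P) (M : Subfield Ω) (hM : RAC M)
    (hB : ∀ b : B, b ≠ 0 → Near w M (ψ (C b)))
    (P : B[X]) (hP : P ≠ 0) : Near w M (ψ P) := by
  have hinj : ∀ Q : B[X], Q ≠ 0 → ψ Q ≠ 0 := by
    intro Q hQ h
    have h1 := hψ Q
    rw [h, map_zero] at h1
    exact hQ ((AbsoluteValue.eq_zero W).1 h1.symm)
  obtain ⟨N, hNR, hN⟩ := exists_relCl (ψ.comp C)
  have hNM : ∀ γ ∈ N, γ ≠ 0 → Near w M γ := fun γ hγ hγ0 =>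
    ntw_relCl hw hM (ψ.comp C) hB N hN γ hγ hγ0
  have hx : ∀ α ∈ N, Near w M (ψ X - α) := by
    intro α hα
    have h : Near w N (ψ X - α) := by
      by_contra h
      exact hA (att_of_not_near W hW h0 w hw ψ hψ N hN hNR α hα h)
    exact Near.trans hw h hNM
  have hev : (P.map (ψ.comp C)).eval (ψ X) = ψ P := by
    rw [eval_map, ← hom_eval₂, eval₂_C_X]
  have hP0 : P.map (ψ.comp C) ≠ 0 := by
    intro h
    rw [h, eval_zero] at hev
    exact hinj P hP hev.symm
  have hlead : (P.map (ψ.comp C)).leadingCoeff ≠ 0 := leadingCoeff_ne_zero.2 hP0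
  have hl : Near w M (P.map (ψ.comp C)).leadingCoeff := by
    have h := ntw_map_coeff (ψ.comp C) hB P (P.map (ψ.comp C)).natDegree
    rw [coeff_natDegree] at h
    exact h.resolve_left hlead
  have hroots := IsAlgClosed.splits (P.map (ψ.comp C))
  rw [← hev, hroots.eval_eq_prod_roots]
  refine Near.mul hw hl (ntw_multiset hw _ fun z hz => ?_)
  obtain ⟨α, hα, rfl⟩ := Multiset.mem_map.1 hz
  refine hx α ((hN α).2 ⟨P, hP0, ?_⟩)
  rw [mem_roots hP0, IsRoot, eval_map] at hα
  exact hα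

/-- Induction on `n`; `n = 0`: constants.  Step: work with `toPoly W` on `B[X]`, `B = A n`,
`ψ' = ψ ∘ (eqv n).symm`; by induction all `ψ' (C b)`, `b ≠ 0`, are `Near M`, hence (`exists_relCl`,
`near_of_algebraic`) all nonzero elements of the relative algebraic closure `N` of `ψ' (C B)`.
* Attained: `U = minTop`, `u = ψ' U ∈ M`.  For `Q ∈ B[X]`, `ψ' (Q.comp U) = ∑ ψ' (C b_j) u ^ j` has no
cancellation (`gauss_of_att`), so it is `Near M` (`near_sum`).  Every `ψ' P` is a root of a nonzero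
polynomial with coefficients in `B[U]` (for instance `Ψ` of `exists_psi`, or: `ψ' X` is a root of
`U(T) - u`, so `ψ' X` is `Near M`, and all of `B[X]` is algebraic over `B[U]`): `near_of_algebraic`.
* Not attained: by `att_of_not_near` all `x - α`, `α ∈ N`, are `Near N`, hence `Near M` (`Near.trans`);
`ψ' P = l ∏ (x - α_j)`. -/
theorem near_tower (n : ℕ) (W : AbsoluteValue (A n) ℝ) (hW : IsNonarchimedean W)
    (hT : TrivC W) (hR : ∀ i, 0 < Rinf n W i) {Ω : Type} [Field Ω] [IsAlgClosed Ω]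
    (w : AbsoluteValue Ω ℝ) (hw : IsNonarchimedean w) (ψ : A n →+* Ω)
    (hψ : ∀ P, w (ψ P) = W P) (M : Subfield Ω) (hM : RAC M)
    (hC : ∀ z : ℂ, ψ (MvPolynomial.C z) ∈ M) (hy : ∀ i, Att n W i → ψ (ymin n W i) ∈ M)
    (F : A n) (hF : F ≠ 0) : Near w M (ψ F) := by
  induction n with
  | zero =>
    have h1 : ψ F ≠ 0 := by
      intro h
      have h1 := hψ F
      rw [h, map_zero] at h1
      exact hF ((AbsoluteValue.eq_zero W).1 h1.symm)
    have h2 : F = MvPolynomial.C (F.coeff 0) := MvPolynomial.eq_C_of_isEmpty F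
    refine near_of_mem ?_ h1
    rw [h2]
    exact hC _
  | succ n ih =>
    -- the homomorphism from `(A n)[X]`
    set ψ' : (A n)[X] →+* Ω := ψ.comp ((eqv n).symm : (A n)[X] →+* A (n + 1)) with hψ'
    have hψ'a : ∀ P : (A n)[X], ψ' P = ψ ((eqv n).symm P) := fun P => rfl
    have hw' : ∀ P, w (ψ' P) = toPoly W P := fun P => by
      rw [hψ'a, hψ, toPoly_apply]
    have hR0 : 0 < Rtop (toPoly W) := by
      have h := hR 0
      simpa [Rinf] using h
    have hRs : ∀ i, 0 < Rinf n (res W) i := by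
      intro i
      have h := hR i.succ
      simpa [Rinf] using h
    have hB : ∀ b : A n, b ≠ 0 → Near w M (ψ' (C b)) := by
      intro b hb
      refine ih (res W) (res_na hW) (res_trivC hT) hRs (ψ'.comp C) (fun P => ?_) (fun z => ?_)
        (fun i hi => ?_) b hb
      · rw [RingHom.comp_apply, hw']
        rfl
      · rw [RingHom.comp_apply, hψ'a, eqv_symm_C]
        have h1 : incl n (MvPolynomial.C z) = MvPolynomial.C z := MvPolynomial.rename_C _ _
        rw [h1]
        exact hC z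
      · rw [RingHom.comp_apply, hψ'a, eqv_symm_C]
        have h := hy i.succ (by simpa [Att] using hi)
        simpa [ymin] using h
    have hFe : ψ F = ψ' (eqv n F) := by
      rw [hψ'a, AlgEquiv.symm_apply_apply]
    have hF0 : eqv n F ≠ 0 := by
      intro h
      exact hF ((eqv n).injective (by rw [h, map_zero]))
    rw [hFe]
    by_cases hA : AttTop (toPoly W)
    · refine ntw_att (toPoly W) (toPoly_na hW) (toPoly_trivC hT).resZero hR0 hA w hw ψ' hw' M hM
        hB ?_ (eqv n F) hF0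
      have h := hy 0 (by simpa [Att] using hA)
      rw [hψ'a]
      simpa [ymin] using h
    · exact ntw_notAtt (toPoly W) (toPoly_na hW) (toPoly_trivC hT).resZero hA w hw ψ' hw' M hM
        hB (eqv n F) hF0

end Pool.Agent.DaeB
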