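import Pool.Agent.DaeB.Defs

/-! # DaeB: the noise is a Gauss extension on `B[U]` (package DB01) -/

set_option autoImplicit false

namespace Pool.Agent.DaeB

open Polynomial

private lemma ng_sum_le {R : Type*} [CommRing R] (g : AbsoluteValue R ℝ)
    (hg : IsNonarchimedean g) {ι : Type*} (s : Finset ι) (f : ι → R) (M : ℝ) (hM : 0 ≤ M)
    (h : ∀ i ∈ s, g (f i) ≤ M) : g (∑ i ∈ s, f i) ≤ M := by
  classical
  induction s using Finset.induction_on with
  | empty => rwa [Finset.sum_empty, map_zero]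
  | insert a s ha ih =>
    rw [Finset.sum_insert ha]
    refine (hg _ _).trans (max_le (h a (Finset.mem_insert_self a s)) (ih fun i hi => ?_))
    exact h i (Finset.mem_insert_of_mem hi)

private lemma ng_sum_lt {R : Type*} [CommRing R] (g : AbsoluteValue R ℝ)
    (hg : IsNonarchimedean g) {ι : Type*} (s : Finset ι) (f : ι → R) (M : ℝ) (hM : 0 < M)
    (h : ∀ i ∈ s, g (f i) < M) : g (∑ i ∈ s, f i) < M := by
  classical
  induction s using Finset.induction_on with
  | empty => rwa [Finset.sum_empty, map_zero]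
  | insert a s ha ih =>
    rw [Finset.sum_insert ha]
    refine (hg _ _).trans_lt (max_lt (h a (Finset.mem_insert_self a s)) (ih fun i hi => ?_))
    exact h i (Finset.mem_insert_of_mem hi)

private lemma ng_pow_sub {R : Type*} [CommRing R] (g : AbsoluteValue R ℝ)
    (hg : IsNonarchimedean g) (a b : R) (σ : ℝ) (hσ : 0 < σ) (ha : g a ≤ σ) (hb : g b ≤ σ)
    (hab : g (a - b) < σ) (j : ℕ) : g (a ^ j - b ^ j) < σ ^ j := by
  rcases subsingleton_or_nontrivial R with hR | hR
  · rw [Subsingleton.elim (a ^ j - b ^ j) 0, map_zero]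
    exact pow_pos hσ j
  induction j with
  | zero => rw [pow_zero, pow_zero, sub_self, map_zero, pow_zero]; exact one_pos
  | succ j ih =>
    have h1 : a ^ (j + 1) - b ^ (j + 1) = a * (a ^ j - b ^ j) + (a - b) * b ^ j := by ring
    rw [h1]
    refine (hg _ _).trans_lt (max_lt ?_ ?_)
    · rw [map_mul, pow_succ']
      calc g a * g (a ^ j - b ^ j) ≤ σ * g (a ^ j - b ^ j) :=
            mul_le_mul_of_nonneg_right ha (g.nonneg _)
        _ < σ * σ ^ j := mul_lt_mul_of_pos_left ih hσ
    · rw [map_mul, map_pow, pow_succ']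
      calc g (a - b) * g b ^ j ≤ g (a - b) * σ ^ j :=
            mul_le_mul_of_nonneg_left (pow_le_pow_left₀ (g.nonneg _) hb j) (g.nonneg _)
        _ < σ * σ ^ j := mul_lt_mul_of_pos_right hab (pow_pos hσ j)

private lemma ng_pos {R : Type*} [CommRing R] (w : AbsoluteValue R ℝ) (c : ℝ) (hc : 0 < c)
    (P : R[X]) (hP : P ≠ 0) : 0 < P.gaussNorm w c := by
  have h1 : 0 < w (P.coeff P.natDegree) * c ^ P.natDegree :=
    mul_pos (w.pos (by simpa using hP)) (pow_pos hc _)
  exact h1.trans_le (le_gaussNorm w P hc.le _)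

/-- the last index where the Gauss norm is attained -/
private lemma ng_last {R : Type*} [CommRing R] (w : AbsoluteValue R ℝ) (c : ℝ) (hc : 0 < c)
    (P : R[X]) (hP : P ≠ 0) : ∃ N, w (P.coeff N) * c ^ N = P.gaussNorm w c ∧
      ∀ k, N < k → w (P.coeff k) * c ^ k < P.gaussNorm w c := by
  classical
  have hpos := ng_pos w c hc P hP
  set S := P.support.filter fun k => w (P.coeff k) * c ^ k = P.gaussNorm w c with hS
  have hmem : ∀ k, w (P.coeff k) * c ^ k = P.gaussNorm w c → k ∈ S := by
    intro k hk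
    rw [hS, Finset.mem_filter, mem_support_iff]
    refine ⟨fun h0 => ?_, hk⟩
    rw [h0, map_zero, zero_mul] at hk
    exact hpos.ne hk
  have hne : S.Nonempty := by
    obtain ⟨i, hi⟩ := exists_eq_gaussNorm w c P
    exact ⟨i, hmem i hi.symm⟩
  refine ⟨S.max' hne, (Finset.mem_filter.1 (S.max'_mem hne)).2, fun k hk => ?_⟩
  refine lt_of_le_of_ne (le_gaussNorm w P hc.le k) fun h => ?_
  exact absurd (S.le_max' k (hmem k h)) (not_le.2 hk)

/-- Let `u(ξ) = shiftHom U = ∑ u_k ξ^k` and `σ = noise U = max |u_k| c^k`.  The hypothesis says that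
the term `k = 1` dominates the term `k = 0`, so the largest index `N` with `|u_N| c^N = σ` is `≥ 1`.
For `Q = ∑ b_j Z^j` let `M = max_j |b_j| σ^j` and let `J` be the LARGEST `j` with `|b_j| σ^j = M`.
Look at the coefficient of `ξ^(N J)` in `∑ b_j u^j`: the term `j = J` gives `b_J u_N^J` plus
strictly smaller (any other choice of indices `k_1 + .. + k_J = N J` contains some `k_i > N`), the terms
`j < J` have `k_1 + .. + k_j = N J > N j` so some `k_i > N` (strictly smaller), the terms `j > J`
satisfy `|b_j| σ^j < M`.  So the Gauss norm is `≥ M`; `≤ M` is clear.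
(Helpful: the strict inequality for `u^j` can be obtained by splitting `u = u_{≤N} + u_{>N}` with
`|u_{>N}| < σ` : `u^j - u_{≤N}^j` has Gauss norm `< σ^j`, and `natDegree (u_{≤N}^j) ≤ N j`.) -/
theorem noise_comp {B : Type*} [CommRing B] (W : AbsoluteValue B[X] ℝ)
    (hW : IsNonarchimedean W) (c : ℝ) (hc : 0 < c) (U : B[X]) (hU : derivative U ≠ 0)
    (hd : W U ≤ c * W (derivative U)) (Q : B[X]) :
    noise W hW c hc (Q.comp U) = Q.gaussNorm (resB W) (noise W hW c hc U) := by
  classical
  have hnt : Nontrivial B[X] := ⟨⟨_, _, hU⟩⟩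
  have hnt0 : Nontrivial B := by
    by_contra h
    rw [not_nontrivial_iff_subsingleton] at h
    exact hU (Subsingleton.elim _ _)
  set g := gaussAV W hW c hc with hgdef
  have hg : IsNonarchimedean g := gaussAV_na W hW c hc
  have hgn : ∀ P : B[X], noise W hW c hc P = g (shiftHom B P) := fun P => rfl
  have hgN : ∀ P : B[X][X], g P = P.gaussNorm W c := fun P => rfl
  set u : B[X][X] := shiftHom B U with hu
  rw [hgn U, hgn (Q.comp U), ← hu]
  set σ : ℝ := g u with hσdef
  have hu0 : u ≠ 0 := by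
    intro h
    have h1 : U = 0 := shiftHom_injective (by rw [← hu, h, map_zero])
    exact hU (by rw [h1, derivative_zero])
  have hσ : 0 < σ := g.pos hu0
  -- the last index of `u`
  obtain ⟨N, hN, hNlt⟩ := ng_last W c hc u hu0
  rw [← hgN u, ← hσdef] at hN hNlt
  have hN1 : 1 ≤ N := by
    by_contra hN0
    have hN0' : N = 0 := by omega
    subst hN0'
    have h1 := hNlt 1 one_pos
    rw [hu, shiftHom_coeff, hasseDeriv_one, pow_one] at h1
    rw [hu, shiftHom_coeff, hasseDeriv_zero', pow_zero, mul_one] at hN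
    linarith
  -- the lower part of `u`
  set ul : B[X][X] := ∑ k ∈ Finset.range (N + 1), monomial k (u.coeff k) with hul
  have hulc : ∀ k, ul.coeff k = if k ≤ N then u.coeff k else 0 := by
    intro k
    rw [hul, finsetSum_coeff]
    simp only [coeff_monomial]
    rw [Finset.sum_ite_eq']
    simp only [Finset.mem_range, Nat.lt_succ_iff]
  have huld : ul.natDegree ≤ N := by
    rw [natDegree_le_iff_coeff_eq_zero]
    intro k hk
    rw [hulc, if_neg (by omega)]
  have hsub : g (u - ul) < σ := by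
    obtain ⟨k, hk⟩ := exists_eq_gaussNorm W c (u - ul)
    rw [hgN, hk, coeff_sub, hulc]
    split_ifs with h
    · rw [sub_self, map_zero, zero_mul]
      exact hσ
    · rw [sub_zero]
      exact hNlt k (by omega)
  have hulσ : g ul ≤ σ := by
    have h1 : ul = u + -(u - ul) := by ring
    rw [h1]
    refine (hg _ _).trans (max_le le_rfl ?_)
    rw [AbsoluteValue.map_neg]
    exact hsub.le
  rcases eq_or_ne Q 0 with rfl | hQ
  · rw [zero_comp, map_zero, map_zero, gaussNorm_zero]
  set w := resB W with hw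
  obtain ⟨J, hJ, hJlt⟩ := ng_last w σ hσ Q hQ
  have hMpos := ng_pos w σ hσ Q hQ
  have hMle : ∀ j, w (Q.coeff j) * σ ^ j ≤ Q.gaussNorm w σ := fun j =>
    le_gaussNorm w Q hσ.le j
  set M := Q.gaussNorm w σ with hM
  have hgC : ∀ b : B, g (C (C b)) = w b := fun b => by
    rw [hgN, gaussNorm_C]
    rfl
  have hF : shiftHom B (Q.comp U) = ∑ j ∈ Q.support, C (C (Q.coeff j)) * u ^ j := by
    rw [comp, eval₂_eq_sum, Polynomial.sum, map_sum]
    refine Finset.sum_congr rfl fun j _ => ?_
    rw [map_mul, map_pow, ← hu]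
    congr 1
    simp [shiftHom]
  have hterm : ∀ j, g (C (C (Q.coeff j)) * u ^ j) = w (Q.coeff j) * σ ^ j := fun j => by
    rw [map_mul, map_pow, hgC]
  refine le_antisymm ?_ ?_
  · rw [hF]
    exact ng_sum_le g hg _ _ _ hMpos.le fun j _ => (hterm j).le.trans (hMle j)
  -- the main part
  set F₁ : B[X][X] := ∑ j ∈ Q.support.filter (fun j => j ≤ J), C (C (Q.coeff j)) * ul ^ j with hF₁
  have hsplit : shiftHom B (Q.comp U) - F₁ =
      ∑ j ∈ Q.support.filter (fun j => j ≤ J), C (C (Q.coeff j)) * (u ^ j - ul ^ j) +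
      ∑ j ∈ Q.support.filter (fun j => ¬ j ≤ J), C (C (Q.coeff j)) * u ^ j := by
    rw [hF, ← Finset.sum_filter_add_sum_filter_not Q.support (fun j => j ≤ J), hF₁]
    simp only [mul_sub, Finset.sum_sub_distrib]
    ring
  have hE : g (shiftHom B (Q.comp U) - F₁) < M := by
    rw [hsplit]
    refine (hg _ _).trans_lt (max_lt ?_ ?_)
    · refine ng_sum_lt g hg _ _ _ hMpos fun j hj => ?_
      have hj0 : Q.coeff j ≠ 0 := mem_support_iff.1 (Finset.mem_filter.1 hj).1
      rw [map_mul, hgC]
      calc w (Q.coeff j) * g (u ^ j - ul ^ j) < w (Q.coeff j) * σ ^ j :=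
            mul_lt_mul_of_pos_left (ng_pow_sub g hg u ul σ hσ le_rfl hulσ hsub j) (w.pos hj0)
        _ ≤ M := hMle j
    · refine ng_sum_lt g hg _ _ _ hMpos fun j hj => ?_
      rw [hterm]
      exact hJlt j (not_le.1 (Finset.mem_filter.1 hj).2)
  have hJ0 : Q.coeff J ≠ 0 := by
    intro h0
    rw [h0, map_zero, zero_mul] at hJ
    exact hMpos.ne hJ
  have hcoef : F₁.coeff (J * N) = C (Q.coeff J) * u.coeff N ^ J := by
    rw [hF₁, finsetSum_coeff, Finset.sum_eq_single J]
    · rw [coeff_C_mul, coeff_pow_of_natDegree_le huld, hulc, if_pos le_rfl]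
    · intro j hj hjJ
      have hjJ' : j < J := lt_of_le_of_ne (Finset.mem_filter.1 hj).2 hjJ
      have h0 : (ul ^ j).coeff (J * N) = 0 := by
        refine coeff_eq_zero_of_natDegree_lt ((natDegree_pow_le_of_le j huld).trans_lt ?_)
        exact Nat.mul_lt_mul_of_pos_right hjJ' hN1
      rw [coeff_C_mul, h0, mul_zero]
    · intro h
      exfalso
      apply h
      rw [Finset.mem_filter]
      exact ⟨mem_support_iff.2 hJ0, le_rfl⟩
  have hF₁M : M ≤ g F₁ := by
    have h1 := le_gaussNorm W F₁ hc.le (J * N)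
    rw [← hgN, hcoef, map_mul, map_pow, mul_comm J N, pow_mul, mul_assoc, ← mul_pow, hN] at h1
    have h2 : W (C (Q.coeff J)) * σ ^ J = M := hJ
    rwa [h2] at h1
  by_contra hcon
  have h1 : F₁ = shiftHom B (Q.comp U) + -(shiftHom B (Q.comp U) - F₁) := by ring
  have h2 : g F₁ < M := by
    rw [h1]
    refine (hg _ _).trans_lt (max_lt (not_le.1 hcon) ?_)
    rw [AbsoluteValue.map_neg]
    exact hE
  exact absurd hF₁M (not_le.2 h2)

end Pool.Agent.DaeB
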