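import Pool.Agent.DaeB.Near
import Pool.Agent.DaeB.AttGauss

/-! # DaeB: a nearest algebraic element gives an attained infimum (package DB24) -/

set_option autoImplicit false

namespace Pool.Agent.DaeB

open Polynomial

section NotAttAux

variable {Ω : Type*} [Field Ω] {w : AbsoluteValue Ω ℝ}

/-- `∏ (X - a)` -/
private noncomputable def mp (m : Multiset Ω) : Polynomial Ω := (m.map fun a => X - C a).prod

private lemma mp_zero : mp (0 : Multiset Ω) = 1 := by simp [mp]

private lemma mp_cons (a : Ω) (m : Multiset Ω) : mp (a ::ₘ m) = (X - C a) * mp m := by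
  simp [mp]

private lemma mp_add (m m' : Multiset Ω) : mp (m + m') = mp m * mp m' := by
  simp [mp]

private lemma eval_der_cons (a x : Ω) (m : Multiset Ω) :
    (derivative (mp (a ::ₘ m))).eval x
      = (mp m).eval x + (x - a) * (derivative (mp m)).eval x := by
  rw [mp_cons, derivative_mul]
  simp

private lemma eval_cons (a x : Ω) (m : Multiset Ω) :
    (mp (a ::ₘ m)).eval x = (x - a) * (mp m).eval x := by
  rw [mp_cons]
  simp

private lemma der_le (hw : IsNonarchimedean w) (x : Ω) (s : ℝ) (m : Multiset Ω)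
    (hs : 0 < s) (h : ∀ a ∈ m, s ≤ w (x - a)) :
    s * w ((derivative (mp m)).eval x) ≤ w ((mp m).eval x) := by
  induction m using Multiset.induction_on with
  | empty => simp [mp_zero]
  | cons a m ih =>
    have ih' := ih fun b hb => h b (Multiset.mem_cons_of_mem hb)
    have ha := h a (Multiset.mem_cons_self a m)
    rw [eval_der_cons, eval_cons, w.map_mul]
    have h1 := hw ((mp m).eval x) ((x - a) * (derivative (mp m)).eval x)
    refine (mul_le_mul_of_nonneg_left h1 hs.le).trans ?_
    rw [mul_max_of_nonneg _ _ hs.le, w.map_mul]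
    refine max_le (mul_le_mul_of_nonneg_right ha (w.nonneg _)) ?_
    calc s * (w (x - a) * w ((derivative (mp m)).eval x))
        = w (x - a) * (s * w ((derivative (mp m)).eval x)) := by ring
      _ ≤ w (x - a) * w ((mp m).eval x) := mul_le_mul_of_nonneg_left ih' (w.nonneg _)

private lemma der_lt (hw : IsNonarchimedean w) (x : Ω) (s : ℝ) (m : Multiset Ω)
    (hs : 0 < s) (h : ∀ a ∈ m, s < w (x - a)) :
    s * w ((derivative (mp m)).eval x) < w ((mp m).eval x) := by
  induction m using Multiset.induction_on with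
  | empty => simp [mp_zero]
  | cons a m ih =>
    have ih' := ih fun b hb => h b (Multiset.mem_cons_of_mem hb)
    have ha := h a (Multiset.mem_cons_self a m)
    have hpos : 0 < w ((mp m).eval x) := lt_of_le_of_lt (mul_nonneg hs.le (w.nonneg _)) ih'
    rw [eval_der_cons, eval_cons, w.map_mul]
    have h1 := hw ((mp m).eval x) ((x - a) * (derivative (mp m)).eval x)
    refine (mul_le_mul_of_nonneg_left h1 hs.le).trans_lt ?_
    rw [mul_max_of_nonneg _ _ hs.le, w.map_mul]
    refine max_lt (mul_lt_mul_of_pos_right ha hpos) ?_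
    calc s * (w (x - a) * w ((derivative (mp m)).eval x))
        = w (x - a) * (s * w ((derivative (mp m)).eval x)) := by ring
      _ < w (x - a) * w ((mp m).eval x) := mul_lt_mul_of_pos_left ih' (hs.trans ha)

private lemma eval_eq (x : Ω) (s : ℝ) (m : Multiset Ω) (h : ∀ a ∈ m, w (x - a) = s) :
    w ((mp m).eval x) = s ^ Multiset.card m := by
  induction m using Multiset.induction_on with
  | empty => simp [mp_zero]
  | cons a m ih =>
    rw [eval_cons, w.map_mul, ih fun b hb => h b (Multiset.mem_cons_of_mem hb),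
      h a (Multiset.mem_cons_self a m), Multiset.card_cons, pow_succ, mul_comm]

private lemma mp_monic (m : Multiset Ω) : (mp m).Monic :=
  monic_multiset_prod_of_monic _ _ fun a _ => monic_X_sub_C a

private lemma mp_natDegree (m : Multiset Ω) : (mp m).natDegree = Multiset.card m := by
  rw [mp, natDegree_multiset_prod_X_sub_C_eq_card]

/-- the shifted product has coefficients in `N` -/
private lemma mp_lift (N : Subfield Ω) (m : Multiset Ω) (h : ∀ a ∈ m, a ∈ N) :
    ∃ q : N[X], q.map N.subtype = mp m := by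
  induction m using Multiset.induction_on with
  | empty => exact ⟨1, by simp [mp_zero]⟩
  | cons a m ih =>
    obtain ⟨q, hq⟩ := ih fun b hb => h b (Multiset.mem_cons_of_mem hb)
    refine ⟨(X - C ⟨a, h a (Multiset.mem_cons_self a m)⟩) * q, ?_⟩
    rw [mp_cons, Polynomial.map_mul, hq]
    simp

private lemma der_eval_shift (α z : Ω) (m : Multiset Ω) :
    (derivative (mp (m.map fun a => a - α))).eval z = (derivative (mp m)).eval (z + α) := by
  have h1 : mp (m.map fun a => a - α) = (mp m).comp (X + C α) := by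
    induction m using Multiset.induction_on with
    | empty => simp [mp_zero]
    | cons a m ih =>
      rw [Multiset.map_cons, mp_cons, mp_cons, mul_comp, ih]
      congr 1
      simp only [sub_comp, X_comp, C_comp, map_sub]
      ring
  rw [h1, derivative_comp]
  simp

end NotAttAux

/-- Let `x = ψ X`, `N` the relative algebraic closure of `ψ (C B)` (so `x ∉ N`), `α ∈ N` such that
`x - α` is not approximated by `N`; put `s = w (x - α) > 0`.  Then `w (x - γ) ≥ s` for all `γ ∈ N`.
(1) For `P` with `P' ≠ 0`: `P = l ∏ (X - α_j)`, `α_j ∈ N`, `ψ P' / ψ P = ∑ 1 / (x - α_j)`, hence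
`W P' / W P ≤ 1 / s`; so `Rtop W ≥ s`.
(2) For `U ∈ B[X]` nonzero with `U (α) = 0`, separable (a multiple of the minimal polynomial over the
fraction field) and roots `α_j`: let `J = {j | w (x - α_j) = s}` (with multiplicities, nonempty since
`α` is a root), `z = x - α`, `δ_j = α_j - α`, `Q = ∏_{j ∈ J} (X - δ_j)`, `m = |J|`.  All `w δ_j ≤ s`, so
`gaussNorm Q' s = s^(m-1)` (leading coefficient `m`, `w m = 1`) and by `root_lemma` (`z` is not
approximated by `N`) `w (Q'(z)) = s^(m-1)`, `w (Q z) = s^m`.  So the sum over `J` of `1 / (x - α_j)`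
has value exactly `1 / s`, the other terms are smaller: `W U' / W U = 1 / s`. -/
theorem att_of_not_near {B : Type} [CommRing B] [IsDomain B] (W : AbsoluteValue B[X] ℝ)
    (hW : IsNonarchimedean W) (h0 : ResZero W) {Ω : Type} [Field Ω] [IsAlgClosed Ω]
    (w : AbsoluteValue Ω ℝ) (hw : IsNonarchimedean w) (ψ : B[X] →+* Ω)
    (hψ : ∀ P, w (ψ P) = W P) (N : Subfield Ω)
    (hN : ∀ z, z ∈ N ↔ ∃ p : B[X], p.map (ψ.comp C) ≠ 0 ∧ p.eval₂ (ψ.comp C) z = 0)
    (hNR : RAC N) (α : Ω) (hα : α ∈ N) (h : ¬ Near w N (ψ X - α)) : AttTop W := by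
  classical
  -- evaluation at `ψ X`
  have hev : ∀ P : B[X], (P.map (ψ.comp C)).eval (ψ X) = ψ P := by
    intro P
    rw [eval_map]
    have h1 := Polynomial.hom_eval₂ P (C : B →+* B[X]) ψ X
    rw [eval₂_C_X] at h1
    exact h1.symm
  have hevd : ∀ P : B[X], (derivative (P.map (ψ.comp C))).eval (ψ X) = ψ (derivative P) := by
    intro P
    rw [derivative_map, hev]
  have hψ0 : ∀ P : B[X], ψ P = 0 → P = 0 := by
    intro P hP
    have h1 := hψ P
    rw [hP, w.map_zero] at h1
    exact W.eq_zero.1 h1.symm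
  have hmap0 : ∀ P : B[X], P ≠ 0 → P.map (ψ.comp C) ≠ 0 := by
    intro P hP h1
    have h2 := hev P
    rw [h1, eval_zero] at h2
    exact hP (hψ0 P h2.symm)
  have hxN : ψ X ∉ N := by
    intro hx
    obtain ⟨p, hp, hp0⟩ := (hN _).1 hx
    rw [← eval_map, hev] at hp0
    exact hp (by rw [hψ0 p hp0, Polynomial.map_zero])
  set x : Ω := ψ X with hx
  set z : Ω := x - α with hz
  have hz0 : z ≠ 0 := by
    intro h1
    exact hxN (by rw [sub_eq_zero.1 h1]; exact hα)
  have hs : 0 < w z := w.pos hz0
  have hge : ∀ γ ∈ N, w z ≤ w (x - γ) := by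
    intro γ hγ
    by_contra hlt
    push Not at hlt
    refine h ⟨γ - α, N.sub_mem hγ hα, ?_⟩
    have e : x - α - (γ - α) = x - γ := by ring
    rw [e]
    exact hlt
  -- factorisation
  have hfac : ∀ P : B[X], P ≠ 0 → ∃ m : Multiset Ω, (∀ a ∈ m, a ∈ N) ∧
      (∀ a, P.eval₂ (ψ.comp C) a = 0 → a ∈ m) ∧
      P.map (ψ.comp C) = C (P.map (ψ.comp C)).leadingCoeff * mp m := by
    intro P hP
    refine ⟨(P.map (ψ.comp C)).roots, ?_, ?_, ?_⟩
    · intro a ha
      refine (hN a).2 ⟨P, hmap0 P hP, ?_⟩
      rw [← eval_map]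
      exact (mem_roots'.1 ha).2
    · intro a ha
      rw [mem_roots (hmap0 P hP), IsRoot, eval_map]
      exact ha
    · exact (IsAlgClosed.splits (P.map (ψ.comp C))).eq_prod_roots
  have hval : ∀ (P : B[X]) (m : Multiset Ω),
      P.map (ψ.comp C) = C (P.map (ψ.comp C)).leadingCoeff * mp m →
      W P = w (P.map (ψ.comp C)).leadingCoeff * w ((mp m).eval x) := by
    intro P m hm
    have h1 := hev P
    rw [hm, eval_mul, eval_C] at h1
    rw [← hψ, ← h1, w.map_mul]
  have hvald : ∀ (P : B[X]) (m : Multiset Ω),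
      P.map (ψ.comp C) = C (P.map (ψ.comp C)).leadingCoeff * mp m →
      W (derivative P) = w (P.map (ψ.comp C)).leadingCoeff * w ((derivative (mp m)).eval x) := by
    intro P m hm
    have h1 := hevd P
    rw [hm, derivative_C_mul, eval_mul, eval_C] at h1
    rw [← hψ, ← h1, w.map_mul]
  -- (1)
  have hlow : ∀ P : B[X], derivative P ≠ 0 → w z * W (derivative P) ≤ W P := by
    intro P hP
    have hP0 : P ≠ 0 := by
      rintro rfl
      exact hP derivative_zero
    obtain ⟨m, hmN, -, hm⟩ := hfac P hP0
    rw [hval P m hm, hvald P m hm, mul_left_comm]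
    exact mul_le_mul_of_nonneg_left
      (der_le hw x (w z) m hs fun a ha => hge a (hmN a ha)) (w.nonneg _)
  -- (2)
  obtain ⟨U, hU0, hUα⟩ := (hN α).1 hα
  have hU : U ≠ 0 := by
    rintro rfl
    exact hU0 (Polynomial.map_zero _)
  obtain ⟨m, hmN, hmr, hm⟩ := hfac U hU
  have hαm : α ∈ m := hmr α hUα
  set J := m.filter (fun a => w (x - a) = w z) with hJ
  set K := m.filter (fun a => ¬ w (x - a) = w z) with hK
  have hJK : m = J + K := (Multiset.filter_add_not _ m).symm
  have hJN : ∀ a ∈ J, a ∈ N := fun a ha => hmN a (Multiset.mem_of_mem_filter ha)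
  have hJs : ∀ a ∈ J, w (x - a) = w z := fun a ha => (Multiset.mem_filter.1 ha).2
  have hKs : ∀ a ∈ K, w z < w (x - a) := by
    intro a ha
    obtain ⟨h1, h2⟩ := Multiset.mem_filter.1 ha
    exact lt_of_le_of_ne (hge a (hmN a h1)) (Ne.symm h2)
  have hJcard : Multiset.card J ≠ 0 := by
    have : α ∈ J := Multiset.mem_filter.2 ⟨hαm, rfl⟩
    intro h1
    rw [Multiset.card_eq_zero] at h1
    rw [h1] at this
    exact absurd this (Multiset.notMem_zero α)
  obtain ⟨t, ht⟩ := Nat.exists_eq_succ_of_ne_zero hJcard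
  have hQ : w z ^ t ≤ w ((derivative (mp J)).eval x) := by
    have hxz : x = z + α := by rw [hz]; ring
    rw [hxz, ← der_eval_shift]
    by_contra hlt
    push Not at hlt
    obtain ⟨q, hq⟩ := mp_lift N (J.map fun a => a - α) (by
      intro b hb
      obtain ⟨a, ha, rfl⟩ := Multiset.mem_map.1 hb
      exact N.sub_mem (hJN a ha) hα)
    have hco : w ((derivative (mp (J.map fun a => a - α))).coeff t) = 1 := by
      rw [coeff_derivative]
      have h1 : (mp (J.map fun a => a - α)).coeff (t + 1) = 1 := by
        have h2 := mp_monic (J.map fun a => a - α)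
        rw [Monic, leadingCoeff, mp_natDegree, Multiset.card_map, ht] at h2
        exact h2
      rw [h1, one_mul]
      have h3 : ((t : Ω) + 1) = ψ ((t + 1 : ℕ) : B[X]) := by
        rw [map_natCast]
        push_cast
        rfl
      rw [h3, hψ]
      exact h0 (t + 1) (Nat.succ_ne_zero t)
    refine h (root_lemma hw hNR (derivative (mp (J.map fun a => a - α))) ?_ ?_ z hz0 ?_)
    · intro h1
      rw [h1, coeff_zero, w.map_zero] at hco
      exact zero_ne_one hco
    · intro k
      rw [← hq, derivative_map, coeff_map]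
      exact ((derivative q).coeff k).2
    · refine hlt.trans_le ?_
      have h4 := le_gaussNorm w (derivative (mp (J.map fun a => a - α))) hs.le t
      rwa [hco, one_mul] at h4
  have hQ1 : w ((mp J).eval x) = w z ^ (t + 1) := by
    rw [eval_eq x (w z) J hJs, ht]
  have hR := der_lt hw x (w z) K hs hKs
  have hRpos : 0 < w ((mp K).eval x) := lt_of_le_of_lt (mul_nonneg hs.le (w.nonneg _)) hR
  have hmJK : mp m = mp J * mp K := by
    rw [← mp_add, ← hJK]
  have hder : (derivative (mp m)).eval x = (derivative (mp J)).eval x * (mp K).eval x +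
      (mp J).eval x * (derivative (mp K)).eval x := by
    rw [hmJK, derivative_mul, eval_add, eval_mul, eval_mul]
  have hsmall : w ((mp J).eval x * (derivative (mp K)).eval x) <
      w ((derivative (mp J)).eval x * (mp K).eval x) := by
    rw [w.map_mul, w.map_mul, hQ1]
    calc w z ^ (t + 1) * w ((derivative (mp K)).eval x)
        = w z ^ t * (w z * w ((derivative (mp K)).eval x)) := by ring
      _ < w z ^ t * w ((mp K).eval x) := mul_lt_mul_of_pos_left hR (pow_pos hs t)
      _ ≤ w ((derivative (mp J)).eval x) * w ((mp K).eval x) :=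
        mul_le_mul_of_nonneg_right hQ hRpos.le
  have hbig : w ((derivative (mp J)).eval x) * w ((mp K).eval x) ≤
      w ((derivative (mp m)).eval x) := by
    rw [← w.map_mul]
    by_contra hlt
    push Not at hlt
    have e : (derivative (mp J)).eval x * (mp K).eval x = (derivative (mp m)).eval x +
        -((mp J).eval x * (derivative (mp K)).eval x) := by
      rw [hder]; ring
    have h5 := hw ((derivative (mp m)).eval x) (-((mp J).eval x * (derivative (mp K)).eval x))
    rw [← e, w.map_neg] at h5
    exact absurd h5 (not_le.2 (max_lt hlt hsmall))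
  have hup : W U ≤ w z * W (derivative U) := by
    rw [hval U m hm, hvald U m hm, mul_left_comm (w z)]
    refine mul_le_mul_of_nonneg_left ?_ (w.nonneg _)
    rw [hmJK, eval_mul, w.map_mul, hQ1, ← hmJK]
    calc w z ^ (t + 1) * w ((mp K).eval x) = w z * (w z ^ t * w ((mp K).eval x)) := by ring
      _ ≤ w z * (w ((derivative (mp J)).eval x) * w ((mp K).eval x)) :=
        mul_le_mul_of_nonneg_left (mul_le_mul_of_nonneg_right hQ hRpos.le) hs.le
      _ ≤ w z * w ((derivative (mp m)).eval x) := mul_le_mul_of_nonneg_left hbig hs.le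
  have hU' : derivative U ≠ 0 := by
    intro h1
    rw [h1, W.map_zero, mul_zero] at hup
    exact absurd hup (not_le.2 (W.pos hU))
  have hUeq : W U = w z * W (derivative U) := le_antisymm hup (hlow U hU')
  have hRt : Rtop W = w z := by
    have hl : IsLeast {r | ∃ P : B[X], derivative P ≠ 0 ∧ r = W P / W (derivative P)} (w z) := by
      refine ⟨⟨U, hU', ?_⟩, ?_⟩
      · rw [hUeq, mul_div_assoc, div_self (W.pos hU').ne', mul_one]
      · rintro r ⟨P, hP, rfl⟩
        rw [le_div_iff₀ (W.pos hP)]
        exact hlow P hP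
    exact hl.csInf_eq
  exact ⟨U, hU', by rw [hRt]; exact hUeq⟩

end Pool.Agent.DaeB
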