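import Pool.Agent.DaeB.NearTower

/-! # DaeB: homogeneous relations (package DB26) -/

set_option autoImplicit false

namespace Pool.Agent.DaeB

open Polynomial

/-- powers of close elements are close -/
private theorem rel_pow_sub {Ω : Type*} [Field Ω] {w : Ω → ℝ} (hw : DAE.NAbs w) {x γ : Ω}
    (hx : x ≠ 0) (h : w (x - γ) < w x) (k : ℕ) : w (x ^ k - γ ^ k) < w x ^ k := by
  have hγ : w γ = w x := by
    have h1 := hw.sub_eq_left h
    rwa [sub_sub_cancel] at h1
  have hpos := hw.pos hx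
  induction k with
  | zero =>
    rw [pow_zero, pow_zero, sub_self, hw.zero, pow_zero]
    exact one_pos
  | succ k ih =>
    have e : x ^ (k + 1) - γ ^ (k + 1) = x * (x ^ k - γ ^ k) + (x - γ) * γ ^ k := by ring
    rw [e]
    refine (hw.add _ _).trans_lt (max_lt ?_ ?_)
    · rw [hw.mul, pow_succ']
      exact mul_lt_mul_of_pos_left ih hpos
    · rw [hw.mul, hw.pow, hγ, pow_succ']
      exact mul_lt_mul_of_pos_right h (pow_pos hpos k)

/-- Take `(Ω, w, ψ)` from `exists_algClosed_hom`, `f = ψ ∘ aeval y` (injective by `hM`), `M` from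
`exists_relCl f`.  By `near_tower` some `γ ∈ M` has `w (ψ F - γ) < w (ψ F)`, and
`∑ f (p_k) γ ^ k = 0` for some `p ≠ 0`.  Put `β' = max_k w (f p_k) (W F)^k`; then
`w (∑ f (p_k) (ψ F)^k) < β'` because `w ((ψ F)^k - γ^k) < (W F)^k`.  Delete the terms of value
`< β'` and divide by the largest possible
power of `X`.  At least two terms remain. -/
theorem rel_exists (n : ℕ) (W : AbsoluteValue (A n) ℝ) (hW : IsNonarchimedean W)
    (hT : TrivC W) (hR : ∀ i, 0 < Rinf n W i)
    (hM : Mono W (fun i : {i // Att n W i} => ymin n W i) (fun i => W (ymin n W i)))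
    (F : A n) (hF : F ≠ 0) :
    ∃ (a : Polynomial (MvPolynomial {i // Att n W i} ℂ)) (β : ℝ), 0 < β ∧ a.coeff 0 ≠ 0 ∧
      0 < a.natDegree ∧
      (∀ k, a.coeff k ≠ 0 →
        W (MvPolynomial.aeval (fun i : {i // Att n W i} => ymin n W i) (a.coeff k)) * W F ^ k = β) ∧
      W (relv (fun i : {i // Att n W i} => ymin n W i) a F) < β := by
  classical
  obtain ⟨Ω, iF, iA, ψ, w, hw, hψ⟩ := exists_algClosed_hom W hW hT.resZero
  set y : {i // Att n W i} → A n := fun i => ymin n W i with hy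
  set f : MvPolynomial {i // Att n W i} ℂ →+* Ω :=
    ψ.comp (MvPolynomial.aeval y : MvPolynomial {i // Att n W i} ℂ →ₐ[ℂ] A n).toRingHom with hf
  have hfa : ∀ G, f G = ψ (MvPolynomial.aeval y G) := fun G => rfl
  have hw0 : ResZero w := by
    intro m hm
    have h1 := hψ (m : A n)
    rw [map_natCast] at h1
    rw [h1]
    exact hT.resZero m hm
  have hN := nabs w hw hw0
  have hNW := nabs W hW hT.resZero
  -- the closure
  obtain ⟨M, hMR, hMm⟩ := exists_relCl f
  have himg : ∀ G, f G ∈ M := by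
    intro G
    rw [hMm]
    refine ⟨X - C G, ?_, ?_⟩
    · rw [Polynomial.map_sub, Polynomial.map_X, Polynomial.map_C]
      exact X_sub_C_ne_zero _
    · rw [eval₂_sub, eval₂_X, eval₂_C, sub_self]
  have hC : ∀ z : ℂ, ψ (MvPolynomial.C z) ∈ M := by
    intro z
    have h1 := himg (MvPolynomial.C z)
    rw [hfa, MvPolynomial.aeval_C] at h1
    exact h1
  have hyM : ∀ i, Att n W i → ψ (ymin n W i) ∈ M := by
    intro i hi
    have h1 := himg (MvPolynomial.X ⟨i, hi⟩)
    rw [hfa, MvPolynomial.aeval_X] at h1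
    exact h1
  obtain ⟨γ, hγM, hγ⟩ := near_tower n W hW hT hR w hw ψ hψ M hMR hC hyM F hF
  obtain ⟨p, hp0, hp⟩ := (hMm γ).1 hγM
  have hpne : p ≠ 0 := by
    rintro rfl
    exact hp0 (Polynomial.map_zero f)
  set x : Ω := ψ F with hx
  have hxW : w x = W F := hψ F
  have hWF : 0 < W F := W.pos hF
  have hx0 : x ≠ 0 := by
    intro h0
    rw [h0, map_zero] at hxW
    exact hWF.ne hxW
  have hinj : ∀ G : MvPolynomial {i // Att n W i} ℂ, G ≠ 0 → 0 < W (MvPolynomial.aeval y G) := by
    intro G hG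
    obtain ⟨α, hα⟩ := MvPolynomial.support_nonempty.2 hG
    refine lt_of_lt_of_le ?_ (hM.le G α hα)
    exact Finset.prod_pos fun i _ => pow_pos (hM.pos i) _
  -- the largest terms
  set c : ℕ → ℝ := fun k => W (MvPolynomial.aeval y (p.coeff k)) * W F ^ k with hc
  have hcw : ∀ k, w (f (p.coeff k)) * w x ^ k = c k := by
    intro k
    rw [hfa, hψ, hxW]
  obtain ⟨k1, hk1, hmax⟩ := Finset.exists_max_image p.support c (support_nonempty.2 hpne)
  set β' : ℝ := c k1 with hβ'
  have hβ'0 : 0 < β' := mul_pos (hinj _ (mem_support_iff.1 hk1)) (pow_pos hWF _)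
  set S : Finset ℕ := p.support.filter fun k => c k = β' with hS
  have hSne : S.Nonempty := ⟨k1, Finset.mem_filter.2 ⟨hk1, rfl⟩⟩
  set k0 : ℕ := S.min' hSne with hk0
  have hk0S : k0 ∈ S := S.min'_mem hSne
  have hle : ∀ k ∈ S, k0 ≤ k := fun k hk => S.min'_le k hk
  set a : Polynomial (MvPolynomial {i // Att n W i} ℂ) :=
    ∑ k ∈ S, monomial (k - k0) (p.coeff k) with ha
  have hcoeff : ∀ j, a.coeff j = if j + k0 ∈ S then p.coeff (j + k0) else 0 := by
    intro j
    rw [ha, finsetSum_coeff]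
    have h1 : ∀ k ∈ S, (monomial (k - k0) (p.coeff k)).coeff j =
        if k = j + k0 then p.coeff k else 0 := by
      intro k hk
      rw [coeff_monomial]
      have h2 := hle k hk
      by_cases h3 : k = j + k0
      · rw [if_pos h3, if_pos (by omega)]
      · rw [if_neg h3, if_neg (by omega)]
    rw [Finset.sum_congr rfl h1, Finset.sum_ite_eq']
  -- the value at `F`
  have hsumS : W (∑ k ∈ S, MvPolynomial.aeval y (p.coeff k) * F ^ k) < β' := by
    rw [← hψ, map_sum]
    have h1 : ∀ k ∈ S, ψ (MvPolynomial.aeval y (p.coeff k) * F ^ k) =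
        f (p.coeff k) * x ^ k := by
      intro k _
      rw [map_mul, map_pow, hfa]
    rw [Finset.sum_congr rfl h1]
    have h2 : ∑ k ∈ p.support, f (p.coeff k) * γ ^ k = 0 := by
      rw [← hp, eval₂_eq_sum]
      rfl
    have h3 : ∑ k ∈ S, f (p.coeff k) * x ^ k =
        ∑ k ∈ p.support, f (p.coeff k) * (x ^ k - γ ^ k) -
          ∑ k ∈ p.support.filter (fun k => ¬ c k = β'), f (p.coeff k) * x ^ k := by
      simp only [mul_sub]
      rw [Finset.sum_sub_distrib, h2, sub_zero,
        ← Finset.sum_filter_add_sum_filter_not p.support (fun k => c k = β')]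
      ring
    rw [h3]
    refine (hN.sub _ _).trans_lt (max_lt ?_ ?_)
    · refine hN.sum_lt hβ'0 fun k hk => ?_
      rw [hN.mul]
      refine lt_of_lt_of_le ?_ (hmax k hk)
      rw [← hcw k]
      refine mul_lt_mul_of_pos_left (rel_pow_sub hN hx0 hγ k) ?_
      rw [hfa, hψ]
      exact hinj _ (mem_support_iff.1 hk)
    · refine hN.sum_lt hβ'0 fun k hk => ?_
      rw [hN.mul, hN.pow, hcw k]
      exact lt_of_le_of_ne (hmax k (Finset.mem_filter.1 hk).1) (Finset.mem_filter.1 hk).2
  have hrelv : F ^ k0 * relv y a F = ∑ k ∈ S, MvPolynomial.aeval y (p.coeff k) * F ^ k := by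
    rw [relv, ha, eval₂_finsetSum, Finset.mul_sum]
    refine Finset.sum_congr rfl fun k hk => ?_
    rw [eval₂_monomial]
    have h1 := hle k hk
    have h2 : F ^ k = F ^ k0 * F ^ (k - k0) := by
      rw [← pow_add]
      congr 1
      omega
    rw [h2]
    change F ^ k0 * (MvPolynomial.aeval y (p.coeff k) * F ^ (k - k0)) = _
    ring
  have hr0 : 0 < W F ^ k0 := pow_pos hWF _
  have hlt : W (relv y a F) < β' / W F ^ k0 := by
    rw [lt_div_iff₀ hr0, mul_comm, ← map_pow, ← map_mul, hrelv]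
    exact hsumS
  have hval : ∀ k, a.coeff k ≠ 0 →
      W (MvPolynomial.aeval y (a.coeff k)) * W F ^ k = β' / W F ^ k0 := by
    intro k hk
    rw [hcoeff] at hk ⊢
    by_cases h1 : k + k0 ∈ S
    · rw [if_pos h1]
      have h2 := (Finset.mem_filter.1 h1).2
      rw [eq_div_iff hr0.ne', ← h2, hc]
      ring
    · rw [if_neg h1] at hk
      exact absurd rfl hk
  have ha0 : a.coeff 0 ≠ 0 := by
    rw [hcoeff, zero_add, if_pos hk0S]
    exact mem_support_iff.1 (Finset.mem_filter.1 hk0S).1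
  refine ⟨a, β' / W F ^ k0, div_pos hβ'0 hr0, ha0, ?_, hval, hlt⟩
  by_contra hdeg
  have hdeg0 : a.natDegree = 0 := by omega
  have h1 := hval 0 ha0
  rw [pow_zero, mul_one] at h1
  rw [eq_C_of_natDegree_eq_zero hdeg0, relv, eval₂_C] at hlt
  change W (MvPolynomial.aeval y (a.coeff 0)) < _ at hlt
  rw [h1] at hlt
  exact lt_irrefl _ hlt

end Pool.Agent.DaeB
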