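import Pool.Agent.DaeB.Defs

/-!
# MP_dae5d3_ag, half (B), step 8: a relation by counting monomials (DB31)
-/

set_option autoImplicit false

namespace Pool.Agent.DaeB

open MvPolynomial

/-- the bound of the count -/
def sk (d D : ℕ) : ℕ := (1 + d * D) ^ d

section Siegel

variable {d : ℕ}

/-- the exponent attached to a bounded function -/
private noncomputable def sexp {m : ℕ} (a : Fin d → Fin m) : Fin d →₀ ℕ :=
  Finsupp.equivFunOnFinite.symm fun i => (a i : ℕ)

private lemma sexp_apply {m : ℕ} (a : Fin d → Fin m) (i : Fin d) : sexp a i = (a i : ℕ) := rfl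

private lemma sexp_injective {m : ℕ} : Function.Injective (sexp (d := d) (m := m)) := by
  intro a b h
  funext i
  exact Fin.ext (DFunLike.congr_fun h i)

/-- the coefficient polynomials -/
private noncomputable def scf {K m : ℕ} (f : Fin K × (Fin d → Fin m) → ℂ) (k : Fin K) : A d :=
  ∑ a : Fin d → Fin m, monomial (sexp a) (f (k, a))

private lemma coeff_scf {K m : ℕ} (f : Fin K × (Fin d → Fin m) → ℂ) (k : Fin K)
    (a : Fin d → Fin m) : coeff (sexp a) (scf f k) = f (k, a) := by
  classical
  rw [scf, coeff_sum, Finset.sum_eq_single a]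
  · rw [coeff_monomial, if_pos rfl]
  · intro b _ hb
    rw [coeff_monomial, if_neg fun h => hb (sexp_injective h)]
  · intro h
    exact absurd (Finset.mem_univ a) h

private lemma degreeOf_scf {K m : ℕ} (f : Fin K × (Fin d → Fin (m + 1)) → ℂ) (k : Fin K)
    (i : Fin d) : degreeOf i (scf f k) ≤ m := by
  classical
  rw [scf]
  refine (degreeOf_sum_le i _ _).trans (Finset.sup_le fun a _ => ?_)
  by_cases h0 : f (k, a) = 0
  · rw [h0, map_zero, degreeOf_zero]
    exact Nat.zero_le _
  · rw [degreeOf_monomial_eq _ _ h0, sexp_apply]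
    exact Nat.lt_succ_iff.1 (a i).2

/-- the relation polynomial -/
private noncomputable def spol {K m : ℕ} (f : Fin K × (Fin d → Fin m) → ℂ) :
    Polynomial (A d) :=
  ∑ k : Fin K, Polynomial.monomial (k : ℕ) (scf f k)

private lemma coeff_spol {K m : ℕ} (f : Fin K × (Fin d → Fin m) → ℂ) (k : Fin K) :
    (spol f).coeff (k : ℕ) = scf f k := by
  classical
  rw [spol, Polynomial.finset_sum_coeff, Finset.sum_eq_single k]
  · rw [Polynomial.coeff_monomial, if_pos rfl]
  · intro b _ hb
    rw [Polynomial.coeff_monomial, if_neg fun h => hb (Fin.ext h)]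
  · intro h
    exact absurd (Finset.mem_univ k) h

private lemma coeff_spol_eq_zero {K m : ℕ} (f : Fin K × (Fin d → Fin m) → ℂ) {k : ℕ}
    (hk : K ≤ k) : (spol f).coeff k = 0 := by
  classical
  rw [spol, Polynomial.finset_sum_coeff]
  refine Finset.sum_eq_zero fun b _ => ?_
  rw [Polynomial.coeff_monomial, if_neg]
  have := b.2
  omega

private lemma relv_spol {K m : ℕ} (f : Fin K × (Fin d → Fin m) → ℂ) (U : Fin d → A d)
    (P : A d) : relv U (spol f) P = ∑ k : Fin K, aeval U (scf f k) * P ^ (k : ℕ) := by
  rw [relv, spol, Polynomial.eval₂_finset_sum]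
  refine Finset.sum_congr rfl fun k _ => ?_
  rw [Polynomial.eval₂_monomial]
  rfl

private lemma totalDegree_relv_le {K m D : ℕ} (f : Fin K × (Fin d → Fin (m + 1)) → ℂ)
    (U : Fin d → A d) (hU : ∀ i, (U i).totalDegree ≤ D) (P : A d) :
    (relv U (spol f) P).totalDegree ≤ d * m * D + (K - 1) * P.totalDegree := by
  classical
  rw [relv_spol]
  refine totalDegree_finsetSum_le fun k _ => ?_
  refine (totalDegree_mul _ _).trans (Nat.add_le_add ?_ ?_)
  · rw [scf, map_sum]
    refine totalDegree_finsetSum_le fun a _ => ?_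
    rw [aeval_monomial, ← C_eq_algebraMap]
    refine (totalDegree_mul _ _).trans ?_
    rw [totalDegree_C, zero_add, Finsupp.prod]
    refine (totalDegree_finset_prod _ _).trans ?_
    calc ∑ i ∈ (sexp a).support, (U i ^ (sexp a i)).totalDegree
        ≤ ∑ i ∈ (sexp a).support, m * D := by
          refine Finset.sum_le_sum fun i _ => ?_
          refine (totalDegree_pow _ _).trans ?_
          rw [sexp_apply]
          exact Nat.mul_le_mul (Nat.lt_succ_iff.1 (a i).2) (hU i)
      _ = (sexp a).support.card * (m * D) := by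
          rw [Finset.sum_const, smul_eq_mul]
      _ ≤ d * (m * D) := by
          refine Nat.mul_le_mul_right _ ?_
          have := Finset.card_le_univ (sexp a).support
          rwa [Fintype.card_fin] at this
      _ = d * m * D := by ring
  · refine (totalDegree_pow _ _).trans (Nat.mul_le_mul_right _ ?_)
    have := k.2
    omega

/-- **A relation of `P` over `ℂ[U]`** with explicit bounds (step 8 of note 1743): unknowns
`(k₀ + 1) (E + 1) ^ d`, `E = k₀ deg P`, equations at most `(E (1 + d D) + 1) ^ d ≤ (E + 1) ^ d k₀`. -/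
theorem exists_relation {D : ℕ} (U : Fin d → A d) (hU : ∀ i, (U i).totalDegree ≤ D) (P : A d) :
    ∃ G : Polynomial (A d), G ≠ 0 ∧ relv U G P = 0 ∧ G.natDegree ≤ sk d D ∧
      ∀ k i, degreeOf i (G.coeff k) ≤ sk d D * P.totalDegree := by
  classical
  set K : ℕ := sk d D with hK
  set E : ℕ := K * P.totalDegree with hE
  set T : ℕ := d * E * D + K * P.totalDegree with hT
  let I := Fin (K + 1) × (Fin d → Fin (E + 1))
  let J := Fin d → Fin (T + 1)
  let L : (I → ℂ) →ₗ[ℂ] (J → ℂ) :=
    { toFun := fun f b => coeff (sexp b) (relv U (spol f) P)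
      map_add' := fun f g => by
        funext b
        change coeff (sexp b) (relv U (spol (f + g)) P) =
          coeff (sexp b) (relv U (spol f) P) + coeff (sexp b) (relv U (spol g) P)
        have h1 : spol (f + g) = spol f + spol g := by
          rw [spol, spol, spol, ← Finset.sum_add_distrib]
          refine Finset.sum_congr rfl fun k _ => ?_
          rw [← map_add]
          congr 1
          rw [scf, scf, scf, ← Finset.sum_add_distrib]
          refine Finset.sum_congr rfl fun a _ => ?_
          rw [← map_add]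
          rfl
        rw [h1, relv, Polynomial.eval₂_add, coeff_add]
        rfl
      map_smul' := fun c f => by
        funext b
        change coeff (sexp b) (relv U (spol (c • f)) P) = c * coeff (sexp b) (relv U (spol f) P)
        have h1 : spol (c • f) = Polynomial.C (C c) * spol f := by
          rw [spol, spol, Finset.mul_sum]
          refine Finset.sum_congr rfl fun k _ => ?_
          rw [Polynomial.C_mul_monomial]
          congr 1
          rw [scf, scf, Finset.mul_sum]
          refine Finset.sum_congr rfl fun a _ => ?_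
          rw [C_mul_monomial]
          rfl
        rw [h1, relv, Polynomial.eval₂_mul, Polynomial.eval₂_C]
        have h2 : (aeval U : A d →ₐ[ℂ] A d).toRingHom (C c) = C c := by
          change aeval U (C c) = C c
          rw [aeval_C]
          rfl
        rw [h2, coeff_C_mul]
        rfl }
  have hcard : Module.finrank ℂ (J → ℂ) < Module.finrank ℂ (I → ℂ) := by
    rw [Module.finrank_fintype_fun_eq_card, Module.finrank_fintype_fun_eq_card]
    have h1 : Fintype.card J = (T + 1) ^ d := by simp [J]
    have h2 : Fintype.card I = (K + 1) * (E + 1) ^ d := by simp [I]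
    rw [h1, h2]
    have h3 : T + 1 ≤ (E + 1) * (1 + d * D) := by
      rw [hT, ← hE]
      nlinarith [Nat.zero_le (d * D), Nat.zero_le E]
    calc (T + 1) ^ d ≤ ((E + 1) * (1 + d * D)) ^ d := Nat.pow_le_pow_left h3 d
      _ = K * (E + 1) ^ d := by rw [mul_pow, hK, sk, mul_comm]
      _ < (K + 1) * (E + 1) ^ d :=
        Nat.mul_lt_mul_of_pos_right (Nat.lt_succ_self K) (pow_pos (Nat.succ_pos E) d)
  have hker := LinearMap.ker_ne_bot_of_finrank_lt hcard (f := L)
  obtain ⟨f, hf, hf0⟩ := (Submodule.ne_bot_iff _).1 hker
  refine ⟨spol f, ?_, ?_, ?_, ?_⟩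
  · intro h0
    apply hf0
    funext ⟨k, a⟩
    have h1 := coeff_spol f k
    rw [h0, Polynomial.coeff_zero] at h1
    have h2 := coeff_scf f k a
    rw [← h1, coeff_zero] at h2
    exact h2.symm
  · have hdeg := totalDegree_relv_le f U hU P
    rw [Nat.add_sub_cancel] at hdeg
    ext b
    rw [coeff_zero]
    by_cases hb : ∀ i, b i ≤ T
    · have h1 := congrFun (LinearMap.mem_ker.1 hf) fun i => ⟨b i, Nat.lt_succ_of_le (hb i)⟩
      have h2 : sexp (fun i => (⟨b i, Nat.lt_succ_of_le (hb i)⟩ : Fin (T + 1))) = b := by
        ext i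
        rw [sexp_apply]
      have h3 : coeff (sexp (fun i => (⟨b i, Nat.lt_succ_of_le (hb i)⟩ : Fin (T + 1))))
          (relv U (spol f) P) = 0 := h1
      rwa [h2] at h3
    · push Not at hb
      obtain ⟨i, hi⟩ := hb
      by_contra hne
      have h1 := le_totalDegree (mem_support_iff.2 hne)
      have h2 : b i ≤ b.sum fun _ e => e := by
        rw [Finsupp.sum]
        by_cases hbi : b i = 0
        · omega
        · exact Finset.single_le_sum (f := fun i => b i) (fun _ _ => Nat.zero_le _)
            (Finsupp.mem_support_iff.2 hbi)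
      omega
  · refine Polynomial.natDegree_le_iff_coeff_eq_zero.2 fun N hN => ?_
    exact coeff_spol_eq_zero f hN
  · intro k i
    by_cases hk : k < K + 1
    · have h1 := coeff_spol f (⟨k, hk⟩ : Fin (K + 1))
      have h2 : (spol f).coeff k = scf f ⟨k, hk⟩ := h1
      rw [h2]
      exact degreeOf_scf f _ i
    · rw [coeff_spol_eq_zero f (not_lt.1 hk), degreeOf_zero]
      exact Nat.zero_le _

end Siegel

end Pool.Agent.DaeB
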