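import Pool.Agent.DaeB.Ext

/-! # DaeB: the tame derivation lemma (from `DAE/X/Tame`) -/

set_option autoImplicit false

namespace Pool.Agent.DaeB

open Polynomial

/-- **the tame derivation lemma** -/
theorem tame {k K : Type} [Field k] [Field K] [Algebra k K] [Algebra.IsAlgebraic k K]
    (v : AbsoluteValue K ℝ) (hv : IsNonarchimedean v) (h0 : ResZero v)
    (D : Derivation ℤ K K) (r : ℝ)
    (hD : ∀ x : k, ∃ y : k, D (algebraMap k K x) = algebraMap k K y)
    (hr : ∀ x : k, v (D (algebraMap k K x)) ≤ r * v (algebraMap k K x)) (x : K) :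
    v (D x) ≤ r * v x := by
  choose f hf using hD
  have hinj : Function.Injective (algebraMap k K) := (algebraMap k K).injective
  let DF : Derivation ℤ k k :=
    { toFun := f
      map_add' := fun a b => hinj (by rw [← hf, map_add, map_add, map_add, hf, hf])
      map_smul' := fun n a => hinj (by
        rw [← hf, RingHom.id_apply, map_zsmul, map_zsmul, map_zsmul, hf])
      map_one_eq_zero' := hinj (by rw [LinearMap.coe_mk, AddHom.coe_mk, ← hf, map_one, map_zero,
        Derivation.map_one_eq_zero])
      leibniz' := fun a b => hinj (by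
        rw [LinearMap.coe_mk, AddHom.coe_mk, ← hf, map_mul, Derivation.leibniz, hf, hf, smul_eq_mul,
          smul_eq_mul, smul_eq_mul, smul_eq_mul, map_add, map_mul, map_mul]) }
  refine DAE.tame (F := k) (nabs v hv h0) D DF hf (c := r) (fun a => ?_) x
  change v (algebraMap k K (f a)) ≤ _
  rw [← hf]
  exact hr a

end Pool.Agent.DaeB
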