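import Pool.Agent.DaeB.Siegel

/-!
# MP_dae5d3_ag, half (B), step 8: the value of a polynomial under a monomial valuation (DB32)
-/

set_option autoImplicit false

namespace Pool.Agent.DaeB

open MvPolynomial

section

variable {R : Type*} [CommRing R] {V : AbsoluteValue R ℝ}

/-- the value of a finite sum is at most the maximum of the values -/
lemma av_sum_le (hV : IsNonarchimedean V) {ι : Type*} (s : Finset ι) (f : ι → R) {b : ℝ}
    (hb : 0 ≤ b) (h : ∀ i ∈ s, V (f i) ≤ b) : V (∑ i ∈ s, f i) ≤ b := by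
  classical
  induction s using Finset.induction_on with
  | empty => simpa using hb
  | insert a s ha ih =>
    rw [Finset.sum_insert ha]
    refine (hV _ _).trans (max_le (h a (Finset.mem_insert_self _ _)) (ih ?_))
    exact fun i hi => h i (Finset.mem_insert_of_mem hi)

/-- strict form -/
lemma av_sum_lt (hV : IsNonarchimedean V) {ι : Type*} (s : Finset ι) (f : ι → R) {b : ℝ}
    (hb : 0 < b) (h : ∀ i ∈ s, V (f i) < b) : V (∑ i ∈ s, f i) < b := by
  classical
  induction s using Finset.induction_on with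
  | empty => simpa using hb
  | insert a s ha ih =>
    rw [Finset.sum_insert ha]
    refine (hV _ _).trans_lt (max_lt (h a (Finset.mem_insert_self _ _)) (ih ?_))
    exact fun i hi => h i (Finset.mem_insert_of_mem hi)

/-- a sum with a unique term of biggest value -/
lemma av_sum_eq (hV : IsNonarchimedean V) {ι : Type*} [DecidableEq ι] (s : Finset ι) (f : ι → R)
    {i₀ : ι} (hi₀ : i₀ ∈ s) (h : ∀ i ∈ s, i ≠ i₀ → V (f i) < V (f i₀)) :
    V (∑ i ∈ s, f i) = V (f i₀) := by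
  rcases s.eq_singleton_or_nontrivial hi₀ with hs | hs
  · rw [hs, Finset.sum_singleton]
  have hpos : 0 < V (f i₀) := by
    obtain ⟨j, hj, hne⟩ := hs.exists_ne i₀
    exact (V.nonneg _).trans_lt (h j hj hne)
  rw [← Finset.add_sum_erase s f hi₀]
  have h1 : V (∑ i ∈ s.erase i₀, f i) < V (f i₀) :=
    av_sum_lt hV _ f hpos fun i hi => h i (Finset.mem_of_mem_erase hi) (Finset.ne_of_mem_erase hi)
  refine le_antisymm ((hV _ _).trans (max_le le_rfl h1.le)) ?_
  by_contra hcon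
  have h2 : f i₀ = (f i₀ + ∑ i ∈ s.erase i₀, f i) - ∑ i ∈ s.erase i₀, f i := by ring
  have h3 : V (f i₀) ≤ max (V (f i₀ + ∑ i ∈ s.erase i₀, f i)) (V (∑ i ∈ s.erase i₀, f i)) := by
    have h4 := hV (f i₀ + ∑ i ∈ s.erase i₀, f i) (-∑ i ∈ s.erase i₀, f i)
    rw [← sub_eq_add_neg, ← h2, V.map_neg] at h4
    exact h4
  rcases le_max_iff.1 h3 with h4 | h4
  · exact hcon h4
  · exact absurd h4 (not_le.2 h1)

/-- if a sum is zero then the biggest value is attained at least twice -/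
lemma av_exists_two (hV : IsNonarchimedean V) {ι : Type*} (s : Finset ι) (f : ι → R)
    (hs : s.Nonempty) (hf : ∀ i ∈ s, f i ≠ 0) (h0 : ∑ i ∈ s, f i = 0) :
    ∃ i ∈ s, ∃ j ∈ s, i ≠ j ∧ V (f i) = V (f j) ∧ ∀ k ∈ s, V (f k) ≤ V (f i) := by
  classical
  obtain ⟨i, hi, hmax⟩ := s.exists_max_image (fun i => V (f i)) hs
  by_contra hcon
  push Not at hcon
  have h1 : ∀ j ∈ s, j ≠ i → V (f j) < V (f i) := by
    intro j hj hne
    refine lt_of_le_of_ne (hmax j hj) fun heq => ?_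
    obtain ⟨k, hk, hlt⟩ := hcon i hi j hj hne.symm heq.symm
    exact absurd (hmax k hk) (not_le.2 hlt)
  have h2 := av_sum_eq hV s f hi h1
  rw [h0, map_zero] at h2
  exact hf i hi (V.eq_zero.1 h2.symm)

end

section

variable {R : Type*} [CommRing R] [Nontrivial R] [Algebra ℂ R] {V : AbsoluteValue R ℝ}

lemma mw_pos {ι : Type*} {σ : ι → ℝ} (hσ : ∀ i, 0 < σ i) (α : ι →₀ ℕ) : 0 < mw σ α := by
  rw [mw, Finsupp.prod]
  exact Finset.prod_pos fun i _ => pow_pos (hσ i) _

lemma log_mw {ι : Type*} [Fintype ι] {σ : ι → ℝ} (hσ : ∀ i, 0 < σ i) (α : ι →₀ ℕ) :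
    Real.log (mw σ α) = ∑ i, (α i : ℝ) * Real.log (σ i) := by
  rw [mw, Finsupp.prod_fintype _ _ fun i => pow_zero _,
    Real.log_prod fun i _ => pow_ne_zero _ (hσ i).ne']
  exact Finset.sum_congr rfl fun i _ => by rw [Real.log_pow]

/-- the value of a monomial -/
lemma av_monomial (hVC : TrivC V) {ι : Type*} {U : ι → R} {σ : ι → ℝ}
    (hU : ∀ i, V (U i) = σ i) (α : ι →₀ ℕ) {c : ℂ} (hc : c ≠ 0) :
    V (aeval U (monomial α c)) = mw σ α := by
  rw [aeval_monomial, map_mul, hVC c hc, one_mul, Finsupp.prod, map_prod, mw, Finsupp.prod]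
  exact Finset.prod_congr rfl fun i _ => by rw [map_pow, hU i]

/-- the value of a polynomial in `U` is attained by one of its monomials -/
lemma Mono.exists_eq (hV : IsNonarchimedean V) (hVC : TrivC V) {ι : Type*} {U : ι → R}
    {σ : ι → ℝ} (hU : Mono V U σ) {G : MvPolynomial ι ℂ} (hG : G ≠ 0) :
    ∃ α ∈ G.support, V (aeval U G) = mw σ α := by
  classical
  have hs : G.support.Nonempty := support_nonempty.2 hG
  obtain ⟨α, hα, hmax⟩ := G.support.exists_max_image (fun α => mw σ α) hs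
  refine ⟨α, hα, le_antisymm ?_ (hU.le G α hα)⟩
  have h1 : aeval U G = ∑ β ∈ G.support, aeval U (monomial β (coeff β G)) := by
    conv_lhs => rw [G.as_sum]
    rw [map_sum]
  rw [h1]
  refine av_sum_le hV _ _ (mw_pos hU.pos α).le fun β hβ => ?_
  rw [av_monomial hVC hU.val β (mem_support_iff.1 hβ)]
  exact hmax β hβ

/-- **The value formula** (step 8 of note 1743). -/
theorem value_formula (hV : IsNonarchimedean V) (hVC : TrivC V) {d : ℕ} {U : Fin d → R}
    {σ : Fin d → ℝ} (hU : Mono V U σ) {G : Polynomial (MvPolynomial (Fin d) ℂ)} (hG : G ≠ 0)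
    {P : R} (hP : P ≠ 0) (h0 : relv U G P = 0) {K E : ℕ} (hK : G.natDegree ≤ K)
    (hE : ∀ k i, degreeOf i (G.coeff k) ≤ E) :
    ∃ (q : ℕ) (β : Fin d → ℤ), 1 ≤ q ∧ q ≤ K ∧ (∀ i, |β i| ≤ (E : ℤ)) ∧
      (q : ℝ) * Real.log (V P) = ∑ i, (β i : ℝ) * Real.log (σ i) := by
  classical
  have hVP : 0 < V P := V.pos hP
  have h1 : ∑ k ∈ G.support, aeval U (G.coeff k) * P ^ k = 0 := by
    rw [← h0, relv, Polynomial.eval₂_eq_sum, Polynomial.sum]
    rfl
  have hα : ∀ k ∈ G.support, ∃ α ∈ (G.coeff k).support, V (aeval U (G.coeff k)) = mw σ α :=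
    fun k hk => hU.exists_eq hV hVC (Polynomial.mem_support_iff.1 hk)
  have hne : ∀ k ∈ G.support, aeval U (G.coeff k) * P ^ k ≠ 0 := by
    intro k hk h2
    obtain ⟨α, -, h3⟩ := hα k hk
    have h4 : V (aeval U (G.coeff k) * P ^ k) = 0 := by rw [h2, map_zero]
    rw [map_mul, map_pow, h3] at h4
    have := mul_pos (mw_pos hU.pos α) (pow_pos hVP k)
    linarith
  obtain ⟨k₁, hk₁, k₂, hk₂, hk, heq, -⟩ := av_exists_two hV G.support
    (fun k => aeval U (G.coeff k) * P ^ k) (Polynomial.support_nonempty.2 hG) hne h1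
  -- the general form for two exponents
  have main : ∀ k ∈ G.support, ∀ l ∈ G.support, k < l →
      V (aeval U (G.coeff k) * P ^ k) = V (aeval U (G.coeff l) * P ^ l) →
      ∃ (q : ℕ) (β : Fin d → ℤ), 1 ≤ q ∧ q ≤ K ∧ (∀ i, |β i| ≤ (E : ℤ)) ∧
        (q : ℝ) * Real.log (V P) = ∑ i, (β i : ℝ) * Real.log (σ i) := by
    intro k hk l hl hkl he
    obtain ⟨α, hα1, hα2⟩ := hα k hk
    obtain ⟨α', hα1', hα2'⟩ := hα l hl
    refine ⟨l - k, fun i => (α i : ℤ) - (α' i : ℤ), by omega, ?_, fun i => ?_, ?_⟩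
    · have := Polynomial.le_natDegree_of_mem_supp l hl
      omega
    · have e1 : α i ≤ E := (degreeOf_le_iff.1 (hE k i)) α hα1
      have e2 : α' i ≤ E := (degreeOf_le_iff.1 (hE l i)) α' hα1'
      change |(α i : ℤ) - (α' i : ℤ)| ≤ (E : ℤ)
      rw [abs_le]
      omega
    · rw [map_mul, map_mul, map_pow, map_pow, hα2, hα2'] at he
      have h2 := congrArg Real.log he
      rw [Real.log_mul (mw_pos hU.pos α).ne' (pow_pos hVP k).ne',
        Real.log_mul (mw_pos hU.pos α').ne' (pow_pos hVP l).ne', log_mw hU.pos, log_mw hU.pos,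
        Real.log_pow, Real.log_pow] at h2
      rw [Nat.cast_sub hkl.le]
      push_cast
      simp only [sub_mul, Finset.sum_sub_distrib]
      linarith
  rcases lt_or_gt_of_ne hk with h | h
  · exact main k₁ hk₁ k₂ hk₂ h heq
  · exact main k₂ hk₂ k₁ hk₁ h heq.symm

/-- **values of polynomials under a monomial valuation**, the form which is used -/
theorem exists_value {d D : ℕ} {V : AbsoluteValue (A d) ℝ} (hV : IsNonarchimedean V)
    (hVC : TrivC V) {U : Fin d → A d} {σ : Fin d → ℝ} (hU : Mono V U σ)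
    (hD : ∀ i, (U i).totalDegree ≤ D) {P : A d} (hP : P ≠ 0) :
    ∃ (q : ℕ) (β : Fin d → ℤ), 1 ≤ q ∧ q ≤ sk d D ∧
      (∀ i, |β i| ≤ ((sk d D * P.totalDegree : ℕ) : ℤ)) ∧
      (q : ℝ) * Real.log (V P) = ∑ i, (β i : ℝ) * Real.log (σ i) := by
  obtain ⟨G, hG, h0, h1, h2⟩ := exists_relation U hD P
  exact value_formula hV hVC hU hG hP h0 h1 h2

end

end Pool.Agent.DaeB
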